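import Mathlib

set_option autoImplicit false

namespace Pool.Agent.V11214.Cont

open Set Topology

/-- the intersection of a nonempty directed family of closed preconnected sets of a compact
Hausdorff space is preconnected -/
theorem isPreconnected_iInter {X : Type*} [TopologicalSpace X] [CompactSpace X] [T2Space X]
    {ι : Type*} [Nonempty ι] {V : ι → Set X} (hV : Directed (· ⊇ ·) V)
    (hcl : ∀ i, IsClosed (V i)) (hpre : ∀ i, IsPreconnected (V i)) :
    IsPreconnected (⋂ i, V i) := by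
  rw [isPreconnected_closed_iff]
  intro t t' ht ht' hsub hnt hnt'
  by_contra hemp
  rw [Set.not_nonempty_iff_eq_empty] at hemp
  have hI : IsClosed (⋂ i, V i) := isClosed_iInter hcl
  have hCc : IsClosed ((⋂ i, V i) ∩ t) := hI.inter ht
  have hDc : IsClosed ((⋂ i, V i) ∩ t') := hI.inter ht'
  have hdisj : Disjoint ((⋂ i, V i) ∩ t) ((⋂ i, V i) ∩ t') := by
    rw [Set.disjoint_iff_inter_eq_empty, Set.eq_empty_iff_forall_notMem]
    rintro x ⟨hx1, hx2⟩
    have : x ∈ (⋂ i, V i) ∩ (t ∩ t') := ⟨hx1.1, hx1.2, hx2.2⟩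
    rw [hemp] at this
    exact this
  obtain ⟨U, W, hU, hW, hCU, hDW, hUW⟩ := normal_separation hCc hDc hdisj
  have hsubUW : ∀ x ∈ ⋂ i, V i, U ∪ W ∈ 𝓝 x := by
    intro x hx
    apply (hU.union hW).mem_nhds
    rcases hsub hx with h | h
    · exact Or.inl (hCU ⟨hx, h⟩)
    · exact Or.inr (hDW ⟨hx, h⟩)
  obtain ⟨i, hi⟩ := exists_subset_nhds_of_isCompact' hV (fun i => (hcl i).isCompact) hcl hsubUW
  obtain ⟨x, hx, hxt⟩ := hnt
  obtain ⟨y, hy, hyt⟩ := hnt'
  obtain ⟨z, -, hzU, hzW⟩ := hpre i U W hU hW hi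
    ⟨x, mem_iInter.mp hx i, hCU ⟨hx, hxt⟩⟩ ⟨y, mem_iInter.mp hy i, hDW ⟨hy, hyt⟩⟩
  exact Set.disjoint_left.mp hUW hzU hzW

/-- version for chains -/
theorem isPreconnected_sInter_chain {X : Type*} [TopologicalSpace X] [CompactSpace X] [T2Space X]
    {c : Set (Set X)} (hne : c.Nonempty) (hc : IsChain (· ⊆ ·) c)
    (hcl : ∀ s ∈ c, IsClosed s) (hpre : ∀ s ∈ c, IsPreconnected s) :
    IsPreconnected (⋂₀ c) := by
  rw [sInter_eq_iInter]
  have : Nonempty c := hne.to_subtype
  apply isPreconnected_iInter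
  · rintro ⟨s, hs⟩ ⟨t, ht⟩
    rcases hc.total hs ht with h | h
    · exact ⟨⟨s, hs⟩, subset_rfl, h⟩
    · exact ⟨⟨t, ht⟩, h, subset_rfl⟩
  · rintro ⟨s, hs⟩; exact hcl s hs
  · rintro ⟨s, hs⟩; exact hpre s hs

/-- two points in different composants -/
theorem exists_other_composant {X : Type*} [TopologicalSpace X] [CompactSpace X] [T2Space X]
    [SecondCountableTopology X]
    (h : ∀ C : Set X, IsClosed C → IsPreconnected C → (interior C).Nonempty → C = univ) (p : X) :
    ∃ q : X, ∀ C : Set X, IsClosed C → IsPreconnected C → p ∈ C → q ∈ C → C = univ := by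
  classical
  have : Nonempty X := ⟨p⟩
  let B := TopologicalSpace.countableBasis X
  let I := {V : Set X // V ∈ B ∧ V.Nonempty}
  have hcount : Countable I := by
    have : Countable B := (TopologicalSpace.countable_countableBasis X).to_subtype
    exact Function.Injective.countable (f := fun v : I => (⟨v.1, v.2.1⟩ : B))
      (fun a b hab => Subtype.ext (congrArg (fun w : B => w.1) hab))
  let D : I → Set X := fun V => closure (connectedComponentIn V.1ᶜ p)
  have hD1 : ∀ V : I, D V ⊆ V.1ᶜ := fun V => closure_minimal (connectedComponentIn_subset _ _)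
    ((TopologicalSpace.isBasis_countableBasis X).isOpen V.2.1).isClosed_compl
  have hD2 : ∀ V : I, interior (D V) = ∅ := by
    intro V
    by_contra hne
    have h1 := h (D V) isClosed_closure isPreconnected_connectedComponentIn.closure
      (nonempty_iff_ne_empty.mpr hne)
    obtain ⟨x, hx⟩ := V.2.2
    have := hD1 V (by rw [h1]; trivial : x ∈ D V)
    exact this hx
  have hdense : Dense (⋂ V : I, (D V)ᶜ) := by
    apply dense_iInter_of_isOpen
    · intro V; exact isClosed_closure.isOpen_compl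
    · intro V
      rw [← interior_eq_empty_iff_dense_compl]
      exact hD2 V
  obtain ⟨q, hq⟩ := hdense.nonempty
  refine ⟨q, fun C hC hCp hpC hqC => ?_⟩
  by_contra hne
  obtain ⟨x, hx⟩ := (nonempty_compl.mpr hne)
  obtain ⟨V, hV, hxV, hVC⟩ :=
    (TopologicalSpace.isBasis_countableBasis X).exists_subset_of_mem_open hx hC.isOpen_compl
  have h1 : C ⊆ Vᶜ := fun y hy hyV => hVC hyV hy
  have h2 : C ⊆ connectedComponentIn Vᶜ p := hCp.subset_connectedComponentIn hpC h1
  exact (mem_iInter.mp hq ⟨V, hV, ⟨x, hxV⟩⟩) (subset_closure (h2 hqC))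

/-- the intersection of a nonempty chain of closed sets each mapping onto `X` maps onto `X` -/
theorem image_sInter_chain {Z X : Type*} [TopologicalSpace Z] [CompactSpace Z] [T2Space Z]
    [TopologicalSpace X] [T1Space X] {f : Z → X} (hf : Continuous f)
    {c : Set (Set Z)} (hne : c.Nonempty) (hc : IsChain (· ⊆ ·) c)
    (hcl : ∀ s ∈ c, IsClosed s) (him : ∀ s ∈ c, f '' s = univ) :
    f '' (⋂₀ c) = univ := by
  apply eq_univ_of_forall
  intro x
  have : Nonempty c := hne.to_subtype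
  have h := IsCompact.nonempty_iInter_of_directed_nonempty_isCompact_isClosed
    (fun s : c => s.1 ∩ f ⁻¹' {x}) ?_ ?_ ?_ ?_
  · obtain ⟨z, hz⟩ := h
    rw [mem_iInter] at hz
    refine ⟨z, ?_, ?_⟩
    · intro s hs
      exact (hz ⟨s, hs⟩).1
    · obtain ⟨s, hs⟩ := hne
      exact (hz ⟨s, hs⟩).2
  · rintro ⟨s, hs⟩ ⟨t, ht⟩
    rcases hc.total hs ht with h | h
    · exact ⟨⟨s, hs⟩, subset_rfl, inter_subset_inter_left _ h⟩
    · exact ⟨⟨t, ht⟩, inter_subset_inter_left _ h, subset_rfl⟩
  · rintro ⟨s, hs⟩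
    have : x ∈ f '' s := by rw [him s hs]; trivial
    obtain ⟨z, hz, hzx⟩ := this
    exact ⟨z, hz, hzx⟩
  · rintro ⟨s, hs⟩
    exact ((hcl s hs).inter (isClosed_singleton.preimage hf)).isCompact
  · rintro ⟨s, hs⟩
    exact (hcl s hs).inter (isClosed_singleton.preimage hf)

end Pool.Agent.V11214.Cont
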