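import Mathlib
import Pool.Agent.V11214.Cont

set_option autoImplicit false

namespace Pool.Agent.V11214.Hyper

open Set Topology TopologicalSpace

/-- a clopen set between a component and an open set -/
theorem exists_isClopen_of_component {K : Type*} [TopologicalSpace K] [CompactSpace K] [T2Space K]
    (d : K) {V : Set K} (hV : IsOpen V) (h : connectedComponent d ⊆ V) :
    ∃ Q, IsClopen Q ∧ d ∈ Q ∧ Q ⊆ V := by
  let ι := {s : Set K // IsClopen s ∧ d ∈ s}
  have : Nonempty ι := ⟨⟨univ, isClopen_univ, mem_univ _⟩⟩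
  have hdir : Directed (· ⊇ ·) (fun s : ι => s.1) := by
    rintro ⟨s, hs, hds⟩ ⟨t, ht, hdt⟩
    exact ⟨⟨s ∩ t, hs.inter ht, hds, hdt⟩, inter_subset_left, inter_subset_right⟩
  have hU : ∀ x ∈ ⋂ s : ι, s.1, V ∈ 𝓝 x := by
    intro x hx
    rw [connectedComponent_eq_iInter_isClopen] at h
    exact hV.mem_nhds (h hx)
  obtain ⟨⟨s, hs, hds⟩, hsub⟩ := exists_subset_nhds_of_isCompact' hdir
    (fun s => s.2.1.isClosed.isCompact) (fun s => s.2.1.isClosed) hU
  exact ⟨s, hs, hds, hsub⟩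

/-- boundary bumping -/
theorem bump {X : Type*} [TopologicalSpace X] [CompactSpace X] [T2Space X] {B D U : Set X}
    (hB : IsClosed B) (hBc : IsPreconnected B) (hD : IsClosed D) (hDc : IsConnected D)
    (hDB : D ⊆ B) (hne : D ≠ B) (hU : IsOpen U) (hDU : D ⊆ U) :
    ∃ D' : Set X, IsClosed D' ∧ IsConnected D' ∧ D ⊆ D' ∧ D' ≠ D ∧ D' ⊆ B ∧ D' ⊆ U := by
  obtain ⟨V, hV, hDV, hVU⟩ := normal_exists_closure_subset hD hU hDU
  obtain ⟨d, hd⟩ := hDc.nonempty
  let K := B ∩ closure V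
  have hK : IsClosed K := hB.inter isClosed_closure
  have hDK : D ⊆ K := fun x hx => ⟨hDB hx, subset_closure (hDV hx)⟩
  have hKc : CompactSpace K := isCompact_iff_compactSpace.mp hK.isCompact
  have hdK : d ∈ K := hDK hd
  have hcl : IsClosed (connectedComponentIn K d) := by
    rw [connectedComponentIn_eq_image hdK]
    exact (hK.isClosedEmbedding_subtypeVal).isClosedMap _ isClosed_connectedComponent
  refine ⟨connectedComponentIn K d, hcl, isConnected_connectedComponentIn_iff.mpr hdK,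
    hDc.isPreconnected.subset_connectedComponentIn hd hDK, ?_,
    (connectedComponentIn_subset _ _).trans inter_subset_left,
    (connectedComponentIn_subset _ _).trans (inter_subset_right.trans hVU)⟩
  intro hEq
  have hcompV : connectedComponent (⟨d, hdK⟩ : K) ⊆ (Subtype.val ⁻¹' V : Set K) := by
    intro x hx
    have : x.1 ∈ connectedComponentIn K d := by
      rw [connectedComponentIn_eq_image hdK]
      exact ⟨x, hx, rfl⟩
    rw [hEq] at this
    exact hDV this
  obtain ⟨Q, hQ, hdQ, hQV⟩ := exists_isClopen_of_component (⟨d, hdK⟩ : K)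
    (hV.preimage continuous_subtype_val) hcompV
  -- Q is clopen in B
  have hQcl : IsClosed (Subtype.val '' Q : Set X) :=
    (hK.isClosedEmbedding_subtypeVal).isClosedMap _ hQ.isClosed
  obtain ⟨O, hO, hOQ⟩ := isOpen_induced_iff.mp hQ.isOpen
  have hBQ : B ⊆ Subtype.val '' Q := by
    have h1 : B ⊆ (O ∩ V) ∪ (Subtype.val '' Q)ᶜ := by
      intro x hx
      by_cases hxQ : x ∈ (Subtype.val '' Q : Set X)
      · left
        obtain ⟨y, hy, rfl⟩ := hxQ
        refine ⟨?_, hQV hy⟩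
        rw [← hOQ] at hy
        exact hy
      · right; exact hxQ
    by_contra hcon
    rw [Set.not_subset] at hcon
    obtain ⟨x, hxB, hxQ⟩ := hcon
    have hdO : d ∈ O := by
      have : (⟨d, hdK⟩ : K) ∈ Subtype.val ⁻¹' O := by rw [hOQ]; exact hdQ
      exact this
    obtain ⟨z, hzB, hz1, hz2⟩ := hBc (O ∩ V) (Subtype.val '' Q)ᶜ (hO.inter hV)
      hQcl.isOpen_compl h1 ⟨d, hDB hd, hdO, hDV hd⟩ ⟨x, hxB, hxQ⟩
    apply hz2
    refine ⟨⟨z, hzB, subset_closure hz1.2⟩, ?_, rfl⟩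
    rw [← hOQ]
    exact hz1.1
  have hBK : B ⊆ K := by
    intro x hx
    obtain ⟨y, -, rfl⟩ := hBQ hx
    exact y.2
  have : B ⊆ connectedComponentIn K d :=
    hBc.subset_connectedComponentIn (hDB hd) hBK
  rw [hEq] at this
  exact hne (subset_antisymm hDB this)

/-- the hyperspace of subcontinua -/
abbrev CX (X : Type*) [TopologicalSpace X] : Type _ :=
  {A : NonemptyCompacts X // IsConnected (A : Set X)}

section

variable {X : Type*} [TopologicalSpace X]

theorem isClosed_connected [T2Space X] :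
    IsClosed {A : NonemptyCompacts X | IsConnected (A : Set X)} := by
  rw [← isOpen_compl_iff, isOpen_iff_mem_nhds]
  intro A hA
  have hA' : ¬ IsPreconnected (A : Set X) := fun h => hA ⟨A.nonempty, h⟩
  rw [isPreconnected_closed_iff] at hA'
  push Not at hA'
  obtain ⟨t, t', ht, ht', hsub, hnt, hnt', hemp⟩ := hA'
  have hC : IsCompact ((A : Set X) ∩ t) := A.isCompact.inter_right ht
  have hC' : IsCompact ((A : Set X) ∩ t') := A.isCompact.inter_right ht'
  have hdisj : Disjoint ((A : Set X) ∩ t) ((A : Set X) ∩ t') := by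
    rw [Set.disjoint_iff_inter_eq_empty, Set.eq_empty_iff_forall_notMem]
    rintro x ⟨hx1, hx2⟩
    have : x ∈ (A : Set X) ∩ (t ∩ t') := ⟨hx1.1, hx1.2, hx2.2⟩
    rw [hemp] at this
    exact this
  obtain ⟨U, V, hU, hV, hCU, hCV, hUV⟩ := SeparatedNhds.of_isCompact_isCompact hC hC' hdisj
  have hN : IsOpen ({B : NonemptyCompacts X | (B : Set X) ⊆ U ∪ V} ∩
      {B : NonemptyCompacts X | ((B : Set X) ∩ U).Nonempty} ∩
      {B : NonemptyCompacts X | ((B : Set X) ∩ V).Nonempty}) :=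
    ((NonemptyCompacts.isOpen_subsets_of_isOpen (hU.union hV)).inter
      (NonemptyCompacts.isOpen_inter_nonempty_of_isOpen hU)).inter
      (NonemptyCompacts.isOpen_inter_nonempty_of_isOpen hV)
  refine Filter.mem_of_superset (hN.mem_nhds ⟨⟨?_, ?_⟩, ?_⟩) ?_
  · intro x hx
    rcases hsub hx with h | h
    · exact Or.inl (hCU ⟨hx, h⟩)
    · exact Or.inr (hCV ⟨hx, h⟩)
  · obtain ⟨x, hx⟩ := hnt
    exact ⟨x, hx.1, hCU hx⟩
  · obtain ⟨x, hx⟩ := hnt'
    exact ⟨x, hx.1, hCV hx⟩
  · rintro B ⟨⟨hB1, hB2⟩, hB3⟩ hB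
    obtain ⟨x, -, hxU, hxV⟩ := hB.isPreconnected U V hU hV hB1 hB2 hB3
    exact Set.disjoint_left.mp hUV hxU hxV

instance [T2Space X] [CompactSpace X] : CompactSpace (CX X) :=
  isCompact_iff_compactSpace.mp (isClosed_connected (X := X)).isCompact

theorem isClosed_Ici [T2Space X] (A : NonemptyCompacts X) :
    IsClosed {B : NonemptyCompacts X | (A : Set X) ⊆ B} := by
  have : {B : NonemptyCompacts X | (A : Set X) ⊆ B} =
      ⋂ a ∈ (A : Set X), {B : NonemptyCompacts X | ((B : Set X) ∩ {a}).Nonempty} := by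
    ext B
    simp only [mem_ofPred_eq, mem_iInter, inter_singleton_nonempty]
    rfl
  rw [this]
  exact isClosed_biInter fun a _ =>
    NonemptyCompacts.isClosed_inter_nonempty_of_isClosed isClosed_singleton

theorem isClosed_Iic [T2Space X] (A : NonemptyCompacts X) :
    IsClosed {B : NonemptyCompacts X | (B : Set X) ⊆ A} :=
  NonemptyCompacts.isClosed_subsets_of_isClosed A.isCompact.isClosed

/-- neighbourhoods of `D` contain all compacta `D'` between `D` and some open set -/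
theorem exists_open_above [T2Space X] (D : NonemptyCompacts X) {O : Set (NonemptyCompacts X)}
    (hO : IsOpen O) (hD : D ∈ O) : ∃ U : Set X, IsOpen U ∧ (D : Set X) ⊆ U ∧
      ∀ D' : NonemptyCompacts X, (D : Set X) ⊆ D' → (D' : Set X) ⊆ U → D' ∈ O := by
  obtain ⟨_, ⟨u, ⟨-, -, hu⟩, rfl⟩, ⟨h1, h2⟩, h3⟩ :=
    NonemptyCompacts.isTopologicalBasis.exists_subset_of_mem_open hD hO
  refine ⟨⋃₀ u, isOpen_sUnion hu, h1, fun D' hDD' hD'U => h3 ⟨hD'U, fun U hU => ?_⟩⟩
  exact (h2 U hU).mono (inter_subset_inter_left _ hDD')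

/-- the order interval in the hyperspace of subcontinua is connected -/
theorem isPreconnected_Icc [T2Space X] [CompactSpace X] (A B : CX X) :
    IsPreconnected {C : CX X | (A.1 : Set X) ⊆ C.1 ∧ (C.1 : Set X) ⊆ B.1} := by
  set I : Set (CX X) := {C : CX X | (A.1 : Set X) ⊆ C.1 ∧ (C.1 : Set X) ⊆ B.1} with hI
  have hIcl : IsClosed I :=
    ((isClosed_Ici A.1).preimage continuous_subtype_val).inter
      ((isClosed_Iic B.1).preimage continuous_subtype_val)
  -- every closed relatively clopen piece that is nonempty contains B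
  have key : ∀ t t' : Set (CX X), IsClosed t → IsClosed t' → I ⊆ t ∪ t' →
      I ∩ (t ∩ t') = ∅ → (I ∩ t).Nonempty → B ∈ t := by
    intro t t' ht ht' hsub hemp ⟨C, hCI, hCt⟩
    -- maximal element
    obtain ⟨D, hCD, hD⟩ : ∃ D ∈ I ∩ t, ∀ E ∈ I ∩ t, (D.1 : Set X) ⊆ E.1 → E = D := by
      have hz := zorn_le_nonempty₀ (I ∩ t : Set (CX X)) (by
        intro c hc hchain y hy
        have hne : Nonempty c := ⟨⟨y, hy⟩⟩
        have hn := IsCompact.nonempty_iInter_of_directed_nonempty_isCompact_isClosed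
          (fun s : c => (I ∩ t) ∩ {E : CX X | (s.1.1 : Set X) ⊆ E.1}) ?_ ?_ ?_ ?_
        · obtain ⟨E, hE⟩ := hn
          rw [mem_iInter] at hE
          exact ⟨E, (hE ⟨y, hy⟩).1, fun z hz => (hE ⟨z, hz⟩).2⟩
        · rintro ⟨s, hs⟩ ⟨r, hr⟩
          rcases hchain.total hs hr with h | h
          · exact ⟨⟨r, hr⟩, fun E hE => ⟨hE.1, Set.Subset.trans
              (show (s.1 : Set X) ⊆ r.1 from h) hE.2⟩, Set.Subset.refl _⟩
          · exact ⟨⟨s, hs⟩, Set.Subset.refl _, fun E hE => ⟨hE.1, Set.Subset.trans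
              (show (r.1 : Set X) ⊆ s.1 from h) hE.2⟩⟩
        · rintro ⟨s, hs⟩
          exact ⟨s, hc hs, Set.Subset.refl (s.1 : Set X)⟩
        · rintro ⟨s, hs⟩
          exact ((hIcl.inter ht).inter
            ((isClosed_Ici s.1).preimage continuous_subtype_val)).isCompact
        · rintro ⟨s, hs⟩
          exact ((hIcl.inter ht).inter
            ((isClosed_Ici s.1).preimage continuous_subtype_val))) C ⟨hCI, hCt⟩
      obtain ⟨D, -, hD⟩ := hz
      refine ⟨D, hD.1, fun E hE hDE => ?_⟩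
      exact (le_antisymm (hD.2 hE hDE) hDE)
    by_contra hBt
    have hDB : D ≠ B := by
      rintro rfl
      exact hBt hCD.2
    have hDt' : D ∉ t' := by
      intro h
      have : D ∈ I ∩ (t ∩ t') := ⟨hCD.1, hCD.2, h⟩
      rw [hemp] at this
      exact this
    obtain ⟨O, hO, hOt⟩ := isOpen_induced_iff.mp ht'.isOpen_compl
    obtain ⟨U, hU, hDU, hUO⟩ := exists_open_above D.1 hO (by
      have : D ∈ Subtype.val ⁻¹' O := by rw [hOt]; exact hDt'
      exact this)
    obtain ⟨D', hD'1, hD'2, hD'3, hD'4, hD'5, hD'6⟩ := bump B.1.isCompact.isClosed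
      B.2.isPreconnected D.1.isCompact.isClosed D.2 hCD.1.2
      (fun h => hDB (Subtype.ext (NonemptyCompacts.ext h))) hU hDU
    let E : CX X := ⟨⟨⟨D', hD'1.isCompact⟩, hD'2.nonempty⟩, hD'2⟩
    have hEI : E ∈ I := ⟨hCD.1.1.trans hD'3, hD'5⟩
    have hEt' : E ∉ t' := by
      have : E ∈ Subtype.val ⁻¹' O := hUO E.1 hD'3 hD'6
      rw [hOt] at this
      exact this
    have hEt : E ∈ t := (hsub hEI).resolve_right hEt'
    have := hD E ⟨hEI, hEt⟩ hD'3
    apply hD'4
    exact congrArg (fun F : CX X => (F.1 : Set X)) this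
  rw [isPreconnected_closed_iff]
  intro t t' ht ht' hsub hnt hnt'
  by_contra hemp
  rw [Set.not_nonempty_iff_eq_empty] at hemp
  have h1 := key t t' ht ht' hsub hemp hnt
  have h2 := key t' t ht' ht (by rwa [union_comm]) (by rwa [inter_comm t' t]) hnt'
  obtain ⟨C, hC, -⟩ := hnt
  have : B ∈ I ∩ (t ∩ t') := ⟨⟨hC.1.trans hC.2, subset_rfl⟩, h1, h2⟩
  rw [hemp] at this
  exact this

/-- an upward closed family of subcontinua is connected -/
theorem isPreconnected_of_upper [T2Space X] [CompactSpace X] (T : CX X)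
    (hT : ∀ A : CX X, (A.1 : Set X) ⊆ T.1) {N : Set (CX X)}
    (hN : ∀ A ∈ N, ∀ B : CX X, (A.1 : Set X) ⊆ B.1 → B ∈ N) : IsPreconnected N := by
  apply isPreconnected_of_forall T
  intro A hA
  refine ⟨{C : CX X | (A.1 : Set X) ⊆ C.1 ∧ (C.1 : Set X) ⊆ T.1}, ?_, ⟨hT A, subset_rfl⟩,
    ⟨subset_rfl, hT A⟩, isPreconnected_Icc A T⟩
  rintro C ⟨hC, -⟩
  exact hN A hA C hC

end

end Pool.Agent.V11214.Hyper
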