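import Mathlib
import Pool.Agent.V11214.Hyper

set_option autoImplicit false

namespace Pool.Agent.V11214.HSDef

open Set Topology TopologicalSpace

/-- The hyperspace `C(X)` of nonempty compact connected subsets of `X`, as a subspace of the
space of nonempty compact subsets (whose topology is the one of the Hausdorff metric). -/
abbrev CX (X : Type*) [TopologicalSpace X] : Type _ :=
  {A : NonemptyCompacts X // IsConnected (A : Set X)}

/-- The equivalence relation on `C(X)` which identifies all members containing `p`. -/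
def collapse (X : Type*) [TopologicalSpace X] (p : X) : Setoid (CX X) where
  r A B := A = B ∨ (p ∈ A.1 ∧ p ∈ B.1)
  iseqv :=
    { refl := fun A => Or.inl rfl
      symm := fun {A B} h => by
        rcases h with h | h
        · exact Or.inl h.symm
        · exact Or.inr ⟨h.2, h.1⟩
      trans := fun {A B C} h1 h2 => by
        rcases h1 with h1 | h1
        · subst h1; exact h2
        · rcases h2 with h2 | h2
          · subst h2; exact Or.inr h1
          · exact Or.inr ⟨h1.1, h2.2⟩ }

/-- The quotient space `HS(p,X)` of `C(X)`, with the quotient topology. -/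
def HS (X : Type*) [TopologicalSpace X] (p : X) : Type _ := Quotient (collapse X p)

instance (X : Type*) [TopologicalSpace X] (p : X) : TopologicalSpace (HS X p) :=
  inferInstanceAs (TopologicalSpace (Quotient (collapse X p)))

/-- `Y` is aposyndetic at `x` with respect to `y`. -/
def AposyndeticAt (Y : Type*) [TopologicalSpace Y] (x y : Y) : Prop :=
  ∃ M : Set Y, IsCompact M ∧ IsConnected M ∧ x ∈ interior M ∧ y ∉ M

/-- `Y` is aposyndetic. -/
def Aposyndetic (Y : Type*) [TopologicalSpace Y] : Prop :=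
  ∀ x y : Y, x ≠ y → AposyndeticAt Y x y

/-- `Y` is semi-aposyndetic. -/
def SemiAposyndetic (Y : Type*) [TopologicalSpace Y] : Prop :=
  ∀ x y : Y, x ≠ y → AposyndeticAt Y x y ∨ AposyndeticAt Y y x

section

variable {X : Type*} [TopologicalSpace X] {p : X}

/-- the quotient map -/
def mk (p : X) (A : CX X) : HS X p := Quotient.mk (collapse X p) A

theorem mk_cont : Continuous (mk p) := continuous_quot_mk

theorem mk_surj : Function.Surjective (mk p) := Quotient.exists_rep

theorem mk_eq {A B : CX X} : mk p A = mk p B ↔ A = B ∨ (p ∈ A.1 ∧ p ∈ B.1) :=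
  Quotient.eq (r := collapse X p)

theorem isOpen_HS {O : Set (HS X p)} : IsOpen O ↔ IsOpen (mk p ⁻¹' O) := Iff.rfl

/-- images of saturated open sets are open -/
theorem isOpen_image {O : Set (CX X)} (hO : IsOpen O)
    (hsat : ∀ A B : CX X, p ∈ A.1 → p ∈ B.1 → A ∈ O → B ∈ O) : IsOpen (mk p '' O) := by
  rw [isOpen_HS]
  convert hO using 1
  ext B
  constructor
  · rintro ⟨A, hA, h⟩
    rcases mk_eq.mp h with h | h
    · rw [← h]; exact hA
    · exact hsat A B h.1 h.2 hA
  · intro h; exact ⟨B, h, rfl⟩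

theorem isOpen_notMem [T1Space X] (p : X) : IsOpen {C : CX X | p ∉ C.1} := by
  have : {C : CX X | p ∉ C.1} = Subtype.val ⁻¹' {K : NonemptyCompacts X | (K : Set X) ⊆ {p}ᶜ} := by
    ext C
    simp only [mem_preimage, mem_ofPred_eq, subset_compl_singleton_iff]
    rfl
  rw [this]
  exact (NonemptyCompacts.isOpen_subsets_of_isOpen isOpen_compl_singleton).preimage
    continuous_subtype_val

theorem apos_aux [CompactSpace X] [T2Space X] [ConnectedSpace X] {A B : CX X} {z : X}
    (hzA : z ∈ A.1) (hzB : z ∉ B.1) (hpB : p ∉ B.1) (h : z = p ∨ p ∉ A.1) :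
    AposyndeticAt (HS X p) (mk p A) (mk p B) := by
  have hBn : (B.1 : Set X)ᶜ ∈ 𝓝 z := B.1.isCompact.isClosed.isOpen_compl.mem_nhds hzB
  obtain ⟨V, hV, hzV, hVB⟩ : ∃ V : Set X, IsOpen V ∧ z ∈ V ∧ closure V ⊆ (B.1 : Set X)ᶜ := by
    obtain ⟨F, ⟨hF1, hF2⟩, hF3⟩ := (closed_nhds_basis z).mem_iff.mp hBn
    exact ⟨interior F, isOpen_interior, mem_interior_iff_mem_nhds.mpr hF1,
      (closure_minimal interior_subset hF2).trans hF3⟩
  let T : CX X := ⟨⟨⟨univ, isCompact_univ⟩, univ_nonempty⟩, isConnected_univ⟩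
  let N : Set (CX X) := {C | ((C.1 : Set X) ∩ closure V).Nonempty}
  have hNcl : IsClosed N := (NonemptyCompacts.isClosed_inter_nonempty_of_isClosed
    isClosed_closure).preimage continuous_subtype_val
  have hNpre : IsPreconnected N :=
    Hyper.isPreconnected_of_upper T (fun A => subset_univ _)
      (fun C hC D hCD => hC.mono (inter_subset_inter_left _ hCD))
  have hAN : A ∈ N := ⟨z, hzA, subset_closure hzV⟩
  refine ⟨mk p '' N, hNcl.isCompact.image mk_cont, ⟨⟨_, A, hAN, rfl⟩,
    hNpre.image _ mk_cont.continuousOn⟩, ?_, ?_⟩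
  · let O : Set (CX X) := {C | ((C.1 : Set X) ∩ V).Nonempty} ∩ {C | z = p ∨ p ∉ C.1}
    have hO : IsOpen O := by
      refine IsOpen.inter ((NonemptyCompacts.isOpen_inter_nonempty_of_isOpen hV).preimage
        continuous_subtype_val) ?_
      by_cases hz : z = p
      · have : {C : CX X | z = p ∨ p ∉ C.1} = univ := by
          ext C; simp [hz]
        rw [this]; exact isOpen_univ
      · have : {C : CX X | z = p ∨ p ∉ C.1} = {C : CX X | p ∉ C.1} := by
          ext C; simp [hz]
        rw [this]; exact isOpen_notMem p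
    have hsat : ∀ A B : CX X, p ∈ A.1 → p ∈ B.1 → A ∈ O → B ∈ O := by
      rintro C D hC hD ⟨h1, h2⟩
      rcases h2 with h2 | h2
      · exact ⟨⟨p, hD, h2 ▸ hzV⟩, Or.inl h2⟩
      · exact absurd hC h2
    refine interior_maximal (t := mk p '' O) ?_ (isOpen_image hO hsat) ⟨A, ⟨⟨z, hzA, hzV⟩, h⟩, rfl⟩
    apply image_mono
    rintro C ⟨h1, -⟩
    exact h1.mono (inter_subset_inter_right _ subset_closure)
  · rintro ⟨C, hC, hCB⟩
    rcases mk_eq.mp hCB with h1 | h1
    · subst h1
      obtain ⟨x, hx1, hx2⟩ := hC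
      exact hVB hx2 hx1
    · exact hpB h1.2

theorem semi [CompactSpace X] [T2Space X] [ConnectedSpace X] (p : X) :
    SemiAposyndetic (HS X p) := by
  intro x y hxy
  obtain ⟨A, rfl⟩ := mk_surj x
  obtain ⟨B, rfl⟩ := mk_surj y
  by_cases hA : p ∈ A.1
  · have hB : p ∉ B.1 := fun hB => hxy (mk_eq.mpr (Or.inr ⟨hA, hB⟩))
    exact Or.inl (apos_aux hA hB hB (Or.inl rfl))
  by_cases hB : p ∈ B.1
  · exact Or.inr (apos_aux hB hA hA (Or.inl rfl))
  have hAB : A ≠ B := fun h => hxy (by rw [h])
  by_cases hsub : (A.1 : Set X) ⊆ B.1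
  · have : ¬ (B.1 : Set X) ⊆ A.1 := by
      intro h
      exact hAB (Subtype.ext (NonemptyCompacts.ext (subset_antisymm hsub h)))
    obtain ⟨z, hzB, hzA⟩ := Set.not_subset.mp this
    exact Or.inr (apos_aux hzB hzA hA (Or.inr hB))
  · obtain ⟨z, hzA, hzB⟩ := Set.not_subset.mp hsub
    exact Or.inl (apos_aux hzA hzB hB (Or.inr hA))

end

section

variable {X : Type*} [MetricSpace X] {p : X}

/-- the singleton as a member of `C(X)` -/
def sing (a : X) : CX X := ⟨{a}, by
  rw [NonemptyCompacts.coe_singleton]; exact isConnected_singleton⟩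

theorem mem_sing (a x : X) : x ∈ (sing a).1 ↔ x = a := by
  unfold sing; simp

theorem sing_cont : Continuous (sing (X := X)) :=
  Continuous.subtype_mk NonemptyCompacts.continuous_singleton _

/-- if `HS(p,X)` is aposyndetic at `{a}` with respect to the collapsed point, then
there is a closed connected set having `a` in its interior and missing `p` -/
theorem apos_down {a : X} (h : AposyndeticAt (HS X p) (mk p (sing a)) (mk p (sing p))) :
    ∃ W : Set X, IsClosed W ∧ IsPreconnected W ∧ a ∈ interior W ∧ p ∉ W := by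
  obtain ⟨M, hM, hMc, haM, hpM⟩ := h
  let N : Set (CX X) := mk p ⁻¹' M
  have hpN : ∀ C ∈ N, p ∉ C.1 := by
    intro C hC hp
    apply hpM
    have : mk p C = mk p (sing p) := mk_eq.mpr (Or.inr ⟨hp, (mem_sing p p).mpr rfl⟩)
    rw [← this]
    exact hC
  let O : ℕ → Set (CX X) := fun n =>
    Subtype.val ⁻¹' {K : NonemptyCompacts X | (K : Set X) ⊆ (Metric.closedBall p (1 / (n + 1)))ᶜ}
  have hpO : ∀ n, ∀ C ∈ O n, p ∉ C.1 := by
    intro n C hC hp
    exact hC hp (Metric.mem_closedBall_self (by positivity))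
  have hO : ∀ n, IsOpen (O n) := fun n =>
    (NonemptyCompacts.isOpen_subsets_of_isOpen Metric.isClosed_closedBall.isOpen_compl).preimage
      continuous_subtype_val
  have hP : ∀ n, IsOpen (mk p '' O n) := fun n =>
    isOpen_image (hO n) (fun A B hA hB hAO => absurd hA (hpO n A hAO))
  have hmono : Monotone (fun n => mk p '' O n) := by
    intro m n hmn
    apply image_mono
    intro C hC x hx hx'
    apply hC hx
    apply Metric.closedBall_subset_closedBall _ hx'
    apply one_div_le_one_div_of_le (by positivity)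
    have : (m : ℝ) ≤ n := by exact_mod_cast hmn
    linarith
  have hcov : M ⊆ ⋃ n, mk p '' O n := by
    intro y hy
    obtain ⟨C, rfl⟩ := mk_surj y
    have hpC : p ∈ (C.1 : Set X)ᶜ := hpN C hy
    obtain ⟨ε, hε, hεC⟩ := Metric.isOpen_iff.mp C.1.isCompact.isClosed.isOpen_compl p hpC
    obtain ⟨n, hn⟩ := exists_nat_one_div_lt hε
    rw [mem_iUnion]
    refine ⟨n, C, ?_, rfl⟩
    intro x hx hx'
    have : x ∈ Metric.ball p ε := Metric.closedBall_subset_ball hn hx'
    exact hεC this hx
  obtain ⟨n, hn⟩ := hM.elim_directed_cover _ hP hcov hmono.directed_le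
  have hNO : N ⊆ O n := by
    intro C hC
    obtain ⟨D, hD, hDC⟩ := hn hC
    rcases mk_eq.mp hDC with h1 | h1
    · rw [← h1]; exact hD
    · exact absurd h1.1 (hpO n D hD)
  have hNpre : IsPreconnected N := by
    intro U V hU hV hcovN hNU hNV
    have hU' : IsOpen (mk p '' (U ∩ {C : CX X | p ∉ C.1})) :=
      isOpen_image (hU.inter (isOpen_notMem p)) (fun A B hA hB hAO => absurd hA hAO.2)
    have hV' : IsOpen (mk p '' (V ∩ {C : CX X | p ∉ C.1})) :=
      isOpen_image (hV.inter (isOpen_notMem p)) (fun A B hA hB hAO => absurd hA hAO.2)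
    obtain ⟨CU, hCU, hCU'⟩ := hNU
    obtain ⟨CV, hCV, hCV'⟩ := hNV
    obtain ⟨y, hyM, ⟨C, hC, hCy⟩, ⟨D, hD, hDy⟩⟩ := hMc.isPreconnected _ _ hU' hV' (by
      intro y hy
      obtain ⟨C, rfl⟩ := mk_surj y
      rcases hcovN hy with h | h
      · exact Or.inl ⟨C, ⟨h, hpN C hy⟩, rfl⟩
      · exact Or.inr ⟨C, ⟨h, hpN C hy⟩, rfl⟩)
      ⟨mk p CU, hCU, ⟨CU, ⟨hCU', hpN CU hCU⟩, rfl⟩⟩ ⟨mk p CV, hCV, ⟨CV, ⟨hCV', hpN CV hCV⟩, rfl⟩⟩
    have hCD : C = D := by
      rcases mk_eq.mp (hCy.trans hDy.symm) with h | h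
      · exact h
      · exact absurd h.1 hC.2
    subst hCD
    refine ⟨C, ?_, hC.1, hD.1⟩
    show mk p C ∈ M
    rw [hCy]; exact hyM
  have haN : sing a ∈ N := (interior_subset haM : mk p (sing a) ∈ M)
  have hbU : IsPreconnected (⋃ C ∈ N, (C.1 : Set X)) := by
    let _ := TopologicalSpace.vietoris X
    apply vietoris.isPreconnected_biUnion hNpre
    · exact (NonemptyCompacts.continuous_coe.comp continuous_subtype_val).continuousOn
    · exact ⟨sing a, haN, (sing a).2.isPreconnected⟩
  refine ⟨closure (⋃ C ∈ N, (C.1 : Set X)), isClosed_closure, hbU.closure, ?_, ?_⟩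
  · refine interior_maximal (t := {x | mk p (sing x) ∈ interior M}) ?_
      (isOpen_interior.preimage (mk_cont.comp sing_cont)) haM
    intro x hx
    apply subset_closure
    rw [mem_iUnion₂]
    exact ⟨sing x, (interior_subset hx : mk p (sing x) ∈ M), (mem_sing x x).mpr rfl⟩
  · intro hp
    have hsub : (⋃ C ∈ N, (C.1 : Set X)) ⊆ (Metric.ball p (1 / (n + 1)))ᶜ := by
      intro x hx hx'
      rw [mem_iUnion₂] at hx
      obtain ⟨C, hC, hxC⟩ := hx
      exact hNO hC hxC (Metric.ball_subset_closedBall hx')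
    have := closure_minimal hsub Metric.isOpen_ball.isClosed_compl hp
    exact this (Metric.mem_ball_self (by positivity))

theorem not_apos [Nontrivial X]
    (huniv : ∀ C : Set X, IsClosed C → IsPreconnected C → (interior C).Nonempty → C = univ)
    (p : X) : ¬ Aposyndetic (HS X p) := by
  intro hap
  obtain ⟨a, ha⟩ := exists_ne p
  have hne : mk p (sing a) ≠ mk p (sing p) := by
    intro h
    rcases mk_eq.mp h with h1 | h1
    · have h2 : a ∈ (sing p).1 := by
        rw [← h1]; exact (mem_sing a a).mpr rfl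
      exact ha ((mem_sing p a).mp h2)
    · exact ha ((mem_sing a p).mp h1.1).symm
  obtain ⟨W, hW, hWp, haW, hpW⟩ := apos_down (hap _ _ hne)
  apply hpW
  rw [huniv W hW hWp ⟨a, haW⟩]
  trivial

end

end Pool.Agent.V11214.HSDef
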