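import Mathlib

set_option autoImplicit false

namespace Pool.Agent.V11214.Unic

open Set Topology

theorem coe_eq_iff (x y : ℝ) : ((x : ℝ) : UnitAddCircle) = (y : UnitAddCircle) ↔
    ∃ n : ℤ, x = y + n := by
  rw [← sub_eq_zero, ← AddCircle.coe_sub, AddCircle.coe_eq_zero_iff]
  constructor
  · rintro ⟨n, hn⟩
    refine ⟨n, ?_⟩
    simp only [zsmul_eq_mul, mul_one] at hn
    linarith
  · rintro ⟨n, hn⟩
    refine ⟨n, ?_⟩
    simp only [zsmul_eq_mul, mul_one]
    linarith

/-- If every map to the circle lifts to the line, the space is unicoherent. -/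
theorem unicoherent_of_lifts {Y : Type*} [TopologicalSpace Y] [NormalSpace Y] [T2Space Y]
    (hlift : ∀ φ : Y → UnitAddCircle, Continuous φ →
      ∃ θ : Y → ℝ, Continuous θ ∧ ∀ y, ((θ y : ℝ) : UnitAddCircle) = φ y)
    (A B : Set Y) (hA : IsClosed A) (hB : IsClosed B) (hAc : IsPreconnected A)
    (hBc : IsPreconnected B) (hAB : A ∪ B = univ) : IsPreconnected (A ∩ B) := by
  rw [isPreconnected_closed_iff]
  intro t t' ht ht' hsub hnt hnt'
  by_contra hemp
  rw [Set.not_nonempty_iff_eq_empty] at hemp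
  set C := A ∩ B ∩ t with hC
  set D := A ∩ B ∩ t' with hD
  have hCc : IsClosed C := (hA.inter hB).inter ht
  have hDc : IsClosed D := (hA.inter hB).inter ht'
  have hdisj : Disjoint C D := by
    rw [Set.disjoint_iff_inter_eq_empty, Set.eq_empty_iff_forall_notMem]
    rintro x ⟨hx1, hx2⟩
    have : x ∈ A ∩ B ∩ (t ∩ t') := ⟨hx1.1, hx1.2, hx2.2⟩
    rw [hemp] at this
    exact this
  obtain ⟨h, h0, h1, -⟩ := exists_continuous_zero_one_of_isClosed hCc hDc hdisj
  classical
  let φ : Y → UnitAddCircle := fun y => if y ∈ A then ((h y / 2 : ℝ) : UnitAddCircle)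
    else ((-(h y / 2) : ℝ) : UnitAddCircle)
  have hφA : ∀ y ∈ A, φ y = ((h y / 2 : ℝ) : UnitAddCircle) := fun y hy => by simp [φ, hy]
  have hφB : ∀ y ∈ B, φ y = ((-(h y / 2) : ℝ) : UnitAddCircle) := by
    intro y hy
    by_cases hyA : y ∈ A
    · rw [hφA y hyA]
      rcases hsub ⟨hyA, hy⟩ with hyt | hyt
      · have : h y = 0 := h0 ⟨⟨hyA, hy⟩, hyt⟩
        rw [this]; simp
      · have : h y = 1 := h1 ⟨⟨hyA, hy⟩, hyt⟩
        rw [this, coe_eq_iff]
        exact ⟨1, by norm_num⟩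
    · simp [φ, hyA]
  have hcoe : Continuous (fun x : ℝ => (x : UnitAddCircle)) := AddCircle.continuous_mk' 1
  have hφc : Continuous φ := by
    rw [← continuousOn_univ, ← hAB]
    apply ContinuousOn.union_of_isClosed _ _ hA hB
    · have : ContinuousOn (fun y => ((h y / 2 : ℝ) : UnitAddCircle)) A :=
        (hcoe.comp (by fun_prop : Continuous fun y => h y / 2)).continuousOn
      exact this.congr hφA
    · have : ContinuousOn (fun y => ((-(h y / 2) : ℝ) : UnitAddCircle)) B :=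
        (hcoe.comp (by fun_prop : Continuous fun y => -(h y / 2))).continuousOn
      exact this.congr hφB
  obtain ⟨θ, hθc, hθ⟩ := hlift φ hφc
  obtain ⟨c, hcAB, hct⟩ := hnt
  obtain ⟨d, hdAB, hdt⟩ := hnt'
  have hc0 : h c = 0 := h0 ⟨hcAB, hct⟩
  have hd1 : h d = 1 := h1 ⟨hdAB, hdt⟩
  obtain ⟨n, hn⟩ := (coe_eq_iff (θ c) 0).mp (by rw [hθ, hφA c hcAB.1, hc0]; simp)
  have e1 : θ d = h d / 2 + n := by
    refine (AddCircle.isCoveringMap_coe (1:ℝ)).eqOn_of_comp_eqOn hAc hθc.continuousOn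
      (g₂ := fun y => h y / 2 + n) (by fun_prop) ?_ hcAB.1 ?_ hdAB.1
    · intro y hy
      simp only [Function.comp]
      rw [hθ, hφA y hy]
      exact ((coe_eq_iff _ _).mpr ⟨n, rfl⟩).symm
    · simp only [hc0, hn]; ring
  have e2 : θ d = -(h d / 2) + n := by
    refine (AddCircle.isCoveringMap_coe (1:ℝ)).eqOn_of_comp_eqOn hBc hθc.continuousOn
      (g₂ := fun y => -(h y / 2) + n) (by fun_prop) ?_ hcAB.2 ?_ hdAB.2
    · intro y hy
      simp only [Function.comp]
      rw [hθ, hφB y hy]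
      exact ((coe_eq_iff _ _).mpr ⟨n, rfl⟩).symm
    · simp only [hc0, hn]; ring
  rw [hd1] at e1 e2
  linarith

end Pool.Agent.V11214.Unic
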