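import Mathlib
import Pool.Agent.V11214.Unic

set_option autoImplicit false

namespace Pool.Agent.V11214.HW

open Set Topology Metric Pool.Agent.V11214.Unic

abbrev T := UnitAddCircle
abbrev X := T × T × T

noncomputable def hf : T := ((1/2 : ℝ) : UnitAddCircle)

theorem hf_add : hf + hf = 0 := by
  rw [hf, ← AddCircle.coe_add]
  have : (1/2 + 1/2 : ℝ) = 1 := by norm_num
  rw [this]
  exact AddCircle.coe_period 1

theorem neg_hf : -hf = hf := by
  rw [neg_eq_iff_add_eq_zero]; exact hf_add

theorem norm_hf : ‖hf‖ = 1/2 := by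
  have := AddCircle.norm_half_period_eq (1:ℝ)
  rw [hf, this]; simp

noncomputable def a (p : X) : X := (p.1 + hf, hf - p.2.1, -p.2.2)
noncomputable def b (p : X) : X := (-p.1, p.2.1 + hf, hf - p.2.2)
noncomputable def c (p : X) : X := (hf - p.1, -p.2.1, p.2.2 + hf)

theorem hf2 (x : T) : x + hf + hf = x := by rw [add_assoc, hf_add, add_zero]

theorem aa (p : X) : a (a p) = p := by
  obtain ⟨x, y, z⟩ := p
  simp only [a, hf2, sub_sub_cancel, neg_neg]

theorem bb (p : X) : b (b p) = p := by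
  obtain ⟨x, y, z⟩ := p
  simp only [b, hf2, sub_sub_cancel, neg_neg]

theorem cc (p : X) : c (c p) = p := by
  obtain ⟨x, y, z⟩ := p
  simp only [c, hf2, sub_sub_cancel, neg_neg]

theorem ab (p : X) : a (b p) = c p := by
  obtain ⟨x, y, z⟩ := p
  simp only [a, b, c, Prod.mk.injEq]
  refine ⟨by abel, by abel, ?_⟩
  rw [neg_sub, sub_eq_add_neg, neg_hf]

theorem ba (p : X) : b (a p) = c p := by
  obtain ⟨x, y, z⟩ := p
  simp only [a, b, c, Prod.mk.injEq]
  refine ⟨?_, ?_, by abel⟩
  · rw [neg_add, neg_hf]; abel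
  · rw [sub_eq_add_neg, add_comm hf, add_assoc, hf_add, add_zero]

theorem ac (p : X) : a (c p) = b p := by rw [← ab, aa]
theorem bc (p : X) : b (c p) = a p := by rw [← ba, bb]
theorem ca (p : X) : c (a p) = b p := by rw [← ba, aa] 
theorem cb (p : X) : c (b p) = a p := by rw [← ab, bb]

theorem ca_cont : Continuous a := by unfold a; fun_prop
theorem cb_cont : Continuous b := by unfold b; fun_prop
theorem cc_cont : Continuous c := by unfold c; fun_prop

theorem dist_hf (x : T) : dist x (x + hf) = 1/2 := by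
  rw [dist_eq_norm, sub_add_cancel_left, norm_neg, norm_hf]

theorem dist_a (p : X) : 1/2 ≤ dist p (a p) := by
  refine le_trans ?_ (le_max_left _ _)
  exact (dist_hf p.1).ge

theorem dist_b (p : X) : 1/2 ≤ dist p (b p) := by
  refine le_trans ?_ (le_max_right _ _)
  refine le_trans ?_ (le_max_left _ _)
  exact (dist_hf p.2.1).ge

theorem dist_c (p : X) : 1/2 ≤ dist p (c p) := by
  refine le_trans ?_ (le_max_right _ _)
  refine le_trans ?_ (le_max_right _ _)
  exact (dist_hf p.2.2).ge

open TopologicalSpace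

noncomputable def F (p : X) : NonemptyCompacts X := {p} ⊔ {a p} ⊔ {b p} ⊔ {c p}

theorem F_cont : Continuous F := by
  unfold F
  have h := NonemptyCompacts.continuous_singleton (α := X)
  exact ((h.sup (h.comp ca_cont)).sup (h.comp cb_cont)).sup (h.comp cc_cont)

theorem mem_F (p q : X) : q ∈ (F p : Set X) ↔ q = p ∨ q = a p ∨ q = b p ∨ q = c p := by
  simp [F]
  tauto

theorem F_eq (p q : X) : F p = F q ↔ q = p ∨ q = a p ∨ q = b p ∨ q = c p := by
  constructor
  · intro h
    rw [← mem_F, h, mem_F]; left; rfl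
  · intro h
    apply NonemptyCompacts.ext
    apply Set.ext
    intro r
    rw [mem_F, mem_F]
    rcases h with rfl | rfl | rfl | rfl
    · rfl
    · rw [aa, ba, ca]; tauto
    · rw [bb, ab, cb]; tauto
    · rw [cc, ac, bc]; tauto

abbrev Y := Set.range F

noncomputable def f : X → Y := Set.rangeFactorization F

theorem f_cont : Continuous f := F_cont.subtype_mk _

theorem f_surj : Function.Surjective f := Set.rangeFactorization_surjective

theorem f_eq (p q : X) : f p = f q ↔ q = p ∨ q = a p ∨ q = b p ∨ q = c p := by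
  rw [← F_eq, f, Set.rangeFactorization, Set.rangeFactorization, Subtype.mk.injEq]

theorem f_quot : IsQuotientMap f := (f_cont.isClosedMap).isQuotientMap f_cont f_surj

theorem f_open : IsOpenMap f := by
  intro U hU
  rw [← f_quot.isOpen_preimage]
  have : f ⁻¹' (f '' U) = U ∪ a ⁻¹' U ∪ b ⁻¹' U ∪ c ⁻¹' U := by
    ext p
    simp only [mem_preimage, mem_image, mem_union]
    constructor
    · rintro ⟨q, hq, h⟩
      rw [eq_comm, f_eq] at h
      rcases h with rfl | rfl | rfl | rfl
      · tauto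
      · tauto
      · tauto
      · tauto
    · rintro (((h | h) | h) | h)
      · exact ⟨_, h, rfl⟩
      · exact ⟨_, h, by rw [eq_comm, f_eq]; tauto⟩
      · exact ⟨_, h, by rw [eq_comm, f_eq]; tauto⟩
      · exact ⟨_, h, by rw [eq_comm, f_eq]; tauto⟩
  rw [this]
  exact ((hU.union (hU.preimage ca_cont)).union (hU.preimage cb_cont)).union
    (hU.preimage cc_cont)

theorem f_locHomeo : IsLocalHomeomorph f := by
  rw [isLocalHomeomorph_iff_isOpenEmbedding_restrict]
  intro p
  refine ⟨ball p (1/4), ball_mem_nhds _ (by norm_num), ?_⟩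
  apply IsOpenEmbedding.of_continuous_injective_isOpenMap
  · exact f_cont.comp continuous_subtype_val
  · rintro ⟨x, hx⟩ ⟨y, hy⟩ hxy
    simp only [Set.domRestrict_apply] at hxy
    rw [f_eq] at hxy
    have hd : dist x y < 1/2 := by
      have := dist_triangle_right x y p
      rw [mem_ball] at hx hy
      linarith
    apply Subtype.ext
    simp only
    rcases hxy with h | h | h | h
    · exact h.symm
    · subst h; have := dist_a x; linarith
    · subst h; have := dist_b x; linarith
    · subst h; have := dist_c x; linarith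
  · exact f_open.comp (isOpen_ball.isOpenEmbedding_subtypeVal.isOpenMap)

instance : LocallyConnectedSpace T :=
  (QuotientAddGroup.isOpenQuotientMap_mk (G := ℝ) (N := AddSubgroup.zmultiples (1:ℝ))).isQuotientMap.isCoinducing.locallyConnectedSpace

instance : LocallyConnectedSpace X := inferInstance

/-! lifting -/

abbrev R3 := ℝ × ℝ × ℝ

noncomputable def pr (p : R3) : X := ((p.1 : T), (p.2.1 : T), (p.2.2 : T))

theorem pr_oq : IsOpenQuotientMap pr := by
  have h : IsOpenQuotientMap (fun x : ℝ => (x : T)) :=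
    QuotientAddGroup.isOpenQuotientMap_mk (G := ℝ) (N := AddSubgroup.zmultiples (1:ℝ))
  exact h.prodMap (h.prodMap h)

theorem pr_eq {p q : R3} (h : pr p = pr q) : ∃ l m n : ℤ,
    p = (q.1 + l, q.2.1 + m, q.2.2 + n) := by
  obtain ⟨x, y, z⟩ := p
  obtain ⟨x', y', z'⟩ := q
  simp only [pr, Prod.mk.injEq, coe_eq_iff] at h
  obtain ⟨⟨l, hl⟩, ⟨m, hm⟩, ⟨n, hn⟩⟩ := h
  exact ⟨l, m, n, by simp [hl, hm, hn]⟩

noncomputable def A (p : R3) : R3 := (p.1 + 1/2, 1/2 - p.2.1, -p.2.2)
noncomputable def B (p : R3) : R3 := (-p.1, p.2.1 + 1/2, 1/2 - p.2.2)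

theorem pr_A (p : R3) : pr (A p) = a (pr p) := by
  simp only [pr, A, a, hf, Prod.mk.injEq]
  exact ⟨by rw [AddCircle.coe_add], by rw [AddCircle.coe_sub], by rw [AddCircle.coe_neg]⟩

theorem pr_B (p : R3) : pr (B p) = b (pr p) := by
  simp only [pr, B, b, hf, Prod.mk.injEq]
  exact ⟨by rw [AddCircle.coe_neg], by rw [AddCircle.coe_add], by rw [AddCircle.coe_sub]⟩

theorem A_cont : Continuous A := by unfold A; fun_prop
theorem B_cont : Continuous B := by unfold B; fun_prop

noncomputable def g (p : R3) : Y := f (pr p)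

theorem g_A (p : R3) : g (A p) = g p := by
  rw [g, g, pr_A, eq_comm, f_eq]; tauto

theorem g_B (p : R3) : g (B p) = g p := by
  rw [g, g, pr_B, eq_comm, f_eq]; tauto

theorem g_cont : Continuous g := f_cont.comp pr_oq.continuous

theorem g_quot : IsQuotientMap g := f_quot.comp pr_oq.isQuotientMap

theorem shift {ψ : Y → T} {θ : R3 → ℝ} (hθ : Continuous θ)
    (h : ∀ p, ((θ p : ℝ) : T) = ψ (g p)) {τ : R3 → R3} (hτ : Continuous τ)
    (hg : ∀ p, g (τ p) = g p) : ∃ n : ℤ, ∀ p, θ (τ p) = θ p + n := by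
  obtain ⟨n, hn⟩ := (coe_eq_iff (θ (τ 0)) (θ 0)).mp (by rw [h, h, hg])
  refine ⟨n, fun p => ?_⟩
  have := (AddCircle.isCoveringMap_coe (1:ℝ)).eq_of_comp_eq (g₁ := fun p => θ (τ p))
    (g₂ := fun p => θ p + n) (by fun_prop) (by fun_prop) ?_ (0 : R3) hn
  · exact congrFun this p
  · funext p
    simp only [Function.comp]
    rw [h, hg, ← h, eq_comm]
    exact (coe_eq_iff _ _).mpr ⟨n, rfl⟩

theorem lifts (φ : Y → UnitAddCircle) (hφ : Continuous φ) :
    ∃ θ : Y → ℝ, Continuous θ ∧ ∀ y, ((θ y : ℝ) : UnitAddCircle) = φ y := by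
  obtain ⟨t0, ht0⟩ := QuotientAddGroup.mk_surjective (φ (g 0))
  obtain ⟨Θ, ⟨-, hΘ⟩, -⟩ := (AddCircle.isCoveringMap_coe (1:ℝ)).existsUnique_continuousMap_lifts
    (⟨fun p => φ (g p), hφ.comp g_cont⟩ : C(R3, T)) (0 : R3) t0 ht0
  have hθ : ∀ p, ((Θ p : ℝ) : T) = φ (g p) := fun p => congrFun hΘ p
  obtain ⟨na, hna⟩ := shift Θ.continuous hθ A_cont g_A
  obtain ⟨nb, hnb⟩ := shift Θ.continuous hθ B_cont g_B
  have na0 : (na : ℝ) = 0 := by
    have h1 := hna 0
    have h2 := hna (A 0)
    have h3 := hnb (A (A 0))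
    have h4 := hna (B (A (A 0)))
    have h5 := hna (A (B (A (A 0))))
    have h6 := hnb 0
    have h7 : A (A (B (A (A 0)))) = B 0 := by
      simp only [A, B, Prod.mk.injEq, Prod.fst_zero, Prod.snd_zero]; norm_num
    rw [h7] at h5
    linarith
  have nb0 : (nb : ℝ) = 0 := by
    have h1 := hnb 0
    have h2 := hnb (B 0)
    have h3 := hna (B (B 0))
    have h4 := hnb (A (B (B 0)))
    have h5 := hnb (B (A (B (B 0))))
    have h6 := hna 0
    have h7 : B (B (A (B (B 0)))) = A 0 := by
      simp only [A, B, Prod.mk.injEq, Prod.fst_zero, Prod.snd_zero]; norm_num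
    rw [h7] at h5
    linarith
  have iA : ∀ p, Θ (A p) = Θ p := fun p => by rw [hna, na0, add_zero]
  have iB : ∀ p, Θ (B p) = Θ p := fun p => by rw [hnb, nb0, add_zero]
  have i1 : ∀ x y z : ℝ, Θ (x + 1, y, z) = Θ (x, y, z) := by
    intro x y z
    have : A (A (x, y, z)) = (x + 1, y, z) := by
      simp only [A, Prod.mk.injEq]; refine ⟨by ring, by ring, by ring⟩
    rw [← this, iA, iA]
  have i2 : ∀ x y z : ℝ, Θ (x, y + 1, z) = Θ (x, y, z) := by
    intro x y z
    have : B (B (x, y, z)) = (x, y + 1, z) := by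
      simp only [B, Prod.mk.injEq]; refine ⟨by ring, by ring, by ring⟩
    rw [← this, iB, iB]
  have i3 : ∀ x y z : ℝ, Θ (x, y, z + 1) = Θ (x, y, z) := by
    intro x y z
    have : A (B (A (B (x, y, z + 1)))) = (x, y, z) := by
      simp only [A, B, Prod.mk.injEq]; refine ⟨by ring, by ring, by ring⟩
    rw [← this, iA, iB, iA, iB]
  have j1 : ∀ (x y z : ℝ) (n : ℤ), Θ (x + n, y, z) = Θ (x, y, z) := by
    intro x y z n
    have hp : Function.Periodic (fun x => Θ (x, y, z)) 1 := fun x => i1 x y z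
    have := hp.int_mul n x
    simpa using this
  have j2 : ∀ (x y z : ℝ) (n : ℤ), Θ (x, y + n, z) = Θ (x, y, z) := by
    intro x y z n
    have hp : Function.Periodic (fun y => Θ (x, y, z)) 1 := fun y => i2 x y z
    have := hp.int_mul n y
    simpa using this
  have j3 : ∀ (x y z : ℝ) (n : ℤ), Θ (x, y, z + n) = Θ (x, y, z) := by
    intro x y z n
    have hp : Function.Periodic (fun z => Θ (x, y, z)) 1 := fun z => i3 x y z
    have := hp.int_mul n z
    simpa using this
  have k0 : ∀ p q : R3, pr p = pr q → Θ p = Θ q := by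
    intro p q h
    obtain ⟨l, m, n, rfl⟩ := pr_eq h
    rw [j1, j2, j3]
  have k1 : ∀ p q : R3, g p = g q → Θ p = Θ q := by
    intro p q h
    rw [g, g, f_eq] at h
    rcases h with h | h | h | h
    · exact (k0 _ _ h).symm
    · rw [← pr_A] at h
      rw [k0 _ _ h, iA]
    · rw [← pr_B] at h
      rw [k0 _ _ h, iB]
    · rw [← ab, ← pr_B, ← pr_A] at h
      rw [k0 _ _ h, iA, iB]
  have hsurj : Function.Surjective g := f_surj.comp pr_oq.surjective
  refine ⟨fun y => Θ (Function.surjInv hsurj y), ?_, ?_⟩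
  · rw [g_quot.continuous_iff]
    have : ((fun y => Θ (Function.surjInv hsurj y)) ∘ g) = Θ := by
      funext p
      exact k1 _ _ (Function.surjInv_eq hsurj (g p))
    rw [this]
    exact Θ.continuous
  · intro y
    rw [hθ, Function.surjInv_eq hsurj y]

theorem Y_unicoherent (A B : Set Y) (hA : IsClosed A) (hB : IsClosed B) (hAc : IsConnected A)
    (hBc : IsConnected B) (hAB : A ∪ B = univ) : IsConnected (A ∩ B) := by
  refine ⟨?_, unicoherent_of_lifts lifts A B hA hB hAc.2 hBc.2 hAB⟩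
  have : ConnectedSpace Y := f_surj.connectedSpace f_cont
  have := (isPreconnected_closed_iff.mp (isPreconnected_univ (α := Y))) A B hA hB hAB.ge
    (by rw [univ_inter]; exact hAc.1) (by rw [univ_inter]; exact hBc.1)
  rwa [univ_inter] at this

theorem X_nonunicoherent : ∃ A B : Set X, IsClosed A ∧ IsClosed B ∧ IsConnected A ∧
    IsConnected B ∧ A ∪ B = Set.univ ∧ ¬ IsConnected (A ∩ B) := by
  have hc : Continuous (fun x : ℝ => (x : T)) := AddCircle.continuous_mk' 1
  have cA : IsCompact ((fun x : ℝ => (x : T)) '' Icc 0 (1/2)) := isCompact_Icc.image hc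
  have cB : IsCompact ((fun x : ℝ => (x : T)) '' Icc (1/2) 1) := isCompact_Icc.image hc
  have nA : IsConnected ((fun x : ℝ => (x : T)) '' Icc 0 (1/2)) :=
    (isConnected_Icc (by norm_num)).image _ hc.continuousOn
  have nB : IsConnected ((fun x : ℝ => (x : T)) '' Icc (1/2) 1) :=
    (isConnected_Icc (by norm_num)).image _ hc.continuousOn
  refine ⟨((fun x : ℝ => (x : T)) '' Icc 0 (1/2)) ×ˢ univ,
    ((fun x : ℝ => (x : T)) '' Icc (1/2) 1) ×ˢ univ, cA.isClosed.prod isClosed_univ,
    cB.isClosed.prod isClosed_univ, nA.prod isConnected_univ, nB.prod isConnected_univ, ?_, ?_⟩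
  · rw [← Set.union_prod, ← image_union, Icc_union_Icc_eq_Icc (by norm_num) (by norm_num)]
    have := AddCircle.coe_image_Icc_eq (1:ℝ) 0
    rw [zero_add] at this
    rw [this]; simp
  · intro h
    have h1 := (isPreconnected_closed_iff.mp h.2) {p | p.1 = 0} {p | p.1 = hf}
      (isClosed_eq continuous_fst continuous_const) (isClosed_eq continuous_fst continuous_const)
      ?_ ?_ ?_
    · obtain ⟨p, -, hp1, hp2⟩ := h1
      rw [mem_ofPred_eq] at hp1 hp2
      have : hf = 0 := by rw [← hp1, ← hp2]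
      have h2 := norm_hf
      rw [this] at h2
      norm_num at h2
    · rintro ⟨x, y⟩ ⟨⟨⟨s, hs, hs'⟩, -⟩, ⟨⟨t, ht, ht'⟩, -⟩⟩
      simp only at hs' ht'
      have h3 : (t : T) = (s : T) := by rw [hs', ht']
      obtain ⟨n, hn⟩ := (coe_eq_iff t s).mp h3
      have hn0 : (n : ℝ) ≤ 1 := by linarith [hs.1, ht.2]
      have hn1 : (0 : ℝ) ≤ n := by linarith [hs.2, ht.1]
      have hn0' : n ≤ 1 := by exact_mod_cast hn0
      have hn1' : 0 ≤ n := by exact_mod_cast hn1
      have : n = 0 ∨ n = 1 := by omega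
      rcases this with rfl | rfl
      · right
        have : s = 1/2 := by
          rw [Int.cast_zero, add_zero] at hn
          linarith [hs.2, ht.1]
        simp only [mem_ofPred_eq]
        rw [← hs', this, hf]
      · left
        have : s = 0 := by
          rw [Int.cast_one] at hn
          linarith [hs.1, ht.2]
        simp only [mem_ofPred_eq]
        rw [← hs', this, AddCircle.coe_zero]
    · refine ⟨((0 : T), (0 : T), (0 : T)), ⟨⟨⟨0, by norm_num, by simp⟩, mem_univ _⟩,
        ⟨⟨1, by norm_num, AddCircle.coe_period 1⟩, mem_univ _⟩⟩, rfl⟩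
    · refine ⟨(hf, (0 : T), (0 : T)), ⟨⟨⟨1/2, by norm_num, rfl⟩, mem_univ _⟩,
        ⟨⟨1/2, by norm_num, rfl⟩, mem_univ _⟩⟩, rfl⟩

end Pool.Agent.V11214.HW
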