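import Mathlib

set_option autoImplicit false

namespace Pool.Agent.V11214.Remet

open Set Metric

variable {X : Type} [m : MetricSpace X]

/-- the new distance -/
noncomputable def nd (L : ℝ) (φ : X × X → ℝ) (x y : X) : ℝ :=
  min (L * dist x y) ((1 + φ (x, y)) / 2)

structure Good (L : ℝ) (φ : X × X → ℝ) : Prop where
  L_pos : 0 < L
  nonneg : ∀ p, 0 ≤ φ p
  le_one : ∀ p, φ p ≤ 1
  symm : ∀ x y, φ (x, y) = φ (y, x)
  lip : ∀ x y z, φ (x, z) ≤ φ (y, z) + 2 * L * dist x y

lemma nd_triangle {L : ℝ} {φ : X × X → ℝ} (h : Good L φ) (x y z : X) :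
    nd L φ x z ≤ nd L φ x y + nd L φ y z := by
  unfold nd
  have hL := h.L_pos
  have a1 := h.nonneg (x, y)
  have a2 := h.nonneg (y, z)
  have a3 := h.le_one (x, z)
  have t := dist_triangle x y z
  have l1 := h.lip x y z
  have l2 : φ (x, z) ≤ φ (x, y) + 2 * L * dist y z := by
    have := h.lip z y x
    rw [h.symm z x, h.symm y x, dist_comm z y] at this
    exact this
  have ht : L * dist x z ≤ L * dist x y + L * dist y z := by nlinarith
  rcases le_total (L * dist x y) ((1 + φ (x, y)) / 2) with h1 | h1
  · rw [min_eq_left h1]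
    rcases le_total (L * dist y z) ((1 + φ (y, z)) / 2) with h2 | h2
    · rw [min_eq_left h2]
      exact (min_le_left _ _).trans ht
    · rw [min_eq_right h2]
      refine (min_le_right _ _).trans ?_
      linarith
  · rw [min_eq_right h1]
    rcases le_total (L * dist y z) ((1 + φ (y, z)) / 2) with h2 | h2
    · rw [min_eq_left h2]
      refine (min_le_right _ _).trans ?_
      linarith
    · rw [min_eq_right h2]
      refine (min_le_right _ _).trans ?_
      linarith

/-- the new metric, as a metric space structure with its own topology -/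
@[reducible] noncomputable def newMetric {L : ℝ} {φ : X × X → ℝ} (h : Good L φ) : MetricSpace X where
  dist := nd L φ
  dist_self x := by
    unfold nd
    rw [dist_self, mul_zero]
    apply min_eq_left
    have := h.nonneg (x, x)
    linarith
  dist_comm x y := by
    unfold nd
    rw [dist_comm, h.symm x y]
  dist_triangle := nd_triangle h
  eq_of_dist_eq_zero := by
    intro x y hxy
    change nd L φ x y = 0 at hxy
    unfold nd at hxy
    have h1 := h.nonneg (x, y)
    rcases min_choice (L * dist x y) ((1 + φ (x, y)) / 2) with h2 | h2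
    · rw [h2] at hxy
      have := h.L_pos
      have hd : dist x y = 0 := by
        rcases mul_eq_zero.1 hxy with h3 | h3
        · exact absurd h3 this.ne'
        · exact h3
      exact dist_eq_zero.1 hd
    · rw [h2] at hxy
      linarith

lemma newMetric_dist {L : ℝ} {φ : X × X → ℝ} (h : Good L φ) (x y : X) :
    (newMetric h).dist x y = nd L φ x y := rfl

lemma newMetric_top {L : ℝ} {φ : X × X → ℝ} (h : Good L φ) :
    (newMetric h).toPseudoMetricSpace.toUniformSpace.toTopologicalSpace =
      m.toPseudoMetricSpace.toUniformSpace.toTopologicalSpace := by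
  have hL := h.L_pos
  apply le_antisymm
  · rw [← continuous_id_iff_le]
    rw [@Metric.continuous_iff X X (newMetric h).toPseudoMetricSpace m.toPseudoMetricSpace]
    intro b ε hε
    refine ⟨min (L * ε) (1/2), by positivity, fun a hab => ?_⟩
    change nd L φ a b < _ at hab
    change dist a b < ε
    unfold nd at hab
    have h1 := h.nonneg (a, b)
    have h2 := lt_of_lt_of_le hab (min_le_left _ _)
    have h3 := lt_of_lt_of_le hab (min_le_right _ _)
    rcases min_choice (L * dist a b) ((1 + φ (a, b)) / 2) with h4 | h4
    · rw [h4] at h2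
      exact lt_of_mul_lt_mul_left h2 hL.le
    · rw [h4] at h3
      linarith
  · rw [← continuous_id_iff_le]
    rw [@Metric.continuous_iff X X m.toPseudoMetricSpace (newMetric h).toPseudoMetricSpace]
    intro b ε hε
    refine ⟨ε / L, by positivity, fun a hab => ?_⟩
    change nd L φ a b < ε
    unfold nd
    refine (min_le_left _ _).trans_lt ?_
    change dist a b < ε / L at hab
    rw [lt_div_iff₀ hL] at hab
    linarith

/-- **Remetrisation.** A closed symmetric set missing the diagonal can be made the set of pairs at
the maximal distance `1`. -/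
theorem exists_remetric [CompactSpace X] (M : Set (X × X)) (hM : IsClosed M) (hne : M.Nonempty)
    (hsymm : ∀ p ∈ M, p.swap ∈ M) (hdiag : ∀ x, (x, x) ∉ M) :
    ∃ m' : MetricSpace X,
      m'.toPseudoMetricSpace.toUniformSpace.toTopologicalSpace =
        m.toPseudoMetricSpace.toUniformSpace.toTopologicalSpace ∧
      (∀ x y, m'.dist x y ≤ 1) ∧ (∀ p ∈ M, m'.dist p.1 p.2 = 1) ∧
      (∀ δ > 0, ∃ η > 0, ∀ x y, 1 - η < m'.dist x y → ∃ q ∈ M, m.dist x q.1 < δ ∧ m.dist y q.2 < δ) := by
  classical
  have hMc : IsCompact M := hM.isCompact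
  -- distance to the diagonal
  obtain ⟨p0, hp0, hmin⟩ := hMc.exists_isMinOn hne
    (continuous_fst.dist continuous_snd : Continuous fun p : X × X => dist p.1 p.2).continuousOn
  have hd0 : 0 < dist p0.1 p0.2 := by
    rw [dist_pos]
    intro h
    apply hdiag p0.1
    have : (p0.1, p0.1) = p0 := Prod.ext rfl h
    rw [this]; exact hp0
  set L : ℝ := 1 / dist p0.1 p0.2 with hL
  have hLpos : 0 < L := by positivity
  set φ : X × X → ℝ := fun p => max 0 (1 - 2 * L * infDist p M) with hφ
  have hswap : ∀ p : X × X, infDist p.swap M = infDist p M := by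
    have key : ∀ p : X × X, infDist p.swap M ≤ infDist p M := by
      intro p
      rw [le_infDist hne]
      intro q hq
      refine (infDist_le_dist_of_mem (hsymm q hq)).trans ?_
      rw [Prod.dist_eq, Prod.dist_eq]
      simp only [Prod.fst_swap, Prod.snd_swap]
      rw [max_comm]
    intro p
    apply le_antisymm (key p)
    have := key p.swap
    rwa [Prod.swap_swap] at this
  have hgood : Good L φ := by
    refine ⟨hLpos, fun p => le_max_left _ _, fun p => ?_, fun x y => ?_, fun x y z => ?_⟩
    · apply max_le zero_le_one
      have : 0 ≤ infDist p M := infDist_nonneg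
      nlinarith
    · simp only [hφ]
      have := hswap (x, y)
      simp only [Prod.swap_prod_mk] at this
      rw [this]
    · simp only [hφ]
      have h1 : infDist (y, z) M ≤ infDist (x, z) M + dist (y, z) (x, z) := infDist_le_infDist_add_dist
      have h2 : dist (y, z) (x, z) = dist x y := by
        rw [Prod.dist_eq]; simp [dist_comm]
      rw [h2] at h1
      apply max_le
      · have := le_max_left 0 (1 - 2 * L * infDist (y, z) M)
        have h3 : 0 ≤ 2 * L * dist x y := by positivity
        linarith
      · have := le_max_right 0 (1 - 2 * L * infDist (y, z) M)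
        nlinarith
  refine ⟨newMetric hgood, newMetric_top hgood, ?_, ?_, ?_⟩
  · intro x y
    rw [newMetric_dist]
    refine (min_le_right _ _).trans ?_
    have := hgood.le_one (x, y)
    linarith
  · intro p hp
    rw [newMetric_dist]
    unfold nd
    have h1 : φ (p.1, p.2) = 1 := by
      simp only [hφ]
      have : infDist (p.1, p.2) M = 0 := infDist_zero_of_mem hp
      rw [this]; simp
    rw [h1]
    have h2 : dist p0.1 p0.2 ≤ dist p.1 p.2 := hmin hp
    have h3 : 1 ≤ L * dist p.1 p.2 := by
      rw [hL, div_mul_eq_mul_div, one_mul, le_div_iff₀ hd0, one_mul]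
      exact h2
    rw [min_eq_right (by linarith)]
    norm_num
  · intro δ hδ
    refine ⟨min (L * δ) (1/2), by positivity, fun x y hxy => ?_⟩
    rw [newMetric_dist] at hxy
    have h1 := lt_of_lt_of_le hxy (min_le_right _ _)
    have h2 : (min (L * δ) (1/2)) ≤ L * δ := min_le_left _ _
    have h3 : (min (L * δ) (1/2)) ≤ 1/2 := min_le_right _ _
    suffices hsuff : infDist (x, y) M < δ by
      obtain ⟨q, hq, hq2⟩ := (infDist_lt_iff hne).1 hsuff
      rw [Prod.dist_eq] at hq2
      exact ⟨q, hq, (le_max_left _ _).trans_lt hq2, (le_max_right _ _).trans_lt hq2⟩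
    by_contra hcon
    push Not at hcon
    have h4 : φ (x, y) ≤ max 0 (1 - 2 * L * δ) := by
      simp only [hφ]
      apply max_le_max (le_refl _)
      nlinarith
    have h5 : φ (x, y) > 1 - 2 * min (L * δ) (1/2) := by linarith
    rcases le_total 0 (1 - 2 * L * δ) with h6 | h6
    · rw [max_eq_right h6] at h4
      nlinarith
    · rw [max_eq_left h6] at h4
      linarith

/-- transfer of connectedness along an equality of topologies -/
lemma isConnected_prod_congr {X : Type} (τ τ' : TopologicalSpace X) (h : τ' = τ)
    (Z : Set (X × X)) :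
    @IsConnected (X × X) (@instTopologicalSpaceProd X X τ' τ') Z ↔
      @IsConnected (X × X) (@instTopologicalSpaceProd X X τ τ) Z := by
  subst h; rfl

lemma homeo_congr {X Y : Type} (τ τ' : TopologicalSpace X) (h : τ' = τ) [TopologicalSpace Y]
    (hn : Nonempty (@Homeomorph X Y τ _)) : Nonempty (@Homeomorph X Y τ' _) := by
  subst h; exact hn

end Pool.Agent.V11214.Remet
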