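import Pool.Agent.V11214.Semi

set_option autoImplicit false

namespace Pool.Agent.V11214.Semi

open Set Metric Real

/-- rotated coordinate -/
noncomputable def rot (z : T) : ℂ := (z : ℂ) * Complex.exp ((-(2 * π * (3/16)) : ℝ) * Complex.I)

lemma norm_rot_sub (z z' : T) : ‖rot z - rot z'‖ = dist z z' := by
  unfold rot
  rw [← sub_mul, norm_mul, Complex.norm_exp_ofReal_mul_I, mul_one, Subtype.dist_eq, dist_eq_norm]

lemma continuous_rot : Continuous rot := by unfold rot; fun_prop

lemma norm_rot (z : T) : ‖rot z‖ = 1 := by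
  unfold rot
  rw [norm_mul, Complex.norm_exp_ofReal_mul_I, mul_one]
  exact mem_sphere_zero_iff_norm.1 z.2

lemma rot_e (p : ℝ) : (rot (e p)).re = cos (2 * π * (p - 3/16)) := by
  unfold rot e
  rw [← Complex.exp_add, ← add_mul, ← Complex.ofReal_add, Complex.exp_ofReal_mul_I_re]
  congr 1; ring

noncomputable def κ : ℝ := cos (3 * π / 8)

lemma κ_pos : 0 < κ := by
  unfold κ
  apply cos_pos_of_mem_Ioo
  constructor <;> linarith [pi_pos]

lemma rot_dodge {s : ℝ} (h1 : 1/4 ≤ s) (h2 : s ≤ 5/4) : κ ≤ (rot (e (dodge s))).re := by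
  obtain ⟨a1, a2, _, _⟩ := dodge_bounds h1 h2
  rw [rot_e]
  unfold κ
  rw [← cos_abs (2 * π * (dodge s - 3/16))]
  apply cos_le_cos_of_nonneg_of_le_pi (abs_nonneg _) (by linarith [pi_pos])
  rw [abs_mul, abs_of_pos (by positivity : (0:ℝ) < 2 * π)]
  have : |dodge s - 3/16| ≤ 3/16 := by rw [abs_le]; constructor <;> linarith
  nlinarith [pi_pos]

/-- On the right half circle the height determines the point. -/
lemma eq_of_im {x y : T} (hx : 0 < (rot x).re) (hy : 0 < (rot y).re)
    (h : (rot x).im = (rot y).im) : x = y := by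
  have h1 : (rot x).re ^ 2 + (rot x).im ^ 2 = 1 := by
    have := Complex.sq_norm (rot x)
    rw [norm_rot, Complex.normSq_apply] at this
    nlinarith
  have h2 : (rot y).re ^ 2 + (rot y).im ^ 2 = 1 := by
    have := Complex.sq_norm (rot y)
    rw [norm_rot, Complex.normSq_apply] at this
    nlinarith
  have h3 : (rot x).re = (rot y).re := by
    have : (rot x).re ^ 2 = (rot y).re ^ 2 := by rw [h] at h1; linarith
    nlinarith
  have h4 : rot x = rot y := Complex.ext h3 h
  have h5 := norm_rot_sub x y
  rw [h4, sub_self, norm_zero] at h5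
  exact dist_eq_zero.1 h5.symm

/-- A connected set of pairs with equal projections, all coordinates in a closed arc, meets the
diagonal in its closure. -/
lemma meets_diag (Z : Set (T × T)) (hZ : IsConnected Z) (hpr : Prod.fst '' Z = Prod.snd '' Z)
    (c : ℝ) (hc : 0 < c) (h1 : ∀ p ∈ Z, c ≤ (rot p.1).re) : ∃ x, (x, x) ∈ closure Z := by
  have h2 : ∀ p ∈ Z, c ≤ (rot p.2).re := by
    intro p hp
    have : p.2 ∈ Prod.fst '' Z := by rw [hpr]; exact mem_image_of_mem _ hp
    obtain ⟨q, hq, hq2⟩ := this
    rw [← hq2]; exact h1 q hq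
  have hcl1 : ∀ p ∈ closure Z, c ≤ (rot p.1).re := by
    have : IsClosed {p : T × T | c ≤ (rot p.1).re} :=
      isClosed_le continuous_const (Complex.continuous_re.comp (continuous_rot.comp continuous_fst))
    exact fun p hp => closure_minimal h1 this hp
  have hcl2 : ∀ p ∈ closure Z, c ≤ (rot p.2).re := by
    have : IsClosed {p : T × T | c ≤ (rot p.2).re} :=
      isClosed_le continuous_const (Complex.continuous_re.comp (continuous_rot.comp continuous_snd))
    exact fun p hp => closure_minimal h2 this hp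
  have hcomp : IsCompact (closure Z) := isClosed_closure.isCompact
  have hconn : IsConnected (closure Z) := hZ.closure
  have hprc : Prod.fst '' closure Z = Prod.snd '' closure Z := by
    rw [image_closure_of_isCompact hcomp continuous_fst.continuousOn,
      image_closure_of_isCompact hcomp continuous_snd.continuousOn, hpr]
  -- the maximum of the height over the common projection
  set g : T → ℝ := fun z => (rot z).im with hg
  have hgc : Continuous g := Complex.continuous_im.comp continuous_rot
  obtain ⟨x0, hx0, hmax⟩ := (hcomp.image continuous_fst).exists_isMaxOn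
    (hconn.nonempty.image _) hgc.continuousOn
  obtain ⟨p, hp, hp1⟩ := hx0
  have hx0' : x0 ∈ Prod.snd '' closure Z := by rw [← hprc]; exact ⟨p, hp, hp1⟩
  obtain ⟨q, hq, hq1⟩ := hx0'
  have hf1 : 0 ≤ g p.1 - g p.2 := by
    have : g p.2 ≤ g x0 := by
      apply hmax
      rw [hprc]; exact mem_image_of_mem _ hp
    rw [hp1]; linarith
  have hf2 : g q.1 - g q.2 ≤ 0 := by
    have : g q.1 ≤ g x0 := hmax (mem_image_of_mem _ hq)
    rw [hq1]; linarith
  have hfc : Continuous fun r : T × T => g r.1 - g r.2 := by fun_prop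
  obtain ⟨r, hr, hr0⟩ := hconn.isPreconnected.intermediate_value hq hp hfc.continuousOn
    (show (0:ℝ) ∈ Icc (g q.1 - g q.2) (g p.1 - g p.2) from ⟨hf2, hf1⟩)
  have heq : r.1 = r.2 := eq_of_im (lt_of_lt_of_le hc (hcl1 r hr)) (lt_of_lt_of_le hc (hcl2 r hr))
    (by simp only [hg] at hr0; linarith)
  refine ⟨r.1, ?_⟩
  have : (r.1, r.1) = r := Prod.ext rfl heq
  rw [this]; exact hr

theorem exists_metric : ∃ (m' : MetricSpace T) (η : ℝ), 0 < η ∧
    m'.toPseudoMetricSpace.toUniformSpace.toTopologicalSpace =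
      (inferInstance : TopologicalSpace T) ∧
    (∀ x y, m'.dist x y ≤ 1) ∧
    (∀ p ∈ Prod.swap '' N, m'.dist p.1 p.2 = 1) ∧ (∀ p ∈ N, m'.dist p.1 p.2 = 1) ∧
    ∀ Z : Set (T × T), IsConnected Z → Prod.fst '' Z = Prod.snd '' Z →
      ¬ (∀ p ∈ Z, 1 - η < m'.dist p.1 p.2) := by
  set M : Set (T × T) := N ∪ Prod.swap '' N with hM
  have hNs : IsCompact (Prod.swap '' N) := compact_N.image continuous_swap
  have hMc : IsCompact M := compact_N.union hNs
  obtain ⟨m', htop, hle, hone, hgap⟩ := Remet.exists_remetric M hMc.isClosed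
    (connected_N.nonempty.mono subset_union_left)
    (by
      rintro p (hp | ⟨q, hq, rfl⟩)
      · exact Or.inr (mem_image_of_mem _ hp)
      · left; rwa [Prod.swap_swap])
    (by
      rintro x (hx | ⟨q, hq, hq2⟩)
      · exact diag_N x hx
      · have : q = (x, x) := by
          have := congrArg Prod.swap hq2
          rwa [Prod.swap_swap, Prod.swap_prod_mk] at this
        rw [this] at hq; exact diag_N x hq)
  -- separation
  obtain ⟨δ, hδ, hdis⟩ := disjoint_N.exists_thickenings compact_N hNs.isClosed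
  obtain ⟨η, hη, hη2⟩ := hgap (min δ (κ / 2)) (lt_min hδ (half_pos κ_pos))
  refine ⟨m', min η (1/2), lt_min hη (by norm_num), htop, hle,
    fun p hp => hone p (Or.inr hp), fun p hp => hone p (Or.inl hp), ?_⟩
  intro Z hZ hpr hall
  -- no diagonal points in the closure
  have hnodiag : ∀ x, (x, x) ∉ closure Z := by
    intro x hx
    have hcont : Continuous fun p : T × T => m'.dist p.1 p.2 := by
      have := @continuous_dist T m'.toPseudoMetricSpace
      rw [htop] at this
      exact this
    have hcl : IsClosed {p : T × T | 1/2 ≤ m'.dist p.1 p.2} :=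
      isClosed_le continuous_const hcont
    have hsub : Z ⊆ {p : T × T | 1/2 ≤ m'.dist p.1 p.2} := by
      intro p hp
      have := hall p hp
      have h3 : min η (1/2) ≤ 1/2 := min_le_right _ _
      simp only [mem_ofPred_eq]; linarith
    have := closure_minimal hsub hcl hx
    simp only [mem_ofPred_eq] at this
    have h4 : m'.dist x x = 0 := m'.dist_self x
    rw [h4] at this
    norm_num at this
  -- near points
  have hnear : ∀ p ∈ Z, ∃ q ∈ M, dist p.1 q.1 < min δ (κ/2) ∧ dist p.2 q.2 < min δ (κ/2) := by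
    intro p hp
    apply hη2 p.1 p.2
    have := hall p hp
    have h3 : min η (1/2) ≤ η := min_le_left _ _
    linarith
  have hcover : Z ⊆ thickening δ N ∪ thickening δ (Prod.swap '' N) := by
    intro p hp
    obtain ⟨q, hq, h1, h2⟩ := hnear p hp
    have hd : dist p q < δ := by
      rw [Prod.dist_eq]
      exact max_lt (h1.trans_le (min_le_left _ _)) (h2.trans_le (min_le_left _ _))
    rcases hq with hq | hq
    · left; exact mem_thickening_iff.2 ⟨q, hq, hd⟩
    · right; exact mem_thickening_iff.2 ⟨q, hq, hd⟩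
  have hκ := κ_pos
  have hre : ∀ x y : T, dist x y < κ / 2 → κ ≤ (rot y).re → κ / 2 ≤ (rot x).re := by
    intro x y hxy hy
    have h1 := Complex.abs_re_le_norm (rot x - rot y)
    rw [norm_rot_sub, Complex.sub_re, abs_le] at h1
    linarith [h1.1]
  rcases hZ.isPreconnected.subset_or_subset isOpen_thickening isOpen_thickening hdis hcover with h | h
  · -- near N : second coordinates on the arc
    have h2 : ∀ p ∈ Z, κ / 2 ≤ (rot p.2).re := by
      intro p hp
      obtain ⟨q, hq, hq1, hq2⟩ := hnear p hp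
      have hqN : q ∈ N := by
        rcases hq with hq | hq
        · exact hq
        · exfalso
          have hd : dist p q < δ := by
            rw [Prod.dist_eq]
            exact max_lt (hq1.trans_le (min_le_left _ _)) (hq2.trans_le (min_le_left _ _))
          exact Set.disjoint_left.1 hdis (h hp) (mem_thickening_iff.2 ⟨q, hq, hd⟩)
      obtain ⟨s, ⟨hs1, hs2⟩, rfl⟩ := hqN
      exact hre _ _ (hq2.trans_le (min_le_right _ _)) (rot_dodge hs1 hs2)
    have h1 : ∀ p ∈ Z, κ / 2 ≤ (rot p.1).re := by
      intro p hp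
      have : p.1 ∈ Prod.snd '' Z := by rw [← hpr]; exact mem_image_of_mem _ hp
      obtain ⟨q, hq, hq2⟩ := this
      rw [← hq2]; exact h2 q hq
    obtain ⟨x, hx⟩ := meets_diag Z hZ hpr (κ/2) (by linarith) h1
    exact hnodiag x hx
  · have h1 : ∀ p ∈ Z, κ / 2 ≤ (rot p.1).re := by
      intro p hp
      obtain ⟨q, hq, hq1, hq2⟩ := hnear p hp
      have hqN : q ∈ Prod.swap '' N := by
        rcases hq with hq | hq
        · exfalso
          have hd : dist p q < δ := by
            rw [Prod.dist_eq]
            exact max_lt (hq1.trans_le (min_le_left _ _)) (hq2.trans_le (min_le_left _ _))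
          exact Set.disjoint_left.1 hdis (mem_thickening_iff.2 ⟨q, hq, hd⟩) (h hp)
        · exact hq
      obtain ⟨_, ⟨s, ⟨hs1, hs2⟩, rfl⟩, rfl⟩ := hqN
      exact hre _ _ (hq1.trans_le (min_le_right _ _)) (rot_dodge hs1 hs2)
    obtain ⟨x, hx⟩ := meets_diag Z hZ hpr (κ/2) (by linarith) h1
    exact hnodiag x hx

end Pool.Agent.V11214.Semi
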