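import Pool.Agent.V11214.Kup2

set_option autoImplicit false

namespace Pool.Agent.V11214.Kup

open Set Metric Real

lemma trans_injective {X : Type} [TopologicalSpace X] {a b c : X} (p : Path a b) (q : Path b c)
    (hp : Function.Injective p) (hq : Function.Injective q)
    (hpq : ∀ s t, p s = q t → s = 1 ∧ t = 0) : Function.Injective (p.trans q) := by
  intro s t hst
  rw [Path.trans_apply, Path.trans_apply] at hst
  by_cases hs : (s:ℝ) ≤ 1/2
  · by_cases ht : (t:ℝ) ≤ 1/2
    · rw [dif_pos hs, dif_pos ht] at hst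
      have := congrArg Subtype.val (hp hst)
      simp only at this
      apply Subtype.ext; linarith
    · rw [dif_pos hs, dif_neg ht] at hst
      obtain ⟨h1, h2⟩ := hpq _ _ hst
      have h1' := congrArg Subtype.val h1
      have h2' := congrArg Subtype.val h2
      simp only [Set.Icc.coe_one, Set.Icc.coe_zero] at h1' h2'
      apply Subtype.ext; linarith
  · by_cases ht : (t:ℝ) ≤ 1/2
    · rw [dif_neg hs, dif_pos ht] at hst
      obtain ⟨h1, h2⟩ := hpq _ _ hst.symm
      have h1' := congrArg Subtype.val h1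
      have h2' := congrArg Subtype.val h2
      simp only [Set.Icc.coe_one, Set.Icc.coe_zero] at h1' h2'
      apply Subtype.ext; linarith
    · rw [dif_neg hs, dif_neg ht] at hst
      have := congrArg Subtype.val (hq hst)
      simp only at this
      apply Subtype.ext; linarith

/-- the angular coordinate on `KX` -/
noncomputable def Φ (x : KX) : ℝ := (x:ℝ × ℝ).1 * (min (x:ℝ × ℝ).2 1)⁻¹

lemma pos_of_ne_hub (x : KX) (hx : x ≠ hub) : 0 < (x:ℝ × ℝ).2 := by
  obtain ⟨⟨u, v⟩, h⟩ := x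
  simp only
  rcases h with h | h
  · have := h.2.2.1; simp only at this; linarith
  · obtain ⟨h1, h2, h3, h4⟩ := h
    simp only at h1 h2 h3 h4
    rcases eq_or_lt_of_le (h1.trans h2) with h5 | h5
    · exfalso; apply hx
      apply Subtype.ext
      simp only [hub, Prod.mk.injEq]
      constructor <;> linarith
    · exact h5

lemma continuousAt_Φ (x : KX) (hx : x ≠ hub) : ContinuousAt Φ x := by
  have hpos := pos_of_ne_hub x hx
  have h1 : ContinuousAt (fun x : KX => min (x:ℝ × ℝ).2 1) x := by fun_prop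
  have h2 : min (x:ℝ × ℝ).2 1 ≠ 0 := (lt_min hpos one_pos).ne'
  exact ContinuousAt.mul (by fun_prop) (h1.inv₀ h2)

/-- Uniqueness: a point with `Φ = 1/j` is the top point. -/
lemma top_unique (x : KX) (hx : x ≠ hub) (j : ℕ) (hj : 1 ≤ j) (h : Φ x = (j:ℝ)⁻¹) :
    (x:ℝ × ℝ).2 = 3 := by
  have hpos := pos_of_ne_hub x hx
  obtain ⟨⟨u, v⟩, hK⟩ := x
  simp only [Φ] at h hpos ⊢
  have hj' : (1:ℝ) ≤ j := by exact_mod_cast hj
  have hjpos : (0:ℝ) < (j:ℝ)⁻¹ := by positivity
  have hcos : cos (2 * π * (j:ℝ)) = 1 := by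
    have : 2 * π * (j:ℝ) = (j:ℝ) * (2 * π) := by ring
    rw [this, cos_nat_mul_two_pi]
  rcases hK with hK | hK
  · obtain ⟨h1, h2, h3, h4, h5⟩ := hK
    simp only at h1 h2 h3 h4 h5
    rw [min_eq_right h3, inv_one, mul_one] at h
    subst h
    rcases h5 with h5 | h5
    · exact absurd h5 hjpos.ne'
    · rw [inv_inv, hcos] at h5; linarith
  · obtain ⟨h1, h2, h3, h5⟩ := hK
    simp only at h1 h2 h3 h5
    rw [min_eq_left h3] at h
    rcases h5 with h5 | h5
    · rw [h5, zero_mul] at h; exact absurd h.symm hjpos.ne'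
    · exfalso
      have hu : u ≠ 0 := by
        rintro rfl; rw [zero_mul] at h; exact absurd h.symm hjpos.ne'
      have : v * u⁻¹ = j := by
        have : (u * v⁻¹)⁻¹ = ((j:ℝ)⁻¹)⁻¹ := by rw [h]
        rw [inv_inv] at this
        rw [← this]; field_simp
      rw [this, hcos] at h5; linarith

/-- Uniqueness: a point with `Φ = 1/(j+1/4)` has height `2`. -/
lemma mid_unique (x : KX) (hx : x ≠ hub) (j : ℕ) (hj : 1 ≤ j) (h : Φ x = ((j:ℝ) + 1/4)⁻¹) :
    (x:ℝ × ℝ).2 = 2 := by
  have hpos := pos_of_ne_hub x hx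
  obtain ⟨⟨u, v⟩, hK⟩ := x
  simp only [Φ] at h hpos ⊢
  have hj' : (1:ℝ) ≤ j := by exact_mod_cast hj
  have hjpos : (0:ℝ) < ((j:ℝ) + 1/4)⁻¹ := by positivity
  have hcos : cos (2 * π * ((j:ℝ) + 1/4)) = 0 := by
    have : 2 * π * ((j:ℝ) + 1/4) = π / 2 + (j:ℝ) * (2 * π) := by ring
    rw [this, cos_add_nat_mul_two_pi, cos_pi_div_two]
  rcases hK with hK | hK
  · obtain ⟨h1, h2, h3, h4, h5⟩ := hK
    simp only at h1 h2 h3 h4 h5
    rw [min_eq_right h3, inv_one, mul_one] at h
    subst h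
    rcases h5 with h5 | h5
    · exact absurd h5 hjpos.ne'
    · rw [inv_inv, hcos] at h5; linarith
  · obtain ⟨h1, h2, h3, h5⟩ := hK
    simp only at h1 h2 h3 h5
    rw [min_eq_left h3] at h
    rcases h5 with h5 | h5
    · rw [h5, zero_mul] at h; exact absurd h.symm hjpos.ne'
    · exfalso
      have hu : u ≠ 0 := by
        rintro rfl; rw [zero_mul] at h; exact absurd h.symm hjpos.ne'
      have : v * u⁻¹ = (j:ℝ) + 1/4 := by
        have : (u * v⁻¹)⁻¹ = (((j:ℝ) + 1/4)⁻¹)⁻¹ := by rw [h]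
        rw [inv_inv] at this
        rw [← this]; field_simp
      rw [this, hcos] at h5; linarith

/-- an injective path from the hub to the end through the `k`-th bottom point -/
lemma inj_path (k : ℕ) (hk : 1 ≤ k) : ∃ q : Path hub bend, Function.Injective q ∧
    ∃ t, ((q t : KX) : ℝ × ℝ) = (((k:ℝ) + 1/2)⁻¹, 1) := by
  have hk' : (1:ℝ) ≤ k := by exact_mod_cast hk
  have hpos : 0 < (k:ℝ) + 1/2 := by linarith
  have hinv0 : 0 < ((k:ℝ) + 1/2)⁻¹ := by positivity
  obtain ⟨p, _, hp⟩ := path_short k hk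
  obtain ⟨q, _, hq⟩ := curve_path ((k:ℝ) + 1/2) 1 (by linarith) (le_refl _) _ (le_refl _)
  have hb : (⟨((1:ℝ)⁻¹, 2 + cos (2 * π * 1)), curve_mem _ (le_refl _)⟩ : KX) = bend := by
    apply Subtype.ext
    simp only [bend, inv_one, mul_one, cos_two_pi]
    norm_num
  have hge : ∀ t : unitInterval, 0 < (k:ℝ) + 1/2 + t * (1 - ((k:ℝ) + 1/2)) := by
    intro t
    nlinarith [t.2.1, t.2.2]
  have hinj : Function.Injective (p.trans q) := by
    apply trans_injective
    · intro s t hst
      have h := congrArg (fun x : KX => (x:ℝ × ℝ).2) hst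
      simp only [hp] at h
      exact Subtype.ext h
    · intro s t hst
      have h := congrArg (fun x : KX => (x:ℝ × ℝ).1) hst
      simp only [hq] at h
      have h2 := inv_injective h
      apply Subtype.ext
      have h3 : ((s:ℝ) - t) * (1 - ((k:ℝ) + 1/2)) = 0 := by linarith
      rcases mul_eq_zero.1 h3 with h4 | h4
      · linarith
      · linarith
    · intro s t hst
      have h := congrArg (fun x : KX => (x:ℝ × ℝ).1) hst
      simp only [hp, hq] at h
      -- s / (k+1/2) = 1/(k+1/2 + t (..)) and the latter is ≥ 1/(k+1/2)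
      have hden := hge t
      have h1 : ((k:ℝ) + 1/2)⁻¹ ≤ ((k:ℝ) + 1/2 + t * (1 - ((k:ℝ) + 1/2)))⁻¹ := by
        apply inv_anti₀ hden
        nlinarith [t.2.1]
      have h2 : (s:ℝ) * ((k:ℝ) + 1/2)⁻¹ ≤ ((k:ℝ) + 1/2)⁻¹ := by
        have := s.2.2
        nlinarith
      have h3 : (s:ℝ) * ((k:ℝ) + 1/2)⁻¹ = ((k:ℝ) + 1/2)⁻¹ := le_antisymm h2 (by rw [h]; exact h1)
      have h4 : (s:ℝ) = 1 := by
        have := mul_right_cancel₀ hinv0.ne' (h3.trans (one_mul _).symm)
        exact this
      have h5 : ((k:ℝ) + 1/2 + t * (1 - ((k:ℝ) + 1/2)))⁻¹ = ((k:ℝ) + 1/2)⁻¹ := by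
        rw [← h, h3]
      have h6 := inv_injective h5
      have h7 : (t:ℝ) * (1 - ((k:ℝ) + 1/2)) = 0 := by linarith
      refine ⟨Subtype.ext h4, Subtype.ext ?_⟩
      rcases mul_eq_zero.1 h7 with h8 | h8
      · exact h8
      · linarith
  refine ⟨(p.trans q).cast rfl hb.symm, ?_, ⟨⟨1/2, by norm_num, by norm_num⟩, ?_⟩⟩
  · exact hinj
  · rw [Path.cast_coe, Path.trans_apply, dif_pos (by norm_num)]
    rw [hp]
    norm_num

lemma not_uac : ¬ (∀ a b : KX, ∃ P : Set (Path a b),
          (∀ p ∈ P, Function.Injective ⇑p) ∧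
          (∀ ε : ℝ, ε > 0 → ∃ n : ℕ, ∀ p ∈ P, ∃ t : Fin (n + 1) → unitInterval,
              t 0 = 0 ∧ t (Fin.last n) = 1 ∧ StrictMono t ∧
              ∀ i : Fin n, Metric.diam (⇑p '' Set.Icc (t i.castSucc) (t i.succ)) ≤ ε) ∧
          (⋃ p ∈ P, Set.range ⇑p) =
            ⋃ (q : Path a b) (_ : Function.Injective ⇑q), Set.range ⇑q) := by
  intro H
  obtain ⟨P, hinj, hunif, hun⟩ := H hub bend
  obtain ⟨n, hn⟩ := hunif (1/2) (by norm_num)
  -- the bottom point number `k = n + 1`
  set k : ℕ := n + 1 with hk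
  have hk1 : 1 ≤ k := by omega
  have hk' : (1:ℝ) ≤ k := by exact_mod_cast hk1
  obtain ⟨q, hq, tq, htq⟩ := inj_path k hk1
  have hmem : (q tq) ∈ ⋃ p ∈ P, Set.range ⇑p := by
    rw [hun]
    exact mem_iUnion₂.2 ⟨q, hq, mem_range_self _⟩
  obtain ⟨p, hpP, s, hs⟩ := mem_iUnion₂.1 hmem
  obtain ⟨t, ht0, ht1, htm, htd⟩ := hn p hpP
  have hpi := hinj p hpP
  have hps : ((p s : KX) : ℝ × ℝ) = (((k:ℝ) + 1/2)⁻¹, 1) := by rw [hs, htq]
  have hs0 : s ≠ 0 := by
    rintro rfl
    rw [Path.source] at hps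
    have := congrArg Prod.snd hps
    simp [hub] at this
  have hs_pos : (0:ℝ) < s := lt_of_le_of_ne s.2.1 (fun h => hs0 (Subtype.ext h.symm))
  have hne : ∀ w : unitInterval, s ≤ w → p w ≠ hub := by
    intro w hw h
    have h1 : p w = p 0 := by rw [h, Path.source]
    have h2 := hpi h1
    rw [h2] at hw
    have : (s:ℝ) ≤ 0 := hw
    linarith
  have hcont : ContinuousOn (fun w => Φ (p w)) (Icc s 1) := by
    intro w hw
    exact ((continuousAt_Φ (p w) (hne w hw.1)).comp p.continuous.continuousAt).continuousWithinAt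
  have hΦs : Φ (p s) = ((k:ℝ) + 1/2)⁻¹ := by
    simp only [Φ, hps]; simp
  have hΦ1 : Φ (p 1) = 1 := by
    rw [Path.target]
    simp only [Φ, bend]
    norm_num
  have hs1 : s ≤ 1 := s.2.2
  -- top times
  have htop : ∀ j : ℕ, 1 ≤ j → j ≤ k → ∃ u ∈ Icc s 1, Φ (p u) = (j:ℝ)⁻¹ := by
    intro j hj1 hjk
    have hj1' : (1:ℝ) ≤ j := by exact_mod_cast hj1
    have hjk' : (j:ℝ) ≤ k := by exact_mod_cast hjk
    have hmemI : (j:ℝ)⁻¹ ∈ Icc (Φ (p s)) (Φ (p 1)) := by
      rw [hΦs, hΦ1]
      constructor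
      · apply inv_anti₀ (by linarith) (by linarith)
      · exact inv_le_one_of_one_le₀ hj1'
    have := intermediate_value_Icc hs1 hcont hmemI
    obtain ⟨u, hu, hu2⟩ := this
    exact ⟨u, hu, hu2⟩
  choose! U hU1 hU2 using htop
  -- index
  have hidx : ∀ u : unitInterval, ∃ i : Fin n, u ∈ Icc (t i.castSucc) (t i.succ) := by
    intro u
    have hn0 : n ≠ 0 := by
      rintro rfl
      have : (0 : unitInterval) = 1 := by
        rw [← ht0, ← ht1]; rfl
      exact zero_ne_one this
    -- the largest index with t i ≤ u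
    classical
    by_contra hcon
    push Not at hcon
    have hall : ∀ i : Fin (n+1), t i ≤ u := by
      intro i
      induction i using Fin.induction with
      | zero => rw [ht0]; exact u.2.1
      | succ i ih =>
        by_contra h
        push Not at h
        exact hcon i ⟨ih, h.le⟩
    have hlast := hall (Fin.last n)
    rw [ht1] at hlast
    have hu1 : u = 1 := le_antisymm u.2.2 hlast
    obtain ⟨m, rfl⟩ := Nat.exists_eq_succ_of_ne_zero hn0
    apply hcon (Fin.last m)
    refine ⟨hall _, ?_⟩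
    rw [hu1, Fin.succ_last, ht1]
  choose I hI using hidx
  -- injectivity
  have hinjI : ∀ j j' : ℕ, 1 ≤ j → j < j' → j' ≤ k → I (U j) ≠ I (U j') := by
    intro j j' hj hjj hj' heq
    have h1 := hI (U j)
    have h2 := hI (U j')
    rw [← heq] at h2
    set i := I (U j) with hi
    have hj1' : (1:ℝ) ≤ j := by exact_mod_cast hj
    have hjj' : (j:ℝ) + 1 ≤ j' := by exact_mod_cast hjj
    have hjk : j ≤ k := by omega
    have hjs : uIcc (U j) (U j') ⊆ Icc s 1 := by
      intro w hw
      rw [mem_uIcc] at hw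
      have a1 := hU1 j hj hjk
      have a2 := hU1 j' (by omega) hj'
      rcases hw with hw | hw
      · exact ⟨a1.1.trans hw.1, hw.2.trans a2.2⟩
      · exact ⟨a2.1.trans hw.1, hw.2.trans a1.2⟩
    have hji : uIcc (U j) (U j') ⊆ Icc (t i.castSucc) (t i.succ) := by
      intro w hw
      rw [mem_uIcc] at hw
      rcases hw with hw | hw
      · exact ⟨h1.1.trans hw.1, hw.2.trans h2.2⟩
      · exact ⟨h2.1.trans hw.1, hw.2.trans h1.2⟩
    have hv : ((j:ℝ) + 1/4)⁻¹ ∈ uIcc (Φ (p (U j))) (Φ (p (U j'))) := by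
      rw [hU2 j hj hjk, hU2 j' (by omega) hj', mem_uIcc]
      right
      constructor
      · apply inv_anti₀ (by linarith) (by linarith)
      · apply inv_anti₀ (by linarith) (by linarith)
    obtain ⟨w, hw, hw2⟩ := intermediate_value_uIcc (hcont.mono hjs) hv
    have hw3 := mid_unique (p w) (hne w (hjs hw).1) j hj hw2
    have hw4 := top_unique (p (U j)) (hne _ (hU1 j hj hjk).1) j hj (hU2 j hj hjk)
    have hdiam := htd i
    have hb : Bornology.IsBounded (⇑p '' Set.Icc (t i.castSucc) (t i.succ)) :=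
      (isCompact_univ.isBounded).subset (subset_univ _)
    have hd := Metric.dist_le_diam_of_mem hb (mem_image_of_mem p (hji hw)) (mem_image_of_mem p h1)
    have hd2 : (1:ℝ) ≤ dist (p w) (p (U j)) := by
      rw [Subtype.dist_eq, Prod.dist_eq]
      apply le_max_of_le_right
      rw [hw3, hw4, Real.dist_eq]
      norm_num
    linarith
  -- pigeonhole
  have hcard : Function.Injective (fun j : Fin k => I (U (j + 1))) := by
    intro j j' h
    simp only at h
    by_contra hne'
    rcases lt_or_gt_of_ne hne' with h1 | h1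
    · exact hinjI (j + 1) (j' + 1) (by omega) (by
        have : (j:ℕ) < j' := h1
        omega) (by have := j'.2; omega) h
    · exact hinjI (j' + 1) (j + 1) (by omega) (by
        have : (j':ℕ) < j := h1
        omega) (by have := j.2; omega) h.symm
  have := Fintype.card_le_of_injective _ hcard
  simp only [Fintype.card_fin] at this
  omega

end Pool.Agent.V11214.Kup
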