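import Pool.Agent.V11214.KFiveMono

set_option autoImplicit false
open Set Topology Metric

namespace Pool.Agent.V11214.KFive

/-- The complete graph `K₅`: points of the standard simplex with at most two nonzero coordinates. -/
def K5set : Set (Fin 5 → ℝ) :=
  {p | (∀ i, 0 ≤ p i) ∧ ∑ i, p i = 1 ∧ ∃ a b, ∀ c, c ≠ a → c ≠ b → p c = 0}

abbrev K5 : Type := ↥K5set

theorem contc (c : Fin 5) : Continuous fun y : K5 => y.1 c :=
  (continuous_apply c).comp continuous_subtype_val

/-- Edge (closed). -/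
def Ed (a b : Fin 5) : Set K5 := {y | ∀ c, c ≠ a → c ≠ b → y.1 c = 0}

theorem isClosed_Ed (a b : Fin 5) : IsClosed (Ed a b) := by
  have : Ed a b = ⋂ c, ⋂ (_ : c ≠ a), ⋂ (_ : c ≠ b), {y : K5 | y.1 c = 0} := by
    ext y; simp [Ed]
  rw [this]
  refine isClosed_iInter fun c => isClosed_iInter fun _ => isClosed_iInter fun _ => ?_
  exact isClosed_eq (contc c) continuous_const

theorem exists_Ed (y : K5) : ∃ a b, y ∈ Ed a b := y.2.2.2

theorem mem_par (a b : Fin 5) (t : unitInterval) :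
    (fun i => (1 - (t : ℝ)) * (Pi.single a 1 : Fin 5 → ℝ) i + (t : ℝ) * (Pi.single b 1 : Fin 5 → ℝ) i) ∈ K5set := by
  have h0 : 0 ≤ (t : ℝ) := t.2.1
  have h1 : 0 ≤ 1 - (t : ℝ) := by linarith [t.2.2]
  refine ⟨fun i => ?_, ?_, a, b, fun c hca hcb => ?_⟩
  · have : ∀ j : Fin 5, 0 ≤ (Pi.single j 1 : Fin 5 → ℝ) i := fun j => by
      by_cases h : i = j
      · subst h; simp
      · simp [h]
    exact add_nonneg (mul_nonneg h1 (this a)) (mul_nonneg h0 (this b))
  · rw [Finset.sum_add_distrib, ← Finset.mul_sum, ← Finset.mul_sum]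
    simp
  · simp [hca, hcb]

/-- Parametrisation of the edges. -/
def par (p : (Fin 5 × Fin 5) × unitInterval) : K5 := ⟨_, mem_par p.1.1 p.1.2 p.2⟩

theorem continuous_par : Continuous par := by
  unfold par
  refine Continuous.subtype_mk ?_ _
  refine continuous_pi fun i => ?_
  have h1 : Continuous fun p : (Fin 5 × Fin 5) × unitInterval => (Pi.single p.1.1 1 : Fin 5 → ℝ) i :=
    (continuous_of_discreteTopology (f := fun q : Fin 5 × Fin 5 => (Pi.single q.1 1 : Fin 5 → ℝ) i)).comp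
      continuous_fst
  have h2 : Continuous fun p : (Fin 5 × Fin 5) × unitInterval => (Pi.single p.1.2 1 : Fin 5 → ℝ) i :=
    (continuous_of_discreteTopology (f := fun q : Fin 5 × Fin 5 => (Pi.single q.2 1 : Fin 5 → ℝ) i)).comp
      continuous_fst
  fun_prop

theorem sum_two (p : Fin 5 → ℝ) (a b : Fin 5) (hab : a ≠ b) (h : ∀ c, c ≠ a → c ≠ b → p c = 0) :
    ∑ i, p i = p a + p b := by
  rw [← Finset.sum_subset (Finset.subset_univ {a, b}), Finset.sum_pair hab]
  intro x _ hx
  simp only [Finset.mem_insert, Finset.mem_singleton, not_or] at hx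
  exact h x hx.1 hx.2

theorem sum_one' (p : Fin 5 → ℝ) (a : Fin 5) (h : ∀ c, c ≠ a → p c = 0) :
    ∑ i, p i = p a := by
  rw [Finset.sum_eq_single a]
  · intro b _ hb; exact h b hb
  · simp

theorem Ed_eq_image (a b : Fin 5) : Ed a b = (fun t : unitInterval => par ((a, b), t)) '' univ := by
  ext y
  constructor
  · intro hy
    by_cases hab : a = b
    · subst hab
      refine ⟨0, mem_univ _, ?_⟩
      apply Subtype.ext
      have hs := y.2.2.1
      rw [sum_one' y.1 a (fun c hc => hy c hc hc)] at hs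
      funext i
      by_cases hi : i = a
      · subst hi; simp [par, hs]
      · simp [par, hi, hy i hi hi]
    · have hs := y.2.2.1
      rw [sum_two y.1 a b hab hy] at hs
      refine ⟨⟨y.1 b, y.2.1 b, by linarith [y.2.1 a]⟩, mem_univ _, ?_⟩
      apply Subtype.ext
      funext i
      by_cases hi : i = a
      · subst hi
        simp [par, hab]
        linarith
      · by_cases hi' : i = b
        · subst hi'; simp [par, hi]
        · simp [par, hi, hi', hy i hi hi']
  · rintro ⟨t, _, rfl⟩ c hca hcb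
    simp [par, hca, hcb]

theorem surjective_par : Function.Surjective par := by
  intro y
  obtain ⟨a, b, h⟩ := exists_Ed y
  rw [Ed_eq_image] at h
  obtain ⟨t, _, ht⟩ := h
  exact ⟨_, ht⟩

instance : CompactSpace K5 := surjective_par.compactSpace continuous_par

instance : LocallyConnectedSpace K5 := by
  have hq : IsQuotientMap par :=
    Topology.IsQuotientMap.of_surjective_continuous surjective_par continuous_par
  have : LocallyPathConnectedSpace unitInterval := by
    have := (convex_Icc (0 : ℝ) 1).locallyPathConnectedSpace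
    exact this
  have : LocallyPathConnectedSpace K5 := hq.locallyPathConnectedSpace
  infer_instance

/-- Vertices. -/
def vt (a : Fin 5) : K5 := par ((a, a), 0)

theorem vt_apply (a i : Fin 5) : (vt a).1 i = (Pi.single a 1 : Fin 5 → ℝ) i := by
  simp [vt, par]

theorem vt_mem_left (a b : Fin 5) : vt a ∈ Ed a b := by
  intro c hca _
  rw [vt_apply]; simp [hca]

theorem vt_mem_right (a b : Fin 5) : vt b ∈ Ed a b := by
  intro c _ hcb
  rw [vt_apply]; simp [hcb]

theorem isPreconnected_Ed (a b : Fin 5) : IsPreconnected (Ed a b) := by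
  rw [Ed_eq_image]
  refine isPreconnected_univ.image _ (Continuous.continuousOn ?_)
  exact continuous_par.comp (by fun_prop)

theorem Ed_disjoint (a b c d : Fin 5) (hac : a ≠ c) (had : a ≠ d) (hbc : b ≠ c) (hbd : b ≠ d) :
    Disjoint (Ed a b) (Ed c d) := by
  rw [Set.disjoint_left]
  intro y h1 h2
  have h0 : ∀ i, y.1 i = 0 := by
    intro i
    by_cases hia : i = a
    · subst hia; exact h2 i hac had
    · by_cases hib : i = b
      · subst hib; exact h2 i hbc hbd
      · exact h1 i hia hib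
  have hs := y.2.2.1
  simp [h0] at hs

instance : ConnectedSpace K5 := by
  refine { isPreconnected_univ := ?_, toNonempty := ⟨vt 0⟩ }
  refine isPreconnected_of_forall (vt 0) fun y _ => ?_
  obtain ⟨a, b, h⟩ := exists_Ed y
  exact ⟨Ed 0 a ∪ Ed a b, subset_univ _, Or.inl (vt_mem_left _ _), Or.inr h,
    IsPreconnected.union (vt a) (vt_mem_right _ _) (vt_mem_left _ _) (isPreconnected_Ed _ _)
      (isPreconnected_Ed _ _)⟩

instance : Nontrivial K5 := by
  refine ⟨vt 0, vt 1, fun h => ?_⟩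
  have := congrArg (fun y : K5 => y.1 0) h
  simp only [vt_apply] at this
  simp at this

/-- open subarcs of edges -/
def W (a b : Fin 5) (s t : ℝ) : Set K5 := {y | 0 < y.1 a ∧ s < y.1 b ∧ y.1 b < t}

theorem isOpen_W (a b : Fin 5) (s t : ℝ) : IsOpen (W a b s t) := by
  have h1 : IsOpen {y : K5 | 0 < y.1 a} := isOpen_lt continuous_const (contc a)
  have h2 : IsOpen {y : K5 | s < y.1 b} := isOpen_lt continuous_const (contc b)
  have h3 : IsOpen {y : K5 | y.1 b < t} := isOpen_lt (contc b) continuous_const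
  exact h1.inter (h2.inter h3)

theorem W_nonempty (a b : Fin 5) (hab : a ≠ b) (s t : ℝ) (h0 : 0 ≤ s) (hst : s < t) (h1 : t ≤ 1) :
    (W a b s t).Nonempty := by
  refine ⟨par ((a, b), ⟨(s + t) / 2, by constructor <;> linarith⟩), ?_, ?_, ?_⟩
  · simp [par, hab]; linarith
  · simp [par, hab.symm]; linarith
  · simp [par, hab.symm]; linarith

theorem mem_Ed_of_pos (y : K5) (a b : Fin 5) (hab : a ≠ b) (ha : 0 < y.1 a) (hb : 0 < y.1 b) :
    y ∈ Ed a b := by
  obtain ⟨c, d, h⟩ := exists_Ed y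
  have h1 : a = c ∨ a = d := by
    by_contra hh; push Not at hh; exact ha.ne' (h a hh.1 hh.2)
  have h2 : b = c ∨ b = d := by
    by_contra hh; push Not at hh; exact hb.ne' (h b hh.1 hh.2)
  intro e hea heb
  rcases h1 with h1 | h1 <;> rcases h2 with h2 | h2
  · exact absurd (h1.trans h2.symm) hab
  · subst h1; subst h2; exact h e hea heb
  · subst h1; subst h2; exact h e heb hea
  · exact absurd (h1.trans h2.symm) hab

theorem sum_of_pos (y : K5) (a b : Fin 5) (hab : a ≠ b) (ha : 0 < y.1 a) (hb : 0 < y.1 b) :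
    y.1 a + y.1 b = 1 := by
  rw [← sum_two y.1 a b hab (mem_Ed_of_pos y a b hab ha hb)]
  exact y.2.2.1

theorem eq_of_pos (y z : K5) (a b : Fin 5) (hab : a ≠ b) (ha : 0 < y.1 a) (hb : 0 < y.1 b)
    (ha' : 0 < z.1 a) (h : y.1 b = z.1 b) : y = z := by
  have hb' : 0 < z.1 b := h ▸ hb
  have e1 := mem_Ed_of_pos y a b hab ha hb
  have e2 := mem_Ed_of_pos z a b hab ha' hb'
  have s1 := sum_of_pos y a b hab ha hb
  have s2 := sum_of_pos z a b hab ha' hb'
  apply Subtype.ext
  funext i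
  by_cases hi : i = a
  · subst hi; linarith
  · by_cases hi' : i = b
    · subst hi'; exact h
    · rw [e1 i hi hi', e2 i hi hi']

theorem clopen_arg (L : Set K5) (hL : IsPreconnected L) (a b : Fin 5) (hab : a ≠ b) (u w q : K5)
    (hu : 0 < u.1 a) (hu' : 0 < u.1 b) (huL : u ∉ L) (hw : 0 < w.1 a) (hw' : 0 < w.1 b)
    (hwL : w ∉ L) (hq : q ∈ L) (hqW : q ∈ W a b (u.1 b) (w.1 b)) :
    L ⊆ W a b (u.1 b) (w.1 b) := by
  have hO : IsOpen {y : K5 | ¬ (u.1 b ≤ y.1 b ∧ y.1 b ≤ w.1 b ∧ 1 - w.1 b ≤ y.1 a)} := by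
    rw [← isClosed_compl_iff]
    have h1 : IsClosed {y : K5 | u.1 b ≤ y.1 b} := isClosed_le continuous_const (contc b)
    have h2 : IsClosed {y : K5 | y.1 b ≤ w.1 b} := isClosed_le (contc b) continuous_const
    have h3 : IsClosed {y : K5 | 1 - w.1 b ≤ y.1 a} := isClosed_le continuous_const (contc a)
    convert h1.inter (h2.inter h3) using 1
    ext y
    simp only [mem_compl_iff, Set.mem_ofPred_eq, not_not, mem_inter_iff]
  have hsw := sum_of_pos w a b hab hw hw'
  have hcov : L ⊆ W a b (u.1 b) (w.1 b) ∪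
      {y : K5 | ¬ (u.1 b ≤ y.1 b ∧ y.1 b ≤ w.1 b ∧ 1 - w.1 b ≤ y.1 a)} := by
    intro y hy
    by_cases h : u.1 b ≤ y.1 b ∧ y.1 b ≤ w.1 b ∧ 1 - w.1 b ≤ y.1 a
    · left
      obtain ⟨h1, h2, h3⟩ := h
      have hya : 0 < y.1 a := by linarith
      have hyb : 0 < y.1 b := by linarith
      refine ⟨hya, lt_of_le_of_ne h1 fun h => huL ?_, lt_of_le_of_ne h2 fun h => hwL ?_⟩
      · rw [eq_of_pos u y a b hab hu hu' hya h]; exact hy
      · rw [← eq_of_pos y w a b hab hya hyb hw h]; exact hy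
    · right; exact h
  intro y hy
  by_contra hyW
  have hyW' : y ∈ {y : K5 | ¬ (u.1 b ≤ y.1 b ∧ y.1 b ≤ w.1 b ∧ 1 - w.1 b ≤ y.1 a)} :=
    (hcov hy).resolve_left hyW
  obtain ⟨z, hz, ⟨hz1, hz2, hz3⟩, hz4⟩ := hL _ _ (isOpen_W a b _ _) hO hcov ⟨q, hq, hqW⟩ ⟨y, hy, hyW'⟩
  have hzb : 0 < z.1 b := hu'.trans hz2
  have := sum_of_pos z a b hab hz1 hzb
  exact hz4 ⟨hz2.le, hz3.le, by linarith⟩

theorem exists_open_subset (L : Set K5) (hL : IsPreconnected L) (hn : L.Nontrivial) :
    ∃ U : Set K5, IsOpen U ∧ U.Nonempty ∧ U ⊆ L := by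
  have hinf := hL.infinite_of_nontrivial hn
  obtain ⟨q, hqL, hqV⟩ : ∃ q ∈ L, q ∉ range vt := by
    by_contra hh
    push Not at hh
    exact hinf ((finite_range vt).subset hh)
  obtain ⟨a, b, hq⟩ := exists_Ed q
  have hab : a ≠ b := by
    rintro rfl
    apply hqV
    refine ⟨a, Subtype.ext (funext fun i => ?_)⟩
    have hs := q.2.2.1
    rw [sum_one' q.1 a (fun c hc => hq c hc hc)] at hs
    rw [vt_apply]
    by_cases hi : i = a
    · subst hi; simp [hs]
    · simp [hi, hq i hi hi]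
  have hsum := q.2.2.1
  rw [sum_two q.1 a b hab hq] at hsum
  have hqa : 0 < q.1 a := by
    refine lt_of_le_of_ne (q.2.1 a) fun h => hqV ⟨b, Subtype.ext (funext fun i => ?_)⟩
    rw [vt_apply]
    by_cases hi : i = a
    · subst hi; simp [hab, ← h]
    · by_cases hi' : i = b
      · subst hi'; simp; linarith
      · simp [hi', hq i hi hi']
  have hqb : 0 < q.1 b := by
    refine lt_of_le_of_ne (q.2.1 b) fun h => hqV ⟨a, Subtype.ext (funext fun i => ?_)⟩
    rw [vt_apply]
    by_cases hi : i = a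
    · subst hi; simp; linarith
    · by_cases hi' : i = b
      · subst hi'; simp [hab.symm, ← h]
      · simp [hi, hq i hi hi']
  by_contra hno
  push Not at hno
  obtain ⟨z, hzL, hzq⟩ : ∃ z ∈ L, z ≠ q := hn.exists_ne q
  obtain ⟨ε, hε, hε1, hε2, hε3⟩ : ∃ ε : ℝ, 0 < ε ∧ ε ≤ q.1 b ∧ ε ≤ q.1 a ∧
      (0 < z.1 a → 0 < z.1 b → ε ≤ |z.1 b - q.1 b|) := by
    by_cases h : 0 < z.1 a ∧ 0 < z.1 b
    · have hne : z.1 b - q.1 b ≠ 0 := by
        rw [sub_ne_zero]
        intro h'
        exact hzq (eq_of_pos z q a b hab h.1 h.2 hqa h')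
      exact ⟨min (min (q.1 b) (q.1 a)) |z.1 b - q.1 b|,
        lt_min (lt_min hqb hqa) (abs_pos.2 hne), (min_le_left _ _).trans (min_le_left _ _),
        (min_le_left _ _).trans (min_le_right _ _), fun _ _ => min_le_right _ _⟩
    · exact ⟨min (q.1 b) (q.1 a), lt_min hqb hqa, min_le_left _ _, min_le_right _ _,
        fun h1 h2 => absurd ⟨h1, h2⟩ h⟩
  have h1 := hno (W a b (q.1 b - ε) (q.1 b)) (isOpen_W _ _ _ _)
    (W_nonempty a b hab _ _ (by linarith) (by linarith) (by linarith))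
  have h2 := hno (W a b (q.1 b) (q.1 b + ε)) (isOpen_W _ _ _ _)
    (W_nonempty a b hab _ _ (by linarith) (by linarith) (by linarith))
  rw [Set.not_subset] at h1 h2
  obtain ⟨u, ⟨hu1, hu2, hu3⟩, huL⟩ := h1
  obtain ⟨w, ⟨hw1, hw2, hw3⟩, hwL⟩ := h2
  have hsub := clopen_arg L hL a b hab u w q hu1 (by linarith) huL hw1 (by linarith) hwL hqL
    ⟨hqa, hu3, hw2⟩
  obtain ⟨hz1, hz2, hz3⟩ := hsub hzL
  have := hε3 hz1 (by linarith)
  have habs : |z.1 b - q.1 b| < ε := by
    rw [abs_lt]; constructor <;> linarith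
  linarith

theorem not_planar (S : Set (EuclideanSpace ℝ (Fin 2))) (f : ↥S → K5) (hS : IsCompact S)
    (hf : Continuous f) (hs : Function.Surjective f)
    (hm : ∀ y, IsConnected (Subtype.val '' (f ⁻¹' {y}))) : False :=
  no_monotone vt Ed isClosed_Ed isPreconnected_Ed vt_mem_left vt_mem_right
    (fun a b c d _ _ h1 h2 h3 h4 => Ed_disjoint a b c d h1 h2 h3 h4) S f hS hf hs hm

end Pool.Agent.V11214.KFive
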