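import Mathlib

set_option autoImplicit false
open Set

namespace Pool.Agent.V11214.HIField

/-- A field of subsets of `ℕ` separating points, all of whose nonempty members are infinite. -/
structure Fld (𝓑 : Set (Set ℕ)) : Prop where
  compl : ∀ A ∈ 𝓑, Aᶜ ∈ 𝓑
  inter : ∀ A ∈ 𝓑, ∀ B ∈ 𝓑, A ∩ B ∈ 𝓑
  inf : ∀ A ∈ 𝓑, A.Nonempty → A.Infinite
  sep : ∀ m n : ℕ, m ≠ n → ∃ A ∈ 𝓑, m ∈ A ∧ n ∉ A

def base : Set (Set ℕ) := {A | ∃ d : ℕ, 0 < d ∧ ∀ m n, m ≡ n [MOD d] → (m ∈ A ↔ n ∈ A)}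

theorem fld_base : Fld base := by
  refine ⟨?_, ?_, ?_, ?_⟩
  · rintro A ⟨d, hd, h⟩
    exact ⟨d, hd, fun m n hmn => by simp only [mem_compl_iff]; rw [h m n hmn]⟩
  · rintro A ⟨d, hd, h⟩ B ⟨d', hd', h'⟩
    refine ⟨d * d', Nat.mul_pos hd hd', fun m n hmn => ?_⟩
    rw [mem_inter_iff, mem_inter_iff, h m n (Nat.ModEq.of_mul_right _ hmn),
      h' m n (Nat.ModEq.of_mul_left _ hmn)]
  · rintro A ⟨d, hd, h⟩ ⟨a, ha⟩
    rw [Set.infinite_iff_exists_gt]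
    · intro k
      refine ⟨a + d * (k + 1), ?_, ?_⟩
      · rw [← h a]
        · exact ha
        · simp [Nat.ModEq]
      · nlinarith
  · intro m n hmn
    refine ⟨{x | x ≡ m [MOD (m + n + 1)]}, ⟨m + n + 1, by omega, fun x y hxy => ?_⟩, ?_, ?_⟩
    · simp only [Set.mem_ofPred_eq]
      exact ⟨fun h => hxy.symm.trans h, fun h => hxy.trans h⟩
    · exact Nat.ModEq.refl _
    · intro h
      have : n ≡ m [MOD (m + n + 1)] := h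
      unfold Nat.ModEq at this
      rw [Nat.mod_eq_of_lt (by omega), Nat.mod_eq_of_lt (by omega)] at this
      exact hmn this.symm

theorem exists_max : ∃ 𝓑 : Set (Set ℕ), Fld 𝓑 ∧ ∀ 𝓒, Fld 𝓒 → 𝓑 ⊆ 𝓒 → 𝓒 = 𝓑 := by
  obtain ⟨𝓑, hb, hm⟩ := zorn_subset_nonempty {𝓑 : Set (Set ℕ) | Fld 𝓑} (by
    intro c hc hchain hne
    refine ⟨⋃₀ c, ?_, fun s hs => subset_sUnion_of_mem hs⟩
    refine ⟨?_, ?_, ?_, ?_⟩
    · rintro A ⟨s, hs, hA⟩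
      exact ⟨s, hs, (hc hs).compl A hA⟩
    · rintro A ⟨s, hs, hA⟩ B ⟨t, ht, hB⟩
      rcases hchain.total hs ht with h | h
      · exact ⟨t, ht, (hc ht).inter A (h hA) B hB⟩
      · exact ⟨s, hs, (hc hs).inter A hA B (h hB)⟩
    · rintro A ⟨s, hs, hA⟩ hn
      exact (hc hs).inf A hA hn
    · intro m n hmn
      obtain ⟨s, hs⟩ := hne
      obtain ⟨A, hA, h⟩ := (hc hs).sep m n hmn
      exact ⟨A, ⟨s, hs, hA⟩, h⟩) base fld_base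
  exact ⟨𝓑, hm.prop, fun 𝓒 hC hsub => (hm.eq_of_subset hC hsub).symm⟩

variable {𝓑 : Set (Set ℕ)}

theorem Fld.univ_mem (h : Fld 𝓑) : (univ : Set ℕ) ∈ 𝓑 := by
  obtain ⟨A, hA, _⟩ := h.sep 0 1 (by norm_num)
  have := h.compl _ (h.inter A hA _ (h.compl A hA))
  simpa using this

theorem Fld.empty_mem (h : Fld 𝓑) : (∅ : Set ℕ) ∈ 𝓑 := by
  simpa using h.compl _ h.univ_mem

theorem Fld.shrink (h : Fld 𝓑) (c : ℕ) (Φ : Set ℕ) (hΦ : Φ.Finite) (hc : c ∉ Φ) (C : Set ℕ)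
    (hC : C ∈ 𝓑) (hcC : c ∈ C) : ∃ D ∈ 𝓑, c ∈ D ∧ D ⊆ C ∧ Disjoint D Φ := by
  induction Φ, hΦ using Set.Finite.induction_on with
  | empty => exact ⟨C, hC, hcC, subset_rfl, disjoint_empty _⟩
  | @insert a s ha hs ih =>
    obtain ⟨D, hD, hcD, hDC, hdis⟩ := ih (fun h' => hc (mem_insert_of_mem _ h'))
    obtain ⟨A, hA, hcA, haA⟩ := h.sep c a (fun h' => hc (h' ▸ mem_insert _ _))
    refine ⟨D ∩ A, h.inter _ hD _ hA, ⟨hcD, hcA⟩, fun x hx => hDC hx.1, ?_⟩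
    rw [Set.disjoint_left] at hdis ⊢
    rintro x ⟨hxD, hxA⟩ (rfl | hx)
    · exact haA hxA
    · exact hdis hxD hx

theorem gen_prop (h : Fld 𝓑) (hmax : ∀ 𝓒, Fld 𝓒 → 𝓑 ⊆ 𝓒 → 𝓒 = 𝓑) (A : Set ℕ) (hA : A ∉ 𝓑) :
    ∃ C ∈ 𝓑, ((C ∩ A).Nonempty ∧ (C ∩ A).Finite) ∨ ((C \ A).Nonempty ∧ (C \ A).Finite) := by
  by_contra hno
  push Not at hno
  let 𝓒 : Set (Set ℕ) := {D | ∃ B₁ ∈ 𝓑, ∃ B₂ ∈ 𝓑, D = (B₁ ∩ A) ∪ (B₂ \ A)}
  have hF : Fld 𝓒 := by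
    refine ⟨?_, ?_, ?_, ?_⟩
    · rintro D ⟨B₁, h1, B₂, h2, rfl⟩
      refine ⟨B₁ᶜ, h.compl _ h1, B₂ᶜ, h.compl _ h2, ?_⟩
      ext x
      simp only [mem_compl_iff, mem_union, mem_inter_iff, mem_sdiff]
      tauto
    · rintro D ⟨B₁, h1, B₂, h2, rfl⟩ D' ⟨B₁', h1', B₂', h2', rfl⟩
      refine ⟨B₁ ∩ B₁', h.inter _ h1 _ h1', B₂ ∩ B₂', h.inter _ h2 _ h2', ?_⟩
      ext x
      simp only [mem_union, mem_inter_iff, mem_sdiff]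
      tauto
    · rintro D ⟨B₁, h1, B₂, h2, rfl⟩ hn
      rcases hn with ⟨x, hx | hx⟩
      · exact ((hno B₁ h1).1 ⟨x, hx⟩).mono subset_union_left
      · exact ((hno B₂ h2).2 ⟨x, hx⟩).mono subset_union_right
    · intro m n hmn
      obtain ⟨B, hB, hm, hn⟩ := h.sep m n hmn
      refine ⟨B, ⟨B, hB, B, hB, ?_⟩, hm, hn⟩
      ext x
      simp only [mem_union, mem_inter_iff, mem_sdiff]
      tauto
  have hsub : 𝓑 ⊆ 𝓒 := fun B hB => ⟨B, hB, B, hB, by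
    ext x
    simp only [mem_union, mem_inter_iff, mem_sdiff]
    tauto⟩
  have := hmax 𝓒 hF hsub
  apply hA
  rw [← this]
  exact ⟨univ, h.univ_mem, ∅, h.empty_mem, by simp⟩

/-- Two disjoint sets with the same closure. -/
def RP (𝓑 : Set (Set ℕ)) (p : Set ℕ × Set ℕ) : Prop :=
  Disjoint p.1 p.2 ∧ ∀ C ∈ 𝓑, (C ∩ p.1).Nonempty ↔ (C ∩ p.2).Nonempty

theorem exists_max_RP (𝓑 : Set (Set ℕ)) : ∃ p : Set ℕ × Set ℕ, RP 𝓑 p ∧ ∀ q, RP 𝓑 q → p ≤ q → q = p := by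
  obtain ⟨p, hp, hm⟩ := zorn_le_nonempty₀ {p : Set ℕ × Set ℕ | RP 𝓑 p} (by
    intro c hc hchain y hy
    refine ⟨(⋃ q ∈ c, q.1, ⋃ q ∈ c, q.2), ⟨?_, ?_⟩, ?_⟩
    · simp only [Set.disjoint_left, mem_iUnion]
      rintro x ⟨q, hq, hx⟩ ⟨r, hr, hx'⟩
      rcases hchain.total hq hr with h | h
      · exact Set.disjoint_left.1 (hc hr).1 (h.1 hx) hx'
      · exact Set.disjoint_left.1 (hc hq).1 hx (h.2 hx')
    · intro C hC
      constructor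
      · rintro ⟨x, hxC, hx⟩
        simp only [mem_iUnion] at hx
        obtain ⟨q, hq, hx⟩ := hx
        obtain ⟨z, hz, hz'⟩ := ((hc hq).2 C hC).1 ⟨x, hxC, hx⟩
        exact ⟨z, hz, mem_biUnion hq hz'⟩
      · rintro ⟨x, hxC, hx⟩
        simp only [mem_iUnion] at hx
        obtain ⟨q, hq, hx⟩ := hx
        obtain ⟨z, hz, hz'⟩ := ((hc hq).2 C hC).2 ⟨x, hxC, hx⟩
        exact ⟨z, hz, mem_biUnion hq hz'⟩
    · intro q hq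
      exact ⟨fun x hx => mem_biUnion hq hx, fun x hx => mem_biUnion hq hx⟩)
    (∅, ∅) ⟨disjoint_empty _, fun C _ => Iff.rfl⟩
  refine ⟨p, hm.prop, fun q hq hpq => ?_⟩
  exact le_antisymm (hm.le_of_ge hq hpq) hpq

/-- Existence of a suitable field together with a member on which it is hereditarily
irresolvable. -/
theorem exists_HI : ∃ 𝓑 : Set (Set ℕ), Fld 𝓑 ∧ ∃ G ∈ 𝓑, G.Nonempty ∧
    ∀ F : Set ℕ, F ⊆ G → F.Nonempty → ∀ S : Set ℕ, ∃ C ∈ 𝓑, (C ∩ F).Nonempty ∧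
      (C ∩ F ∩ S = ∅ ∨ C ∩ F ⊆ S) := by
  obtain ⟨𝓑, h, hmax⟩ := exists_max
  obtain ⟨⟨A, B⟩, ⟨hdis, hAB⟩, hpm⟩ := exists_max_RP 𝓑
  simp only at hdis hAB
  refine ⟨𝓑, h, ?_⟩
  obtain ⟨G, hG, hGn, hGd⟩ : ∃ G ∈ 𝓑, G.Nonempty ∧ G ∩ (A ∪ B) = ∅ := by
    by_contra hno
    push Not at hno
    have hdA : ∀ C ∈ 𝓑, C.Nonempty → (C ∩ A).Nonempty := by
      intro C hC hCn
      obtain ⟨x, hxC, hx | hx⟩ := hno C hC hCn
      · exact ⟨x, hxC, hx⟩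
      · exact (hAB C hC).2 ⟨x, hxC, hx⟩
    have hdB : ∀ C ∈ 𝓑, C.Nonempty → (C ∩ B).Nonempty := fun C hC hCn =>
      (hAB C hC).1 (hdA C hC hCn)
    by_cases hAm : A ∈ 𝓑
    · have hAn : A.Nonempty := by
        obtain ⟨x, _, hx⟩ := hdA univ h.univ_mem univ_nonempty
        exact ⟨x, hx⟩
      obtain ⟨x, hx, hx'⟩ := hdB A hAm hAn
      exact Set.disjoint_left.1 hdis hx hx'
    · obtain ⟨C, hC, ⟨hn, hf⟩ | ⟨hn, hf⟩⟩ := gen_prop h hmax A hAm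
      · obtain ⟨c, hcC, hcB⟩ := hdB C hC (hn.mono inter_subset_left)
        obtain ⟨D, hD, hcD, hDC, hDd⟩ := h.shrink c (C ∩ A) hf
          (fun h' => Set.disjoint_left.1 hdis h'.2 hcB) C hC hcC
        obtain ⟨x, hxD, hxA⟩ := hdA D hD ⟨c, hcD⟩
        exact Set.disjoint_left.1 hDd hxD ⟨hDC hxD, hxA⟩
      · obtain ⟨c, hcC, hcA⟩ := hdA C hC (hn.mono sdiff_subset)
        obtain ⟨D, hD, hcD, hDC, hDd⟩ := h.shrink c (C \ A) hf (fun h' => h'.2 hcA) C hC hcC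
        obtain ⟨x, hxD, hxB⟩ := hdB D hD ⟨c, hcD⟩
        exact Set.disjoint_left.1 hDd hxD ⟨hDC hxD, fun h' => Set.disjoint_left.1 hdis h' hxB⟩
  refine ⟨G, hG, hGn, fun F hFG hFn S => ?_⟩
  by_contra hno
  push Not at hno
  have hRP : RP 𝓑 (A ∪ (F ∩ S), B ∪ (F \ S)) := by
    have hGA : ∀ x ∈ F, x ∉ A ∧ x ∉ B := by
      intro x hx
      constructor
      · intro hxA
        have : x ∈ G ∩ (A ∪ B) := ⟨hFG hx, Or.inl hxA⟩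
        rw [hGd] at this; exact this
      · intro hxB
        have : x ∈ G ∩ (A ∪ B) := ⟨hFG hx, Or.inr hxB⟩
        rw [hGd] at this; exact this
    refine ⟨?_, fun C hC => ?_⟩
    · rw [Set.disjoint_left]
      rintro x (hx | hx) (hx' | hx')
      · exact Set.disjoint_left.1 hdis hx hx'
      · exact (hGA x hx'.1).1 hx
      · exact (hGA x hx.1).2 hx'
      · exact hx'.2 hx.2
    · constructor
      · rintro ⟨x, hxC, hx | hx⟩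
        · obtain ⟨z, hz, hz'⟩ := (hAB C hC).1 ⟨x, hxC, hx⟩
          exact ⟨z, hz, Or.inl hz'⟩
        · obtain ⟨_, h2⟩ := hno C hC ⟨x, hxC, hx.1⟩
          rw [Set.not_subset] at h2
          obtain ⟨z, hz, hz'⟩ := h2
          exact ⟨z, hz.1, Or.inr ⟨hz.2, hz'⟩⟩
      · rintro ⟨x, hxC, hx | hx⟩
        · obtain ⟨z, hz, hz'⟩ := (hAB C hC).2 ⟨x, hxC, hx⟩
          exact ⟨z, hz, Or.inl hz'⟩
        · obtain ⟨h1, _⟩ := hno C hC ⟨x, hxC, hx.1⟩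
          obtain ⟨z, hz⟩ := h1
          exact ⟨z, hz.1.1, Or.inr ⟨hz.1.2, hz.2⟩⟩
  have heq := hpm _ hRP ⟨subset_union_left, subset_union_left⟩
  obtain ⟨y, hy⟩ := hFn
  obtain ⟨h1, _⟩ := hno univ h.univ_mem ⟨y, mem_univ _, hy⟩
  obtain ⟨z, hz⟩ := h1
  have hzA : z ∈ A := by
    have : z ∈ A ∪ (F ∩ S) := Or.inr ⟨hz.1.2, hz.2⟩
    have h3 : A ∪ (F ∩ S) = A := (Prod.ext_iff.1 heq).1
    rw [h3] at this
    exact this
  have : z ∈ G ∩ (A ∪ B) := ⟨hFG hz.1.2, Or.inl hzA⟩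
  rw [hGd] at this
  exact this

end Pool.Agent.V11214.HIField
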