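import Mathlib

set_option autoImplicit false

namespace Pool.Agent.V11214.Irr

open Set Topology

/-- nested intersection of compact preconnected sets -/
theorem isPreconnected_iInter {X : Type*} [TopologicalSpace X] [T2Space X]
    {ι : Type*} [Nonempty ι] {V : ι → Set X} (hV : Directed (· ⊇ ·) V)
    (hcl : ∀ i, IsCompact (V i)) (hpre : ∀ i, IsPreconnected (V i)) :
    IsPreconnected (⋂ i, V i) := by
  rw [isPreconnected_closed_iff]
  intro t t' ht ht' hsub hnt hnt'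
  by_contra hemp
  rw [Set.not_nonempty_iff_eq_empty] at hemp
  have hI : IsCompact (⋂ i, V i) := by
    obtain ⟨i⟩ := ‹Nonempty ι›
    exact (hcl i).of_isClosed_subset (isClosed_iInter fun i => (hcl i).isClosed)
      (iInter_subset _ _)
  have hCc : IsCompact ((⋂ i, V i) ∩ t) := hI.inter_right ht
  have hDc : IsCompact ((⋂ i, V i) ∩ t') := hI.inter_right ht'
  have hdisj : Disjoint ((⋂ i, V i) ∩ t) ((⋂ i, V i) ∩ t') := by
    rw [Set.disjoint_iff_inter_eq_empty, Set.eq_empty_iff_forall_notMem]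
    rintro x ⟨hx1, hx2⟩
    have : x ∈ (⋂ i, V i) ∩ (t ∩ t') := ⟨hx1.1, hx1.2, hx2.2⟩
    rw [hemp] at this
    exact this
  obtain ⟨U, W, hU, hW, hCU, hDW, hUW⟩ := SeparatedNhds.of_isCompact_isCompact hCc hDc hdisj
  have hsubUW : ∀ x ∈ ⋂ i, V i, U ∪ W ∈ 𝓝 x := by
    intro x hx
    apply (hU.union hW).mem_nhds
    rcases hsub hx with h | h
    · exact Or.inl (hCU ⟨hx, h⟩)
    · exact Or.inr (hDW ⟨hx, h⟩)
  obtain ⟨i, hi⟩ := exists_subset_nhds_of_isCompact' hV hcl (fun i => (hcl i).isClosed) hsubUW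
  obtain ⟨x, hx, hxt⟩ := hnt
  obtain ⟨y, hy, hyt⟩ := hnt'
  obtain ⟨z, -, hzU, hzW⟩ := hpre i U W hU hW hi
    ⟨x, mem_iInter.mp hx i, hCU ⟨hx, hxt⟩⟩ ⟨y, mem_iInter.mp hy i, hDW ⟨hy, hyt⟩⟩
  exact Set.disjoint_left.mp hUW hzU hzW

/-- lifting preconnectedness through a map of a compact set -/
theorem lift_preconn {X Y : Type*} [TopologicalSpace X] [TopologicalSpace Y] [T2Space Y]
    {S : Set X} (hS : IsCompact S) {f : X → Y} (hf : Continuous f)
    (hfS : IsPreconnected (f '' S))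
    (h : ∀ x ∈ S, ∀ x' ∈ S, f x = f x' → ∃ T ⊆ S, x ∈ T ∧ x' ∈ T ∧ IsPreconnected T) :
    IsPreconnected S := by
  rw [isPreconnected_closed_iff]
  intro t t' ht ht' hsub hnt hnt'
  rw [isPreconnected_closed_iff] at hfS
  have h1 : IsClosed (f '' (S ∩ t)) := ((hS.inter_right ht).image hf).isClosed
  have h2 : IsClosed (f '' (S ∩ t')) := ((hS.inter_right ht').image hf).isClosed
  obtain ⟨y, -, ⟨x, ⟨hxS, hxt⟩, hxy⟩, ⟨x', ⟨hxS', hxt'⟩, hxy'⟩⟩ :=
    hfS _ _ h1 h2 (by
      rintro _ ⟨x, hx, rfl⟩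
      rcases hsub hx with h | h
      · exact Or.inl ⟨x, ⟨hx, h⟩, rfl⟩
      · exact Or.inr ⟨x, ⟨hx, h⟩, rfl⟩)
      (by obtain ⟨x, hx⟩ := hnt; exact ⟨f x, ⟨x, hx.1, rfl⟩, ⟨x, hx, rfl⟩⟩)
      (by obtain ⟨x, hx⟩ := hnt'; exact ⟨f x, ⟨x, hx.1, rfl⟩, ⟨x, hx, rfl⟩⟩)
  obtain ⟨T, hTS, hxT, hxT', hT⟩ := h x hxS x' hxS' (hxy.trans hxy'.symm)
  rw [isPreconnected_closed_iff] at hT
  obtain ⟨z, hz, hz'⟩ := hT t t' ht ht' (hTS.trans hsub) ⟨x, hxT, hxt⟩ ⟨x', hxT', hxt'⟩
  exact ⟨z, hTS hz, hz'⟩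

abbrev W := ℕ → ℝ

structure Stage (n : ℕ) (C : Set W) (E : Set ℝ) : Prop where
  closed : IsClosed C
  sub : ∀ p ∈ C, ∀ i, p i ∈ Icc (0:ℝ) 1
  cyl : ∀ p ∈ C, ∀ i, n + 2 ≤ i → ∀ u ∈ Icc (0:ℝ) 1, Function.update p i u ∈ C
  surj : ∀ y ∈ Icc (0:ℝ) 1, ∀ x ∈ Icc (0:ℝ) 1, ∃ p ∈ C, p 0 = y ∧ p 1 = x
  fib : ∀ y ∈ Icc (0:ℝ) 1, IsPreconnected (C ∩ {p | p 0 = y})
  Kconn : IsPreconnected (C ∩ {p | p 1 = 0})
  Ecl : IsClosed E
  E0 : (0:ℝ) ∈ E
  E1 : (1:ℝ) ∈ E
  sect : ∀ c d, Disjoint (Icc c d) E → Icc c d ⊆ Icc 0 1 → ∀ p ∈ C, p 0 ∈ Icc c d →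
    ∃ s : ℝ → W, ContinuousOn s (Icc c d) ∧
      (∀ y ∈ Icc c d, s y ∈ C ∧ s y 0 = y ∧ s y 1 = p 1) ∧ s (p 0) = p
  dens : ∀ p ∈ C, ∀ U, IsOpen U → p ∈ U → ∃ q ∈ C, q ∈ U ∧ q 0 ∉ E

theorem Stage.compact {n : ℕ} {C : Set W} {E : Set ℝ} (h : Stage n C E) : IsCompact C := by
  have h1 : IsCompact (Set.pi univ (fun _ : ℕ => Icc (0:ℝ) 1)) :=
    isCompact_univ_pi fun _ => isCompact_Icc
  exact h1.of_isClosed_subset h.closed (fun p hp i _ => h.sub p hp i)

theorem convex_aux (s : Set W) (hs : Convex ℝ s) : IsPreconnected s := hs.isPreconnected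

theorem base : Stage 0 {p : W | ∀ i, p i ∈ Icc (0:ℝ) 1} {0, 1} where
  closed := by
    have : {p : W | ∀ i, p i ∈ Icc (0:ℝ) 1} = ⋂ i, {p : W | p i ∈ Icc (0:ℝ) 1} := by
      ext p; simp
    rw [this]
    exact isClosed_iInter fun i => isClosed_Icc.preimage (continuous_apply i)
  sub := fun p hp => hp
  cyl := by
    intro p hp i _ u hu j
    by_cases hj : j = i
    · subst hj; simpa using hu
    · rw [Function.update_of_ne hj]; exact hp j
  surj := by
    intro y hy x hx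
    refine ⟨fun i => if i = 0 then y else x, ?_, by simp, by simp⟩
    intro i
    by_cases hi : i = 0
    · simpa [hi] using hy
    · simpa [hi] using hx
  fib := by
    intro y _
    apply Convex.isPreconnected
    intro p hp q hq a b ha hb hab
    refine ⟨fun i => ?_, ?_⟩
    · exact (convex_Icc (0:ℝ) 1) (hp.1 i) (hq.1 i) ha hb hab
    · have h1 : p 0 = y := hp.2
      have h2 : q 0 = y := hq.2
      change a * p 0 + b * q 0 = y
      rw [h1, h2, ← add_mul, hab, one_mul]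
  Kconn := by
    apply Convex.isPreconnected
    intro p hp q hq a b ha hb hab
    refine ⟨fun i => ?_, ?_⟩
    · exact (convex_Icc (0:ℝ) 1) (hp.1 i) (hq.1 i) ha hb hab
    · have h1 : p 1 = 0 := hp.2
      have h2 : q 1 = 0 := hq.2
      change a * p 1 + b * q 1 = 0
      rw [h1, h2]; ring
  Ecl := (Set.toFinite _).isClosed
  E0 := by simp
  E1 := by simp
  sect := by
    intro c d _ hcd p hp _
    have hc : Continuous (fun y : ℝ => (Function.update p 0 y : W)) :=
      Continuous.update continuous_const 0 continuous_id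
    refine ⟨fun y => (Function.update p 0 y : W), hc.continuousOn, ?_, ?_⟩
    · intro y hy
      refine ⟨?_, by simp, by simp⟩
      intro j
      by_cases hj : j = 0
      · subst hj; simpa using hcd hy
      · change Function.update p 0 y j ∈ Icc (0:ℝ) 1
        rw [Function.update_of_ne hj]; exact hp j
    · simp
  dens := by
    intro p hp U hU hpU
    have hc : Continuous (fun y : ℝ => (Function.update p 0 y : W)) :=
      Continuous.update continuous_const 0 continuous_id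
    have hcl : p 0 ∈ closure (Ioo (0:ℝ) 1) := by
      rw [closure_Ioo (by norm_num)]; exact hp 0
    have := mem_closure_iff.mp hcl _ (hU.preimage hc) (by simpa using hpU)
    obtain ⟨y, hy1, hy2⟩ := this
    refine ⟨Function.update p 0 y, ?_, hy1, ?_⟩
    · intro j
      by_cases hj : j = 0
      · subst hj; simpa using ⟨hy2.1.le, hy2.2.le⟩
      · rw [Function.update_of_ne hj]; exact hp j
    · simp only [Function.update_self, mem_insert_iff, mem_singleton_iff, not_or]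
      exact ⟨hy2.1.ne', hy2.2.ne⟩

/-- the three branches of the fold -/
def dom (a b : ℝ) (j : Fin 3) : Set ℝ := if j = 0 then Iic b else if j = 1 then Icc a b else Ici a

noncomputable def br (a b : ℝ) (j : Fin 3) (y : ℝ) : ℝ := if j = 0 then 0 else if j = 1 then (b-y)/(b-a) else 1

theorem dom_closed (a b : ℝ) (j : Fin 3) : IsClosed (dom a b j) := by
  unfold dom; split_ifs
  · exact isClosed_Iic
  · exact isClosed_Icc
  · exact isClosed_Ici

theorem br_cont (a b : ℝ) (j : Fin 3) : Continuous (br a b j) := by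
  unfold br; split_ifs <;> fun_prop

theorem Icc_sub_dom (a b : ℝ) (j : Fin 3) : Icc a b ⊆ dom a b j := by
  unfold dom; split_ifs
  · exact Icc_subset_Iic_self
  · exact subset_rfl
  · exact Icc_subset_Ici_self

theorem br_mem {a b : ℝ} (hab : a < b) (j : Fin 3) {y : ℝ} (hy : y ∈ dom a b j) :
    br a b j y ∈ Icc (0:ℝ) 1 := by
  unfold dom at hy
  unfold br
  split_ifs at hy ⊢
  · simp
  · have := sub_pos.mpr hab
    exact ⟨div_nonneg (sub_nonneg.mpr hy.2) this.le, by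
      rw [div_le_one this]; linarith [hy.1]⟩
  · simp

theorem dom_avoid {a b c d : ℝ} (hac : a ∉ Icc c d) (hbc : b ∉ Icc c d) (j : Fin 3)
    {y : ℝ} (hy : y ∈ Icc c d) (hyd : y ∈ dom a b j) : Icc c d ⊆ dom a b j := by
  have h1 : a < c ∨ d < a := by
    by_contra h; push Not at h; exact hac ⟨h.1, h.2⟩
  have h2 : b < c ∨ d < b := by
    by_contra h; push Not at h; exact hbc ⟨h.1, h.2⟩
  unfold dom at hyd ⊢
  split_ifs at hyd ⊢
  · intro z hz
    have := hz.1; have := hz.2; have := hy.1; have := hy.2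
    simp only [mem_Iic] at hyd ⊢
    rcases h2 with h2 | h2 <;> linarith
  · intro z hz
    have := hz.1; have := hz.2; have := hy.1; have := hy.2
    have := hyd.1; have := hyd.2
    constructor
    · rcases h1 with h1 | h1 <;> linarith
    · rcases h2 with h2 | h2 <;> linarith
  · intro z hz
    have := hz.1; have := hz.2; have := hy.1; have := hy.2
    simp only [mem_Ici] at hyd ⊢
    rcases h1 with h1 | h1 <;> linarith

theorem dom_lt {a b : ℝ} {j : Fin 3} {y : ℝ} (hy : y ∈ dom a b j) (h : y < a) :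
    j = 0 := by
  unfold dom at hy
  split_ifs at hy with h0 h1
  · exact h0
  · exact absurd hy.1 (not_le.mpr h)
  · exact absurd hy (not_le.mpr h)

theorem dom_gt {a b : ℝ} {j : Fin 3} {y : ℝ} (hy : y ∈ dom a b j) (h : b < y) :
    j = 2 := by
  unfold dom at hy
  split_ifs at hy with h0 h1
  · exact absurd hy (not_le.mpr h)
  · exact absurd hy.2 (not_le.mpr h)
  · omega

theorem exists_dom {a b : ℝ} (hab : a < b) (y : ℝ) : ∃ j, y ∈ dom a b j := by
  rcases le_total y b with h | h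
  · exact ⟨0, by simpa [dom] using h⟩
  · exact ⟨2, by simp [dom]; linarith⟩


/-- the folded set -/
def C' (n : ℕ) (a b : ℝ) (δ : W → ℝ) (C : Set W) : Set W :=
  {p | p ∈ C ∧ ∃ j, p 0 ∈ dom a b j ∧ p (n+2) = δ p * br a b j (p 0)}

noncomputable def G (n : ℕ) (a b : ℝ) (δ : W → ℝ) (j : Fin 3) (p : W) : W :=
  Function.update p (n+2) (δ p * br a b j (p 0))

section
variable {n : ℕ} {C : Set W} {E : Set ℝ} (h : Stage n C E) {a b : ℝ} (hab : a < b)
  (hE : Disjoint (Icc a b) E) (h01 : Icc a b ⊆ Ioo 0 1) {δ : W → ℝ} (hδ : Continuous δ)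
  (hδ0 : ∀ p, 0 ≤ δ p) (hδ1 : ∀ p, δ p ≤ 1)
  (hδc : ∀ p : W, ∀ i, n + 2 ≤ i → ∀ u : ℝ, δ (Function.update p i u) = δ p)
  (hz : ∀ y ∈ Icc a b, ∃ z ∈ C, z 0 = y ∧ δ z = 0)

theorem G_ne {j : Fin 3} {p : W} {i : ℕ} (hi : i ≠ n+2) : G n a b δ j p i = p i := by
  unfold G; rw [Function.update_of_ne hi]

theorem G_zero {j : Fin 3} {p : W} : G n a b δ j p 0 = p 0 := G_ne (by omega)
theorem G_one {j : Fin 3} {p : W} : G n a b δ j p 1 = p 1 := G_ne (by omega)
theorem G_self {j : Fin 3} {p : W} : G n a b δ j p (n+2) = δ p * br a b j (p 0) := by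
  unfold G; simp

include hδ in
theorem G_cont (j : Fin 3) : Continuous (G n a b δ j) := by
  unfold G
  exact Continuous.update continuous_id _ (hδ.mul ((br_cont a b j).comp (continuous_apply 0)))

include h hab hδ0 hδ1 hδc in
theorem G_mem {j : Fin 3} {p : W} (hp : p ∈ C) (hd : p 0 ∈ dom a b j) :
    G n a b δ j p ∈ C' n a b δ C := by
  have hb := br_mem hab j hd
  refine ⟨h.cyl p hp (n+2) le_rfl _ ⟨mul_nonneg (hδ0 p) hb.1, mul_le_one₀ (hδ1 p) hb.1 hb.2⟩, j,
    by rw [G_zero]; exact hd, ?_⟩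
  rw [G_self, G_zero]
  unfold G
  rw [hδc p (n+2) le_rfl]

theorem C'_G {p : W} (hp : p ∈ C' n a b δ C) : ∃ j, p 0 ∈ dom a b j ∧ G n a b δ j p = p := by
  obtain ⟨hp, j, hj, hj'⟩ := hp
  refine ⟨j, hj, ?_⟩
  unfold G
  rw [← hj', Function.update_eq_self]

theorem C'_sub : C' n a b δ C ⊆ C := fun p hp => hp.1

include h hδ in
theorem C'_closed : IsClosed (C' n a b δ C) := by
  have : C' n a b δ C = C ∩ ⋃ j : Fin 3, ((fun p : W => p 0) ⁻¹' (dom a b j) ∩
      {p : W | p (n+2) = δ p * br a b j (p 0)}) := by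
    ext p; simp [C']
  rw [this]
  apply h.closed.inter
  apply isClosed_iUnion_of_finite
  intro j
  apply ((dom_closed a b j).preimage (continuous_apply 0)).inter
  exact isClosed_eq (continuous_apply _) (hδ.mul ((br_cont a b j).comp (continuous_apply 0)))

include hab in
theorem G_b (p : W) (hp : p 0 = b) : G n a b δ 0 p = G n a b δ 1 p := by
  unfold G br
  simp [hp]

include hab in
theorem G_a (p : W) (hp : p 0 = a) : G n a b δ 1 p = G n a b δ 2 p := by
  unfold G br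
  have := (sub_pos.mpr hab).ne'
  simp [hp, this]

theorem G_z (p : W) (hp : δ p = 0) (i j : Fin 3) : G n a b δ i p = G n a b δ j p := by
  unfold G
  simp [hp]

/-- the three lifts of a connected set together -/
theorem lift3 {S : Set W} (hS : IsPreconnected S) (hδ : Continuous δ)
    (h01 : ∃ p ∈ S, G n a b δ 0 p = G n a b δ 1 p) (h12 : ∃ p ∈ S, G n a b δ 1 p = G n a b δ 2 p) :
    IsPreconnected (⋃ j, G n a b δ j '' S) := by
  have h0 := hS.image _ (G_cont (n := n) (a := a) (b := b) hδ 0).continuousOn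
  have h1 := hS.image _ (G_cont (n := n) (a := a) (b := b) hδ 1).continuousOn
  have h2 := hS.image _ (G_cont (n := n) (a := a) (b := b) hδ 2).continuousOn
  have : (⋃ j, G n a b δ j '' S) = (G n a b δ 0 '' S ∪ G n a b δ 1 '' S) ∪ G n a b δ 2 '' S := by
    ext p
    simp only [mem_iUnion, mem_union]
    constructor
    · rintro ⟨j, hj⟩
      fin_cases j
      · exact Or.inl (Or.inl hj)
      · exact Or.inl (Or.inr hj)
      · exact Or.inr hj
    · rintro ((hj | hj) | hj)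
      · exact ⟨_, hj⟩
      · exact ⟨_, hj⟩
      · exact ⟨_, hj⟩
  rw [this]
  obtain ⟨p, hp, hp'⟩ := h01
  obtain ⟨q, hq, hq'⟩ := h12
  have h3 : IsPreconnected (G n a b δ 0 '' S ∪ G n a b δ 1 '' S) :=
    IsPreconnected.union (G n a b δ 1 p) ⟨p, hp, hp'⟩ ⟨p, hp, rfl⟩ h0 h1
  exact IsPreconnected.union (G n a b δ 1 q) (Or.inr ⟨q, hq, rfl⟩) ⟨q, hq, hq'.symm⟩ h3 h2

include hab in
theorem C'_iUnion (hδ0 : ∀ p, 0 ≤ δ p) (h : Stage n C E) (hδ1 : ∀ p, δ p ≤ 1)
    (hδc : ∀ p : W, ∀ i, n + 2 ≤ i → ∀ u : ℝ, δ (Function.update p i u) = δ p)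
    {y : ℝ} (hy : y ∈ Icc a b) {S : Set W} (hS : S ⊆ C) (hS0 : ∀ p ∈ S, p 0 ∈ Icc a b) :
    (⋃ j, G n a b δ j '' S) ⊆ C' n a b δ C := by
  rintro _ ⟨_, ⟨j, rfl⟩, ⟨p, hp, rfl⟩⟩
  exact G_mem h hab hδ0 hδ1 hδc (hS hp) (Icc_sub_dom a b j (hS0 p hp))

include h hab hE h01 hδ hδ0 hδ1 hδc hz in
theorem step_fib (y : ℝ) (hy : y ∈ Icc (0:ℝ) 1) :
    IsPreconnected (C' n a b δ C ∩ {p | p 0 = y}) := by
  have key : ∀ j, (∀ i, y ∈ dom a b i → i = j) → y ∈ dom a b j →
      IsPreconnected (C' n a b δ C ∩ {p | p 0 = y}) := by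
    intro j hj hyj
    have : C' n a b δ C ∩ {p | p 0 = y} = G n a b δ j '' (C ∩ {p | p 0 = y}) := by
      ext p
      constructor
      · rintro ⟨hp, hp0⟩
        have hp0' : p 0 = y := hp0
        obtain ⟨i, hi, hi'⟩ := C'_G hp
        rw [hj i (hp0' ▸ hi)] at hi'
        exact ⟨p, ⟨C'_sub hp, hp0⟩, hi'⟩
      · rintro ⟨q, ⟨hq, hq0⟩, rfl⟩
        have hq0' : q 0 = y := hq0
        exact ⟨G_mem h hab hδ0 hδ1 hδc hq (hq0'.symm ▸ hyj), by
          change G n a b δ j q 0 = y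
          rw [G_zero, hq0']⟩
    rw [this]
    exact (h.fib y hy).image _ (G_cont hδ j).continuousOn
  rcases lt_or_ge y a with hya | hya
  · obtain ⟨j, hj⟩ := exists_dom hab y
    have h0 := dom_lt hj hya
    subst h0
    exact key 0 (fun i hi => dom_lt hi hya) hj
  rcases lt_or_ge b y with hyb | hyb
  · obtain ⟨j, hj⟩ := exists_dom hab y
    have h0 := dom_gt hj hyb
    subst h0
    exact key 2 (fun i hi => dom_gt hi hyb) hj
  have hyI : y ∈ Icc a b := ⟨hya, hyb⟩
  have : C' n a b δ C ∩ {p | p 0 = y} = ⋃ j, G n a b δ j '' (C ∩ {p | p 0 = y}) := by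
    ext p
    constructor
    · rintro ⟨hp, hp0⟩
      obtain ⟨i, hi, hi'⟩ := C'_G hp
      exact mem_iUnion.mpr ⟨i, p, ⟨C'_sub hp, hp0⟩, hi'⟩
    · intro hp
      obtain ⟨j, q, ⟨hq, hq0⟩, rfl⟩ := mem_iUnion.mp hp
      have hq0' : q 0 = y := hq0
      exact ⟨G_mem h hab hδ0 hδ1 hδc hq (hq0'.symm ▸ Icc_sub_dom a b j hyI), by
          change G n a b δ j q 0 = y
          rw [G_zero, hq0']⟩
  rw [this]
  obtain ⟨z, hzC, hz0, hzd⟩ := hz y hyI
  exact lift3 (h.fib y hy) hδ ⟨z, ⟨hzC, hz0⟩, G_z z hzd _ _⟩ ⟨z, ⟨hzC, hz0⟩, G_z z hzd _ _⟩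

include h hab hE h01 hδ hδ0 hδ1 hδc hz in
theorem step_K : IsPreconnected (C' n a b δ C ∩ {p | p 1 = 0}) := by
  have hcl := C'_closed (n := n) (a := a) (b := b) h hδ
  have hcomp : IsCompact (C' n a b δ C ∩ {p | p 1 = 0}) :=
    (h.compact.of_isClosed_subset hcl C'_sub).inter_right
      (isClosed_eq (continuous_apply 1) continuous_const)
  have hF : Continuous (fun p : W => (Function.update p (n+2) 0 : W)) :=
    Continuous.update continuous_id _ continuous_const
  refine lift_preconn hcomp hF ?_ ?_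
  · have : (fun p : W => (Function.update p (n+2) 0 : W)) '' (C' n a b δ C ∩ {p | p 1 = 0}) =
        (fun p : W => (Function.update p (n+2) 0 : W)) '' (C ∩ {p | p 1 = 0}) := by
      apply Subset.antisymm
      · exact image_mono (inter_subset_inter_left _ C'_sub)
      · rintro _ ⟨p, ⟨hp, hp1⟩, rfl⟩
        obtain ⟨j, hj⟩ := exists_dom hab (p 0)
        refine ⟨G n a b δ j p, ⟨G_mem h hab hδ0 hδ1 hδc hp hj, ?_⟩, ?_⟩
        · change G n a b δ j p 1 = 0
          rw [G_one]; exact hp1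
        · simp [G]
    rw [this]
    exact h.Kconn.image _ hF.continuousOn
  · intro p hp p' hp' hpp
    have hne : ∀ i, i ≠ n+2 → p i = p' i := by
      intro i hi
      have := congrFun hpp i
      simpa [Function.update_of_ne hi] using this
    have h00 : p 0 = p' 0 := hne 0 (by omega)
    obtain ⟨i, hi, hi'⟩ := C'_G hp.1
    obtain ⟨i', hj, hj'⟩ := C'_G hp'.1
    have hδe : δ p = δ p' := by
      have h1 := hδc p (n+2) le_rfl 0
      have h2 := hδc p' (n+2) le_rfl 0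
      have h3 : (Function.update p (n+2) 0 : W) = Function.update p' (n+2) 0 := hpp
      rw [← h1, ← h2, h3]
    by_cases hI : p 0 ∈ Icc a b
    · obtain ⟨s, hs, hs', hsp⟩ := h.sect a b hE (h01.trans Ioo_subset_Icc_self) p
        (C'_sub hp.1) hI
      refine ⟨⋃ j, G n a b δ j '' (s '' Icc a b), ?_, ?_, ?_, ?_⟩
      · apply subset_inter
        · apply C'_iUnion hab hδ0 h hδ1 hδc hI
          · rintro _ ⟨y, hy, rfl⟩; exact (hs' y hy).1
          · rintro _ ⟨y, hy, rfl⟩; rw [(hs' y hy).2.1]; exact hy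
        · intro q hq
          obtain ⟨j, _, ⟨y, hy, rfl⟩, rfl⟩ := mem_iUnion.mp hq
          change G n a b δ j (s y) 1 = 0
          rw [G_one, (hs' y hy).2.2]; exact hp.2
      · exact mem_iUnion.mpr ⟨i, p, ⟨p 0, hI, hsp⟩, hi'⟩
      · refine mem_iUnion.mpr ⟨i', p, ⟨p 0, hI, hsp⟩, ?_⟩
        rw [← hj']
        funext k
        by_cases hk : k = n+2
        · subst hk; rw [G_self, G_self, hδe, h00]
        · rw [G_ne hk, G_ne hk, hne k hk]
      · apply lift3 _ hδ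
        · refine ⟨s b, ⟨b, right_mem_Icc.mpr hab.le, rfl⟩, G_b hab _ ?_⟩
          exact (hs' b (right_mem_Icc.mpr hab.le)).2.1
        · refine ⟨s a, ⟨a, left_mem_Icc.mpr hab.le, rfl⟩, G_a hab _ ?_⟩
          exact (hs' a (left_mem_Icc.mpr hab.le)).2.1
        · exact isPreconnected_Icc.image _ hs
    · have hii : i = i' := by
        rw [← h00] at hj
        rcases lt_or_ge (p 0) a with hya | hya
        · rw [dom_lt hi hya, dom_lt hj hya]
        · have hyb : b < p 0 := by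
            by_contra hh; exact hI ⟨hya, not_lt.mp hh⟩
          rw [dom_gt hi hyb, dom_gt hj hyb]
      have hpeq : p = p' := by
        rw [← hi', ← hj', hii]
        funext k
        by_cases hk : k = n+2
        · subst hk; rw [G_self, G_self, hδe, h00]
        · rw [G_ne hk, G_ne hk, hne k hk]
      subst hpeq
      exact ⟨{p}, singleton_subset_iff.mpr hp, rfl, rfl, isPreconnected_singleton⟩

include h hab hE h01 hδ hδ0 hδ1 hδc hz in
theorem step_stage : Stage (n+1) (C' n a b δ C) (E ∪ {a, b}) where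
  closed := C'_closed h hδ
  sub := fun p hp => h.sub p (C'_sub hp)
  cyl := by
    rintro p ⟨hp, j, hj, hj'⟩ i hi u hu
    refine ⟨h.cyl p hp i (by omega) u hu, j, ?_, ?_⟩
    · rw [Function.update_of_ne (by omega)]; exact hj
    · rw [Function.update_of_ne (by omega), Function.update_of_ne (by omega),
        hδc p i (by omega)]; exact hj'
  surj := by
    intro y hy x hx
    obtain ⟨p, hp, hp0, hp1⟩ := h.surj y hy x hx
    obtain ⟨j, hj⟩ := exists_dom hab (p 0)
    exact ⟨G n a b δ j p, G_mem h hab hδ0 hδ1 hδc hp hj, by rw [G_zero, hp0], by rw [G_one, hp1]⟩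
  fib := step_fib h hab hE h01 hδ hδ0 hδ1 hδc hz
  Kconn := step_K h hab hE h01 hδ hδ0 hδ1 hδc hz
  Ecl := h.Ecl.union (Set.toFinite _).isClosed
  E0 := Or.inl h.E0
  E1 := Or.inl h.E1
  sect := by
    intro c d hcd hcd1 p hp hp0
    rw [disjoint_union_right] at hcd
    obtain ⟨s, hs, hs', hsp⟩ := h.sect c d hcd.1 hcd1 p (C'_sub hp) hp0
    obtain ⟨j, hj, hj'⟩ := C'_G hp
    have hac : a ∉ Icc c d := fun h => Set.disjoint_left.mp hcd.2 h (by simp)
    have hbc : b ∉ Icc c d := fun h => Set.disjoint_left.mp hcd.2 h (by simp)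
    have hsub := dom_avoid hac hbc j hp0 hj
    refine ⟨fun y => G n a b δ j (s y), (G_cont hδ j).comp_continuousOn hs, ?_, ?_⟩
    · intro y hy
      obtain ⟨h1, h2, h3⟩ := hs' y hy
      refine ⟨G_mem h hab hδ0 hδ1 hδc h1 (by rw [h2]; exact hsub hy), ?_, ?_⟩
      · change G n a b δ j (s y) 0 = y
        rw [G_zero, h2]
      · change G n a b δ j (s y) 1 = p 1
        rw [G_one, h3]
    · change G n a b δ j (s (p 0)) = p
      rw [hsp, hj']
  dens := by
    intro p hp U hU hpU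
    obtain ⟨j, hj, hj'⟩ := C'_G hp
    have hGc := G_cont (n := n) (a := a) (b := b) hδ j
    by_cases hI : p 0 ∈ Icc a b
    · obtain ⟨s, hs, hs', hsp⟩ := h.sect a b hE (h01.trans Ioo_subset_Icc_self) p
        (C'_sub hp) hI
      have h1 : p 0 ∈ closure (Ioo a b) := by
        rw [closure_Ioo hab.ne]; exact hI
      have h2 : ContinuousOn (fun y => G n a b δ j (s y)) (Icc a b) := hGc.comp_continuousOn hs
      have h3 := h2 (p 0) hI
      have h4 : ∀ᶠ y in 𝓝[Icc a b] (p 0), G n a b δ j (s y) ∈ U := by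
        apply h3
        apply hU.mem_nhds
        change G n a b δ j (s (p 0)) ∈ U
        rw [hsp, hj']; exact hpU
      have h5 : ∀ᶠ y in 𝓝[Ioo a b] (p 0), G n a b δ j (s y) ∈ U :=
        nhdsWithin_mono _ Ioo_subset_Icc_self h4
      have h6 : (𝓝[Ioo a b] (p 0)).NeBot := mem_closure_iff_nhdsWithin_neBot.mp h1
      obtain ⟨y, hyU, hyI⟩ := (h5.and self_mem_nhdsWithin).exists
      have hyI' : y ∈ Icc a b := Ioo_subset_Icc_self hyI
      obtain ⟨g1, g2, g3⟩ := hs' y hyI'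
      refine ⟨G n a b δ j (s y), G_mem h hab hδ0 hδ1 hδc g1
        (by rw [g2]; exact Icc_sub_dom a b j hyI'), hyU, ?_⟩
      rw [G_zero, g2]
      rintro (hyE | hyE)
      · exact Set.disjoint_left.mp hE hyI' hyE
      · rcases hyE with rfl | hyE
        · exact lt_irrefl _ hyI.1
        · exact absurd hyI.2 (by rw [mem_singleton_iff.mp hyE]; exact lt_irrefl _)
    · have key : ∀ O : Set ℝ, IsOpen O → p 0 ∈ O → O ⊆ dom a b j → (∀ y ∈ O, y ≠ a ∧ y ≠ b) →
          ∃ q ∈ C' n a b δ C, q ∈ U ∧ q 0 ∉ E ∪ {a, b} := by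
        intro O hO hpO hOd hOn
        obtain ⟨q, hq, hqU, hqE⟩ := h.dens p (C'_sub hp) (G n a b δ j ⁻¹' U ∩ (fun q : W => q 0) ⁻¹' O)
          ((hU.preimage hGc).inter (hO.preimage (continuous_apply 0)))
          ⟨by change G n a b δ j p ∈ U; rw [hj']; exact hpU, hpO⟩
        refine ⟨G n a b δ j q, G_mem h hab hδ0 hδ1 hδc hq (hOd hqU.2), hqU.1, ?_⟩
        rw [G_zero]
        rintro (hyE | hyE)
        · exact hqE hyE
        · rcases hyE with hyE | hyE
          · exact (hOn _ hqU.2).1 hyE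
          · exact (hOn _ hqU.2).2 hyE
      rcases lt_or_ge (p 0) a with hya | hya
      · have h0 := dom_lt hj hya
        subst h0
        apply key (Iio a) isOpen_Iio hya
        · intro y hy; simp only [dom, if_true, mem_Iic]; exact (lt_trans hy hab).le
        · intro y hy; exact ⟨hy.ne, (lt_trans hy hab).ne⟩
      · have hyb : b < p 0 := by
            by_contra hh; exact hI ⟨hya, not_lt.mp hh⟩
        have h0 := dom_gt hj hyb
        subst h0
        apply key (Ioi b) isOpen_Ioi hyb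
        · intro y hy
          have : dom a b 2 = Ici a := by simp [dom]
          rw [this]; exact (lt_trans hab hy).le
        · intro y hy; exact ⟨(lt_trans hab hy).ne', hy.ne'⟩

include hab h01 hδ hδ0 h in
/-- any closed set with connected fibres meets the zero set -/
theorem meets {D : Set W} (hD : D ⊆ C' n a b δ C) (hDc : IsClosed D)
    (hDf : ∀ y ∈ Icc (0:ℝ) 1, IsConnected (D ∩ {p | p 0 = y})) : ∃ p ∈ D, δ p = 0 := by
  by_contra hcon
  push Not at hcon
  have hpos : ∀ p ∈ D, 0 < δ p := fun p hp => lt_of_le_of_ne (hδ0 p) (hcon p hp).symm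
  have hDcomp : IsCompact D := h.compact.of_isClosed_subset hDc (hD.trans C'_sub)
  have h0I : (0:ℝ) ∈ Icc (0:ℝ) 1 := by simp
  have h1I : (1:ℝ) ∈ Icc (0:ℝ) 1 := by simp
  have ha := h01 (left_mem_Icc.mpr hab.le)
  have hb := h01 (right_mem_Icc.mpr hab.le)
  have hba : 0 < b - a := sub_pos.mpr hab
  have hDpre : IsPreconnected D := by
    refine lift_preconn hDcomp (continuous_apply 0) ?_ ?_
    · have : (fun p : W => p 0) '' D = Icc 0 1 := by
        apply Subset.antisymm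
        · rintro _ ⟨p, hp, rfl⟩; exact h.sub p (C'_sub (hD hp)) 0
        · intro y hy
          obtain ⟨p, hp, hp0⟩ := (hDf y hy).nonempty
          exact ⟨p, hp, hp0⟩
      rw [this]; exact isPreconnected_Icc
    · intro p hp q hq hpq
      exact ⟨D ∩ {r | r 0 = p 0}, inter_subset_left, ⟨hp, rfl⟩, ⟨hq, hpq.symm⟩,
        (hDf _ (h.sub p (C'_sub (hD hp)) 0)).isPreconnected⟩
  let H : W → ℝ := fun p => p (n+2) - δ p * ((b - p 0)/(b-a)/2)
  have hH : Continuous H := by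
    have : Continuous (fun p : W => (b - p 0)/(b-a)/2) := by fun_prop
    exact (continuous_apply _).sub (hδ.mul this)
  obtain ⟨p1, hp1, hp10⟩ := (hDf 0 h0I).nonempty
  obtain ⟨p2, hp2, hp20⟩ := (hDf 1 h1I).nonempty
  have hp10' : p1 0 = 0 := hp10
  have hp20' : p2 0 = 1 := hp20
  have hH1 : H p1 ≤ 0 := by
    obtain ⟨-, j, hj, hj'⟩ := hD hp1
    have hj0 := dom_lt hj (by rw [hp10']; exact ha.1)
    subst hj0
    simp only [H]
    rw [hj', hp10']
    simp only [br, if_true, mul_zero]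
    have : 0 ≤ δ p1 * ((b - 0)/(b-a)/2) :=
      mul_nonneg (hδ0 _) (div_nonneg (div_nonneg (by linarith [hb.1]) hba.le) (by norm_num))
    linarith
  have hH2 : 0 ≤ H p2 := by
    obtain ⟨-, j, hj, hj'⟩ := hD hp2
    have hj0 := dom_gt hj (by rw [hp20']; exact hb.2)
    subst hj0
    simp only [H]
    rw [hj', hp20']
    have hbr : br a b 2 1 = 1 := by simp [br]
    rw [hbr]
    have h1 : (b-1)/(b-a)/2 ≤ 0 :=
      div_nonpos_of_nonpos_of_nonneg (div_nonpos_of_nonpos_of_nonneg (by linarith [hb.2]) hba.le)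
        (by norm_num)
    nlinarith [hδ0 p2]
  obtain ⟨p3, hp3, hp3H⟩ := hDpre.intermediate_value hp1 hp2 hH.continuousOn ⟨hH1, hH2⟩
  have hp3' : p3 0 = b ∧ p3 (n+2) = 0 := by
    obtain ⟨-, j, hj, hj'⟩ := hD hp3
    have hd := hpos p3 hp3
    have hp3H' : p3 (n+2) - δ p3 * ((b - p3 0)/(b-a)/2) = 0 := hp3H
    rw [hj', ← mul_sub] at hp3H'
    have h3 : br a b j (p3 0) = (b - p3 0)/(b-a)/2 := by
      rcases mul_eq_zero.mp hp3H' with h | h
      · exact absurd h hd.ne'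
      · linarith
    have hkey : (b - p3 0)/(b-a) = 0 → p3 0 = b := by
      intro hh
      rcases div_eq_zero_iff.mp hh with h | h
      · linarith
      · exact absurd h hba.ne'
    unfold br at h3
    split_ifs at h3 with c0 c1
    · have hb' := hkey (by linarith)
      refine ⟨hb', ?_⟩
      rw [hj', c0]; simp [br]
    · have hb' := hkey (by linarith)
      refine ⟨hb', ?_⟩
      rw [hj', c1, hb']; simp [br]
    · exfalso
      have hge : a ≤ p3 0 := by simpa [dom, c0, c1] using hj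
      have : (b - p3 0)/(b-a) ≤ 1 := by rw [div_le_one hba]; linarith
      linarith
  have hbI : b ∈ Icc (0:ℝ) 1 := ⟨hb.1.le, hb.2.le⟩
  -- a point with value δ over b
  have hD2 : IsCompact (D ∩ ({p | b ≤ p 0} ∩ {p | p (n+2) = δ p})) :=
    hDcomp.inter_right ((isClosed_le continuous_const (continuous_apply 0)).inter
      (isClosed_eq (continuous_apply _) hδ))
  have hD2im := (hD2.image (continuous_apply 0)).isClosed
  have hbcl : b ∈ closure (Ioc b 1) := by
    rw [closure_Ioc hb.2.ne]; exact left_mem_Icc.mpr hb.2.le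
  obtain ⟨p4, ⟨hp4, -, hp4'⟩, hp40⟩ := hD2im.closure_subset_iff.mpr (by
    intro y hy
    have hyI : y ∈ Icc (0:ℝ) 1 := ⟨(hb.1.trans hy.1).le, hy.2⟩
    obtain ⟨q, hq, hq0⟩ := (hDf y hyI).nonempty
    have hq0' : q 0 = y := hq0
    refine ⟨q, ⟨hq, ?_, ?_⟩, hq0⟩
    · change b ≤ q 0; rw [hq0']; exact hy.1.le
    · obtain ⟨-, j, hj, hj'⟩ := hD hq
      have hj0 := dom_gt hj (by rw [hq0']; exact hy.1)
      subst hj0
      change q (n+2) = δ q
      rw [hj']; simp [br]) hbcl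
  have hcl := isPreconnected_closed_iff.mp (hDf b hbI).isPreconnected {p | p (n+2) = 0}
    {p | p (n+2) = δ p} (isClosed_eq (continuous_apply _) continuous_const)
    (isClosed_eq (continuous_apply _) hδ) (by
      rintro q ⟨hq, hq0⟩
      have hq0' : q 0 = b := hq0
      obtain ⟨-, j, hj, hj'⟩ := hD hq
      fin_cases j
      · left; change q (n+2) = 0; rw [hj']; simp [br]
      · left; change q (n+2) = 0; rw [hj', hq0']; simp [br]
      · right; change q (n+2) = δ q; rw [hj']; simp [br])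
    ⟨p3, ⟨hp3, hp3'.1⟩, hp3'.2⟩ ⟨p4, ⟨hp4, hp40⟩, hp4'⟩
  obtain ⟨q, ⟨hq, -⟩, hq1, hq2⟩ := hcl
  have hq1' : q (n+2) = 0 := hq1
  have hq2' : q (n+2) = δ q := hq2
  exact hcon q hq (by rw [← hq2', hq1'])

end

/-- one step of the construction -/
theorem step {n : ℕ} {C : Set W} {E : Set ℝ} (h : Stage n C E) {V : Set W} (hV : IsOpen V)
    (hVc : ∀ p ∈ V, ∀ q : W, (∀ i < n+2, p i = q i) → q ∈ V) (hne : (V ∩ C).Nonempty) :
    ∃ (D : Set W) (F : Set ℝ), Stage (n+1) D F ∧ D ⊆ C ∧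
      ∀ A ⊆ D, IsClosed A → (∀ y ∈ Icc (0:ℝ) 1, IsConnected (A ∩ {p | p 0 = y})) →
        (A ∩ V).Nonempty := by
  obtain ⟨p, hpV, hpC⟩ := hne
  obtain ⟨q, hqC, hqV, hqE⟩ := h.dens p hpC V hV hpV
  have hq01 : q 0 ∈ Ioo (0:ℝ) 1 := by
    have := h.sub q hqC 0
    refine ⟨lt_of_le_of_ne this.1 ?_, lt_of_le_of_ne this.2 ?_⟩
    · intro h0; exact hqE (h0 ▸ h.E0)
    · intro h0; exact hqE (h0 ▸ h.E1)
  -- an interval avoiding E
  obtain ⟨ε, hε, hεE⟩ : ∃ ε > 0, Icc (q 0 - ε) (q 0 + ε) ⊆ Eᶜ ∩ Ioo 0 1 := by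
    have hO : IsOpen (Eᶜ ∩ Ioo (0:ℝ) 1) := h.Ecl.isOpen_compl.inter isOpen_Ioo
    obtain ⟨ε, hε, hball⟩ := Metric.isOpen_iff.mp hO (q 0) ⟨hqE, hq01⟩
    refine ⟨ε/2, by positivity, ?_⟩
    intro y hy
    apply hball
    rw [Metric.mem_ball, Real.dist_eq, abs_lt]
    constructor <;> linarith [hy.1, hy.2]
  have hq0 : q 0 ∈ Icc (q 0 - ε) (q 0 + ε) := ⟨by linarith, by linarith⟩
  obtain ⟨s, hs, hs', hsq⟩ := h.sect (q 0 - ε) (q 0 + ε)
    (Set.disjoint_left.mpr fun y hy hyE => (hεE hy).1 hyE)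
    (fun y hy => Ioo_subset_Icc_self (hεE hy).2) q hqC hq0
  obtain ⟨η, hη, hηε, hηV⟩ : ∃ η > 0, η ≤ ε ∧ ∀ y ∈ Icc (q 0 - η) (q 0 + η), s y ∈ V := by
    have h1 : ContinuousAt s (q 0) := hs.continuousAt (Icc_mem_nhds (by linarith) (by linarith))
    have h2 : ∀ᶠ y in 𝓝 (q 0), s y ∈ V := h1 (hV.mem_nhds (by rw [hsq]; exact hqV))
    obtain ⟨η, hη, hball⟩ := Metric.eventually_nhds_iff.mp h2
    refine ⟨min (η/2) ε, by positivity, min_le_right _ _, ?_⟩
    intro y hy
    apply hball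
    rw [Real.dist_eq, abs_lt]
    have := min_le_left (η/2) ε
    constructor <;> linarith [hy.1, hy.2]
  set a := q 0 - η with ha
  set b := q 0 + η with hb
  have hab : a < b := by rw [ha, hb]; linarith
  have hsub : Icc a b ⊆ Icc (q 0 - ε) (q 0 + ε) := Icc_subset_Icc (by linarith) (by linarith)
  let cl : ℝ → ℝ := fun y => max a (min b y)
  have hcl : Continuous cl := by fun_prop
  have hclm : ∀ y, cl y ∈ Icc a b := fun y =>
    ⟨le_max_left _ _, max_le hab.le (min_le_left _ _)⟩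
  have hcle : ∀ y ∈ Icc a b, cl y = y := by
    intro y hy
    simp only [cl]
    rw [min_eq_right hy.2, max_eq_right hy.1]
  have hsc : Continuous (fun y => s (cl y)) :=
    hs.comp_continuous hcl (fun y => hsub (hclm y))
  let δ : W → ℝ := fun p => min 1 (∑ i ∈ Finset.range (n+2), |p i - s (cl (p 0)) i|)
  have hδ : Continuous δ := by
    apply continuous_const.min
    apply continuous_finsetSum
    intro i _
    exact ((continuous_apply i).sub
      ((continuous_apply i).comp (hsc.comp (continuous_apply 0)))).abs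
  have hsum : ∀ p : W, 0 ≤ ∑ i ∈ Finset.range (n+2), |p i - s (cl (p 0)) i| :=
    fun p => Finset.sum_nonneg fun i _ => abs_nonneg _
  have hδ0 : ∀ p, 0 ≤ δ p := fun p => le_min (by norm_num) (hsum p)
  have hδ1 : ∀ p, δ p ≤ 1 := fun p => min_le_left _ _
  have hδc : ∀ p : W, ∀ i, n + 2 ≤ i → ∀ u : ℝ, δ (Function.update p i u) = δ p := by
    intro p i hi u
    simp only [δ]
    congr 1
    apply Finset.sum_congr rfl
    intro k hk
    have hk' := Finset.mem_range.mp hk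
    rw [Function.update_of_ne (by omega), Function.update_of_ne (by omega)]
  have hzero : ∀ p, δ p = 0 → ∀ i < n+2, s (cl (p 0)) i = p i := by
    intro p hp i hi
    have h1 : ∑ i ∈ Finset.range (n+2), |p i - s (cl (p 0)) i| = 0 := by
      simp only [δ] at hp
      rcases min_choice 1 (∑ i ∈ Finset.range (n+2), |p i - s (cl (p 0)) i|) with h | h
      · rw [h] at hp; norm_num at hp
      · rw [h] at hp; exact hp
    have h2 := (Finset.sum_eq_zero_iff_of_nonneg (fun i _ => abs_nonneg _)).mp h1 i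
      (Finset.mem_range.mpr hi)
    have := abs_eq_zero.mp h2
    linarith
  have hz : ∀ y ∈ Icc a b, ∃ z ∈ C, z 0 = y ∧ δ z = 0 := by
    intro y hy
    obtain ⟨g1, g2, g3⟩ := hs' y (hsub hy)
    refine ⟨s y, g1, g2, ?_⟩
    simp only [δ]
    rw [g2, hcle y hy]
    simp
  have hE : Disjoint (Icc a b) E :=
    Set.disjoint_left.mpr fun y hy hyE => (hεE (hsub hy)).1 hyE
  have h01 : Icc a b ⊆ Ioo 0 1 := fun y hy => (hεE (hsub hy)).2
  refine ⟨C' n a b δ C, E ∪ {a, b}, step_stage h hab hE h01 hδ hδ0 hδ1 hδc hz, C'_sub, ?_⟩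
  intro A hA hAc hAf
  obtain ⟨r, hr, hr0⟩ := meets h hab h01 hδ hδ0 hA hAc hAf
  refine ⟨r, hr, ?_⟩
  exact hVc (s (cl (r 0))) (hηV _ (hclm _)) r (hzero r hr0)


noncomputable def Vt (n : ℕ) : Set W :=
  {p | ∀ i < (Nat.unpair n).2, |p i - TopologicalSpace.denseSeq W (Nat.unpair n).1 i| <
    1 / ((Nat.unpair n).2 + 1 : ℝ)}

theorem box_open (q : W) (m : ℕ) (ε : ℝ) : IsOpen {p : W | ∀ i < m, |p i - q i| < ε} := by
  have : {p : W | ∀ i < m, |p i - q i| < ε} = ⋂ i ∈ Finset.range m, {p : W | |p i - q i| < ε} := by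
    ext p; simp
  rw [this]
  apply isOpen_biInter_finset
  intro i _
  exact isOpen_lt ((continuous_apply i).sub continuous_const).abs continuous_const

theorem Vt_open (n : ℕ) : IsOpen (Vt n) := box_open _ _ _

theorem Vt_cyl (n : ℕ) : ∀ p ∈ Vt n, ∀ q : W, (∀ i < n+2, p i = q i) → q ∈ Vt n := by
  intro p hp q hpq i hi
  have := Nat.unpair_right_le n
  rw [← hpq i (by omega)]
  exact hp i hi

abbrev St (n : ℕ) := {x : Set W × Set ℝ // Stage n x.1 x.2}

theorem next_exists (n : ℕ) (x : St n) : ∃ y : St (n+1), y.1.1 ⊆ x.1.1 ∧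
    ((Vt n ∩ x.1.1).Nonempty → ∀ A ⊆ y.1.1, IsClosed A →
      (∀ y ∈ Icc (0:ℝ) 1, IsConnected (A ∩ {p | p 0 = y})) → (A ∩ Vt n).Nonempty) := by
  by_cases hne : (Vt n ∩ x.1.1).Nonempty
  · obtain ⟨D, F, hS, hsub, hA⟩ := step x.2 (Vt_open n) (Vt_cyl n) hne
    exact ⟨⟨(D, F), hS⟩, hsub, fun _ => hA⟩
  · obtain ⟨p, hp, -⟩ := x.2.surj 0 (by simp) 0 (by simp)
    obtain ⟨D, F, hS, hsub, hA⟩ := step x.2 isOpen_univ (fun _ _ _ _ => trivial)
      ⟨p, trivial, hp⟩
    exact ⟨⟨(D, F), hS⟩, hsub, fun h => absurd h hne⟩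

noncomputable def seq : (n : ℕ) → St n
  | 0 => ⟨(_, _), base⟩
  | n+1 => (next_exists n (seq n)).choose

noncomputable def Cn (n : ℕ) : Set W := (seq n).1.1

theorem Cn_stage (n : ℕ) : Stage n (Cn n) (seq n).1.2 := (seq n).2

theorem Cn_succ (n : ℕ) : Cn (n+1) ⊆ Cn n := (next_exists n (seq n)).choose_spec.1

theorem Cn_meets (n : ℕ) (hne : (Vt n ∩ Cn n).Nonempty) : ∀ A ⊆ Cn (n+1), IsClosed A →
    (∀ y ∈ Icc (0:ℝ) 1, IsConnected (A ∩ {p | p 0 = y})) → (A ∩ Vt n).Nonempty :=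
  (next_exists n (seq n)).choose_spec.2 hne

theorem Cn_anti : Antitone Cn := antitone_nat_of_succ_le Cn_succ

def MM : Set W := ⋂ n, Cn n

theorem MM_sub (n : ℕ) : MM ⊆ Cn n := iInter_subset _ _

theorem MM_closed : IsClosed MM := isClosed_iInter fun n => (Cn_stage n).closed

theorem MM_compact : IsCompact MM := (Cn_stage 0).compact.of_isClosed_subset MM_closed (MM_sub 0)

theorem MM_surj (y : ℝ) (hy : y ∈ Icc (0:ℝ) 1) (x : ℝ) (hx : x ∈ Icc (0:ℝ) 1) :
    ∃ p ∈ MM, p 0 = y ∧ p 1 = x := by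
  have hcl : IsClosed {p : W | p 0 = y ∧ p 1 = x} :=
    (isClosed_eq (continuous_apply 0) continuous_const).inter
      (isClosed_eq (continuous_apply 1) continuous_const)
  obtain ⟨p, hp⟩ := IsCompact.nonempty_iInter_of_directed_nonempty_isCompact_isClosed
    (fun n => Cn n ∩ {p : W | p 0 = y ∧ p 1 = x})
    (directed_of_isDirected_le fun i j hij => inter_subset_inter_left _ (Cn_anti hij))
    (fun n => by
      obtain ⟨p, hp, hp'⟩ := (Cn_stage n).surj y hy x hx
      exact ⟨p, hp, hp'⟩)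
    (fun n => (Cn_stage n).compact.inter_right hcl)
    (fun n => (Cn_stage n).closed.inter hcl)
  exact ⟨p, mem_iInter.mpr fun n => (mem_iInter.mp hp n).1, (mem_iInter.mp hp 0).2⟩

theorem MM_inter {S : Set W} (hS : IsClosed S) (h : ∀ n, IsPreconnected (Cn n ∩ S)) :
    IsPreconnected (MM ∩ S) := by
  have : MM ∩ S = ⋂ n, (Cn n ∩ S) := by
    ext p; simp only [MM, mem_inter_iff, mem_iInter]
    exact ⟨fun h n => ⟨h.1 n, h.2⟩, fun h => ⟨fun n => (h n).1, (h 0).2⟩⟩
  rw [this]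
  exact isPreconnected_iInter
    (directed_of_isDirected_le fun i j hij => inter_subset_inter_left _ (Cn_anti hij))
    (fun n => (Cn_stage n).compact.inter_right hS) h

theorem MM_fib (y : ℝ) (hy : y ∈ Icc (0:ℝ) 1) : IsPreconnected (MM ∩ {p | p 0 = y}) :=
  MM_inter (isClosed_eq (continuous_apply 0) continuous_const) fun n => (Cn_stage n).fib y hy

theorem MM_K : IsPreconnected (MM ∩ {p | p 1 = 0}) :=
  MM_inter (isClosed_eq (continuous_apply 1) continuous_const) fun n => (Cn_stage n).Kconn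

theorem MM_pre : IsPreconnected MM := by
  refine lift_preconn MM_compact (continuous_apply 0) ?_ ?_
  · have : (fun p : W => p 0) '' MM = Icc 0 1 := by
      apply Subset.antisymm
      · rintro _ ⟨p, hp, rfl⟩; exact (Cn_stage 0).sub p (MM_sub 0 hp) 0
      · intro y hy
        obtain ⟨p, hp, hp0, -⟩ := MM_surj y hy 0 (by simp)
        exact ⟨p, hp, hp0⟩
    rw [this]; exact isPreconnected_Icc
  · intro p hp q hq hpq
    exact ⟨MM ∩ {r | r 0 = p 0}, inter_subset_left, ⟨hp, rfl⟩, ⟨hq, hpq.symm⟩,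
      MM_fib _ ((Cn_stage 0).sub p (MM_sub 0 hp) 0)⟩

/-- minimality -/
theorem minimal {A : Set W} (hA : A ⊆ MM) (hAc : IsClosed A)
    (hAf : ∀ y ∈ Icc (0:ℝ) 1, IsConnected (A ∩ {p | p 0 = y})) : A = MM := by
  apply Subset.antisymm hA
  intro p hp
  by_contra hpA
  obtain ⟨I, u, hu, huA⟩ := isOpen_pi_iff.mp hAc.isOpen_compl p hpA
  have hev : ∀ᶠ m : ℕ in Filter.atTop, ∀ i ∈ I, i < m ∧
      Metric.ball (p i) (2 / ((m:ℝ) + 1)) ⊆ u i := by
    rw [Filter.eventually_all_finset]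
    intro i hi
    obtain ⟨ε, hε, hball⟩ := Metric.isOpen_iff.mp (hu i hi).1 (p i) (hu i hi).2
    have h1 : Filter.Tendsto (fun m : ℕ => 2 / ((m:ℝ) + 1)) Filter.atTop (𝓝 0) := by
      have := (tendsto_one_div_add_atTop_nhds_zero_nat (𝕜 := ℝ)).const_mul 2
      simpa [div_eq_mul_inv] using this
    filter_upwards [Filter.eventually_gt_atTop i, h1.eventually (gt_mem_nhds hε)] with m hm1 hm2
    exact ⟨hm1, (Metric.ball_subset_ball hm2.le).trans hball⟩
  obtain ⟨m, hm⟩ := hev.exists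
  have hmpos : (0:ℝ) < 1 / ((m:ℝ) + 1) := by positivity
  obtain ⟨q, hq, k, rfl⟩ := (TopologicalSpace.denseRange_denseSeq W).inter_open_nonempty
    {q : W | ∀ i < m, |q i - p i| < 1 / ((m:ℝ)+1)} (box_open p m _)
    ⟨p, fun i _ => by simpa using hmpos⟩
  have hpV : p ∈ Vt (Nat.pair k m) := by
    intro i hi
    rw [Nat.unpair_pair] at hi ⊢
    rw [abs_sub_comm]
    exact hq i hi
  obtain ⟨r, hrA, hrV⟩ := Cn_meets (Nat.pair k m) ⟨p, hpV, MM_sub _ hp⟩ A
    (hA.trans (MM_sub _)) hAc hAf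
  apply huA (a := r) _ hrA
  intro i hi
  apply (hm i hi).2
  have him := (hm i hi).1
  have h1 := hrV i (by rw [Nat.unpair_pair]; exact him)
  have h2 := hq i him
  rw [Nat.unpair_pair] at h1
  simp only at h1
  rw [Metric.mem_ball, Real.dist_eq]
  calc |r i - p i| ≤ |r i - TopologicalSpace.denseSeq W k i| +
        |TopologicalSpace.denseSeq W k i - p i| := abs_sub_le _ _ _
    _ < 1 / ((m:ℝ)+1) + 1 / ((m:ℝ)+1) := add_lt_add h1 h2
    _ = 2 / ((m:ℝ)+1) := by ring

end Pool.Agent.V11214.Irr
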