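import Mathlib

set_option autoImplicit false
open Set Topology

namespace Pool.Agent.V11214.KFive

/-- Continuous logarithms on the plane. -/
theorem exists_log (H : ℝ × ℝ → ℂ) (hc : Continuous H) (h0 : ∀ p, H p ≠ 0) :
    ∃ L : ℝ × ℝ → ℂ, Continuous L ∧ ∀ p, Complex.exp (L p) = H p := by
  have hcov := Complex.isCoveringMap_exp
  let f : C(ℝ × ℝ, {z : ℂ // z ≠ 0}) := ⟨fun p => ⟨H p, h0 p⟩, by fun_prop⟩
  have he : (⟨Complex.exp (Complex.log (H (0, 0))), Complex.exp_ne_zero _⟩ : {z : ℂ // z ≠ 0})
      = f (0, 0) := by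
    apply Subtype.ext
    exact Complex.exp_log (h0 _)
  obtain ⟨F, ⟨_, hF⟩, _⟩ := hcov.existsUnique_continuousMap_lifts f (0, 0)
    (Complex.log (H (0, 0))) he
  refine ⟨F, F.continuous, fun p => ?_⟩
  have := congrFun hF p
  exact congrArg Subtype.val this

theorem exists_log1 (H : ℝ → ℂ) (hc : Continuous H) (h0 : ∀ p, H p ≠ 0) :
    ∃ L : ℝ → ℂ, Continuous L ∧ ∀ p, Complex.exp (L p) = H p := by
  obtain ⟨L, hL, h⟩ := exists_log (fun p => H p.1) (by fun_prop) (fun p => h0 _)
  exact ⟨fun t => L (t, 0), by fun_prop, fun p => h (p, 0)⟩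

theorem log_unique (M M' : ℝ → ℂ) (hM : Continuous M) (hM' : Continuous M') (c : ℂ)
    (h : ∀ t, Complex.exp (M' t) = c * Complex.exp (M t)) (s t : ℝ) :
    M' t - M' s = M t - M s := by
  have hcov := Complex.isCoveringMap_exp
  have := hcov.eq_of_comp_eq (g₁ := fun u => M' u - M u) (g₂ := fun _ : ℝ => M' s - M s)
    (by fun_prop) (by fun_prop) (by
      funext u
      apply Subtype.ext
      simp only [Function.comp_apply]
      rw [Complex.exp_sub, Complex.exp_sub, h, h, mul_div_cancel_right₀ _ (Complex.exp_ne_zero _),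
        mul_div_cancel_right₀ _ (Complex.exp_ne_zero _)]) s rfl
  have h2 := congrFun this t
  linear_combination h2

/-- `K₅` has no planar representation by continua-like paths. -/
theorem k5 (x : Fin 5 → ℂ) (P : Fin 5 → Fin 5 → ℝ → ℂ)
    (hc : ∀ a b, a < b → Continuous (P a b))
    (h0 : ∀ a b, a < b → P a b 0 = x a) (h1 : ∀ a b, a < b → P a b 1 = x b)
    (hd : ∀ a b c d, a < b → c < d → a ≠ c → a ≠ d → b ≠ c → b ≠ d →
      ∀ s t, P a b s ≠ P c d t) : False := by
  -- points avoid edges
  have hv : ∀ v a b, a < b → v ≠ a → v ≠ b → ∀ t, P a b t - x v ≠ 0 := by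
    intro v a b hab hva hvb t
    obtain ⟨d, hda, hdb, hdv⟩ : ∃ d : Fin 5, d ≠ a ∧ d ≠ b ∧ d ≠ v := by
      revert v a b; decide
    rw [sub_ne_zero]
    rcases lt_or_gt_of_ne hdv with h | h
    · rw [← h1 d v h]
      exact hd a b d v hab h hda.symm hva.symm hdb.symm hvb.symm t 1
    · rw [← h0 v d h]
      exact hd a b v d hab h hva.symm hda.symm hvb.symm hdb.symm t 0
  have hx : ∀ v w, v ≠ w → x w - x v ≠ 0 := by
    intro v w hvw
    obtain ⟨d, hdw, hdv⟩ : ∃ d : Fin 5, d ≠ w ∧ d ≠ v := by
      revert v w; decide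
    rcases lt_or_gt_of_ne hdw with h | h
    · rw [← h1 d w h]
      exact hv v d w h hdv.symm hvw 1
    · rw [← h0 w d h]
      exact hv v w d h hvw hdv.symm 0
  have hMex : ∀ v a b, ∃ M : ℝ → ℂ, a < b → v ≠ a → v ≠ b →
      (Continuous M ∧ ∀ t, Complex.exp (M t) = P a b t - x v) := by
    intro v a b
    by_cases hab : a < b ∧ v ≠ a ∧ v ≠ b
    · obtain ⟨M, hM⟩ := exists_log1 (fun t => P a b t - x v)
        (by have := hc a b hab.1; fun_prop) (hv v a b hab.1 hab.2.1 hab.2.2)
      exact ⟨M, fun _ _ _ => hM⟩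
    · exact ⟨fun _ => 0, fun h1 h2 h3 => absurd ⟨h1, h2, h3⟩ hab⟩
  choose M hM using hMex
  -- the direction logarithms
  let ℓ : Fin 5 → Fin 5 → ℂ := fun v w => if v < w then Complex.log (x w - x v)
    else Complex.log (x v - x w) + Real.pi * Complex.I
  have hℓ : ∀ v w, v ≠ w → Complex.exp (ℓ v w) = x w - x v := by
    intro v w hvw
    simp only [ℓ]
    split_ifs with h
    · exact Complex.exp_log (hx v w hvw)
    · rw [Complex.exp_add, Complex.exp_log (hx w v hvw.symm), Complex.exp_pi_mul_I]
      ring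
  let ε : Fin 5 → Fin 5 → ℤ := fun w v => if v < w then 1 else -1
  have hε : ∀ v w, v ≠ w → ℓ w v - ℓ v w = (ε w v : ℂ) * (Real.pi * Complex.I) := by
    intro v w hvw
    simp only [ℓ, ε]
    rcases lt_or_gt_of_ne hvw with h | h
    · rw [if_neg (not_lt_of_gt h), if_pos h, if_pos h]
      push_cast; ring
    · rw [if_pos h, if_neg (not_lt_of_gt h), if_neg (not_lt_of_gt h)]
      push_cast; ring
  have hnex : ∀ v a b, ∃ n : ℤ, a < b → v ≠ a → v ≠ b →
      M v a b 1 - M v a b 0 = ℓ v b - ℓ v a + n * (2 * Real.pi * Complex.I) := by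
    intro v a b
    by_cases hab : a < b ∧ v ≠ a ∧ v ≠ b
    · obtain ⟨hab, hva, hvb⟩ := hab
      obtain ⟨_, hE⟩ := hM v a b hab hva hvb
      have : Complex.exp (M v a b 1 - M v a b 0) = Complex.exp (ℓ v b - ℓ v a) := by
        rw [Complex.exp_sub, Complex.exp_sub, hE, hE, hℓ v b hvb, hℓ v a hva, h0 a b hab,
          h1 a b hab]
      obtain ⟨n, hn⟩ := Complex.exp_eq_exp_iff_exists_int.1 this
      exact ⟨n, fun _ _ _ => hn⟩
    · exact ⟨0, fun h1 h2 h3 => absurd ⟨h1, h2, h3⟩ hab⟩
  choose n hn using hnex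
  have key : ∀ a b c d, a < b → c < d → a ≠ c → a ≠ d → b ≠ c → b ≠ d →
      2 * (n c a b - n d a b - n a c d + n b c d) + (ε c b - ε c a - ε d b + ε d a) = 0 := by
    intro a b c d hab hcd hac had hbc hbd
    obtain ⟨L, hL, hLE⟩ := exists_log (fun p => P a b p.1 - P c d p.2)
      (by have := hc a b hab; have := hc c d hcd; fun_prop)
      (fun p => sub_ne_zero.2 (hd a b c d hab hcd hac had hbc hbd _ _))
    have e1 := log_unique (M c a b) (fun s => L (s, 0)) (hM c a b hab hac.symm hbc.symm).1
      (by fun_prop) 1 (fun t => by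
        rw [(hM c a b hab hac.symm hbc.symm).2, hLE, one_mul]
        simp only [h0 c d hcd]) 0 1
    have e2 := log_unique (M d a b) (fun s => L (s, 1)) (hM d a b hab had.symm hbd.symm).1
      (by fun_prop) 1 (fun t => by
        rw [(hM d a b hab had.symm hbd.symm).2, hLE, one_mul]
        simp only [h1 c d hcd]) 0 1
    have e3 := log_unique (M a c d) (fun s => L (0, s)) (hM a c d hcd hac had).1
      (by fun_prop) (-1) (fun t => by
        rw [(hM a c d hcd hac had).2, hLE]
        simp only [h0 a b hab]; ring) 0 1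
    have e4 := log_unique (M b c d) (fun s => L (1, s)) (hM b c d hcd hbc hbd).1
      (by fun_prop) (-1) (fun t => by
        rw [(hM b c d hcd hbc hbd).2, hLE]
        simp only [h1 a b hab]; ring) 0 1
    have f1 := hn c a b hab hac.symm hbc.symm
    have f2 := hn d a b hab had.symm hbd.symm
    have f3 := hn a c d hcd hac had
    have f4 := hn b c d hcd hbc hbd
    have g1 := hε b c hbc
    have g2 := hε a c hac
    have g3 := hε b d hbd
    have g4 := hε a d had
    have hpi : (Real.pi * Complex.I : ℂ) ≠ 0 :=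
      mul_ne_zero (Complex.ofReal_ne_zero.2 Real.pi_ne_zero) Complex.I_ne_zero
    have : ((2 * (n c a b - n d a b - n a c d + n b c d) + (ε c b - ε c a - ε d b + ε d a) : ℤ) : ℂ)
        * (Real.pi * Complex.I) = 0 := by
      push_cast
      linear_combination -(e1 + e4 - e3 - e2) - (f1 - f2 - f3 + f4) - (g1 - g2 - g3 + g4)
    rcases mul_eq_zero.1 this with h | h
    · exact_mod_cast h
    · exact absurd h hpi
  have k1 := key 0 1 2 3 (by decide) (by decide) (by decide) (by decide) (by decide) (by decide)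
  have k2 := key 0 1 2 4 (by decide) (by decide) (by decide) (by decide) (by decide) (by decide)
  have k3 := key 0 1 3 4 (by decide) (by decide) (by decide) (by decide) (by decide) (by decide)
  have k4 := key 0 2 1 3 (by decide) (by decide) (by decide) (by decide) (by decide) (by decide)
  have k5 := key 0 2 1 4 (by decide) (by decide) (by decide) (by decide) (by decide) (by decide)
  have k6 := key 0 2 3 4 (by decide) (by decide) (by decide) (by decide) (by decide) (by decide)
  have k7 := key 0 3 1 2 (by decide) (by decide) (by decide) (by decide) (by decide) (by decide)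
  have k8 := key 0 3 1 4 (by decide) (by decide) (by decide) (by decide) (by decide) (by decide)
  have k9 := key 0 3 2 4 (by decide) (by decide) (by decide) (by decide) (by decide) (by decide)
  have k10 := key 0 4 1 2 (by decide) (by decide) (by decide) (by decide) (by decide) (by decide)
  have k11 := key 0 4 1 3 (by decide) (by decide) (by decide) (by decide) (by decide) (by decide)
  have k12 := key 0 4 2 3 (by decide) (by decide) (by decide) (by decide) (by decide) (by decide)
  have k13 := key 1 2 3 4 (by decide) (by decide) (by decide) (by decide) (by decide) (by decide)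
  have k14 := key 1 3 2 4 (by decide) (by decide) (by decide) (by decide) (by decide) (by decide)
  have k15 := key 1 4 2 3 (by decide) (by decide) (by decide) (by decide) (by decide) (by decide)
  have E : ∀ w v, ε w v = if v < w then 1 else -1 := fun _ _ => rfl
  simp only [E] at k1 k2 k3 k4 k5 k6 k7 k8 k9 k10 k11 k12 k13 k14 k15
  simp (config := {decide := true}) only [if_true, if_false] at k1 k2 k3 k4 k5 k6 k7 k8 k9 k10 k11 k12 k13 k14 k15
  omega

end Pool.Agent.V11214.KFive
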