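import Pool.Agent.V11214.KFive

set_option autoImplicit false
open Set Topology Metric

namespace Pool.Agent.V11214.KFive

/-- Preimages of closed connected sets under a monotone map of a compact space are connected. -/
theorem preimage_preconnected {X Y : Type*} [TopologicalSpace X] [CompactSpace X]
    [TopologicalSpace Y] [T2Space Y] (f : X → Y) (hf : Continuous f)
    (hs : Function.Surjective f) (hm : ∀ y, IsPreconnected (f ⁻¹' {y})) (E : Set Y)
    (hE : IsClosed E) (hc : IsPreconnected E) : IsPreconnected (f ⁻¹' E) := by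
  rw [isPreconnected_closed_iff]
  intro A B hA hB hAB ⟨a, haE, haA⟩ ⟨b, hbE, hbB⟩
  have hcl : IsClosedMap f := hf.isClosedMap
  have hpre := hE.preimage hf
  rw [isPreconnected_closed_iff] at hc
  obtain ⟨y, hyE, ⟨p, ⟨hpE, hpA⟩, hpy⟩, ⟨q, ⟨hqE, hqB⟩, hqy⟩⟩ := hc (f '' (f ⁻¹' E ∩ A)) (f '' (f ⁻¹' E ∩ B))
    (hcl _ (hpre.inter hA)) (hcl _ (hpre.inter hB)) (by
      intro y hy
      obtain ⟨x, rfl⟩ := hs y
      rcases hAB (show x ∈ f ⁻¹' E from hy) with h | h
      · exact Or.inl ⟨x, ⟨hy, h⟩, rfl⟩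
      · exact Or.inr ⟨x, ⟨hy, h⟩, rfl⟩) ⟨f a, haE, a, ⟨haE, haA⟩, rfl⟩
      ⟨f b, hbE, b, ⟨hbE, hbB⟩, rfl⟩
  have hfib := hm y
  rw [isPreconnected_closed_iff] at hfib
  have hsub : f ⁻¹' {y} ⊆ f ⁻¹' E := by
    intro x hx
    have hx' : f x = y := hx
    show f x ∈ E
    rw [hx']; exact hyE
  obtain ⟨z, hz, hzA, hzB⟩ := hfib A B hA hB (fun x hx => hAB (hsub hx)) ⟨p, hpy, hpA⟩ ⟨q, hqy, hqB⟩
  exact ⟨z, hsub hz, hzA, hzB⟩

theorem thickening_joined {V : Type*} [NormedAddCommGroup V] [NormedSpace ℝ V] (C : Set V)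
    (hC : IsPreconnected C) (δ : ℝ) (hδ : 0 < δ) (x y : V) (hx : x ∈ C) (hy : y ∈ C) :
    JoinedIn (thickening δ C) x y := by
  have hpre : IsPreconnected (thickening δ C) := by
    have h1 : IsPreconnected (C ×ˢ ball (0 : V) δ) :=
      hC.prod (convex_ball _ _).isPreconnected
    have h2 := h1.image (fun p : V × V => p.1 + p.2) (by fun_prop)
    convert h2 using 1
    ext z
    rw [mem_thickening_iff]
    constructor
    · rintro ⟨c, hc, hz⟩
      refine ⟨(c, z - c), ⟨hc, ?_⟩, by simp⟩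
      rw [mem_ball_zero_iff, ← dist_eq_norm]; exact hz
    · rintro ⟨⟨c, w⟩, ⟨hc, hw⟩, rfl⟩
      refine ⟨c, hc, ?_⟩
      rw [mem_ball_zero_iff] at hw
      simpa [dist_eq_norm] using hw
  have hconn : IsConnected (thickening δ C) := ⟨⟨x, self_subset_thickening hδ C hx⟩, hpre⟩
  have hp : IsPathConnected (thickening δ C) :=
    (isOpen_thickening.isConnected_iff_isPathConnected).1 hconn
  exact hp.joinedIn x (self_subset_thickening hδ C hx) y (self_subset_thickening hδ C hy)

theorem no_monotone {Y : Type*} [TopologicalSpace Y] [T2Space Y] (v : Fin 5 → Y)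
    (E : Fin 5 → Fin 5 → Set Y) (hEc : ∀ a b, IsClosed (E a b))
    (hEp : ∀ a b, IsPreconnected (E a b)) (hE0 : ∀ a b, v a ∈ E a b) (hE1 : ∀ a b, v b ∈ E a b)
    (hEd : ∀ a b c d, a < b → c < d → a ≠ c → a ≠ d → b ≠ c → b ≠ d → Disjoint (E a b) (E c d))
    (S : Set (EuclideanSpace ℝ (Fin 2))) (f : ↥S → Y) (hS : IsCompact S) (hf : Continuous f)
    (hs : Function.Surjective f) (hm : ∀ y, IsConnected (Subtype.val '' (f ⁻¹' {y}))) : False := by
  have hSc : CompactSpace S := isCompact_iff_compactSpace.1 hS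
  have hm' : ∀ y, IsPreconnected (f ⁻¹' {y}) := fun y =>
    (Topology.IsInducing.subtypeVal.isPreconnected_image).1 (hm y).isPreconnected
  let C : Fin 5 → Fin 5 → Set (EuclideanSpace ℝ (Fin 2)) := fun a b => Subtype.val '' (f ⁻¹' (E a b))
  have hCp : ∀ a b, IsPreconnected (C a b) := fun a b =>
    (preimage_preconnected f hf hs hm' _ (hEc a b) (hEp a b)).image _ continuous_subtype_val.continuousOn
  have hCc : ∀ a b, IsCompact (C a b) := fun a b =>
    ((hEc a b).preimage hf).isCompact.image continuous_subtype_val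
  have hCd : ∀ a b c d, a < b → c < d → a ≠ c → a ≠ d → b ≠ c → b ≠ d →
      Disjoint (C a b) (C c d) := by
    intro a b c d h1 h2 h3 h4 h5 h6
    rw [Set.disjoint_left]
    rintro _ ⟨x, hx, rfl⟩ ⟨y, hy, hxy⟩
    have : y = x := Subtype.ext hxy
    subst this
    exact Set.disjoint_left.1 (hEd a b c d h1 h2 h3 h4 h5 h6) hx hy
  have hev : ∀ᶠ δ in 𝓝[>] (0 : ℝ), ∀ a b c d, a < b → c < d → a ≠ c → a ≠ d → b ≠ c → b ≠ d →
      Disjoint (thickening δ (C a b)) (thickening δ (C c d)) := by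
    rw [Filter.eventually_all]; intro a
    rw [Filter.eventually_all]; intro b
    rw [Filter.eventually_all]; intro c
    rw [Filter.eventually_all]; intro d
    by_cases h : a < b ∧ c < d ∧ a ≠ c ∧ a ≠ d ∧ b ≠ c ∧ b ≠ d
    · obtain ⟨h1, h2, h3, h4, h5, h6⟩ := h
      obtain ⟨δ, hδ, hdis⟩ := (hCd a b c d h1 h2 h3 h4 h5 h6).exists_thickenings (hCc a b)
        (hCc c d).isClosed
      filter_upwards [Ioo_mem_nhdsGT hδ] with η hη _ _ _ _ _ _
      exact hdis.mono (thickening_mono hη.2.le _) (thickening_mono hη.2.le _)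
    · exact Filter.Eventually.of_forall fun δ h1 h2 h3 h4 h5 h6 =>
        absurd ⟨h1, h2, h3, h4, h5, h6⟩ h
  obtain ⟨δ, hδd, hδ⟩ := (hev.and self_mem_nhdsWithin).exists
  have hδ0 : 0 < δ := hδ
  choose g hg using fun a => hs (v a)
  have hj : ∀ a b, JoinedIn (thickening δ (C a b)) (g a : EuclideanSpace ℝ (Fin 2)) (g b) := by
    intro a b
    refine thickening_joined _ (hCp a b) δ hδ0 _ _ ⟨g a, ?_, rfl⟩ ⟨g b, ?_, rfl⟩
    · show f (g a) ∈ E a b
      rw [hg]; exact hE0 a b
    · show f (g b) ∈ E a b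
      rw [hg]; exact hE1 a b
  choose γ hγ using hj
  let φ : EuclideanSpace ℝ (Fin 2) → ℂ := fun p => (p 0 : ℂ) + (p 1 : ℂ) * Complex.I
  have hφc : Continuous φ := by
    have h0 : Continuous fun p : EuclideanSpace ℝ (Fin 2) => p 0 := by fun_prop
    have h1 : Continuous fun p : EuclideanSpace ℝ (Fin 2) => p 1 := by fun_prop
    exact (Complex.continuous_ofReal.comp h0).add
      ((Complex.continuous_ofReal.comp h1).mul continuous_const)
  have hφi : ∀ p q, φ p = φ q → p = q := by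
    intro p q h
    have hre := congrArg Complex.re h
    have him := congrArg Complex.im h
    simp [φ] at hre him
    ext i
    fin_cases i
    · exact hre
    · exact him
  refine k5 (fun a => φ (g a)) (fun a b t => φ ((γ a b).extend t)) ?_ ?_ ?_ ?_
  · intro a b _
    exact hφc.comp (γ a b).continuous_extend
  · intro a b _
    simp
  · intro a b _
    simp
  · intro a b c d h1 h2 h3 h4 h5 h6 s t h
    have := hφi _ _ h
    have m1 : (γ a b).extend s ∈ thickening δ (C a b) := by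
      have := (γ a b).extend_range ▸ mem_range_self (f := (γ a b).extend) s
      obtain ⟨u, hu⟩ := this
      rw [← hu]; exact hγ a b u
    have m2 : (γ c d).extend t ∈ thickening δ (C c d) := by
      have := (γ c d).extend_range ▸ mem_range_self (f := (γ c d).extend) t
      obtain ⟨u, hu⟩ := this
      rw [← hu]; exact hγ c d u
    rw [this] at m1
    exact Set.disjoint_left.1 (hδd a b c d h1 h2 h3 h4 h5 h6) m1 m2

end Pool.Agent.V11214.KFive
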