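import Mathlib

set_option autoImplicit false
open Set Topology

namespace Pool.Agent.V11214.KOne

/-- `A` is functionally closed: `A = f⁻¹(0)` for a continuous `f : X → [0,1]`. -/
def FunClosed {X : Type*} [TopologicalSpace X] (A : Set X) : Prop :=
  ∃ f : X → ℝ, Continuous f ∧ (∀ x, f x ∈ Icc (0 : ℝ) 1) ∧ A = f ⁻¹' {0}

/-- First functionally additive class: countable unions of functionally closed sets. -/
def FunAdd {X : Type*} [TopologicalSpace X] (A : Set X) : Prop :=
  ∃ Z : ℕ → Set X, (∀ n, FunClosed (Z n)) ∧ A = ⋃ n, Z n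

/-- The first functional Lebesgue class. -/
def K1 {X : Type*} [TopologicalSpace X] (f : X → ℝ) : Prop :=
  ∀ V : Set ℝ, IsOpen V → FunAdd (f ⁻¹' V)

/-- Boundedness. -/
def Bdd {X : Type*} (f : X → ℝ) : Prop := ∃ C : ℝ, ∀ x, |f x| ≤ C

/-- `E` is `K₁`-embedded in `X`. -/
def K1Embedded {X : Type*} [TopologicalSpace X] (E : Set X) : Prop :=
  ∀ f : E → ℝ, K1 f → ∃ g : X → ℝ, K1 g ∧ ∀ e : E, g e = f e

/-- `E` is `K₁*`-embedded in `X`. -/
def K1StarEmbedded {X : Type*} [TopologicalSpace X] (E : Set X) : Prop :=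
  ∀ f : E → ℝ, K1 f → Bdd f → ∃ g : X → ℝ, K1 g ∧ Bdd g ∧ ∀ e : E, g e = f e

variable {X : Type*} [TopologicalSpace X]

theorem fc_of (f : X → ℝ) (hf : Continuous f) : FunClosed {x | f x = 0} := by
  refine ⟨fun x => min |f x| 1, by fun_prop, fun x => ⟨le_min (abs_nonneg _) zero_le_one,
    min_le_right _ _⟩, ?_⟩
  ext x
  simp only [Set.mem_ofPred_eq, mem_preimage, mem_singleton_iff]
  constructor
  · intro h; simp [h]
  · intro h
    rcases min_choice |f x| 1 with h' | h'
    · rw [h'] at h; exact abs_eq_zero.1 h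
    · rw [h'] at h; norm_num at h

theorem fc_le (f : X → ℝ) (hf : Continuous f) (c : ℝ) : FunClosed {x | f x ≤ c} := by
  convert fc_of (fun x => max (f x - c) 0) (by fun_prop) using 1
  ext x
  simp

theorem FunClosed.inter {A B : Set X} (hA : FunClosed A) (hB : FunClosed B) :
    FunClosed (A ∩ B) := by
  obtain ⟨f, hf, _, rfl⟩ := hA
  obtain ⟨g, hg, _, rfl⟩ := hB
  convert fc_of (fun x => |f x| + |g x|) (by fun_prop) using 1
  ext x
  simp only [mem_inter_iff, mem_preimage, mem_singleton_iff, Set.mem_ofPred_eq]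
  constructor
  · rintro ⟨h1, h2⟩; simp [h1, h2]
  · intro h
    have h1 := abs_nonneg (f x)
    have h2 := abs_nonneg (g x)
    exact ⟨abs_eq_zero.1 (by linarith), abs_eq_zero.1 (by linarith)⟩

theorem FunClosed.union {A B : Set X} (hA : FunClosed A) (hB : FunClosed B) :
    FunClosed (A ∪ B) := by
  obtain ⟨f, hf, _, rfl⟩ := hA
  obtain ⟨g, hg, _, rfl⟩ := hB
  convert fc_of (fun x => f x * g x) (by fun_prop) using 1
  ext x
  simp only [mem_union, mem_preimage, mem_singleton_iff, Set.mem_ofPred_eq, mul_eq_zero]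

theorem fc_empty : FunClosed (∅ : Set X) := by
  convert fc_of (fun _ : X => (1 : ℝ)) continuous_const using 1
  ext x; simp

theorem fc_univ : FunClosed (univ : Set X) := by
  convert fc_of (fun _ : X => (0 : ℝ)) continuous_const using 1
  ext x; simp

theorem FunClosed.isClosed {A : Set X} (hA : FunClosed A) : IsClosed A := by
  obtain ⟨f, hf, _, rfl⟩ := hA
  exact isClosed_singleton.preimage hf

theorem fc_iInter (A : ℕ → Set X) (hA : ∀ n, FunClosed (A n)) : FunClosed (⋂ n, A n) := by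
  choose f hf h01 hfA using hA
  have hs : Summable (fun n : ℕ => (1 / 2 : ℝ) ^ n) := summable_geometric_two
  have hle : ∀ n x, ‖(1 / 2 : ℝ) ^ n * f n x‖ ≤ (1 / 2 : ℝ) ^ n := by
    intro n x
    rw [norm_mul, Real.norm_eq_abs, Real.norm_eq_abs, abs_of_nonneg (by positivity),
      abs_of_nonneg (h01 n x).1]
    exact mul_le_of_le_one_right (by positivity) (h01 n x).2
  have hc : Continuous fun x => ∑' n : ℕ, (1 / 2 : ℝ) ^ n * f n x :=
    continuous_tsum (fun n => by have := hf n; fun_prop) hs hle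
  convert fc_of _ hc using 1
  ext x
  simp only [mem_iInter, Set.mem_ofPred_eq]
  have hsx : Summable fun n : ℕ => (1 / 2 : ℝ) ^ n * f n x :=
    Summable.of_norm_bounded hs (fun n => hle n x)
  have hnn : ∀ n, 0 ≤ (1 / 2 : ℝ) ^ n * f n x := fun n =>
    mul_nonneg (by positivity) (h01 n x).1
  have hpos : ∀ n : ℕ, (1 / 2 : ℝ) ^ n ≠ 0 := fun n => by positivity
  constructor
  · intro h
    have h0 : ∀ n, (1 / 2 : ℝ) ^ n * f n x = 0 := fun n => by
      have h1 : x ∈ f n ⁻¹' {0} := hfA n ▸ h n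
      have h2 : f n x = 0 := h1
      rw [h2, mul_zero]
    simp only [h0, tsum_zero]
  · intro h n
    have h1 : HasSum (fun n : ℕ => (1 / 2 : ℝ) ^ n * f n x) 0 := h ▸ hsx.hasSum
    rw [hasSum_zero_iff_of_nonneg hnn] at h1
    have h2 := congrFun h1 n
    simp only [Pi.zero_apply] at h2
    rw [hfA n, mem_preimage, mem_singleton_iff]
    exact (mul_eq_zero.1 h2).resolve_left (hpos n)

theorem FunClosed.add {A : Set X} (hA : FunClosed A) : FunAdd A :=
  ⟨fun _ => A, fun _ => hA, (iUnion_const A).symm⟩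

theorem fa_iUnion (A : ℕ → Set X) (hA : ∀ n, FunAdd (A n)) : FunAdd (⋃ n, A n) := by
  choose Z hZ hZA using hA
  refine ⟨fun k => Z k.unpair.1 k.unpair.2, fun k => hZ _ _, ?_⟩
  ext x
  simp only [mem_iUnion]
  constructor
  · rintro ⟨n, hn⟩
    rw [hZA n, mem_iUnion] at hn
    obtain ⟨m, hm⟩ := hn
    exact ⟨Nat.pair n m, by simpa using hm⟩
  · rintro ⟨k, hk⟩
    refine ⟨k.unpair.1, ?_⟩
    rw [hZA, mem_iUnion]
    exact ⟨_, hk⟩

theorem FunAdd.union {A B : Set X} (hA : FunAdd A) (hB : FunAdd B) : FunAdd (A ∪ B) := by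
  obtain ⟨Z, hZ, rfl⟩ := hA
  obtain ⟨W, hW, rfl⟩ := hB
  exact ⟨fun n => Z n ∪ W n, fun n => (hZ n).union (hW n), by rw [iUnion_union_distrib]⟩

theorem FunAdd.inter {A B : Set X} (hA : FunAdd A) (hB : FunAdd B) : FunAdd (A ∩ B) := by
  obtain ⟨Z, hZ, rfl⟩ := hA
  obtain ⟨W, hW, rfl⟩ := hB
  have : (⋃ n, Z n) ∩ (⋃ n, W n) = ⋃ n, ⋃ m, Z n ∩ W m := by
    ext x; simp
  rw [this]
  exact fa_iUnion _ fun n => ⟨fun m => Z n ∩ W m, fun m => (hZ n).inter (hW m), rfl⟩

/-- Functionally open sets. -/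
def FunOpen (A : Set X) : Prop := FunClosed Aᶜ

theorem FunOpen.add {A : Set X} (hA : FunOpen A) : FunAdd A := by
  obtain ⟨f, hf, h01, hfA⟩ := hA
  refine ⟨fun n : ℕ => {x | -f x ≤ -(1 / (n + 1))}, fun n => fc_le _ (by fun_prop) _, ?_⟩
  ext x
  have : x ∈ A ↔ 0 < f x := by
    have h1 : x ∈ Aᶜ ↔ f x = 0 := by rw [hfA]; simp
    rw [mem_compl_iff] at h1
    constructor
    · intro h
      exact lt_of_le_of_ne (h01 x).1 fun h' => (h1.2 h'.symm) h
    · intro h
      by_contra h'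
      exact h.ne' (h1.1 h')
  rw [this]
  simp only [mem_iUnion, Set.mem_ofPred_eq, neg_le_neg_iff]
  constructor
  · intro h
    obtain ⟨n, hn⟩ := exists_nat_one_div_lt h
    exact ⟨n, hn.le⟩
  · rintro ⟨n, hn⟩
    exact lt_of_lt_of_le (by positivity) hn

theorem fo_iUnion (A : ℕ → Set X) (hA : ∀ n, FunOpen (A n)) : FunOpen (⋃ n, A n) := by
  unfold FunOpen
  rw [compl_iUnion]
  exact fc_iInter _ hA

theorem FunOpen.union {A B : Set X} (hA : FunOpen A) (hB : FunOpen B) : FunOpen (A ∪ B) := by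
  unfold FunOpen
  rw [compl_union]
  exact FunClosed.inter hA hB

theorem fo_empty : FunOpen (∅ : Set X) := by
  unfold FunOpen; rw [compl_empty]; exact fc_univ

theorem FunOpen.isOpen {A : Set X} (hA : FunOpen A) : IsOpen A := by
  rw [← isClosed_compl_iff]; exact FunClosed.isClosed hA

/-- Functionally ambiguous sets. -/
def Amb (A : Set X) : Prop := FunAdd A ∧ FunAdd Aᶜ

theorem Amb.compl {A : Set X} (hA : Amb A) : Amb Aᶜ := ⟨hA.2, by rw [compl_compl]; exact hA.1⟩

theorem Amb.inter {A B : Set X} (hA : Amb A) (hB : Amb B) : Amb (A ∩ B) :=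
  ⟨hA.1.inter hB.1, by rw [compl_inter]; exact hA.2.union hB.2⟩

theorem Amb.union {A B : Set X} (hA : Amb A) (hB : Amb B) : Amb (A ∪ B) :=
  ⟨hA.1.union hB.1, by rw [compl_union]; exact hA.2.inter hB.2⟩

theorem Amb.diff {A B : Set X} (hA : Amb A) (hB : Amb B) : Amb (A \ B) := by
  rw [sdiff_eq]; exact hA.inter hB.compl

theorem FunOpen.amb {A : Set X} (hA : FunOpen A) : Amb A := ⟨hA.add, FunClosed.add hA⟩

theorem amb_empty : Amb (∅ : Set X) := fo_empty.amb

/-- Gluing ambiguous sets along a countable functionally open cover. -/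
theorem amb_glue (U B : ℕ → Set X) (hU : ∀ n, FunOpen (U n)) (hB : ∀ n, Amb (B n)) :
    Amb (⋃ n, B n ∩ disjointed U n) := by
  have hD : ∀ n, Amb (disjointed U n) := by
    intro n
    refine disjointedRec (fun t i ht => ?_) (hU n).amb
    exact ht.diff (hU i).amb
  refine ⟨fa_iUnion _ fun n => ((hB n).inter (hD n)).1, ?_⟩
  have : (⋃ n, B n ∩ disjointed U n)ᶜ = (⋃ n, U n)ᶜ ∪ ⋃ n, disjointed U n \ B n := by
    ext x
    simp only [mem_compl_iff, mem_iUnion, mem_union, mem_inter_iff, mem_sdiff]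
    constructor
    · intro h
      by_cases hx : ∃ n, x ∈ U n
      · right
        have : x ∈ ⋃ n, disjointed U n := by
          rw [iUnion_disjointed]; exact mem_iUnion.2 hx
        obtain ⟨n, hn⟩ := mem_iUnion.1 this
        exact ⟨n, hn, fun h' => h ⟨n, h', hn⟩⟩
      · left; exact hx
    · rintro (h | ⟨n, hn, hn'⟩)
      · rintro ⟨m, _, hm⟩
        exact h ⟨m, disjointed_subset U m hm⟩
      · rintro ⟨m, hm, hm'⟩
        by_cases hmn : m = n
        · subst hmn; exact hn' hm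
        · exact Set.disjoint_left.1 (disjoint_disjointed U hmn) hm' hn
  rw [this]
  refine FunAdd.union ?_ (fa_iUnion _ fun n => ((hD n).diff (hB n)).1)
  exact FunClosed.add (fo_iUnion U hU)

end Pool.Agent.V11214.KOne
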