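import Pool.Agent.V11214.KOneClass
import Pool.Agent.V11214.HIField

set_option autoImplicit false
open Set Topology

namespace Pool.Agent.V11214.KOne

variable {X : Type*} [TopologicalSpace X]

/-- Traces: on a countable hereditarily irresolvable set, every subset is the trace of a
functionally ambiguous set. -/
theorem trace (E : Set X) (hE : E.Countable)
    (hcr : ∀ O : Set X, IsOpen O → ∀ e ∈ O, ∃ U, FunOpen U ∧ e ∈ U ∧ U ⊆ O)
    (hHI : ∀ F ⊆ E, F.Nonempty → ∀ S : Set X, ∃ O, IsOpen O ∧ (O ∩ F).Nonempty ∧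
      (O ∩ F ∩ S = ∅ ∨ O ∩ F ⊆ S))
    (S : Set X) : ∃ B, Amb B ∧ ∀ e ∈ E, (e ∈ B ↔ e ∈ S) := by
  rcases E.eq_empty_or_nonempty with rfl | hne
  · exact ⟨∅, amb_empty, fun e he => absurd he (notMem_empty e)⟩
  obtain ⟨f, rfl⟩ := hE.exists_eq_range hne
  let Good : Set X → Set X → Prop := fun U B =>
    FunOpen U ∧ Amb B ∧ ∀ e ∈ range f, (e ∈ B ↔ e ∈ S ∧ e ∈ U)
  have hex : ∀ n, ∃ U B, Good U B ∧ ((∃ U' B', Good U' B' ∧ f n ∈ U') → f n ∈ U) := by
    intro n
    by_cases h : ∃ U' B', Good U' B' ∧ f n ∈ U'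
    · obtain ⟨U', B', h1, h2⟩ := h
      exact ⟨U', B', h1, fun _ => h2⟩
    · exact ⟨∅, ∅, ⟨fo_empty, amb_empty, fun e _ => by simp⟩, fun h' => absurd h' h⟩
  choose U B hG hmax using hex
  let Us := ⋃ n, U n
  let Bs := ⋃ n, B n ∩ disjointed U n
  have hBs : ∀ e ∈ range f, (e ∈ Bs ↔ e ∈ S ∧ e ∈ Us) := by
    intro e he
    simp only [Bs, Us, mem_iUnion]
    constructor
    · rintro ⟨n, h1, h2⟩
      exact ⟨(((hG n).2.2 e he).1 h1).1, n, disjointed_subset U n h2⟩
    · rintro ⟨h1, h2⟩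
      have : e ∈ ⋃ n, disjointed U n := by
        rw [iUnion_disjointed]; exact mem_iUnion.2 h2
      obtain ⟨n, hn⟩ := mem_iUnion.1 this
      exact ⟨n, ((hG n).2.2 e he).2 ⟨h1, disjointed_subset U n hn⟩, hn⟩
  have hUo : FunOpen Us := fo_iUnion U fun n => (hG n).1
  have hBa : Amb Bs := amb_glue U B (fun n => (hG n).1) (fun n => (hG n).2.1)
  have hcov : range f ⊆ Us := by
    by_contra hno
    rw [Set.not_subset] at hno
    obtain ⟨y, hy, hyU⟩ := hno
    obtain ⟨O, hO, ⟨z, hzO, hzF⟩, hor⟩ := hHI (range f \ Us) sdiff_subset ⟨y, hy, hyU⟩ S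
    obtain ⟨V, hV, hzV, hVO⟩ := hcr O hO z hzO
    obtain ⟨⟨n, rfl⟩, hzU⟩ := hzF
    apply hzU
    refine mem_iUnion.2 ⟨n, hmax n ?_⟩
    rcases hor with hor | hor
    · refine ⟨Us ∪ V, Bs, ⟨hUo.union hV, hBa, fun e he => ?_⟩, Or.inr hzV⟩
      rw [hBs e he]
      constructor
      · rintro ⟨h1, h2⟩; exact ⟨h1, Or.inl h2⟩
      · rintro ⟨h1, h2 | h2⟩
        · exact ⟨h1, h2⟩
        · refine ⟨h1, ?_⟩
          by_contra h3
          have : e ∈ O ∩ (range f \ Us) ∩ S := ⟨⟨hVO h2, he, h3⟩, h1⟩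
          rw [hor] at this
          exact this
    · refine ⟨Us ∪ V, Bs ∪ (V \ Us), ⟨hUo.union hV, hBa.union (hV.amb.diff hUo.amb),
        fun e he => ?_⟩, Or.inr hzV⟩
      rw [mem_union, hBs e he]
      constructor
      · rintro (⟨h1, h2⟩ | ⟨h1, h2⟩)
        · exact ⟨h1, Or.inl h2⟩
        · exact ⟨hor ⟨hVO h1, he, h2⟩, Or.inr h1⟩
      · rintro ⟨h1, h2 | h2⟩
        · exact Or.inl ⟨h1, h2⟩
        · by_cases h3 : e ∈ Us
          · exact Or.inl ⟨h1, h3⟩
          · exact Or.inr ⟨h2, h3⟩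
  exact ⟨Bs, hBa, fun e he => by rw [hBs e he]; exact ⟨fun h => h.1, fun h => ⟨h, hcov he⟩⟩⟩

/-- The dyadic partial sums. -/
noncomputable def psum (B : ℕ → Set X) : ℕ → X → ℝ
  | 0 => fun _ => 0
  | n + 1 => fun x => psum B n x + (open Classical in if x ∈ B n then (1 / 2 : ℝ) ^ (n + 1) else 0)

omit [TopologicalSpace X] in
theorem psum_mono (B : ℕ → Set X) (x : X) : Monotone fun n => psum B n x := by
  refine monotone_nat_of_le_succ fun n => ?_
  simp only [psum]
  split_ifs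
  · have : (0 : ℝ) < (1 / 2) ^ (n + 1) := by positivity
    linarith
  · linarith

omit [TopologicalSpace X] in
theorem psum_anti (B : ℕ → Set X) (x : X) : Antitone fun n => psum B n x + (1 / 2 : ℝ) ^ n := by
  refine antitone_nat_of_succ_le fun n => ?_
  simp only [psum]
  have : (0 : ℝ) < (1 / 2) ^ (n + 1) := by positivity
  have h2 : (1 / 2 : ℝ) ^ n = (1 / 2) ^ (n + 1) + (1 / 2) ^ (n + 1) := by rw [pow_succ]; ring
  split_ifs <;> linarith

omit [TopologicalSpace X] in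
theorem psum_le (B : ℕ → Set X) (x : X) (m n : ℕ) : psum B m x ≤ psum B n x + (1 / 2 : ℝ) ^ n := by
  rcases le_total m n with h | h
  · have := psum_mono B x h
    have h2 : (0 : ℝ) < (1 / 2) ^ n := by positivity
    simp only at this
    linarith
  · have := psum_anti B x h
    have h2 : (0 : ℝ) < (1 / 2) ^ m := by positivity
    simp only at this
    linarith

omit [TopologicalSpace X] in
theorem psum_bdd (B : ℕ → Set X) (x : X) : BddAbove (range fun n => psum B n x) :=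
  ⟨psum B 0 x + (1 / 2 : ℝ) ^ 0, by rintro _ ⟨n, rfl⟩; exact psum_le B x n 0⟩

theorem psum_K1 (B : ℕ → Set X) (hB : ∀ n, Amb (B n)) (n : ℕ) :
    ∀ W : Set ℝ, FunAdd (psum B n ⁻¹' W) := by
  induction n with
  | zero =>
    intro W
    by_cases h : (0 : ℝ) ∈ W
    · have : psum B 0 ⁻¹' W = univ := by ext x; simp [psum, h]
      rw [this]; exact fc_univ.add
    · have : psum B 0 ⁻¹' W = ∅ := by ext x; simp [psum, h]
      rw [this]; exact fc_empty.add
  | succ n ih =>
    intro W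
    have : psum B (n + 1) ⁻¹' W = (B n ∩ psum B n ⁻¹' {w | w + (1 / 2 : ℝ) ^ (n + 1) ∈ W}) ∪
        ((B n)ᶜ ∩ psum B n ⁻¹' W) := by
      ext x
      simp only [mem_preimage, psum, mem_union, mem_inter_iff, Set.mem_ofPred_eq, mem_compl_iff]
      split_ifs with h
      · simp [h]
      · simp [h]
    rw [this]
    exact ((hB n).1.inter (ih _)).union ((hB n).2.inter (ih _))

theorem sup_K1 (B : ℕ → Set X) (hB : ∀ n, Amb (B n)) : K1 fun x => ⨆ n, psum B n x := by
  intro V hV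
  have : (fun x => ⨆ n, psum B n x) ⁻¹' V =
      ⋃ n, psum B n ⁻¹' {w | Icc w (w + (1 / 2 : ℝ) ^ n) ⊆ V} := by
    ext x
    simp only [mem_preimage, mem_iUnion, Set.mem_ofPred_eq]
    have hlo : ∀ n, psum B n x ≤ ⨆ n, psum B n x := fun n => le_ciSup (psum_bdd B x) n
    have hhi : ∀ n, (⨆ n, psum B n x) ≤ psum B n x + (1 / 2 : ℝ) ^ n := fun n =>
      ciSup_le fun m => psum_le B x m n
    constructor
    · intro h
      obtain ⟨ε, hε, hball⟩ := Metric.isOpen_iff.1 hV _ h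
      obtain ⟨n, hn⟩ := exists_pow_lt_of_lt_one hε (show (1 / 2 : ℝ) < 1 by norm_num)
      refine ⟨n, fun w hw => hball ?_⟩
      rw [Metric.mem_ball, Real.dist_eq, abs_lt]
      have := hlo n
      have := hhi n
      constructor <;> linarith [hw.1, hw.2]
    · rintro ⟨n, hn⟩
      exact hn ⟨hlo n, hhi n⟩
  rw [this]
  exact fa_iUnion _ fun n => psum_K1 B hB n _

/-- The doubling orbit. -/
noncomputable def orb (u : X → ℝ) : ℕ → X → ℝ
  | 0 => u
  | n + 1 => fun x => open Classical in if (1 / 2 : ℝ) ≤ orb u n x then 2 * orb u n x - 1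
      else 2 * orb u n x

/-- Extension of bounded functions from sets all of whose subsets are ambiguous traces. -/
theorem star_of_trace (E : Set X) (htr : ∀ S : Set X, ∃ B, Amb B ∧ ∀ e ∈ E, (e ∈ B ↔ e ∈ S)) :
    K1StarEmbedded E := by
  classical
  intro f _ ⟨C₀, hC₀⟩
  let C := |C₀| + 1
  have hC : ∀ x, |f x| ≤ C := fun x => (hC₀ x).trans ((le_abs_self _).trans (by simp [C]))
  have hCpos : 0 < C := by positivity
  let u : X → ℝ := fun x => if h : x ∈ E then (f ⟨x, h⟩ + C) / (2 * C) else 0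
  have hu : ∀ x, u x ∈ Icc (0 : ℝ) 1 := by
    intro x
    simp only [u]
    split_ifs with h
    · have := abs_le.1 (hC ⟨x, h⟩)
      constructor
      · apply div_nonneg <;> linarith
      · rw [div_le_one (by positivity)]; linarith
    · simp
  have hF0 : orb u 0 = u := rfl
  have hFs1 : ∀ (n : ℕ) (x : X), (1 / 2 : ℝ) ≤ orb u n x → orb u (n + 1) x = 2 * orb u n x - 1 := by
    intro n x h
    simp only [orb]
    rw [if_pos h]
  have hFs2 : ∀ (n : ℕ) (x : X), ¬ (1 / 2 : ℝ) ≤ orb u n x → orb u (n + 1) x = 2 * orb u n x := by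
    intro n x h
    simp only [orb]
    rw [if_neg h]
  have hF01 : ∀ n x, orb u n x ∈ Icc (0 : ℝ) 1 := by
    intro n x
    induction n with
    | zero => rw [hF0]; exact hu x
    | succ n ih =>
      by_cases h : (1 / 2 : ℝ) ≤ orb u n x
      · rw [hFs1 n x h]
        constructor <;> linarith [ih.1, ih.2]
      · rw [hFs2 n x h]
        push Not at h
        constructor <;> linarith [ih.1, ih.2]
  choose B hB hBE using fun n => htr {x | (1 / 2 : ℝ) ≤ orb u n x}
  have hexp : ∀ n, ∀ x ∈ E, u x = psum B n x + (1 / 2 : ℝ) ^ n * orb u n x := by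
    intro n x hx
    induction n with
    | zero => simp [psum, hF0]
    | succ n ih =>
      rw [ih]
      simp only [psum]
      have hmem : x ∈ B n ↔ (1 / 2 : ℝ) ≤ orb u n x := hBE n x hx
      by_cases h : (1 / 2 : ℝ) ≤ orb u n x
      · rw [hFs1 n x h, if_pos (hmem.2 h), pow_succ]; ring
      · rw [hFs2 n x h, if_neg (fun h' => h (hmem.1 h')), pow_succ]; ring
  let g : X → ℝ := fun x => ⨆ n, psum B n x
  have hgu : ∀ x ∈ E, g x = u x := by
    intro x hx
    have hlo : ∀ n, psum B n x ≤ g x := fun n => le_ciSup (psum_bdd B x) n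
    have hhi : ∀ n, g x ≤ psum B n x + (1 / 2 : ℝ) ^ n := fun n =>
      ciSup_le fun m => psum_le B x m n
    have hdiff : ∀ n : ℕ, |g x - u x| ≤ (1 / 2 : ℝ) ^ n := by
      intro n
      have h1 := hexp n x hx
      have h2 : (0 : ℝ) < (1 / 2) ^ n := by positivity
      have h3 := hF01 n x
      have h4 : 0 ≤ (1 / 2 : ℝ) ^ n * orb u n x := mul_nonneg h2.le h3.1
      have h5 : (1 / 2 : ℝ) ^ n * orb u n x ≤ (1 / 2 : ℝ) ^ n := mul_le_of_le_one_right h2.le h3.2
      rw [abs_le]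
      constructor <;> linarith [hlo n, hhi n]
    by_contra hne
    have hpos : 0 < |g x - u x| := abs_pos.2 (sub_ne_zero.2 hne)
    obtain ⟨n, hn⟩ := exists_pow_lt_of_lt_one hpos (show (1 / 2 : ℝ) < 1 by norm_num)
    exact absurd (hdiff n) (not_le.2 hn)
  have hg01 : ∀ x, g x ∈ Icc (0 : ℝ) 1 := by
    intro x
    constructor
    · exact (show (0 : ℝ) ≤ psum B 0 x from le_rfl).trans (le_ciSup (psum_bdd B x) 0)
    · refine ciSup_le fun m => (psum_le B x m 0).trans ?_
      simp [psum]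
  refine ⟨fun x => 2 * C * g x - C, ?_, ⟨C, fun x => ?_⟩, fun e => ?_⟩
  · intro V hV
    have : (fun x => 2 * C * g x - C) ⁻¹' V = g ⁻¹' ((fun t => 2 * C * t - C) ⁻¹' V) := rfl
    rw [this]
    exact sup_K1 B hB _ (hV.preimage (by fun_prop))
  · have := hg01 x
    rw [abs_le]
    constructor
    · nlinarith [this.1]
    · nlinarith [this.2]
  · simp only
    rw [hgu e e.2]
    simp only [u, e.2, dif_pos]
    field_simp
    ring

/-- Singletons of a countable subspace of a compact Hausdorff space are functionally closed in the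
subspace. -/
theorem fc_singleton [CompactSpace X] [T2Space X] (E : Set X) (ι : E → ℕ) (hι : Function.Injective ι)
    (e : E) : FunClosed ({e} : Set E) := by
  classical
  have hex : ∀ k : ℕ, ∃ A : Set E, FunClosed A ∧ e ∈ A ∧ ∀ e', ι e' = k → e' ≠ e → e' ∉ A := by
    intro k
    by_cases h : ∃ e', ι e' = k ∧ e' ≠ e
    · obtain ⟨e', h1, h2⟩ := h
      obtain ⟨φ, hφ0, hφ1, _⟩ := exists_continuous_zero_one_of_isClosed
        (isClosed_singleton (x := (e : X))) (isClosed_singleton (x := (e' : X)))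
        (by rw [Set.disjoint_singleton]; exact fun h => h2 (Subtype.ext h).symm)
      refine ⟨{x : E | φ x = 0}, fc_of _ (by fun_prop), hφ0 rfl, ?_⟩
      intro e'' h3 _ h5
      have : e'' = e' := hι (h3.trans h1.symm)
      subst this
      have h6 : φ (e'' : X) = 1 := hφ1 rfl
      have h7 : φ (e'' : X) = 0 := h5
      rw [h6] at h7
      exact one_ne_zero h7
    · push Not at h
      exact ⟨univ, fc_univ, mem_univ _, fun e' h1 h2 => absurd (h e' h1) h2⟩
  choose A hA heA hA' using hex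
  convert fc_iInter A hA using 1
  ext x
  simp only [mem_singleton_iff, mem_iInter]
  constructor
  · rintro rfl; exact heA
  · intro h
    by_contra hne
    exact hA' (ι x) x rfl hne (h _)

theorem not_K1Embedded [CompactSpace X] [T2Space X] [Nonempty X] (E : Set X) (hE : E.Countable)
    (hcrowd : ∀ O : Set X, IsOpen O → O.Nonempty → (O ∩ E).Nontrivial) : ¬ K1Embedded E := by
  classical
  intro hemb
  have : Countable E := hE.to_subtype
  obtain ⟨ι, hι⟩ := exists_injective_nat E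
  obtain ⟨g, hg, hge⟩ := hemb (fun e => (ι e : ℝ)) (by
    intro V _
    have : (fun e => (ι e : ℝ)) ⁻¹' V = ⋃ k : ℕ, {e : E | ι e = k ∧ (k : ℝ) ∈ V} := by
      ext e; simp
    rw [this]
    refine fa_iUnion _ fun k => ?_
    by_cases h : ∃ e : E, ι e = k ∧ (k : ℝ) ∈ V
    · obtain ⟨e, h1, h2⟩ := h
      have : {e : E | ι e = k ∧ (k : ℝ) ∈ V} = {e} := by
        ext x
        simp only [Set.mem_ofPred_eq, mem_singleton_iff]
        constructor
        · rintro ⟨h3, _⟩; exact hι (h3.trans h1.symm)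
        · rintro rfl; exact ⟨h1, h2⟩
      rw [this]
      exact (fc_singleton E ι hι e).add
    · have : {e : E | ι e = k ∧ (k : ℝ) ∈ V} = ∅ := by
        ext x
        simp only [Set.mem_ofPred_eq, mem_empty_iff_false, iff_false]
        exact fun h' => h ⟨x, h'⟩
      rw [this]
      exact fc_empty.add)
  have hN : IsOpen (range (Nat.cast : ℕ → ℝ))ᶜ := Nat.isClosedEmbedding_coe_real.isClosed_range.isOpen_compl
  obtain ⟨Z, hZ, hZe⟩ := hg _ hN
  choose W hW hWe using fun n : ℕ => hg (Ioo ((n : ℝ) - 1 / 2) (n + 1 / 2)) isOpen_Ioo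
  have hcov : ⋃ i : ℕ ⊕ (ℕ × ℕ), (Sum.elim Z (fun p => W p.1 p.2) i : Set X) = univ := by
    rw [eq_univ_iff_forall]
    intro x
    by_cases hx : g x ∈ range (Nat.cast : ℕ → ℝ)
    · obtain ⟨n, hn⟩ := hx
      have : x ∈ g ⁻¹' Ioo ((n : ℝ) - 1 / 2) (n + 1 / 2) := by
        show g x ∈ Ioo ((n : ℝ) - 1 / 2) (n + 1 / 2)
        rw [← hn]; constructor <;> linarith
      rw [hWe n] at this
      obtain ⟨m, hm⟩ := mem_iUnion.1 this
      exact mem_iUnion.2 ⟨Sum.inr (n, m), hm⟩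
    · have : x ∈ g ⁻¹' (range (Nat.cast : ℕ → ℝ))ᶜ := hx
      rw [hZe] at this
      obtain ⟨m, hm⟩ := mem_iUnion.1 this
      exact mem_iUnion.2 ⟨Sum.inl m, hm⟩
  obtain ⟨i, hi⟩ := nonempty_interior_of_iUnion_of_closed (by
    rintro (i | p)
    · exact (hZ i).isClosed
    · exact (hW _ _).isClosed) hcov
  obtain ⟨a, ⟨haO, haE⟩, b, ⟨hbO, hbE⟩, hab⟩ := hcrowd _ isOpen_interior hi
  have haO' := interior_subset haO
  have hbO' := interior_subset hbO
  rcases i with i | ⟨n, m⟩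
  · have : a ∈ g ⁻¹' (range (Nat.cast : ℕ → ℝ))ᶜ := by
      rw [hZe]; exact mem_iUnion.2 ⟨i, haO'⟩
    exact this ⟨ι ⟨a, haE⟩, (hge ⟨a, haE⟩).symm⟩
  · have h1 : a ∈ g ⁻¹' Ioo ((n : ℝ) - 1 / 2) (n + 1 / 2) := by
      rw [hWe n]; exact mem_iUnion.2 ⟨m, haO'⟩
    have h2 : b ∈ g ⁻¹' Ioo ((n : ℝ) - 1 / 2) (n + 1 / 2) := by
      rw [hWe n]; exact mem_iUnion.2 ⟨m, hbO'⟩
    have key : ∀ c (hc : c ∈ E), c ∈ g ⁻¹' Ioo ((n : ℝ) - 1 / 2) (n + 1 / 2) → ι ⟨c, hc⟩ = n := by
      intro c hc h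
      have h3 := hge ⟨c, hc⟩
      simp only at h3
      have h4 : g c ∈ Ioo ((n : ℝ) - 1 / 2) (n + 1 / 2) := h
      rw [h3] at h4
      have h5 : (ι ⟨c, hc⟩ : ℝ) < n + 1 := by linarith [h4.2]
      have h6 : (n : ℝ) < ι ⟨c, hc⟩ + 1 := by linarith [h4.1]
      have h7 : ι ⟨c, hc⟩ < n + 1 := by exact_mod_cast h5
      have h8 : n < ι ⟨c, hc⟩ + 1 := by exact_mod_cast h6
      omega
    have := hι ((key a haE h1).trans (key b hbE h2).symm)
    exact hab (congrArg Subtype.val this)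

end Pool.Agent.V11214.KOne
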