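import Pool.Agent.V11214.KOneMain

set_option autoImplicit false
open Set Topology

namespace Pool.Agent.V11214.KOne

open Pool.Agent.V11214.HIField

section
variable (𝓑 : Set (Set ℕ))

/-- The evaluation map into the Cantor cube. -/
noncomputable def jj (n : ℕ) : ↥𝓑 → Bool := fun B => open Classical in decide (n ∈ B.1)

variable {𝓑}

theorem jj_nbhd (h𝓑 : Fld 𝓑) (O : Set (↥𝓑 → Bool)) (hO : IsOpen O) (n : ℕ)
    (hn : jj 𝓑 n ∈ O) : ∃ B ∈ 𝓑, n ∈ B ∧ ∀ m ∈ B, jj 𝓑 m ∈ O := by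
  classical
  rw [isOpen_pi_iff] at hO
  obtain ⟨I, u, hu, hIu⟩ := hO _ hn
  have key : ∀ I : Finset ↥𝓑, ∃ B ∈ 𝓑, n ∈ B ∧ ∀ m ∈ B, ∀ a ∈ I, jj 𝓑 m a = jj 𝓑 n a := by
    intro I
    induction I using Finset.induction_on with
    | empty => exact ⟨univ, h𝓑.univ_mem, mem_univ _, fun m _ a ha => absurd ha (by simp)⟩
    | insert a I ha ih =>
      obtain ⟨B, hB, hnB, hBI⟩ := ih
      by_cases h : n ∈ a.1
      · refine ⟨B ∩ a.1, h𝓑.inter _ hB _ a.2, ⟨hnB, h⟩, fun m hm b hb => ?_⟩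
        rcases Finset.mem_insert.1 hb with rfl | hb
        · simp [jj, h, hm.2]
        · exact hBI m hm.1 b hb
      · refine ⟨B ∩ a.1ᶜ, h𝓑.inter _ hB _ (h𝓑.compl _ a.2), ⟨hnB, h⟩, fun m hm b hb => ?_⟩
        rcases Finset.mem_insert.1 hb with rfl | hb
        · have := hm.2
          simp only [mem_compl_iff] at this
          simp [jj, h, this]
        · exact hBI m hm.1 b hb
  obtain ⟨B, hB, hnB, hBI⟩ := key I
  refine ⟨B, hB, hnB, fun m hm => hIu ?_⟩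
  intro a ha
  rw [hBI m hm a ha]
  exact (hu a ha).2

theorem jj_inj (h𝓑 : Fld 𝓑) : Function.Injective (jj 𝓑) := by
  classical
  intro m n hmn
  by_contra hne
  obtain ⟨A, hA, h1, h2⟩ := h𝓑.sep m n hne
  have := congrFun hmn ⟨A, hA⟩
  simp [jj, h1, h2] at this

end

theorem main : ∃ (X : Type) (_ : TopologicalSpace X) (E : Set X), CompactSpace X ∧ T2Space X ∧
    E.Countable ∧ Dense E ∧ K1StarEmbedded E ∧ ¬ K1Embedded E := by
  classical
  obtain ⟨𝓑, h𝓑, G, hG, hGne, hHI⟩ := exists_HI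
  let K : Set (↥𝓑 → Bool) := closure (jj 𝓑 '' G)
  have hc : CompactSpace K := isCompact_iff_compactSpace.1 isClosed_closure.isCompact
  let E : Set K := Subtype.val ⁻¹' (jj 𝓑 '' G)
  have hne : Nonempty K := by
    obtain ⟨n, hn⟩ := hGne
    exact ⟨⟨jj 𝓑 n, subset_closure ⟨n, hn, rfl⟩⟩⟩
  have hEc : E.Countable := ((G.to_countable.image _).preimage_of_injOn
    Subtype.val_injective.injOn)
  have hmeet : ∀ O : Set K, IsOpen O → O.Nonempty → (O ∩ E).Nontrivial := by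
    rintro O hO ⟨x, hx⟩
    obtain ⟨O', hO', rfl⟩ := isOpen_induced_iff.1 hO
    obtain ⟨_, hyO, n, hnG, rfl⟩ := mem_closure_iff.1 x.2 O' hO' hx
    obtain ⟨B, hB, hnB, hBO⟩ := jj_nbhd h𝓑 O' hO' n hyO
    have hinf := h𝓑.inf _ (h𝓑.inter _ hB _ hG) ⟨n, hnB, hnG⟩
    obtain ⟨a, ha, b, hb, hab⟩ := hinf.nontrivial
    refine ⟨⟨jj 𝓑 a, subset_closure ⟨a, ha.2, rfl⟩⟩, ⟨hBO a ha.1, ⟨a, ha.2, rfl⟩⟩,
      ⟨jj 𝓑 b, subset_closure ⟨b, hb.2, rfl⟩⟩, ⟨hBO b hb.1, ⟨b, hb.2, rfl⟩⟩, ?_⟩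
    intro h
    exact hab (jj_inj h𝓑 (congrArg Subtype.val h))
  refine ⟨K, inferInstance, E, hc, inferInstance, hEc, ?_, ?_, ?_⟩
  · rw [dense_iff_inter_open]
    intro O hO hOn
    exact (hmeet O hO hOn).nonempty
  · refine star_of_trace E (trace E hEc ?_ ?_)
    · intro O hO e he
      obtain ⟨f, hf0, hf1, _⟩ := exists_continuous_zero_one_of_isClosed
        hO.isClosed_compl (isClosed_singleton (x := e))
        (by rw [Set.disjoint_singleton_right]; exact fun h => h he)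
      refine ⟨{x | f x = 0}ᶜ, ?_, ?_, ?_⟩
      · unfold FunOpen
        rw [compl_compl]
        exact fc_of _ f.continuous
      · have : f e = 1 := hf1 rfl
        simp [this]
      · intro x hx
        by_contra h
        exact hx (hf0 h)
    · rintro F hF ⟨x₀, hx₀⟩ S
      obtain ⟨n₀, hn₀, hxn₀⟩ := hF hx₀
      obtain ⟨C, hC, ⟨m, hmC, hmG, y, hy, hym⟩, hor⟩ := hHI {n | n ∈ G ∧ ∃ x ∈ F, x.1 = jj 𝓑 n}
        (fun n hn => hn.1) ⟨n₀, hn₀, x₀, hx₀, hxn₀.symm⟩ {n | ∃ x ∈ S, x.1 = jj 𝓑 n}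
      refine ⟨{x : K | x.1 ⟨C, hC⟩ = true}, ?_, ⟨y, ?_, hy⟩, ?_⟩
      · have hcont : Continuous fun x : K => x.1 ⟨C, hC⟩ :=
          (continuous_apply _).comp continuous_subtype_val
        exact (isOpen_discrete {true}).preimage hcont
      · show y.1 ⟨C, hC⟩ = true
        rw [hym]
        simp [jj, hmC]
      · have key : ∀ x ∈ F, x.1 ⟨C, hC⟩ = true → ∃ n, n ∈ C ∧ (n ∈ G ∧ ∃ x ∈ F, x.1 = jj 𝓑 n) ∧
            x.1 = jj 𝓑 n := by
          intro x hx hxC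
          obtain ⟨n, hn, hxn⟩ := hF hx
          refine ⟨n, ?_, ⟨hn, x, hx, hxn.symm⟩, hxn.symm⟩
          rw [← hxn] at hxC
          simpa [jj] using hxC
        rcases hor with hor | hor
        · left
          rw [eq_empty_iff_forall_notMem]
          rintro x ⟨⟨hxC, hxF⟩, hxS⟩
          obtain ⟨n, hnC, hnF, hxn⟩ := key x hxF hxC
          have : n ∈ C ∩ {n | n ∈ G ∧ ∃ x ∈ F, x.1 = jj 𝓑 n} ∩ {n | ∃ x ∈ S, x.1 = jj 𝓑 n} :=
            ⟨⟨hnC, hnF⟩, x, hxS, hxn⟩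
          rw [hor] at this
          exact this
        · right
          rintro x ⟨hxC, hxF⟩
          obtain ⟨n, hnC, hnF, hxn⟩ := key x hxF hxC
          obtain ⟨y', hy', hyn'⟩ := hor ⟨hnC, hnF⟩
          have : x = y' := Subtype.ext (hxn.trans hyn'.symm)
          rw [this]
          exact hy'
  · exact not_K1Embedded E hEc hmeet

end Pool.Agent.V11214.KOne
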