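import Mathlib

set_option autoImplicit false

namespace Pool.Agent.V11214.Kup

open Set Metric Real

/-- The upper part: the limit segment and the oscillating curve. -/
def Z1 : Set (ℝ × ℝ) :=
  {p | 0 ≤ p.1 ∧ p.1 ≤ 1 ∧ 1 ≤ p.2 ∧ p.2 ≤ 3 ∧
    (p.1 = 0 ∨ p.2 - (2 + cos (2 * π * p.1⁻¹)) = 0)}

/-- The lower part: the hub and the shortcuts. -/
def Z2 : Set (ℝ × ℝ) :=
  {p | 0 ≤ p.1 ∧ p.1 ≤ p.2 ∧ p.2 ≤ 1 ∧
    (p.1 = 0 ∨ cos (2 * π * (p.2 * p.1⁻¹)) + 1 = 0)}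

def KX : Set (ℝ × ℝ) := Z1 ∪ Z2

lemma closed_aux (F : ℝ × ℝ → ℝ) (hF : ∀ p : ℝ × ℝ, p.1 ≠ 0 → ContinuousAt F p) :
    IsClosed {p : ℝ × ℝ | p.1 = 0 ∨ F p = 0} := by
  rw [← isOpen_compl_iff, isOpen_iff_mem_nhds]
  intro p hp
  simp only [mem_compl_iff, mem_ofPred_eq, not_or] at hp
  have h1 : ∀ᶠ q : ℝ × ℝ in nhds p, q.1 ≠ 0 := continuousAt_fst.eventually_ne hp.1
  have h2 : ∀ᶠ q : ℝ × ℝ in nhds p, F q ≠ 0 := (hF p hp.1).eventually_ne hp.2
  filter_upwards [h1, h2] with q hq1 hq2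
  simp only [mem_compl_iff, mem_ofPred_eq, not_or]
  exact ⟨hq1, hq2⟩

lemma isClosed_Z1 : IsClosed Z1 := by
  have h : IsClosed {p : ℝ × ℝ | p.1 = 0 ∨ p.2 - (2 + cos (2 * π * p.1⁻¹)) = 0} := by
    apply closed_aux
    intro p hp
    have : ContinuousAt (fun q : ℝ × ℝ => q.1⁻¹) p := continuousAt_fst.inv₀ hp
    fun_prop
  have : Z1 = {p : ℝ × ℝ | 0 ≤ p.1} ∩ {p | p.1 ≤ 1} ∩ {p | 1 ≤ p.2} ∩ {p | p.2 ≤ 3} ∩
      {p : ℝ × ℝ | p.1 = 0 ∨ p.2 - (2 + cos (2 * π * p.1⁻¹)) = 0} := by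
    ext p; simp only [Z1, mem_ofPred_eq, mem_inter_iff]; tauto
  rw [this]
  refine IsClosed.inter (IsClosed.inter (IsClosed.inter (IsClosed.inter ?_ ?_) ?_) ?_) h
  · exact isClosed_le continuous_const continuous_fst
  · exact isClosed_le continuous_fst continuous_const
  · exact isClosed_le continuous_const continuous_snd
  · exact isClosed_le continuous_snd continuous_const

lemma isClosed_Z2 : IsClosed Z2 := by
  have h : IsClosed {p : ℝ × ℝ | p.1 = 0 ∨ cos (2 * π * (p.2 * p.1⁻¹)) + 1 = 0} := by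
    apply closed_aux
    intro p hp
    have : ContinuousAt (fun q : ℝ × ℝ => q.1⁻¹) p := continuousAt_fst.inv₀ hp
    fun_prop
  have : Z2 = {p : ℝ × ℝ | 0 ≤ p.1} ∩ {p | p.1 ≤ p.2} ∩ {p | p.2 ≤ 1} ∩
      {p : ℝ × ℝ | p.1 = 0 ∨ cos (2 * π * (p.2 * p.1⁻¹)) + 1 = 0} := by
    ext p; simp only [Z2, mem_ofPred_eq, mem_inter_iff]; tauto
  rw [this]
  refine IsClosed.inter (IsClosed.inter (IsClosed.inter ?_ ?_) ?_) h
  · exact isClosed_le continuous_const continuous_fst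
  · exact isClosed_le continuous_fst continuous_snd
  · exact isClosed_le continuous_snd continuous_const

lemma KX_subset : KX ⊆ Icc (0:ℝ) 1 ×ˢ Icc (0:ℝ) 3 := by
  rintro p (hp | hp)
  · obtain ⟨h1, h2, h3, h4, _⟩ := hp
    exact ⟨⟨h1, h2⟩, ⟨by linarith, h4⟩⟩
  · obtain ⟨h1, h2, h3, _⟩ := hp
    exact ⟨⟨h1, by linarith⟩, ⟨by linarith, by linarith⟩⟩

lemma isCompact_KX : IsCompact KX :=
  (isCompact_Icc.prod isCompact_Icc).of_isClosed_subset (isClosed_Z1.union isClosed_Z2) KX_subset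

instance : CompactSpace KX := isCompact_iff_compactSpace.1 isCompact_KX

/-- Lipschitz paths. -/
def Lip {X : Type} [MetricSpace X] {a b : X} (K : ℝ) (p : Path a b) : Prop :=
  ∀ s t : unitInterval, dist (p s) (p t) ≤ K * dist s t

lemma Lip.symm {X : Type} [MetricSpace X] {a b : X} {K : ℝ} {p : Path a b} (h : Lip K p) :
    Lip K p.symm := by
  intro s t
  have := h (unitInterval.symm s) (unitInterval.symm t)
  have h2 : dist (unitInterval.symm s) (unitInterval.symm t) = dist s t := by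
    rw [Subtype.dist_eq, Subtype.dist_eq, Real.dist_eq, Real.dist_eq]
    simp only [unitInterval.coe_symm_eq]
    rw [show (1 - (s:ℝ) - (1 - (t:ℝ))) = -((s:ℝ) - t) by ring, abs_neg]
  rw [h2] at this
  exact this

lemma Lip.mono {X : Type} [MetricSpace X] {a b : X} {K K' : ℝ} {p : Path a b} (h : Lip K p)
    (hK : K ≤ K') : Lip K' p := fun s t =>
  (h s t).trans (mul_le_mul_of_nonneg_right hK dist_nonneg)

lemma Lip.trans {X : Type} [MetricSpace X] {a b c : X} {K : ℝ} {p : Path a b} {q : Path b c}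
    (hp : Lip K p) (hq : Lip K q) : Lip (2 * K) (p.trans q) := by
  have key : ∀ s t : unitInterval, (s:ℝ) ≤ t → dist ((p.trans q) s) ((p.trans q) t) ≤
      2 * K * ((t:ℝ) - s) := by
    intro s t hst
    rw [Path.trans_apply, Path.trans_apply]
    by_cases hs : (s:ℝ) ≤ 1/2
    · by_cases ht : (t:ℝ) ≤ 1/2
      · rw [dif_pos hs, dif_pos ht]
        refine (hp _ _).trans ?_
        rw [Subtype.dist_eq, Real.dist_eq]
        simp only
        rw [abs_of_nonpos (by linarith)]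
        apply le_of_eq; ring
      · rw [dif_pos hs, dif_neg ht]
        push Not at ht
        have h1 := hp ⟨2 * (s:ℝ), (unitInterval.mul_pos_mem_iff zero_lt_two).2 ⟨s.2.1, hs⟩⟩ 1
        have h2 := hq 0 ⟨2 * (t:ℝ) - 1, unitInterval.two_mul_sub_one_mem_iff.2 ⟨ht.le, t.2.2⟩⟩
        rw [Path.target, Subtype.dist_eq, Real.dist_eq] at h1
        rw [Path.source, Subtype.dist_eq, Real.dist_eq] at h2
        simp only [Set.Icc.coe_one, Set.Icc.coe_zero] at h1 h2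
        rw [abs_of_nonpos (by linarith)] at h1
        rw [abs_of_nonpos (by linarith)] at h2
        have h3 := dist_triangle (p ⟨2 * (s:ℝ), (unitInterval.mul_pos_mem_iff zero_lt_two).2 ⟨s.2.1, hs⟩⟩)
          b (q ⟨2 * (t:ℝ) - 1, unitInterval.two_mul_sub_one_mem_iff.2 ⟨ht.le, t.2.2⟩⟩)
        nlinarith
    · have ht : ¬ (t:ℝ) ≤ 1/2 := by
        push Not at hs ⊢; linarith
      rw [dif_neg hs, dif_neg ht]
      refine (hq _ _).trans ?_
      rw [Subtype.dist_eq, Real.dist_eq]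
      simp only
      rw [abs_of_nonpos (by linarith)]
      apply le_of_eq; ring
  intro s t
  rcases le_total (s:ℝ) t with h | h
  · have := key s t h
    rw [Subtype.dist_eq s t, Real.dist_eq, abs_of_nonpos (by linarith)]
    linarith
  · have := key t s h
    rw [dist_comm ((p.trans q) s), Subtype.dist_eq s t, Real.dist_eq, abs_of_nonneg (by linarith)]
    linarith

/-- Uniformity of a family of Lipschitz paths. -/
lemma uniform_of_lip {X : Type} [MetricSpace X] [CompactSpace X] {a b : X} {K : ℝ} (hK : 0 ≤ K)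
    (P : Set (Path a b)) (hP : ∀ p ∈ P, Lip K p) :
    ∀ ε : ℝ, ε > 0 → ∃ n : ℕ, ∀ p ∈ P, ∃ t : Fin (n + 1) → unitInterval,
              t 0 = 0 ∧ t (Fin.last n) = 1 ∧ StrictMono t ∧
              ∀ i : Fin n, Metric.diam (⇑p '' Set.Icc (t i.castSucc) (t i.succ)) ≤ ε := by
  intro ε hε
  obtain ⟨m, hm⟩ := exists_nat_gt (K / ε)
  refine ⟨m + 1, fun p hp => ?_⟩
  have hm1 : (0:ℝ) < (m:ℝ) + 1 := by positivity
  refine ⟨fun i => ⟨(i:ℕ) / ((m:ℝ) + 1), by positivity, ?_⟩, ?_, ?_, ?_, ?_⟩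
  · rw [div_le_one hm1]
    have : (i:ℕ) ≤ m + 1 := Nat.lt_succ_iff.1 i.2
    exact_mod_cast this
  · apply Subtype.ext; simp
  · apply Subtype.ext
    simp only [Fin.val_last, Set.Icc.coe_one]
    push_cast
    field_simp
  · intro i j hij
    rw [← Subtype.coe_lt_coe]
    simp only
    apply div_lt_div_of_pos_right _ hm1
    exact_mod_cast hij
  · intro i
    apply Metric.diam_le_of_forall_dist_le hε.le
    rintro _ ⟨u, hu, rfl⟩ _ ⟨v, hv, rfl⟩
    refine (hP p hp u v).trans ?_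
    have hu1 : ((i:ℕ):ℝ) / ((m:ℝ)+1) ≤ u := hu.1
    have hu2 : (u:ℝ) ≤ (((i:ℕ):ℝ) + 1) / ((m:ℝ)+1) := by
      have : (u:ℝ) ≤ ((i.succ : ℕ):ℝ) / ((m:ℝ)+1) := hu.2
      simpa using this
    have hv1 : ((i:ℕ):ℝ) / ((m:ℝ)+1) ≤ v := hv.1
    have hv2 : (v:ℝ) ≤ (((i:ℕ):ℝ) + 1) / ((m:ℝ)+1) := by
      have : (v:ℝ) ≤ ((i.succ : ℕ):ℝ) / ((m:ℝ)+1) := hv.2
      simpa using this
    have hd : dist u v ≤ 1 / ((m:ℝ)+1) := by
      rw [Subtype.dist_eq, Real.dist_eq, abs_le]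
      have : (((i:ℕ):ℝ) + 1) / ((m:ℝ)+1) = ((i:ℕ):ℝ) / ((m:ℝ)+1) + 1 / ((m:ℝ)+1) := by ring
      constructor <;> linarith
    calc K * dist u v ≤ K * (1 / ((m:ℝ)+1)) := mul_le_mul_of_nonneg_left hd hK
      _ = K / ((m:ℝ)+1) := by ring
      _ ≤ ε := by
        rw [div_le_iff₀ hm1]
        rw [div_lt_iff₀ hε] at hm
        nlinarith

end Pool.Agent.V11214.Kup
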