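import Pool.Agent.V11214.Kup

set_option autoImplicit false

namespace Pool.Agent.V11214.Kup

open Set Metric Real

/-- A Lipschitz path in `KX` from an explicit function. -/
lemma exists_path (f : ℝ → ℝ × ℝ) (K : ℝ) (hf : ∀ t ∈ Icc (0:ℝ) 1, f t ∈ KX)
    (hL : ∀ s ∈ Icc (0:ℝ) 1, ∀ t ∈ Icc (0:ℝ) 1, dist (f s) (f t) ≤ K * |s - t|)
    (a b : KX) (ha : f 0 = a) (hb : f 1 = b) :
    ∃ p : Path a b, Lip K p ∧ ∀ t : unitInterval, ((p t : KX) : ℝ × ℝ) = f t := by
  have hc : Continuous (fun t : unitInterval => (⟨f t, hf t t.2⟩ : KX)) := by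
    rw [Metric.continuous_iff]
    intro b ε hε
    refine ⟨ε / (|K| + 1), by positivity, fun a hab => ?_⟩
    rw [Subtype.dist_eq] at hab ⊢
    rw [Real.dist_eq] at hab
    have h1 := hL a a.2 b b.2
    calc dist (f a) (f b) ≤ K * |(a:ℝ) - b| := h1
      _ ≤ (|K| + 1) * |(a:ℝ) - b| := by
        apply mul_le_mul_of_nonneg_right _ (abs_nonneg _)
        linarith [le_abs_self K]
      _ < (|K| + 1) * (ε / (|K| + 1)) := by
        apply mul_lt_mul_of_pos_left hab (by positivity)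
      _ = ε := by field_simp
  refine ⟨{ toFun := fun t => ⟨f t, hf t t.2⟩, continuous_toFun := hc,
            source' := Subtype.ext (by simpa using ha),
            target' := Subtype.ext (by simpa using hb) }, ?_, ?_⟩
  · intro s t
    have := hL s s.2 t t.2
    rw [Subtype.dist_eq, Subtype.dist_eq, Real.dist_eq]
    exact this
  · intro t; rfl

lemma hub_mem : ((0:ℝ), (0:ℝ)) ∈ KX := Or.inr ⟨le_refl _, le_refl _, zero_le_one, Or.inl rfl⟩

def hub : KX := ⟨(0, 0), hub_mem⟩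

lemma end_mem : ((1:ℝ), (3:ℝ)) ∈ KX := by
  refine Or.inl ⟨zero_le_one, le_refl _, by norm_num, le_refl _, Or.inr ?_⟩
  simp only [inv_one, mul_one, cos_two_pi]
  norm_num

def bend : KX := ⟨(1, 3), end_mem⟩

/-- points of the curve -/
lemma curve_mem (θ : ℝ) (h : 1 ≤ θ) : (θ⁻¹, 2 + cos (2 * π * θ)) ∈ KX := by
  have h0 : 0 < θ := by linarith
  refine Or.inl ⟨by positivity, inv_le_one_of_one_le₀ h, ?_, ?_, Or.inr ?_⟩
  · have := neg_one_le_cos (2 * π * θ); simp only; linarith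
  · have := cos_le_one (2 * π * θ); simp only; linarith
  · simp only [inv_inv]; ring

/-- bottom points: angle `k + 1/2` -/
lemma cos_half (k : ℕ) : cos (2 * π * ((k:ℝ) + 1/2)) = -1 := by
  have : 2 * π * ((k:ℝ) + 1/2) = π + k * (2 * π) := by ring
  rw [this]
  rw [cos_add_nat_mul_two_pi]
  exact cos_pi

lemma short_mem (k : ℕ) (hk : 1 ≤ k) (r : ℝ) (h0 : 0 ≤ r) (h1 : r ≤ 1) :
    (r * ((k:ℝ) + 1/2)⁻¹, r) ∈ KX := by
  have hk' : (1:ℝ) ≤ k := by exact_mod_cast hk
  have hpos : 0 < (k:ℝ) + 1/2 := by linarith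
  have hinv : ((k:ℝ) + 1/2)⁻¹ ≤ 1 := inv_le_one_of_one_le₀ (by linarith)
  have hinv0 : 0 < ((k:ℝ) + 1/2)⁻¹ := by positivity
  refine Or.inr ⟨by positivity, ?_, h1, ?_⟩
  · simp only; nlinarith
  · rcases eq_or_lt_of_le h0 with h | h
    · left; simp [← h]
    · right
      simp only [mul_inv, inv_inv]
      have : r * (r⁻¹ * ((k:ℝ) + 1/2)) = (k:ℝ) + 1/2 := by
        field_simp
      rw [this, cos_half]; norm_num

lemma curve_lip (θ θ' : ℝ) (h : 1 ≤ θ) (h' : 1 ≤ θ') :
    dist (θ⁻¹, 2 + cos (2 * π * θ)) (θ'⁻¹, 2 + cos (2 * π * θ')) ≤ 7 * |θ - θ'| := by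
  have h0 : 0 < θ := by linarith
  have h0' : 0 < θ' := by linarith
  rw [Prod.dist_eq]
  apply max_le
  · rw [Real.dist_eq]
    have : θ⁻¹ - θ'⁻¹ = -(θ - θ') / (θ * θ') := by field_simp; ring
    simp only
    rw [this, abs_div, abs_neg, abs_of_pos (by positivity : 0 < θ * θ')]
    rw [div_le_iff₀ (by positivity)]
    have h1 : 1 ≤ θ * θ' := by nlinarith
    nlinarith [abs_nonneg (θ - θ')]
  · rw [Real.dist_eq]
    simp only
    have : (2 + cos (2 * π * θ) - (2 + cos (2 * π * θ'))) = cos (2 * π * θ) - cos (2 * π * θ') := by ring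
    rw [this]
    refine (Real.abs_cos_sub_cos_le _ _).trans ?_
    rw [← mul_sub, abs_mul, abs_of_pos (by positivity)]
    apply mul_le_mul_of_nonneg_right _ (abs_nonneg _)
    linarith [pi_lt_d2]

lemma seg_lip (a b : ℝ) (ha : |a| ≤ 3) (hb : |b| ≤ 3) (s t : ℝ) :
    dist (s * a, s * b) (t * a, t * b) ≤ 7 * |s - t| := by
  rw [Prod.dist_eq]
  apply max_le
  · rw [Real.dist_eq]; simp only
    rw [← sub_mul, abs_mul, mul_comm]
    apply mul_le_mul_of_nonneg_right _ (abs_nonneg _)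
    linarith
  · rw [Real.dist_eq]; simp only
    rw [← sub_mul, abs_mul, mul_comm]
    apply mul_le_mul_of_nonneg_right _ (abs_nonneg _)
    linarith

/-- the shortcut path -/
lemma path_short (k : ℕ) (hk : 1 ≤ k) :
    ∃ p : Path hub (⟨(((k:ℝ) + 1/2)⁻¹, 2 + cos (2 * π * ((k:ℝ) + 1/2))),
      curve_mem _ (by have : (1:ℝ) ≤ k := by exact_mod_cast hk
                      linarith)⟩ : KX), Lip 7 p ∧
      ∀ t : unitInterval, ((p t : KX) : ℝ × ℝ) = ((t:ℝ) * ((k:ℝ) + 1/2)⁻¹, (t:ℝ)) := by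
  have hk' : (1:ℝ) ≤ k := by exact_mod_cast hk
  have hpos : 0 < (k:ℝ) + 1/2 := by linarith
  have hinv : ((k:ℝ) + 1/2)⁻¹ ≤ 1 := inv_le_one_of_one_le₀ (by linarith)
  have hinv0 : 0 < ((k:ℝ) + 1/2)⁻¹ := by positivity
  apply exists_path (fun t => (t * ((k:ℝ) + 1/2)⁻¹, t)) 7
  · intro t ht; exact short_mem k hk t ht.1 ht.2
  · intro s _ t _
    have := seg_lip (((k:ℝ) + 1/2)⁻¹) 1 (by rw [abs_of_pos hinv0]; linarith) (by norm_num) s t
    simpa using this
  · simp [hub]
  · simp only [one_mul]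
    rw [cos_half]
    norm_num

lemma curve_path (α β : ℝ) (hα : 1 ≤ α) (hβ : 1 ≤ β) (K : ℝ) (hK : 7 * |β - α| ≤ K) :
    ∃ p : Path (⟨(α⁻¹, 2 + cos (2 * π * α)), curve_mem _ hα⟩ : KX)
      (⟨(β⁻¹, 2 + cos (2 * π * β)), curve_mem _ hβ⟩ : KX), Lip K p ∧
      ∀ t : unitInterval, ((p t : KX) : ℝ × ℝ) =
        ((α + t * (β - α))⁻¹, 2 + cos (2 * π * (α + t * (β - α)))) := by
  have hge : ∀ t ∈ Icc (0:ℝ) 1, 1 ≤ α + t * (β - α) := by
    intro t ht
    have : α + t * (β - α) = (1 - t) * α + t * β := by ring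
    rw [this]
    nlinarith [ht.1, ht.2]
  apply exists_path (fun t => ((α + t * (β - α))⁻¹, 2 + cos (2 * π * (α + t * (β - α))))) K
  · intro t ht
    exact curve_mem _ (hge t ht)
  · intro s hs t ht
    refine (curve_lip _ _ (hge s hs) (hge t ht)).trans ?_
    have : α + s * (β - α) - (α + t * (β - α)) = (β - α) * (s - t) := by ring
    rw [this, abs_mul, ← mul_assoc]
    exact mul_le_mul_of_nonneg_right hK (abs_nonneg _)
  · simp
  · simp

/-- every point is joined to the hub by a `14`-Lipschitz path. -/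
lemma path_to (x : KX) : ∃ p : Path hub x, Lip 14 p := by
  obtain ⟨⟨u, v⟩, hx⟩ := x
  have hbox := KX_subset hx
  obtain ⟨⟨hu0, hu1⟩, hv0, hv3⟩ := hbox
  simp only at hu0 hu1 hv0 hv3
  rcases eq_or_lt_of_le hu0 with h0 | h0
  · subst h0
    obtain ⟨p, hp, _⟩ := exists_path (fun t => (0, t * v)) 7 (fun t ht => by
        by_cases hc : 1 ≤ t * v
        · exact Or.inl ⟨le_refl _, zero_le_one, hc, by
            simp only; nlinarith [ht.1, ht.2], Or.inl rfl⟩
        · push Not at hc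
          exact Or.inr ⟨le_refl _, by simp only; nlinarith [ht.1, ht.2], hc.le, Or.inl rfl⟩)
      (fun s _ t _ => by
        have := seg_lip 0 v (by norm_num) (by rw [abs_of_nonneg hv0]; exact hv3) s t
        simpa using this) hub ⟨(0, v), hx⟩ (by simp [hub]) (by simp)
    exact ⟨p, hp.mono (by norm_num)⟩
  · rcases hx with hx | hx
    · obtain ⟨h1, h2, h3, h4, h5⟩ := hx
      simp only at h1 h2 h3 h4 h5
      have h5 : v = 2 + cos (2 * π * u⁻¹) := by
        rcases h5 with h5 | h5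
        · exact absurd h5 h0.ne'
        · linarith
      subst h5
      -- nearest bottom
      set θ : ℝ := u⁻¹ with hθ
      have hθ1 : 1 ≤ θ := (one_le_inv₀ h0).2 h2
      have hu : u = θ⁻¹ := by rw [hθ, inv_inv]
      set k : ℕ := ⌊θ⌋₊ with hk
      have hk1 : 1 ≤ k := Nat.floor_pos.2 hθ1
      have hkle : (k:ℝ) ≤ θ := Nat.floor_le (by linarith)
      have hklt : θ < k + 1 := Nat.lt_floor_add_one θ
      have hk1' : (1:ℝ) ≤ k := by exact_mod_cast hk1
      obtain ⟨p, hp, _⟩ := path_short k hk1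
      obtain ⟨q, hq, _⟩ := curve_path ((k:ℝ) + 1/2) θ (by linarith) hθ1 7 (by
        have : |θ - ((k:ℝ) + 1/2)| ≤ 1 := by rw [abs_le]; constructor <;> linarith
        linarith)
      have hpq := hp.trans hq
      have he : (⟨(θ⁻¹, 2 + cos (2 * π * θ)), curve_mem _ hθ1⟩ : KX) =
          ⟨(u, 2 + cos (2 * π * θ)), Or.inl ⟨h1, h2, h3, h4, Or.inr (by simp [hθ])⟩⟩ := by
        apply Subtype.ext
        simp only [← hu]
      refine ⟨(p.trans q).cast rfl he.symm, ?_⟩
      intro s t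
      have := hpq s t
      norm_num at this ⊢
      exact this
    · obtain ⟨h1, h2, h3, h5⟩ := hx
      simp only at h1 h2 h3 h5
      have h5 : cos (2 * π * (v * u⁻¹)) + 1 = 0 := by
        rcases h5 with h5 | h5
        · exact absurd h5 h0.ne'
        · exact h5
      obtain ⟨p, hp, _⟩ := exists_path (fun t => (t * u, t * v)) 7 (fun t ht => by
        have hv : 0 < v := by linarith
        refine Or.inr ⟨mul_nonneg ht.1 h0.le, mul_le_mul_of_nonneg_left h2 ht.1, by
          simp only; nlinarith [ht.1, ht.2], ?_⟩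
        rcases eq_or_lt_of_le ht.1 with h | h
        · left; simp [← h]
        · right
          have : t * v * (t * u)⁻¹ = v * u⁻¹ := by field_simp
          simp only [this]; exact h5)
        (fun s _ t _ => seg_lip u v (by rw [abs_of_pos h0]; linarith)
          (by rw [abs_of_nonneg hv0]; linarith) s t) hub ⟨(u, v), Or.inr ⟨h1, h2, h3, Or.inr h5⟩⟩
          (by simp [hub]) (by simp)
      exact ⟨p, hp.mono (by norm_num)⟩

instance : ConnectedSpace KX := by
  have : PathConnectedSpace KX := by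
    refine ⟨⟨hub⟩, fun x y => ?_⟩
    obtain ⟨p, _⟩ := path_to x
    obtain ⟨q, _⟩ := path_to y
    exact ⟨p.symm.trans q⟩
  infer_instance

lemma upc (a b : KX) : ∃ P : Set (Path a b),
          (∀ ε : ℝ, ε > 0 → ∃ n : ℕ, ∀ p ∈ P, ∃ t : Fin (n + 1) → unitInterval,
              t 0 = 0 ∧ t (Fin.last n) = 1 ∧ StrictMono t ∧
              ∀ i : Fin n, Metric.diam (⇑p '' Set.Icc (t i.castSucc) (t i.succ)) ≤ ε) ∧
          (⋃ p ∈ P, Set.range ⇑p) = Set.univ := by
  refine ⟨{p | Lip 56 p}, uniform_of_lip (by norm_num) _ (fun p hp => hp), ?_⟩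
  rw [eq_univ_iff_forall]
  intro x
  obtain ⟨pa, ha⟩ := path_to a
  obtain ⟨pb, hb⟩ := path_to b
  obtain ⟨px, hx⟩ := path_to x
  rw [mem_iUnion₂]
  refine ⟨(pa.symm.trans px).trans (px.symm.trans pb), ?_, ?_⟩
  · have := (ha.symm.trans hx).trans (hx.symm.trans hb)
    norm_num at this
    exact this
  · refine ⟨⟨1/2, by norm_num, by norm_num⟩, ?_⟩
    rw [Path.trans_apply]
    simp

end Pool.Agent.V11214.Kup
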