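import Mathlib

set_option autoImplicit false

namespace Pool.Agent.V11214.MO

open Set Topology Filter

/-- square, hair and whisker -/
def S : Set (ℝ × ℝ) := {p | (0 ≤ p.1 ∧ p.1 ≤ 1 ∧ 0 ≤ p.2 ∧ p.2 ≤ 1) ∨
  (p.2 = 0 ∧ 1 ≤ p.1 ∧ p.1 ≤ 2) ∨ (p.1 = p.2 + 1/2 ∧ 1/2 ≤ p.2 ∧ p.2 ≤ 1)}

abbrev X : Type := S
abbrev Y : Type := Icc (0:ℝ) 1

theorem S_closed : IsClosed S := by
  have h1 : IsClosed {p : ℝ × ℝ | 0 ≤ p.1 ∧ p.1 ≤ 1 ∧ 0 ≤ p.2 ∧ p.2 ≤ 1} :=
    (isClosed_le continuous_const continuous_fst).inter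
      ((isClosed_le continuous_fst continuous_const).inter
        ((isClosed_le continuous_const continuous_snd).inter
          (isClosed_le continuous_snd continuous_const)))
  have h2 : IsClosed {p : ℝ × ℝ | p.2 = 0 ∧ 1 ≤ p.1 ∧ p.1 ≤ 2} :=
    (isClosed_eq continuous_snd continuous_const).inter
      ((isClosed_le continuous_const continuous_fst).inter
        (isClosed_le continuous_fst continuous_const))
  have h3 : IsClosed {p : ℝ × ℝ | p.1 = p.2 + 1/2 ∧ 1/2 ≤ p.2 ∧ p.2 ≤ 1} :=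
    (isClosed_eq continuous_fst (continuous_snd.add continuous_const)).inter
      ((isClosed_le continuous_const continuous_snd).inter
        (isClosed_le continuous_snd continuous_const))
  exact h1.union (h2.union h3)

theorem S_bound {p : ℝ × ℝ} (h : p ∈ S) : 0 ≤ p.1 ∧ p.1 ≤ 2 ∧ 0 ≤ p.2 ∧ p.2 ≤ 1 := by
  rcases h with h | h | h
  · exact ⟨h.1, by linarith [h.2.1], h.2.2⟩
  · exact ⟨by linarith [h.2.1], h.2.2, by linarith [h.1], by linarith [h.1]⟩
  · exact ⟨by linarith [h.1, h.2.1], by linarith [h.1, h.2.2], by linarith [h.2.1], h.2.2⟩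

instance : CompactSpace X := by
  apply isCompact_iff_compactSpace.mp
  apply (isCompact_Icc.prod isCompact_Icc : IsCompact (Icc (0:ℝ) 2 ×ˢ Icc (0:ℝ) 1)).of_isClosed_subset
    S_closed
  intro p hp
  have := S_bound hp
  exact ⟨⟨this.1, this.2.1⟩, this.2.2⟩

def f (p : X) : Y := ⟨p.1.2, (S_bound p.2).2.2⟩

theorem f_cont : Continuous f := by
  apply Continuous.subtype_mk
  exact continuous_snd.comp continuous_subtype_val

noncomputable def cl (t : ℝ) : ℝ := max 0 (min 1 t)
theorem cl_nonneg (t : ℝ) : 0 ≤ cl t := le_max_left _ _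
theorem cl_le (t : ℝ) : cl t ≤ 1 := max_le zero_le_one (min_le_left _ _)
theorem cl_eq {t : ℝ} (h0 : 0 ≤ t) (h1 : t ≤ 1) : cl t = t := by
  unfold cl; rw [min_eq_right h1, max_eq_right h0]
theorem cl_cont : Continuous cl := by unfold cl; fun_prop

noncomputable def sq (q : ℝ × ℝ) : X :=
  ⟨(cl q.1, cl q.2), Or.inl ⟨cl_nonneg _, cl_le _, cl_nonneg _, cl_le _⟩⟩

theorem sq_cont : Continuous sq := by
  apply Continuous.subtype_mk
  exact (cl_cont.comp continuous_fst).prodMk (cl_cont.comp continuous_snd)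

theorem sq_val {t y : ℝ} (ht : 0 ≤ t) (ht' : t ≤ 1) (hy : 0 ≤ y) (hy' : y ≤ 1) :
    (sq (t, y)).1 = (t, y) := by
  simp [sq, cl_eq ht ht', cl_eq hy hy']

/-- sections through all points which are not on the hair -/
theorem exists_section (p : X) (hp : 0 < p.1.2) :
    ∃ σ : Y → X, Continuous σ ∧ (∀ y, f (σ y) = y) ∧ σ (f p) = p := by
  obtain ⟨⟨t, y⟩, h⟩ := p
  rcases h with h | h | h
  · simp only at h
    refine ⟨fun y' => ⟨(t, y'.1), Or.inl ⟨h.1, h.2.1, y'.2.1, y'.2.2⟩⟩, ?_, ?_, ?_⟩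
    · apply Continuous.subtype_mk; fun_prop
    · intro y'; rfl
    · rfl
  · simp only at h hp
    linarith [h.1]
  · simp only at h
    refine ⟨fun y' => ⟨(max 1 (y'.1 + 1/2), y'.1), ?_⟩, ?_, ?_, ?_⟩
    · rcases le_total (y'.1 + 1/2) 1 with h' | h'
      · left
        rw [max_eq_left h']
        exact ⟨by norm_num, le_rfl, y'.2.1, y'.2.2⟩
      · right; right
        rw [max_eq_right h']
        exact ⟨rfl, by simp only; linarith, y'.2.2⟩
    · apply Continuous.subtype_mk; fun_prop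
    · intro y'; rfl
    · apply Subtype.ext
      show (max 1 (y + 1/2), y) = (t, y)
      rw [max_eq_right (by linarith [h.2.1]), h.1]

section

variable {Z : Type} [TopologicalSpace Z] [T2Space Z] {h : X → Z} {g : Z → Y}
  (hc : Continuous h) (ho : IsOpenMap h) (hs : Function.Surjective h)
  (hconn : ∀ y, IsConnected (g ⁻¹' {y})) (hf : ∀ x, g (h x) = f x)

include hc ho hs hconn hf

theorem gap {a y : ℝ} (ha : 0 < a) (ha1 : a ≤ 1) (hy : 0 ≤ y) (hy1 : y ≤ 1)
    (heq : h (sq (a, y)) = h (sq (0, y))) (p : X) (hp : p.1.2 = y) :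
    ∃ b, 0 ≤ b ∧ b ≤ a ∧ h (sq (b, y)) = h p := by
  have hyY : y ∈ Icc (0:ℝ) 1 := ⟨hy, hy1⟩
  set W : Set Z := g ⁻¹' {(⟨y, hyY⟩ : Y)} with hW
  set C : Set Z := (fun b => h (sq (b, y))) '' Icc 0 a with hC
  have hCc : IsClosed C := by
    apply IsCompact.isClosed
    apply isCompact_Icc.image
    exact hc.comp (sq_cont.comp (by fun_prop))
  have hU : IsOpen {p : X | p.1.1 < a} :=
    isOpen_lt (continuous_fst.comp continuous_subtype_val) continuous_const
  have hmem : ∀ w ∈ W, w ∈ h '' {p : X | p.1.1 < a} → w ∈ C := by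
    rintro _ hw ⟨q, hq, rfl⟩
    have hq1 : q.1.2 = y := by
      have h1 : g (h q) = ⟨y, hyY⟩ := hw
      rw [hf] at h1
      exact congrArg Subtype.val h1
    have hq2 : q.1.1 < a := hq
    refine ⟨q.1.1, ⟨(S_bound q.2).1, hq2.le⟩, ?_⟩
    have hsq : sq (q.1.1, y) = q := by
      apply Subtype.ext
      rw [sq_val (S_bound q.2).1 (by linarith) hy hy1, ← hq1]
    simp only [hsq]
  have hsub : W ⊆ C := by
    intro w hw
    by_contra hwC
    obtain ⟨v, hvW, hvU, hvC⟩ := (hconn ⟨y, hyY⟩).isPreconnected (h '' {p : X | p.1.1 < a}) Cᶜ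
      (ho _ hU) hCc.isOpen_compl
      (by
        intro v hv
        by_cases hvC : v ∈ C
        · left
          obtain ⟨b, hb, rfl⟩ := hvC
          rcases lt_or_eq_of_le hb.2 with hlt | heq'
          · refine ⟨sq (b, y), ?_, rfl⟩
            show (sq (b, y)).1.1 < a
            rw [sq_val hb.1 (by linarith) hy hy1]; exact hlt
          · refine ⟨sq (0, y), ?_, ?_⟩
            · show (sq (0, y)).1.1 < a
              rw [sq_val le_rfl zero_le_one hy hy1]; exact ha
            · simp only; rw [heq', heq]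
        · right; exact hvC)
      (by
        refine ⟨h (sq (0, y)), ?_, sq (0, y), ?_, rfl⟩
        · show g (h (sq (0, y))) = ⟨y, hyY⟩
          rw [hf]
          apply Subtype.ext
          show (sq (0, y)).1.2 = y
          rw [sq_val le_rfl zero_le_one hy hy1]
        · show (sq (0, y)).1.1 < a
          rw [sq_val le_rfl zero_le_one hy hy1]; exact ha)
      ⟨w, hw, hwC⟩
    exact hvC (hmem v hvW hvU)
  have hpW : h p ∈ W := by
    show g (h p) = ⟨y, hyY⟩
    rw [hf]; exact Subtype.ext hp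
  obtain ⟨b, hb, hb'⟩ := hsub hpW
  exact ⟨b, hb.1, hb.2, hb'⟩

theorem large {y : ℝ} (hy : 1/2 < y) (hy1 : y ≤ 1) : h (sq (1, y)) = h (sq (0, y)) := by
  have hyY : y ∈ Icc (0:ℝ) 1 := ⟨by linarith, hy1⟩
  let w : X := ⟨(y + 1/2, y), Or.inr (Or.inr ⟨rfl, hy.le, hy1⟩)⟩
  have hU : IsOpen {p : X | 1 < p.1.1 ∧ 0 < p.1.2} :=
    (isOpen_lt continuous_const (continuous_fst.comp continuous_subtype_val)).inter
      (isOpen_lt continuous_const (continuous_snd.comp continuous_subtype_val))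
  have hUw : ∀ q : X, 1 < q.1.1 → 0 < q.1.2 → q.1.2 = y → q = w := by
    intro q h1 h2 h3
    apply Subtype.ext
    rcases q.2 with h4 | h4 | h4
    · linarith [h4.2.1]
    · linarith [h4.1]
    · apply Prod.ext
      · rw [h4.1, h3]
      · exact h3
  have key : ∀ v ∈ g ⁻¹' {(⟨y, hyY⟩ : Y)}, v = h w := by
    intro v hv
    by_contra hvw
    obtain ⟨u, huW, ⟨q, hq, hqu⟩, hu2⟩ := (hconn ⟨y, hyY⟩).isPreconnected
      (h '' {p : X | 1 < p.1.1 ∧ 0 < p.1.2}) {h w}ᶜ (ho _ hU) isOpen_compl_singleton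
      (by
        intro u hu
        by_cases huw : u = h w
        · left
          refine ⟨w, ⟨?_, ?_⟩, huw.symm⟩
          · show 1 < y + 1/2; linarith
          · show 0 < y; linarith
        · right; exact huw)
      ⟨h w, by show g (h w) = _; rw [hf]; rfl, w, ⟨by show 1 < y + 1/2; linarith,
        by show 0 < y; linarith⟩, rfl⟩
      ⟨v, hv, hvw⟩
    apply hu2
    have h1 : g (h q) = ⟨y, hyY⟩ := by rw [hqu]; exact huW
    rw [hf] at h1
    have h2 : q = w := hUw q hq.1 hq.2 (congrArg Subtype.val h1)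
    rw [← hqu, h2]; rfl
  have hm : ∀ t, 0 ≤ t → t ≤ 1 → h (sq (t, y)) ∈ g ⁻¹' {(⟨y, hyY⟩ : Y)} := by
    intro t ht ht1
    show g (h (sq (t, y))) = _
    rw [hf]
    apply Subtype.ext
    show (sq (t, y)).1.2 = y
    rw [sq_val ht ht1 hyY.1 hyY.2]
  rw [key _ (hm 1 zero_le_one le_rfl), key _ (hm 0 le_rfl zero_le_one)]

def P (h : X → Z) (y : ℝ) : Prop := ∃ a, 0 < a ∧ a ≤ 1 ∧ h (sq (a, y)) = h (sq (0, y))

theorem P_closed : IsClosed {y : ℝ | y ∈ Icc (0:ℝ) 1 ∧ P h y} := by
  apply IsSeqClosed.isClosed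
  intro u y hu hy
  have hyI : y ∈ Icc (0:ℝ) 1 := isClosed_Icc.mem_of_tendsto hy (Eventually.of_forall fun n => (hu n).1)
  refine ⟨hyI, ?_⟩
  choose a ha0 ha1 ha using fun n => (hu n).2
  obtain ⟨b, hb, φ, hφ, hlim⟩ := isCompact_Icc.tendsto_subseq (s := Icc (0:ℝ) 1)
    (x := a) (fun n => ⟨(ha0 n).le, ha1 n⟩)
  have huφ : Tendsto (fun n => u (φ n)) atTop (𝓝 y) := hy.comp hφ.tendsto_atTop
  have hk : Continuous fun q : ℝ × ℝ => h (sq q) := hc.comp sq_cont
  rcases hb.1.lt_or_eq with hb0 | hb0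
  · refine ⟨b, hb0, hb.2, ?_⟩
    have h1 : Tendsto (fun n => h (sq (a (φ n), u (φ n)))) atTop (𝓝 (h (sq (b, y)))) :=
      (hk.tendsto (b, y)).comp (hlim.prodMk_nhds huφ)
    have h2 : Tendsto (fun n => h (sq (0, u (φ n)))) atTop (𝓝 (h (sq (0, y)))) :=
      (hk.tendsto (0, y)).comp (tendsto_const_nhds.prodMk_nhds huφ)
    have h3 : (fun n => h (sq (a (φ n), u (φ n)))) = fun n => h (sq (0, u (φ n))) := by
      funext n; exact ha (φ n)
    rw [h3] at h1
    exact tendsto_nhds_unique h1 h2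
  · refine ⟨1, one_pos, le_rfl, ?_⟩
    have hc' : ∀ n, ∃ c, 0 ≤ c ∧ c ≤ a n ∧ h (sq (c, u n)) = h (sq (1, u n)) := by
      intro n
      apply gap hc ho hs hconn hf (ha0 n) (ha1 n) (hu n).1.1 (hu n).1.2 (ha n)
      rw [sq_val zero_le_one le_rfl (hu n).1.1 (hu n).1.2]
    choose c hc0 hc1 hc2 using hc'
    have hcl : Tendsto (fun n => c (φ n)) atTop (𝓝 0) := by
      rw [← hb0] at hlim
      exact squeeze_zero (fun n => hc0 _) (fun n => hc1 _) hlim
    have h1 : Tendsto (fun n => h (sq (c (φ n), u (φ n)))) atTop (𝓝 (h (sq (0, y)))) :=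
      (hk.tendsto (0, y)).comp (hcl.prodMk_nhds huφ)
    have h2 : Tendsto (fun n => h (sq (1, u (φ n)))) atTop (𝓝 (h (sq (1, y)))) :=
      (hk.tendsto (1, y)).comp (tendsto_const_nhds.prodMk_nhds huφ)
    have h3 : (fun n => h (sq (c (φ n), u (φ n)))) = fun n => h (sq (1, u (φ n))) := by
      funext n; exact hc2 (φ n)
    rw [h3] at h1
    exact tendsto_nhds_unique h2 h1

theorem P_step {y : ℝ} (hy : 0 < y) (hy1 : y ≤ 1) (hP : P h y) :
    ∃ y', 0 < y' ∧ y' < y ∧ P h y' := by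
  rcases lt_or_ge (1/2) y with h1 | h1
  · refine ⟨(1/2 + y)/2, by linarith, by linarith, 1, one_pos, le_rfl, ?_⟩
    exact large hc ho hs hconn hf (by linarith) (by linarith)
  · obtain ⟨a, ha, ha1, heq⟩ := hP
    have hU : IsOpen {p : X | a / 2 < p.1.1} :=
      isOpen_lt continuous_const (continuous_fst.comp continuous_subtype_val)
    have hmem : h (sq (0, y)) ∈ h '' {p : X | a / 2 < p.1.1} := by
      refine ⟨sq (a, y), ?_, heq⟩
      show a / 2 < (sq (a, y)).1.1
      rw [sq_val ha.le ha1 hy.le hy1]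
      simp only; linarith
    have hk : Continuous fun s : ℝ => h (sq (0, s)) := hc.comp (sq_cont.comp (by fun_prop))
    have hnear : ∀ᶠ s in 𝓝 y, h (sq (0, s)) ∈ h '' {p : X | a / 2 < p.1.1} :=
      hk.continuousAt.eventually ((ho _ hU).mem_nhds hmem)
    obtain ⟨ε, hε, hball⟩ := Metric.eventually_nhds_iff.mp hnear
    have hm : 0 < min (y / 2) (ε / 2) := lt_min (by linarith) (by linarith)
    set y' := y - min (y / 2) (ε / 2) with hy'
    have hy'0 : 0 < y' := by
      have : min (y / 2) (ε / 2) ≤ y / 2 := min_le_left _ _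
      linarith
    have hy'1 : y' < y := by linarith
    obtain ⟨p, hp, hpe⟩ := hball (y := y') (by
      rw [Real.dist_eq, abs_lt]
      have : min (y / 2) (ε / 2) ≤ ε / 2 := min_le_right _ _
      constructor <;> linarith)
    have hp2 : p.1.2 = y' := by
      have h2 := hf p
      rw [hpe, hf] at h2
      have h3 := congrArg Subtype.val h2
      have h4 : (sq (0, y')).1.2 = p.1.2 := h3
      rw [← h4, sq_val le_rfl zero_le_one hy'0.le (by linarith)]
    have hp' : a / 2 < p.1.1 := hp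
    have hp1 : p.1.1 ≤ 1 := by
      rcases p.2 with h4 | h4 | h4
      · exact h4.2.1
      · linarith [h4.1]
      · linarith [h4.2.1]
    refine ⟨y', hy'0, hy'1, p.1.1, by linarith, hp1, ?_⟩
    rw [← hpe]
    congr 1
    apply Subtype.ext
    rw [sq_val (by linarith) hp1 hy'0.le (by linarith), ← hp2]

theorem P_zero : P h 0 := by
  have hcl : IsClosed ({u : ℝ | P h (1 - u)} ∩ Icc 0 1) := by
    have h1 := (P_closed hc ho hs hconn hf).preimage (by fun_prop : Continuous fun u : ℝ => 1 - u)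
    convert h1 using 1
    ext u
    simp only [mem_inter_iff, mem_ofPred_eq, mem_Icc, mem_preimage]
    constructor
    · rintro ⟨h2, h3, h4⟩; exact ⟨⟨by linarith, by linarith⟩, h2⟩
    · rintro ⟨⟨h3, h4⟩, h2⟩; exact ⟨h2, by linarith, by linarith⟩
  have := hcl.mem_of_ge_of_forall_exists_gt (a := 0) (b := 1) ?_ zero_le_one ?_
  · simpa using this
  · show P h (1 - 0)
    refine ⟨1, one_pos, le_rfl, ?_⟩
    exact large hc ho hs hconn hf (by norm_num) (by norm_num)
  · rintro u ⟨hu, hu0, hu1⟩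
    obtain ⟨y', h1, h2, h3⟩ := P_step hc ho hs hconn hf (y := 1 - u) (by linarith) (by linarith) hu
    refine ⟨1 - y', ?_, by linarith, by linarith⟩
    show P h (1 - (1 - y'))
    rw [sub_sub_cancel]; exact h3

theorem contra : False := by
  obtain ⟨a, ha, ha1, heq⟩ := P_zero hc ho hs hconn hf
  let e : X := ⟨(2, 0), Or.inr (Or.inl ⟨rfl, by norm_num, le_rfl⟩)⟩
  obtain ⟨b, hb0, hb1, hb⟩ := gap hc ho hs hconn hf ha ha1 le_rfl zero_le_one heq e rfl
  have hU : IsOpen {p : X | 3 / 2 < p.1.1} :=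
    isOpen_lt continuous_const (continuous_fst.comp continuous_subtype_val)
  have hk : Continuous fun s : ℝ => h (sq (b, s)) := hc.comp (sq_cont.comp (by fun_prop))
  have hmem : h (sq (b, 0)) ∈ h '' {p : X | 3 / 2 < p.1.1} := by
    rw [hb]
    exact ⟨e, by show (3:ℝ) / 2 < 2; norm_num, rfl⟩
  have hnear : ∀ᶠ s in 𝓝 (0:ℝ), h (sq (b, s)) ∈ h '' {p : X | 3 / 2 < p.1.1} :=
    hk.continuousAt.eventually ((ho _ hU).mem_nhds hmem)
  obtain ⟨ε, hε, hball⟩ := Metric.eventually_nhds_iff.mp hnear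
  have hm : 0 < min 1 (ε / 2) := lt_min one_pos (by linarith)
  obtain ⟨p, hp, hpe⟩ := hball (y := min 1 (ε / 2)) (by
    rw [Real.dist_eq, sub_zero, abs_of_pos hm]
    have : min 1 (ε / 2) ≤ ε / 2 := min_le_right _ _
    linarith)
  have hp2 : p.1.2 = min 1 (ε / 2) := by
    have h2 := hf p
    rw [hpe, hf] at h2
    have h3 := congrArg Subtype.val h2
    have h4 : (sq (b, min 1 (ε / 2))).1.2 = p.1.2 := h3
    rw [← h4, sq_val hb0 (by linarith) hm.le (min_le_left _ _)]
  have hp' : 3 / 2 < p.1.1 := hp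
  rcases p.2 with h4 | h4 | h4
  · linarith [h4.2.1]
  · rw [hp2] at h4; linarith [h4.1]
  · linarith [h4.1, h4.2.2]

end

/-! the two restrictions -/

def G1 : Set Y := {y | y.1 < 1/2}
def G2 : Set Y := {y | 1/4 < y.1}

theorem G1_open : IsOpen G1 := isOpen_lt continuous_subtype_val continuous_const
theorem G2_open : IsOpen G2 := isOpen_lt continuous_const continuous_subtype_val

theorem G_union : G1 ∪ G2 = univ := by
  apply eq_univ_of_forall
  intro y
  rcases lt_or_ge y.1 (1/2) with h | h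
  · left; exact h
  · right
    show 1/4 < y.1
    linarith

theorem G1_closure {y : Y} (hy : y ∈ closure G1) : y.1 ≤ 1/2 := by
  have : closure G1 ⊆ {y : Y | y.1 ≤ 1/2} :=
    closure_minimal (fun y (hy : y.1 < 1/2) => (le_of_lt hy : y.1 ≤ 1/2))
      (isClosed_le continuous_subtype_val continuous_const)
  exact this hy

theorem G2_closure {y : Y} (hy : y ∈ closure G2) : 1/4 ≤ y.1 := by
  have : closure G2 ⊆ {y : Y | 1/4 ≤ y.1} :=
    closure_minimal (fun y (hy : 1/4 < y.1) => (le_of_lt hy : 1/4 ≤ y.1))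
      (isClosed_le continuous_const continuous_subtype_val)
  exact this hy

theorem f_surj : Function.Surjective f := by
  intro y
  refine ⟨sq (0, y.1), ?_⟩
  apply Subtype.ext
  show (sq (0, y.1)).1.2 = y.1
  rw [sq_val le_rfl zero_le_one y.2.1 y.2.2]

/-- fibres over small values are connected -/
theorem fibre_connected {y : Y} (hy : y.1 ≤ 1/2) : IsConnected (f ⁻¹' {y}) := by
  rcases y.2.1.lt_or_eq with h0 | h0
  · have : f ⁻¹' {y} = (fun t => sq (t, y.1)) '' Icc 0 1 := by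
      ext p
      constructor
      · intro hp
        have hp2 : p.1.2 = y.1 := congrArg Subtype.val hp
        have h1 : 0 ≤ p.1.1 ∧ p.1.1 ≤ 1 := by
          rcases p.2 with h | h | h
          · exact ⟨h.1, h.2.1⟩
          · linarith [h.1]
          · constructor <;> linarith [h.1, h.2.1]
        refine ⟨p.1.1, h1, ?_⟩
        apply Subtype.ext
        show (sq (p.1.1, y.1)).1 = p.1
        rw [sq_val h1.1 h1.2 y.2.1 y.2.2, ← hp2]
      · rintro ⟨t, ht, rfl⟩
        apply Subtype.ext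
        show (sq (t, y.1)).1.2 = y.1
        rw [sq_val ht.1 ht.2 y.2.1 y.2.2]
    rw [this]
    exact (isConnected_Icc zero_le_one).image _ (sq_cont.comp (by fun_prop)).continuousOn
  · let hr : ℝ → X := fun t => ⟨(max 0 (min 2 t), 0), by
      rcases le_total (max 0 (min 2 t)) 1 with h | h
      · exact Or.inl ⟨le_max_left _ _, h, le_rfl, zero_le_one⟩
      · exact Or.inr (Or.inl ⟨rfl, h, max_le (by norm_num) (min_le_left _ _)⟩)⟩
    have hrc : Continuous hr := by
      apply Continuous.subtype_mk; fun_prop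
    have : f ⁻¹' {y} = hr '' Icc 0 2 := by
      ext p
      constructor
      · intro hp
        have hp2 : p.1.2 = y.1 := congrArg Subtype.val hp
        refine ⟨p.1.1, ⟨(S_bound p.2).1, (S_bound p.2).2.1⟩, ?_⟩
        apply Subtype.ext
        show (max 0 (min 2 p.1.1), (0:ℝ)) = p.1
        rw [min_eq_right (S_bound p.2).2.1, max_eq_right (S_bound p.2).1]
        apply Prod.ext
        · rfl
        · rw [hp2]; exact h0
      · rintro ⟨t, ht, rfl⟩
        apply Subtype.ext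
        exact h0
    rw [this]
    exact (isConnected_Icc (by norm_num)).image _ hrc.continuousOn

theorem left_MO : ∃ (Z : Type) (_ : MetricSpace Z) (_ : CompactSpace Z)
    (h : ↥(f ⁻¹' closure G1) → Z) (g : Z → ↥(closure G1)),
    Continuous h ∧ IsOpenMap h ∧ Function.Surjective h ∧
    Continuous g ∧ Function.Surjective g ∧ (∀ y, IsConnected (g ⁻¹' {y})) ∧
    ∀ x : ↥(f ⁻¹' closure G1), ((g (h x) : ↥(closure G1)) : Y) = f x := by
  have hcomp : CompactSpace ↥(f ⁻¹' closure G1) :=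
    isCompact_iff_compactSpace.mp (isClosed_closure.preimage f_cont).isCompact
  have hgc : Continuous fun x : ↥(f ⁻¹' closure G1) => (⟨f x.1, x.2⟩ : ↥(closure G1)) :=
    (f_cont.comp continuous_subtype_val).subtype_mk _
  refine ⟨↥(f ⁻¹' closure G1), inferInstance, hcomp, id, fun x => ⟨f x.1, x.2⟩, continuous_id,
    IsOpenMap.id, Function.surjective_id, hgc, ?_, ?_, ?_⟩
  · intro y
    obtain ⟨x, hx⟩ := f_surj y.1
    exact ⟨⟨x, by show f x ∈ closure G1; rw [hx]; exact y.2⟩, Subtype.ext hx⟩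
  · intro y
    have h1 := fibre_connected (G1_closure y.2)
    have h2 : Subtype.val '' ((fun x : ↥(f ⁻¹' closure G1) =>
        (⟨f x.1, x.2⟩ : ↥(closure G1))) ⁻¹' {y}) = f ⁻¹' {y.1} := by
      ext p
      constructor
      · rintro ⟨q, hq, rfl⟩
        exact congrArg Subtype.val hq
      · intro hp
        have hp' : f p = y.1 := hp
        exact ⟨⟨p, by show f p ∈ closure G1; rw [hp']; exact y.2⟩, Subtype.ext hp', rfl⟩
    have h3 : IsPreconnected ((fun x : ↥(f ⁻¹' closure G1) =>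
        (⟨f x.1, x.2⟩ : ↥(closure G1))) ⁻¹' {y}) := by
      rw [← Topology.IsInducing.subtypeVal.isPreconnected_image, h2]
      exact h1.isPreconnected
    refine ⟨?_, h3⟩
    have h4 := h1.nonempty
    rw [← h2] at h4
    exact h4.of_image
  · intro x; rfl

theorem right_MO : ∃ (Z : Type) (_ : MetricSpace Z) (_ : CompactSpace Z)
    (h : ↥(f ⁻¹' closure G2) → Z) (g : Z → ↥(closure G2)),
    Continuous h ∧ IsOpenMap h ∧ Function.Surjective h ∧
    Continuous g ∧ Function.Surjective g ∧ (∀ y, IsConnected (g ⁻¹' {y})) ∧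
    ∀ x : ↥(f ⁻¹' closure G2), ((g (h x) : ↥(closure G2)) : Y) = f x := by
  have hcomp : CompactSpace ↥(closure G2) :=
    isCompact_iff_compactSpace.mp isClosed_closure.isCompact
  have hhc : Continuous fun x : ↥(f ⁻¹' closure G2) => (⟨f x.1, x.2⟩ : ↥(closure G2)) :=
    (f_cont.comp continuous_subtype_val).subtype_mk _
  refine ⟨↥(closure G2), inferInstance, hcomp, fun x => ⟨f x.1, x.2⟩, id, hhc, ?_, ?_,
    continuous_id, Function.surjective_id, ?_, ?_⟩
  · intro U hU
    rw [isOpen_iff_mem_nhds]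
    rintro _ ⟨p, hp, rfl⟩
    have hp0 : 0 < p.1.1.2 := by
      have h1 : 1/4 ≤ (f p.1).1 := G2_closure p.2
      have h2 : (f p.1).1 = p.1.1.2 := rfl
      rw [h2] at h1
      linarith
    obtain ⟨σ, hσ, hσf, hσp⟩ := exists_section p.1 hp0
    let σ' : ↥(closure G2) → ↥(f ⁻¹' closure G2) := fun y => ⟨σ y.1, by
      show f (σ y.1) ∈ closure G2
      rw [hσf]; exact y.2⟩
    have hσ' : Continuous σ' := (hσ.comp continuous_subtype_val).subtype_mk _
    have hσ'p : σ' ⟨f p.1, p.2⟩ = p := Subtype.ext hσp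
    have h1 : σ' ⁻¹' U ∈ 𝓝 (⟨f p.1, p.2⟩ : ↥(closure G2)) := by
      apply (hU.preimage hσ').mem_nhds
      show σ' ⟨f p.1, p.2⟩ ∈ U
      rw [hσ'p]; exact hp
    refine Filter.mem_of_superset h1 ?_
    intro y hy
    exact ⟨σ' y, hy, Subtype.ext (hσf y.1)⟩
  · intro y
    obtain ⟨x, hx⟩ := f_surj y.1
    exact ⟨⟨x, by show f x ∈ closure G2; rw [hx]; exact y.2⟩, Subtype.ext hx⟩
  · intro y
    exact isConnected_singleton
  · intro x; rfl

end Pool.Agent.V11214.MO
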