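import Mathlib

set_option autoImplicit false

namespace Pool.Agent.V11214.Organ

open Set Topology

/-- The ambient three dimensional space with coordinates `(u, v, z)`. -/
abbrev R3 : Type := ℝ × ℝ × ℝ

/-- the intersection of a directed family of compact preconnected sets of a Hausdorff normal space
is preconnected -/
theorem isPreconnected_iInter {X : Type*} [TopologicalSpace X] [T2Space X] [NormalSpace X]
    {ι : Type*} [Nonempty ι] {V : ι → Set X} (hV : Directed (· ⊇ ·) V)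
    (hcl : ∀ i, IsCompact (V i)) (hpre : ∀ i, IsPreconnected (V i)) :
    IsPreconnected (⋂ i, V i) := by
  rw [isPreconnected_closed_iff]
  intro t t' ht ht' hsub hnt hnt'
  by_contra hemp
  rw [Set.not_nonempty_iff_eq_empty] at hemp
  have hI : IsClosed (⋂ i, V i) := isClosed_iInter fun i => (hcl i).isClosed
  have hCc : IsClosed ((⋂ i, V i) ∩ t) := hI.inter ht
  have hDc : IsClosed ((⋂ i, V i) ∩ t') := hI.inter ht'
  have hdisj : Disjoint ((⋂ i, V i) ∩ t) ((⋂ i, V i) ∩ t') := by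
    rw [Set.disjoint_iff_inter_eq_empty, Set.eq_empty_iff_forall_notMem]
    rintro x ⟨hx1, hx2⟩
    have : x ∈ (⋂ i, V i) ∩ (t ∩ t') := ⟨hx1.1, hx1.2, hx2.2⟩
    rw [hemp] at this
    exact this
  obtain ⟨U, W, hU, hW, hCU, hDW, hUW⟩ := normal_separation hCc hDc hdisj
  have hsubUW : ∀ x ∈ ⋂ i, V i, U ∪ W ∈ 𝓝 x := by
    intro x hx
    apply (hU.union hW).mem_nhds
    rcases hsub hx with h | h
    · exact Or.inl (hCU ⟨hx, h⟩)
    · exact Or.inr (hDW ⟨hx, h⟩)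
  obtain ⟨i, hi⟩ := exists_subset_nhds_of_isCompact' hV hcl (fun i => (hcl i).isClosed) hsubUW
  obtain ⟨x, hx, hxt⟩ := hnt
  obtain ⟨y, hy, hyt⟩ := hnt'
  obtain ⟨z, -, hzU, hzW⟩ := hpre i U W hU hW hi
    ⟨x, mem_iInter.mp hx i, hCU ⟨hx, hxt⟩⟩ ⟨y, mem_iInter.mp hy i, hDW ⟨hy, hyt⟩⟩
  exact Set.disjoint_left.mp hUW hzU hzW

/-- parity as a real number -/
noncomputable def e (d : ℕ) : ℝ := ((d % 2 : ℕ) : ℝ)

/-- the four affine maps -/
noncomputable def psi (d : ℕ) (x : R3) : R3 := ((x.1 + d) / 4, (x.2.1 + e d) / 4, x.2.2)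

/-- the box `[0,1] × [0,1/3] × [0,1]` -/
def Q : Set R3 := {x | 0 ≤ x.1 ∧ x.1 ≤ 1 ∧ 0 ≤ x.2.1 ∧ x.2.1 ≤ 1 / 3 ∧ 0 ≤ x.2.2 ∧ x.2.2 ≤ 1}

/-- the three bridges -/
def B0 : Set R3 := {x | x.1 = 1 / 4 ∧ (1 / 12 ≤ x.2.1 ∧ x.2.1 ≤ 1 / 4) ∧ x.2.2 = 0}
def B1 : Set R3 := {x | x.1 = 1 / 2 ∧ (0 ≤ x.2.1 ∧ x.2.1 ≤ 1 / 3) ∧ x.2.2 = 1}
def B2 : Set R3 := {x | x.1 = 3 / 4 ∧ (1 / 12 ≤ x.2.1 ∧ x.2.1 ≤ 1 / 4) ∧ x.2.2 = 0}

/-- the set operation -/
def F (X : Set R3) : Set R3 :=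
  (((((psi 0 '' X ∪ B0) ∪ psi 1 '' X) ∪ B1) ∪ psi 2 '' X) ∪ B2) ∪ psi 3 '' X

/-- the approximations -/
def KK : ℕ → Set R3
  | 0 => Q
  | n + 1 => F (KK n)

/-- the Cantor organ -/
def K : Set R3 := ⋂ n, KK n

lemma e0 : e 0 = 0 := by simp [e]
lemma e1 : e 1 = 1 := by simp [e]
lemma e2 : e 2 = 0 := by simp [e]
lemma e3 : e 3 = 1 := by simp [e]

lemma psi_cont (d : ℕ) : Continuous (psi d) := by
  unfold psi; fun_prop

lemma box_eq (a b c d f g : ℝ) : {x : R3 | a ≤ x.1 ∧ x.1 ≤ b ∧ c ≤ x.2.1 ∧ x.2.1 ≤ d ∧ f ≤ x.2.2 ∧ x.2.2 ≤ g}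
    = Icc a b ×ˢ (Icc c d ×ˢ Icc f g) := by
  ext x; simp only [mem_ofPred_eq, mem_prod, mem_Icc]; tauto

lemma box_compact (a b c d f g : ℝ) :
    IsCompact {x : R3 | a ≤ x.1 ∧ x.1 ≤ b ∧ c ≤ x.2.1 ∧ x.2.1 ≤ d ∧ f ≤ x.2.2 ∧ x.2.2 ≤ g} := by
  rw [box_eq]; exact isCompact_Icc.prod (isCompact_Icc.prod isCompact_Icc)

lemma box_pre (a b c d f g : ℝ) :
    IsPreconnected {x : R3 | a ≤ x.1 ∧ x.1 ≤ b ∧ c ≤ x.2.1 ∧ x.2.1 ≤ d ∧ f ≤ x.2.2 ∧ x.2.2 ≤ g} := by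
  rw [box_eq]; exact isPreconnected_Icc.prod (isPreconnected_Icc.prod isPreconnected_Icc)

lemma seg_eq (a c d f : ℝ) : {x : R3 | x.1 = a ∧ (c ≤ x.2.1 ∧ x.2.1 ≤ d) ∧ x.2.2 = f}
    = {x : R3 | a ≤ x.1 ∧ x.1 ≤ a ∧ c ≤ x.2.1 ∧ x.2.1 ≤ d ∧ f ≤ x.2.2 ∧ x.2.2 ≤ f} := by
  ext x; simp only [mem_ofPred_eq]; constructor
  · rintro ⟨h1, h2, h3⟩; exact ⟨h1.ge, h1.le, h2.1, h2.2, h3.ge, h3.le⟩
  · rintro ⟨h1, h2, h3, h4, h5, h6⟩; exact ⟨le_antisymm h2 h1, ⟨h3, h4⟩, le_antisymm h6 h5⟩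

lemma F_mono {X Y : Set R3} (h : X ⊆ Y) : F X ⊆ F Y := by
  unfold F
  gcongr

lemma F_Q : F Q ⊆ Q := by
  intro x hx
  unfold F at hx
  simp only [mem_union, mem_image] at hx
  rcases hx with (((((⟨y, hy, rfl⟩ | hx) | ⟨y, hy, rfl⟩) | hx) | ⟨y, hy, rfl⟩) | hx) | ⟨y, hy, rfl⟩
  · obtain ⟨h1, h2, h3, h4, h5, h6⟩ := hy
    simp only [Q, psi, mem_ofPred_eq, e0]
    norm_num
    refine ⟨by linarith, by linarith, by linarith, by linarith, h5, h6⟩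
  · obtain ⟨h1, h2, h3⟩ := hx
    simp only [Q, mem_ofPred_eq]
    refine ⟨by linarith, by linarith, by linarith, by linarith, by linarith, by linarith⟩
  · obtain ⟨h1, h2, h3, h4, h5, h6⟩ := hy
    simp only [Q, psi, mem_ofPred_eq, e1]
    norm_num
    refine ⟨by linarith, by linarith, by linarith, by linarith, h5, h6⟩
  · obtain ⟨h1, h2, h3⟩ := hx
    simp only [Q, mem_ofPred_eq]
    refine ⟨by linarith, by linarith, by linarith, by linarith, by linarith, by linarith⟩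
  · obtain ⟨h1, h2, h3, h4, h5, h6⟩ := hy
    simp only [Q, psi, mem_ofPred_eq, e2]
    norm_num
    refine ⟨by linarith, by linarith, by linarith, by linarith, h5, h6⟩
  · obtain ⟨h1, h2, h3⟩ := hx
    simp only [Q, mem_ofPred_eq]
    refine ⟨by linarith, by linarith, by linarith, by linarith, by linarith, by linarith⟩
  · obtain ⟨h1, h2, h3, h4, h5, h6⟩ := hy
    simp only [Q, psi, mem_ofPred_eq, e3]
    norm_num
    refine ⟨by linarith, by linarith, by linarith, by linarith, h5, h6⟩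

lemma KK_anti_succ (n : ℕ) : KK (n + 1) ⊆ KK n := by
  induction n with
  | zero => exact F_Q
  | succ n ih => exact F_mono ih

lemma KK_sub_Q (n : ℕ) : KK n ⊆ Q := by
  induction n with
  | zero => exact subset_rfl
  | succ n ih => exact (KK_anti_succ n).trans ih

lemma KK_antitone : Antitone KK := antitone_nat_of_succ_le KK_anti_succ

lemma F_compact {X : Set R3} (h : IsCompact X) : IsCompact (F X) := by
  unfold F
  have hb0 : IsCompact B0 := by unfold B0; rw [seg_eq]; exact box_compact _ _ _ _ _ _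
  have hb1 : IsCompact B1 := by unfold B1; rw [seg_eq]; exact box_compact _ _ _ _ _ _
  have hb2 : IsCompact B2 := by unfold B2; rw [seg_eq]; exact box_compact _ _ _ _ _ _
  have hp : ∀ d, IsCompact (psi d '' X) := fun d => h.image (psi_cont d)
  exact (((((((hp 0).union hb0).union (hp 1)).union hb1).union (hp 2)).union hb2).union (hp 3))

lemma KK_compact (n : ℕ) : IsCompact (KK n) := by
  induction n with
  | zero => exact box_compact _ _ _ _ _ _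
  | succ n ih => exact F_compact ih

/-- endpoints belong to all the approximations -/
lemma ends (n : ℕ) (z : ℝ) (hz : 0 ≤ z) (hz1 : z ≤ 1) :
    ((0 : ℝ), (0 : ℝ), z) ∈ KK n ∧ ((1 : ℝ), (1 / 3 : ℝ), z) ∈ KK n := by
  induction n with
  | zero =>
    constructor
    · refine ⟨?_, ?_, ?_, ?_, ?_, ?_⟩ <;> norm_num <;> assumption
    · refine ⟨?_, ?_, ?_, ?_, ?_, ?_⟩ <;> norm_num <;> assumption
  | succ n ih =>
    constructor
    · have : psi 0 ((0 : ℝ), (0 : ℝ), z) ∈ F (KK n) := by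
        unfold F
        exact Or.inl (Or.inl (Or.inl (Or.inl (Or.inl (Or.inl ⟨_, ih.1, rfl⟩)))))
      have h2 : psi 0 ((0 : ℝ), (0 : ℝ), z) = ((0 : ℝ), (0 : ℝ), z) := by
        simp [psi, e0]
      rwa [h2] at this
    · have : psi 3 ((1 : ℝ), (1 / 3 : ℝ), z) ∈ F (KK n) := by
        unfold F
        exact Or.inr ⟨_, ih.2, rfl⟩
      have h2 : psi 3 ((1 : ℝ), (1 / 3 : ℝ), z) = ((1 : ℝ), (1 / 3 : ℝ), z) := by
        simp only [psi, e3]; norm_num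
      rwa [h2] at this

lemma F_conn {X : Set R3} (h : IsPreconnected X)
    (h0 : ∀ z : ℝ, 0 ≤ z → z ≤ 1 → ((0 : ℝ), (0 : ℝ), z) ∈ X)
    (h1 : ∀ z : ℝ, 0 ≤ z → z ≤ 1 → ((1 : ℝ), (1 / 3 : ℝ), z) ∈ X) : IsPreconnected (F X) := by
  have hb0 : IsPreconnected B0 := by unfold B0; rw [seg_eq]; exact box_pre _ _ _ _ _ _
  have hb1 : IsPreconnected B1 := by unfold B1; rw [seg_eq]; exact box_pre _ _ _ _ _ _
  have hb2 : IsPreconnected B2 := by unfold B2; rw [seg_eq]; exact box_pre _ _ _ _ _ _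
  have hp : ∀ d, IsPreconnected (psi d '' X) := fun d => h.image _ (psi_cont d).continuousOn
  have a0 : psi 0 ((1 : ℝ), (1 / 3 : ℝ), (0 : ℝ)) = ((1 / 4 : ℝ), (1 / 12 : ℝ), (0 : ℝ)) := by
    simp only [psi, e0]; norm_num
  have a1 : psi 1 ((0 : ℝ), (0 : ℝ), (0 : ℝ)) = ((1 / 4 : ℝ), (1 / 4 : ℝ), (0 : ℝ)) := by
    simp only [psi, e1]; norm_num
  have a2 : psi 1 ((1 : ℝ), (1 / 3 : ℝ), (1 : ℝ)) = ((1 / 2 : ℝ), (1 / 3 : ℝ), (1 : ℝ)) := by
    simp only [psi, e1]; norm_num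
  have a3 : psi 2 ((0 : ℝ), (0 : ℝ), (1 : ℝ)) = ((1 / 2 : ℝ), (0 : ℝ), (1 : ℝ)) := by
    simp only [psi, e2]; norm_num
  have a4 : psi 2 ((1 : ℝ), (1 / 3 : ℝ), (0 : ℝ)) = ((3 / 4 : ℝ), (1 / 12 : ℝ), (0 : ℝ)) := by
    simp only [psi, e2]; norm_num
  have a5 : psi 3 ((0 : ℝ), (0 : ℝ), (0 : ℝ)) = ((3 / 4 : ℝ), (1 / 4 : ℝ), (0 : ℝ)) := by
    simp only [psi, e3]; norm_num
  unfold F
  have s1 : IsPreconnected (psi 0 '' X ∪ B0) := by
    refine IsPreconnected.union ((1 / 4 : ℝ), (1 / 12 : ℝ), (0 : ℝ)) ⟨_, h1 0 le_rfl zero_le_one, a0⟩ ?_ (hp 0) hb0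
    exact ⟨rfl, ⟨le_rfl, by norm_num⟩, rfl⟩
  have s2 : IsPreconnected ((psi 0 '' X ∪ B0) ∪ psi 1 '' X) := by
    refine IsPreconnected.union ((1 / 4 : ℝ), (1 / 4 : ℝ), (0 : ℝ)) (Or.inr ?_) ⟨_, h0 0 le_rfl zero_le_one, a1⟩ s1 (hp 1)
    exact ⟨rfl, ⟨by norm_num, by norm_num⟩, rfl⟩
  have s3 : IsPreconnected (((psi 0 '' X ∪ B0) ∪ psi 1 '' X) ∪ B1) := by
    refine IsPreconnected.union ((1 / 2 : ℝ), (1 / 3 : ℝ), (1 : ℝ)) (Or.inr ⟨_, h1 1 zero_le_one le_rfl, a2⟩) ?_ s2 hb1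
    exact ⟨rfl, ⟨by norm_num, by norm_num⟩, rfl⟩
  have s4 : IsPreconnected ((((psi 0 '' X ∪ B0) ∪ psi 1 '' X) ∪ B1) ∪ psi 2 '' X) := by
    refine IsPreconnected.union ((1 / 2 : ℝ), (0 : ℝ), (1 : ℝ)) (Or.inr ?_) ⟨_, h0 1 zero_le_one le_rfl, a3⟩ s3 (hp 2)
    exact ⟨rfl, ⟨by norm_num, by norm_num⟩, rfl⟩
  have s5 : IsPreconnected (((((psi 0 '' X ∪ B0) ∪ psi 1 '' X) ∪ B1) ∪ psi 2 '' X) ∪ B2) := by
    refine IsPreconnected.union ((3 / 4 : ℝ), (1 / 12 : ℝ), (0 : ℝ)) (Or.inr ⟨_, h1 0 le_rfl zero_le_one, a4⟩) ?_ s4 hb2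
    exact ⟨rfl, ⟨by norm_num, by norm_num⟩, rfl⟩
  refine IsPreconnected.union ((3 / 4 : ℝ), (1 / 4 : ℝ), (0 : ℝ)) (Or.inr ?_) ⟨_, h0 0 le_rfl zero_le_one, a5⟩ s5 (hp 3)
  exact ⟨rfl, ⟨by norm_num, by norm_num⟩, rfl⟩

lemma KK_pre (n : ℕ) : IsPreconnected (KK n) := by
  induction n with
  | zero => exact box_pre _ _ _ _ _ _
  | succ n ih =>
    exact F_conn ih (fun z h0 h1 => (ends n z h0 h1).1) (fun z h0 h1 => (ends n z h0 h1).2)

lemma K_compact : IsCompact K :=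
  (KK_compact 0).of_isClosed_subset (isClosed_iInter fun n => (KK_compact n).isClosed)
    (iInter_subset _ 0)

lemma K_pre : IsPreconnected K :=
  isPreconnected_iInter KK_antitone.directed_ge KK_compact KK_pre

lemma p_mem : ((0 : ℝ), (0 : ℝ), (0 : ℝ)) ∈ K :=
  mem_iInter.2 fun n => (ends n 0 le_rfl zero_le_one).1

lemma q_mem : ((1 : ℝ), (1 / 3 : ℝ), (0 : ℝ)) ∈ K :=
  mem_iInter.2 fun n => (ends n 0 le_rfl zero_le_one).2

/-- the structure of one approximation over an open quarter -/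
lemma F_quarter {X : Set R3} (hX : X ⊆ Q) {d : ℕ} (hd : d < 4) {x : R3} (hx : x ∈ F X)
    (h1 : (d : ℝ) / 4 < x.1) (h2 : x.1 < ((d : ℝ) + 1) / 4) :
    (4 * x.1 - d, 4 * x.2.1 - e d, x.2.2) ∈ X := by
  unfold F at hx
  simp only [mem_union, mem_image] at hx
  have key : ∀ d' : ℕ, ∀ y ∈ X, psi d' y = x → d' = d := by
    rintro d' y hy rfl
    have hy' := hX hy
    have e1 : (psi d' y).1 = (y.1 + d') / 4 := rfl
    rw [e1] at h1 h2
    have g1 : (d : ℝ) < d' + 1 := by have := hy'.2.1; linarith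
    have g2 : (d' : ℝ) < d + 1 := by have := hy'.1; linarith
    have g1' : d < d' + 1 := by exact_mod_cast g1
    have g2' : d' < d + 1 := by exact_mod_cast g2
    omega
  have fin : ∀ d' : ℕ, (∃ y ∈ X, psi d' y = x) → (4 * x.1 - d, 4 * x.2.1 - e d, x.2.2) ∈ X := by
    rintro d' ⟨y, hy, h⟩
    obtain rfl := key d' y hy h
    subst h
    have : (4 * (psi d' y).1 - (d' : ℝ), 4 * (psi d' y).2.1 - e d', (psi d' y).2.2) = y := by
      simp only [psi]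
      ext <;> simp <;> ring
    rw [this]; exact hy
  have bad : ∀ k : ℕ, x.1 = (k : ℝ) / 4 → False := by
    intro k hk
    rw [hk] at h1 h2
    have g1 : (d : ℝ) < k := by linarith
    have g2 : (k : ℝ) < d + 1 := by linarith
    have g1' : d < k := by exact_mod_cast g1
    have g2' : k < d + 1 := by exact_mod_cast g2
    omega
  rcases hx with (((((hx | hx) | hx) | hx) | hx) | hx) | hx
  · exact fin 0 hx
  · exact (bad 1 (by rw [hx.1]; norm_num)).elim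
  · exact fin 1 hx
  · exact (bad 2 (by rw [hx.1]; norm_num)).elim
  · exact fin 2 hx
  · exact (bad 3 (by rw [hx.1]; norm_num)).elim
  · exact fin 3 hx

lemma K_quarter {d : ℕ} (hd : d < 4) {x : R3} (hx : x ∈ K)
    (h1 : (d : ℝ) / 4 < x.1) (h2 : x.1 < ((d : ℝ) + 1) / 4) :
    (4 * x.1 - d, 4 * x.2.1 - e d, x.2.2) ∈ K :=
  mem_iInter.2 fun n => F_quarter (KK_sub_Q n) hd (mem_iInter.1 hx (n + 1)) h1 h2

/-- the cells: `K` over the open interval `(j/4^n, (j+1)/4^n)` is a copy of `K` -/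
lemma cell (n : ℕ) : ∀ j : ℕ, j < 4 ^ n → ∃ b : ℝ, ∀ x ∈ K, (j : ℝ) / 4 ^ n < x.1 →
    x.1 < ((j : ℝ) + 1) / 4 ^ n → (4 ^ n * x.1 - j, 4 ^ n * (x.2.1 - b), x.2.2) ∈ K := by
  induction n with
  | zero =>
    intro j hj
    have : j = 0 := by simpa using hj
    subst this
    refine ⟨0, fun x hx _ _ => ?_⟩
    simpa using hx
  | succ n ih =>
    intro j hj
    have hj4 : j / 4 < 4 ^ n := by
      rw [Nat.div_lt_iff_lt_mul (by norm_num)]; rw [pow_succ] at hj; exact hj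
    obtain ⟨b, hb⟩ := ih (j / 4) hj4
    set d := j % 4 with hd
    have hd4 : d < 4 := Nat.mod_lt _ (by norm_num)
    have hjd : (j : ℝ) = 4 * ((j / 4 : ℕ) : ℝ) + d := by
      have := Nat.div_add_mod j 4
      exact_mod_cast this.symm
    have hp : (0 : ℝ) < 4 ^ n := by positivity
    refine ⟨b + e d / 4 ^ (n + 1), fun x hx h1 h2 => ?_⟩
    rw [div_lt_iff₀ (by positivity), pow_succ] at h1
    rw [lt_div_iff₀ (by positivity), pow_succ] at h2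
    have hd0 : (0 : ℝ) ≤ d := Nat.cast_nonneg d
    have hd3 : (d : ℝ) ≤ 3 := by
      have : d ≤ 3 := by omega
      exact_mod_cast this
    have hx' := hb x hx (by rw [div_lt_iff₀ hp]; nlinarith) (by rw [lt_div_iff₀ hp]; nlinarith)
    have := K_quarter hd4 hx' (by simp only; nlinarith) (by simp only; nlinarith)
    simp only at this
    have e1 : (4 ^ (n + 1) * x.1 - (j : ℝ), 4 ^ (n + 1) * (x.2.1 - (b + e d / 4 ^ (n + 1))), x.2.2)
        = (4 * (4 ^ n * x.1 - ((j / 4 : ℕ) : ℝ)) - (d : ℝ), 4 * (4 ^ n * (x.2.1 - b)) - e d, x.2.2) := by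
      ext
      · simp only; rw [hjd, pow_succ]; ring
      · simp only; rw [pow_succ]; field_simp; ring
      · rfl
    rw [e1]; exact this

/-- near the first bridge -/
lemma near0 {x : R3} (hx : x ∈ K) (h1 : 0 < x.1) (h2 : x.1 < 1 / 2) :
    (x.1 ≤ 1 / 4 ∧ x.2.1 ≤ 1 / 12) ∨ (1 / 4 ≤ x.1 ∧ 1 / 4 ≤ x.2.1) ∨ x.2.2 = 0 := by
  have hx1 : x ∈ F Q := mem_iInter.1 hx 1
  unfold F at hx1
  simp only [mem_union, mem_image] at hx1
  rcases hx1 with (((((⟨y, hy, rfl⟩ | hx) | ⟨y, hy, rfl⟩) | hx) | ⟨y, hy, rfl⟩) | hx) | ⟨y, hy, rfl⟩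
  · left
    obtain ⟨g1, g2, g3, g4, g5, g6⟩ := hy
    simp only [psi, e0] at *
    norm_num at *
    constructor <;> linarith
  · right; right; exact hx.2.2
  · right; left
    obtain ⟨g1, g2, g3, g4, g5, g6⟩ := hy
    simp only [psi, e1] at *
    norm_num at *
    constructor <;> linarith
  · exfalso; have := hx.1; linarith
  · exfalso
    obtain ⟨g1, g2, g3, g4, g5, g6⟩ := hy
    simp only [psi, e2] at *
    norm_num at *
    linarith
  · exfalso; have := hx.1; linarith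
  · exfalso
    obtain ⟨g1, g2, g3, g4, g5, g6⟩ := hy
    simp only [psi, e3] at *
    norm_num at *
    linarith

/-- near the second bridge -/
lemma near1 {x : R3} (hx : x ∈ K) (h1 : 1 / 4 < x.1) (h2 : x.1 < 3 / 4) :
    (x.1 ≤ 1 / 2 ∧ 1 / 4 ≤ x.2.1) ∨ (1 / 2 ≤ x.1 ∧ x.2.1 ≤ 1 / 12) ∨ x.2.2 = 1 := by
  have hx1 : x ∈ F Q := mem_iInter.1 hx 1
  unfold F at hx1
  simp only [mem_union, mem_image] at hx1
  rcases hx1 with (((((⟨y, hy, rfl⟩ | hx) | ⟨y, hy, rfl⟩) | hx) | ⟨y, hy, rfl⟩) | hx) | ⟨y, hy, rfl⟩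
  · exfalso
    obtain ⟨g1, g2, g3, g4, g5, g6⟩ := hy
    simp only [psi, e0] at *
    norm_num at *
    linarith
  · exfalso; have := hx.1; linarith
  · left
    obtain ⟨g1, g2, g3, g4, g5, g6⟩ := hy
    simp only [psi, e1] at *
    norm_num at *
    constructor <;> linarith
  · right; right; exact hx.2.2
  · right; left
    obtain ⟨g1, g2, g3, g4, g5, g6⟩ := hy
    simp only [psi, e2] at *
    norm_num at *
    constructor <;> linarith
  · exfalso; have := hx.1; linarith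
  · exfalso
    obtain ⟨g1, g2, g3, g4, g5, g6⟩ := hy
    simp only [psi, e3] at *
    norm_num at *
    linarith

end Pool.Agent.V11214.Organ
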