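import Pool.Agent.V11214.Organ

set_option autoImplicit false

namespace Pool.Agent.V11214.Organ

open Set Topology Filter

/-- a continuous function passes every pair of levels: first time at the upper level, last time
before at the lower level -/
lemma cross {u : ℝ → ℝ} (hu : ContinuousOn u (Icc 0 1)) (h0 : u 0 ≤ 0) (h1 : 1 ≤ u 1)
    {α β : ℝ} (hα : 0 < α) (hαβ : α < β) (hβ : β ≤ 1) :
    ∃ a b : ℝ, 0 ≤ a ∧ a < b ∧ b ≤ 1 ∧ u a = α ∧ u b = β ∧
      (∀ t ∈ Icc a b, α ≤ u t ∧ u t ≤ β) ∧ (∀ t, 0 ≤ t → t < b → u t < β) := by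
  -- first time at level ≥ β
  have hcl : IsClosed (Icc (0:ℝ) 1 ∩ u ⁻¹' Ici β) := hu.preimage_isClosed_of_isClosed isClosed_Icc isClosed_Ici
  have hco : IsCompact (Icc (0:ℝ) 1 ∩ u ⁻¹' Ici β) := isCompact_Icc.of_isClosed_subset hcl inter_subset_left
  obtain ⟨b, hb, hbl⟩ := hco.exists_isLeast ⟨1, ⟨zero_le_one, le_rfl⟩, hβ.trans h1⟩
  have hbelow : ∀ t, 0 ≤ t → t < b → u t < β := by
    intro t ht htb
    by_contra h
    push Not at h
    exact absurd (hbl ⟨⟨ht, htb.le.trans hb.1.2⟩, h⟩) (not_le.2 htb)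
  have hb0 : 0 < b := by
    rcases hb.1.1.eq_or_lt with h | h
    · exfalso
      have := hb.2
      rw [← h] at this
      have h' : β ≤ u 0 := this
      linarith
    · exact h
  have hub : u b = β := by
    apply le_antisymm _ hb.2
    have hc : ContinuousWithinAt u (Icc 0 b) b :=
      (hu b hb.1).mono (Icc_subset_Icc_right hb.1.2)
    have hc' : Tendsto u (𝓝[Ico 0 b] b) (𝓝 (u b)) := (hc.mono Ico_subset_Icc_self)
    have hne : (𝓝[Ico 0 b] b).NeBot := by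
      rw [← mem_closure_iff_nhdsWithin_neBot, closure_Ico hb0.ne]
      exact ⟨hb0.le, le_rfl⟩
    refine le_of_tendsto hc' ?_
    filter_upwards [self_mem_nhdsWithin] with t ht
    exact (hbelow t ht.1 ht.2).le
  -- last time before b at level ≤ α
  have hub2 : ContinuousOn u (Icc 0 b) := hu.mono (Icc_subset_Icc_right hb.1.2)
  have hcl2 : IsClosed (Icc (0:ℝ) b ∩ u ⁻¹' Iic α) := hub2.preimage_isClosed_of_isClosed isClosed_Icc isClosed_Iic
  have hco2 : IsCompact (Icc (0:ℝ) b ∩ u ⁻¹' Iic α) := isCompact_Icc.of_isClosed_subset hcl2 inter_subset_left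
  obtain ⟨a, ha, hag⟩ := hco2.exists_isGreatest ⟨0, ⟨le_rfl, hb0.le⟩, h0.trans hα.le⟩
  have hau : u a ≤ α := ha.2
  have hab : a < b := by
    rcases ha.1.2.eq_or_lt with h | h
    · rw [h, hub] at hau; linarith
    · exact h
  have habove : ∀ t, a < t → t ≤ b → α < u t := by
    intro t h1 h2
    by_contra h
    push Not at h
    exact absurd (hag ⟨⟨ha.1.1.trans h1.le, h2⟩, h⟩) (not_le.2 h1)
  have hua : u a = α := by
    apply le_antisymm hau
    have hc : ContinuousWithinAt u (Icc 0 b) a := hub2 a ha.1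
    have hc' : Tendsto u (𝓝[Ioc a b] a) (𝓝 (u a)) :=
      hc.mono (fun t ht => ⟨ha.1.1.trans ht.1.le, ht.2⟩)
    have hne : (𝓝[Ioc a b] a).NeBot := by
      rw [← mem_closure_iff_nhdsWithin_neBot, closure_Ioc hab.ne]
      exact ⟨le_rfl, hab.le⟩
    refine ge_of_tendsto hc' ?_
    filter_upwards [self_mem_nhdsWithin] with t ht
    exact (habove t ht.1 ht.2).le
  refine ⟨a, b, ha.1.1, hab, hb.1.2, hua, hub, fun t ht => ⟨?_, ?_⟩, hbelow⟩
  · rcases ht.1.eq_or_lt with h | h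
    · rw [← h, hua]
    · exact (habove t h ht.2).le
  · rcases ht.2.eq_or_lt with h | h
    · rw [h, hub]
    · exact (hbelow t (ha.1.1.trans ht.1) h).le

/-- the jump lemma -/
lemma jump {X : Type*} [PseudoMetricSpace X] {g : ℝ → X} {s0 t0 : ℝ} (hst : s0 < t0)
    (hg : ContinuousOn g (Icc s0 t0)) {T : Set ℝ} (hTc : IsClosed T) {PL PR : Set X}
    (hPL : IsClosed PL) (hPR : IsClosed PR)
    (hT : ∀ t ∈ T, s0 ≤ t → t ≤ t0 → g t ∈ PL ∨ g t ∈ PR) {d : ℝ} (hd : 0 < d)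
    (h1 : ∀ x ∈ PL, ∀ y ∈ PR, d ≤ dist x y)
    (h2 : ∀ y ∈ PR, d ≤ dist (g s0) y)
    (h3 : ∀ x ∈ PL, d ≤ dist x (g t0))
    (h4 : d ≤ dist (g s0) (g t0)) :
    ∃ s t : ℝ, s0 ≤ s ∧ s < t ∧ t ≤ t0 ∧ (∀ x ∈ Ioo s t, x ∉ T) ∧ d ≤ dist (g s) (g t) := by
  have hlt : ∀ s t : ℝ, s ≤ t → d ≤ dist (g s) (g t) → s < t := by
    intro s t hs h
    rcases hs.eq_or_lt with h' | h'
    · rw [h', dist_self] at h; linarith
    · exact h'
  have cL : IsCompact ((Icc s0 t0 ∩ g ⁻¹' PL) ∩ T) :=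
    isCompact_Icc.of_isClosed_subset ((hg.preimage_isClosed_of_isClosed isClosed_Icc hPL).inter hTc)
      (fun x hx => hx.1.1)
  have cR : IsCompact ((Icc s0 t0 ∩ g ⁻¹' PR) ∩ T) :=
    isCompact_Icc.of_isClosed_subset ((hg.preimage_isClosed_of_isClosed isClosed_Icc hPR).inter hTc)
      (fun x hx => hx.1.1)
  by_cases hL : ((Icc s0 t0 ∩ g ⁻¹' PL) ∩ T).Nonempty
  · obtain ⟨t1, ht1, ht1g⟩ := cL.exists_isGreatest hL
    have cR' : IsCompact (((Icc s0 t0 ∩ g ⁻¹' PR) ∩ T) ∩ Ici t1) := cR.inter_right isClosed_Ici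
    by_cases hR : (((Icc s0 t0 ∩ g ⁻¹' PR) ∩ T) ∩ Ici t1).Nonempty
    · obtain ⟨t2, ht2, ht2l⟩ := cR'.exists_isLeast hR
      have hd' := h1 _ ht1.1.2 _ ht2.1.1.2
      refine ⟨t1, t2, ht1.1.1.1, hlt _ _ ht2.2 hd', ht2.1.1.1.2, ?_, hd'⟩
      intro x hx hxT
      have hx0 : s0 ≤ x := ht1.1.1.1.trans hx.1.le
      have hx1 : x ≤ t0 := hx.2.le.trans ht2.1.1.1.2
      rcases hT x hxT hx0 hx1 with h | h
      · exact absurd (ht1g ⟨⟨⟨hx0, hx1⟩, h⟩, hxT⟩) (not_le.2 hx.1)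
      · exact absurd (ht2l ⟨⟨⟨⟨hx0, hx1⟩, h⟩, hxT⟩, hx.1.le⟩) (not_le.2 hx.2)
    · have hd' := h3 _ ht1.1.2
      refine ⟨t1, t0, ht1.1.1.1, hlt _ _ ht1.1.1.2 hd', le_rfl, ?_, hd'⟩
      intro x hx hxT
      have hx0 : s0 ≤ x := ht1.1.1.1.trans hx.1.le
      rcases hT x hxT hx0 hx.2.le with h | h
      · exact absurd (ht1g ⟨⟨⟨hx0, hx.2.le⟩, h⟩, hxT⟩) (not_le.2 hx.1)
      · exact hR ⟨x, ⟨⟨⟨hx0, hx.2.le⟩, h⟩, hxT⟩, hx.1.le⟩
  · by_cases hR : ((Icc s0 t0 ∩ g ⁻¹' PR) ∩ T).Nonempty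
    · obtain ⟨t2, ht2, ht2l⟩ := cR.exists_isLeast hR
      have hd' := h2 _ ht2.1.2
      refine ⟨s0, t2, le_rfl, hlt _ _ ht2.1.1.1 hd', ht2.1.1.2, ?_, hd'⟩
      intro x hx hxT
      have hx1 : x ≤ t0 := hx.2.le.trans ht2.1.1.2
      rcases hT x hxT hx.1.le hx1 with h | h
      · exact hL ⟨x, ⟨⟨hx.1.le, hx1⟩, h⟩, hxT⟩
      · exact absurd (ht2l ⟨⟨⟨hx.1.le, hx1⟩, h⟩, hxT⟩) (not_le.2 hx.2)
    · refine ⟨s0, t0, le_rfl, hst, le_rfl, ?_, h4⟩
      intro x hx hxT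
      rcases hT x hxT hx.1.le hx.2.le with h | h
      · exact hL ⟨x, ⟨⟨hx.1.le, hx.2.le⟩, h⟩, hxT⟩
      · exact hR ⟨x, ⟨⟨hx.1.le, hx.2.le⟩, h⟩, hxT⟩

/-- shrinking an excursion to a closed interval inside the open one -/
lemma shrink {X : Type*} [PseudoMetricSpace X] {g : ℝ → X} {s t : ℝ} (hst : s < t)
    (hg : ContinuousOn g (Icc s t)) {d : ℝ} (hd : 0 < d) (h : d ≤ dist (g s) (g t)) :
    ∃ s' t' : ℝ, s < s' ∧ s' ≤ t' ∧ t' < t ∧ d / 2 ≤ dist (g s') (g t') := by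
  have hs : Tendsto g (𝓝[Ioo s t] s) (𝓝 (g s)) :=
    (hg s ⟨le_rfl, hst.le⟩).mono Ioo_subset_Icc_self
  have ht : Tendsto g (𝓝[Ioo s t] t) (𝓝 (g t)) :=
    (hg t ⟨hst.le, le_rfl⟩).mono Ioo_subset_Icc_self
  have hne1 : (𝓝[Ioo s t] s).NeBot := by
    rw [← mem_closure_iff_nhdsWithin_neBot, closure_Ioo hst.ne]
    exact ⟨le_rfl, hst.le⟩
  have hne2 : (𝓝[Ioo s t] t).NeBot := by
    rw [← mem_closure_iff_nhdsWithin_neBot, closure_Ioo hst.ne]
    exact ⟨hst.le, le_rfl⟩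
  have e1 : ∀ᶠ x in 𝓝[Ioo s t] s, dist (g x) (g s) < d / 4 ∧ x ∈ Ioo s t ∧ x < (s + t) / 2 := by
    have a1 : ∀ᶠ x in 𝓝[Ioo s t] s, dist (g x) (g s) < d / 4 :=
      hs.eventually (Metric.ball_mem_nhds _ (by linarith : 0 < d / 4))
    have a2 : ∀ᶠ x in 𝓝[Ioo s t] s, x < (s + t) / 2 :=
      nhdsWithin_le_nhds (Iio_mem_nhds (by linarith))
    filter_upwards [a1, self_mem_nhdsWithin, a2] with x h1 h2 h3 using ⟨h1, h2, h3⟩
  have e2 : ∀ᶠ x in 𝓝[Ioo s t] t, dist (g x) (g t) < d / 4 ∧ x ∈ Ioo s t ∧ (s + t) / 2 < x := by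
    have a1 : ∀ᶠ x in 𝓝[Ioo s t] t, dist (g x) (g t) < d / 4 :=
      ht.eventually (Metric.ball_mem_nhds _ (by linarith : 0 < d / 4))
    have a2 : ∀ᶠ x in 𝓝[Ioo s t] t, (s + t) / 2 < x :=
      nhdsWithin_le_nhds (Ioi_mem_nhds (by linarith))
    filter_upwards [a1, self_mem_nhdsWithin, a2] with x h1 h2 h3 using ⟨h1, h2, h3⟩
  obtain ⟨s', h1, h2, h3⟩ := e1.exists
  obtain ⟨t', k1, k2, k3⟩ := e2.exists
  refine ⟨s', t', h2.1, by linarith, k2.2, ?_⟩
  have a := dist_triangle (g s) (g s') (g t)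
  have b := dist_triangle (g s') (g t') (g t)
  rw [dist_comm] at h1
  linarith

/-- The set of parameters at which the curve is outside `K`. -/
def outTimes {E : Type*} (γ : ℝ → E) (K : Set E) : Set ℝ := {t | t ∈ Icc (0 : ℝ) 1 ∧ γ t ∉ K}

/-- The connected components of a set of parameters. -/
def comps (U : Set ℝ) : Set (Set ℝ) := {J | ∃ t ∈ U, J = connectedComponentIn U t}

/-- The length which the curve `γ` (defined on `[0,1]`) spends outside `K`: the sum, over the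
components `J` of `{t ∈ [0,1] | γ t ∉ K}`, of the length (total variation) of `γ` on `J`. -/
noncomputable def outLength {E : Type*} [PseudoEMetricSpace E] (γ : ℝ → E) (K : Set E) : ENNReal :=
  ∑' J : comps (outTimes γ K), eVariationOn γ (J : Set ℝ)

lemma var_ge {E : Type*} [PseudoEMetricSpace E] (γ : ℝ → E) (s t : ℕ → ℝ) (J : Set ℝ)
    (I : ℕ → Prop) [DecidablePred I] (N : ℕ)
    (hst : ∀ i < N, I i → s i ≤ t i) (hin : ∀ i < N, I i → Icc (s i) (t i) ⊆ J)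
    (hord : ∀ i j, i < j → j < N → I i → I j → t i ≤ s j) :
    ∑ i ∈ (Finset.range N).filter I, edist (γ (s i)) (γ (t i)) ≤ eVariationOn γ J := by
  have key : ∀ n ≤ N, ∑ i ∈ (Finset.range n).filter I, edist (γ (s i)) (γ (t i)) ≤
      eVariationOn γ (⋃ i ∈ {i | i < n ∧ I i}, Icc (s i) (t i)) := by
    intro n
    induction n with
    | zero => intro _; simp
    | succ n ih =>
      intro hn
      have ih' := ih (by omega)
      by_cases hI : I n
      · rw [Finset.range_add_one, Finset.filter_insert, if_pos hI, Finset.sum_insert (by simp)]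
        have hsub : (⋃ i ∈ {i | i < n ∧ I i}, Icc (s i) (t i)) ∪ Icc (s n) (t n) ⊆
            ⋃ i ∈ {i | i < n + 1 ∧ I i}, Icc (s i) (t i) := by
          apply union_subset
          · apply biUnion_subset_biUnion_left
            rintro i ⟨h1, h2⟩
            exact ⟨by omega, h2⟩
          · exact subset_biUnion_of_mem (u := fun i => Icc (s i) (t i)) (show n ∈ {i | i < n + 1 ∧ I i} from ⟨by omega, hI⟩)
        refine le_trans ?_ (eVariationOn.mono γ hsub)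
        refine le_trans ?_ (eVariationOn.add_le_union γ ?_)
        · rw [add_comm]
          apply add_le_add ih'
          exact eVariationOn.edist_le γ ⟨le_rfl, hst n (by omega) hI⟩ ⟨hst n (by omega) hI, le_rfl⟩
        · intro x hx y hy
          simp only [mem_iUnion] at hx
          obtain ⟨i, ⟨hi1, hi2⟩, hx⟩ := hx
          exact (hx.2.trans (hord i n hi1 (by omega) hi2 hI)).trans hy.1
      · rw [Finset.range_add_one, Finset.filter_insert, if_neg hI]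
        refine ih'.trans (eVariationOn.mono γ ?_)
        apply biUnion_subset_biUnion_left
        rintro i ⟨h1, h2⟩
        exact ⟨by omega, h2⟩
  refine (key N le_rfl).trans (eVariationOn.mono γ ?_)
  simp only [iUnion_subset_iff]
  rintro i ⟨h1, h2⟩
  exact hin i h1 h2

lemma outLength_ge {E : Type*} [PseudoEMetricSpace E] (γ : ℝ → E) (K : Set E) (s t : ℕ → ℝ)
    (I : Finset ℕ)
    (hst : ∀ i ∈ I, s i ≤ t i) (hin : ∀ i ∈ I, Icc (s i) (t i) ⊆ outTimes γ K)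
    (hord : ∀ i j, i < j → i ∈ I → j ∈ I → t i ≤ s j) :
    ∑ i ∈ I, edist (γ (s i)) (γ (t i)) ≤ outLength γ K := by
  classical
  set U := outTimes γ K with hU
  set N := I.sup id + 1 with hN
  have hIN : ∀ i ∈ I, i < N := fun i hi => by
    have := Finset.le_sup (f := id) hi
    simp only [id] at this
    omega
  -- the component of the i-th interval
  let c : ℕ → Set ℝ := fun i => connectedComponentIn U (s i)
  have hc : ∀ i ∈ I, Icc (s i) (t i) ⊆ c i := fun i hi =>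
    isPreconnected_Icc.subset_connectedComponentIn ⟨le_rfl, hst i hi⟩ (hin i hi)
  have hcm : ∀ i ∈ I, c i ∈ comps U := fun i hi => ⟨s i, hin i hi ⟨le_rfl, hst i hi⟩, rfl⟩
  have h1 : ∑ i ∈ I, edist (γ (s i)) (γ (t i)) =
      ∑ J ∈ I.image c, ∑ i ∈ I.filter (fun i => c i = J), edist (γ (s i)) (γ (t i)) := by
    rw [Finset.sum_fiberwise_of_maps_to (fun i hi => Finset.mem_image_of_mem c hi)]
  rw [h1]
  have h2 : ∀ J ∈ I.image c, ∑ i ∈ I.filter (fun i => c i = J), edist (γ (s i)) (γ (t i)) ≤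
      eVariationOn γ J := by
    intro J hJ
    have := var_ge γ s t J (fun i => i ∈ I ∧ c i = J) N (fun i _ hi => hst i hi.1)
      (fun i _ hi => by have := hc i hi.1; rw [hi.2] at this; exact this)
      (fun i j hij _ hi hj => hord i j hij hi.1 hj.1)
    refine le_trans (le_of_eq ?_) this
    apply Finset.sum_congr _ (fun _ _ => rfl)
    ext i
    simp only [Finset.mem_filter, Finset.mem_range]
    constructor
    · rintro ⟨h1, h2⟩; exact ⟨hIN i h1, h1, h2⟩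
    · rintro ⟨_, h1, h2⟩; exact ⟨h1, h2⟩
  refine (Finset.sum_le_sum h2).trans ?_
  unfold outLength
  let f : comps U → ENNReal := fun J => eVariationOn γ (J : Set ℝ)
  have hmem : ∀ J ∈ I.image c, J ∈ comps U := by
    intro J hJ
    obtain ⟨i, hi, rfl⟩ := Finset.mem_image.1 hJ
    exact hcm i hi
  have h3 : ∑ J ∈ I.image c, eVariationOn γ J = ∑ J ∈ (I.image c).attach, f ⟨J.1, hmem J.1 J.2⟩ := by
    rw [← Finset.sum_attach]
  rw [h3]
  have h4 : ∑ J ∈ (I.image c).attach, f ⟨J.1, hmem J.1 J.2⟩ =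
      ∑ J ∈ (I.image c).attach.image (fun J => (⟨J.1, hmem J.1 J.2⟩ : comps U)), f J := by
    rw [Finset.sum_image]
    rintro ⟨J, hJ⟩ _ ⟨J', hJ'⟩ _ h
    simp only [Subtype.mk.injEq] at h
    subst h; rfl
  rw [h4]
  exact ENNReal.sum_le_tsum _

end Pool.Agent.V11214.Organ
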