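import Pool.Agent.V11214.Organ2

set_option autoImplicit false

namespace Pool.Agent.V11214.Organ

open Set Topology Filter

lemma cl1 (a c : ℝ) : IsClosed {x : R3 | x.1 ≤ a ∧ c ≤ x.2.1} := by
  have : {x : R3 | x.1 ≤ a ∧ c ≤ x.2.1} = {x | x.1 ≤ a} ∩ {x | c ≤ x.2.1} := by ext; rfl
  rw [this]
  exact (isClosed_le (by fun_prop) (by fun_prop)).inter (isClosed_le (by fun_prop) (by fun_prop))

lemma cl2 (a c : ℝ) : IsClosed {x : R3 | a ≤ x.1 ∧ x.2.1 ≤ c} := by
  have : {x : R3 | a ≤ x.1 ∧ x.2.1 ≤ c} = {x | a ≤ x.1} ∩ {x | x.2.1 ≤ c} := by ext; rfl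
  rw [this]
  exact (isClosed_le (by fun_prop) (by fun_prop)).inter (isClosed_le (by fun_prop) (by fun_prop))

lemma cl3 (a c : ℝ) : IsClosed {x : R3 | x.1 ≤ a ∧ x.2.1 ≤ c} := by
  have : {x : R3 | x.1 ≤ a ∧ x.2.1 ≤ c} = {x | x.1 ≤ a} ∩ {x | x.2.1 ≤ c} := by ext; rfl
  rw [this]
  exact (isClosed_le (by fun_prop) (by fun_prop)).inter (isClosed_le (by fun_prop) (by fun_prop))

lemma cl4 (a c : ℝ) : IsClosed {x : R3 | a ≤ x.1 ∧ c ≤ x.2.1} := by
  have : {x : R3 | a ≤ x.1 ∧ c ≤ x.2.1} = {x | a ≤ x.1} ∩ {x | c ≤ x.2.1} := by ext; rfl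
  rw [this]
  exact (isClosed_le (by fun_prop) (by fun_prop)).inter (isClosed_le (by fun_prop) (by fun_prop))

/-- the main estimate, for an arbitrary metric space with three coordinates -/
theorem main {E : Type*} [PseudoMetricSpace E] (Φ : E → R3) (hΦ : ∀ x y, dist (Φ x) (Φ y) ≤ dist x y)
    (K' : Set E) (hK'c : IsClosed K') (hK' : ∀ x ∈ K', Φ x ∈ K) (γ : ℝ → E)
    (hγ : ContinuousOn γ (Icc 0 1)) (h0 : (Φ (γ 0)).1 = 0) (h1 : (Φ (γ 1)).1 = 1) :
    ENNReal.ofReal (1 / 32) ≤ outLength γ K' := by
  classical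
  have hΦc : Continuous Φ := (LipschitzWith.of_dist_le_mul (K := 1) (by simpa using hΦ)).continuous
  set g : ℝ → R3 := fun t => Φ (γ t) with hg
  have hgc : ContinuousOn g (Icc 0 1) := hΦc.comp_continuousOn hγ
  have huc : ContinuousOn (fun t => (g t).1) (Icc 0 1) := continuous_fst.comp_continuousOn hgc
  have hzc : ContinuousOn (fun t => (g t).2.2) (Icc 0 1) :=
    (continuous_snd.comp continuous_snd).comp_continuousOn hgc
  -- the times in K'
  set T : Set ℝ := Icc 0 1 ∩ γ ⁻¹' K' with hTdef
  have hTc : IsClosed T := hγ.preimage_isClosed_of_isClosed isClosed_Icc hK'c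
  -- uniform continuity of the height
  obtain ⟨δ, hδ, hunif⟩ : ∃ δ > 0, ∀ s ∈ Icc (0:ℝ) 1, ∀ t ∈ Icc (0:ℝ) 1, |s - t| < δ →
      |(g s).2.2 - (g t).2.2| < 1 := by
    have := isCompact_Icc.uniformContinuousOn_of_continuous hzc
    rw [Metric.uniformContinuousOn_iff] at this
    obtain ⟨δ, hδ, h⟩ := this 1 one_pos
    exact ⟨δ, hδ, fun s hs t ht hst => h s hs t ht hst⟩
  -- the level
  obtain ⟨n, hn⟩ : ∃ n : ℕ, 2 / δ < (4:ℝ) ^ n := pow_unbounded_of_one_lt _ (by norm_num)
  set M : ℕ := 4 ^ n with hM
  have hMr : ((M : ℕ) : ℝ) = 4 ^ n := by rw [hM]; push_cast; rfl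
  have hM0 : (0 : ℝ) < 4 ^ n := by positivity
  set r : ℝ := 1 / 4 ^ n with hr
  have hr0 : 0 < r := by positivity
  have hrM : r * 4 ^ n = 1 := by rw [hr]; field_simp
  -- crossing times
  have hcr0 : ∀ j : ℕ, ∃ ab : ℝ × ℝ, j < M → (0 ≤ ab.1 ∧ ab.1 < ab.2 ∧ ab.2 ≤ 1 ∧
      (g ab.1).1 = (j + 1/8) * r ∧ (g ab.2).1 = (j + 3/8) * r ∧
      (∀ t ∈ Icc ab.1 ab.2, (j + 1/8) * r ≤ (g t).1 ∧ (g t).1 ≤ (j + 3/8) * r) ∧
      (∀ t, 0 ≤ t → t < ab.2 → (g t).1 < (j + 3/8) * r)) := by
    intro j
    by_cases hj : j < M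
    · have hj' : (j : ℝ) + 1 ≤ 4 ^ n := by rw [← hMr]; exact_mod_cast hj
      have hj0 : (0:ℝ) ≤ j := Nat.cast_nonneg j
      obtain ⟨a, b, h⟩ := cross huc h0.le h1.ge (α := (j + 1/8) * r) (β := (j + 3/8) * r)
        (by positivity) (by nlinarith) (by nlinarith)
      exact ⟨(a, b), fun _ => h⟩
    · exact ⟨(0, 0), fun h => absurd h hj⟩
  have hcr1 : ∀ j : ℕ, ∃ ab : ℝ × ℝ, j < M → (0 ≤ ab.1 ∧ ab.1 < ab.2 ∧ ab.2 ≤ 1 ∧
      (g ab.1).1 = (j + 3/8) * r ∧ (g ab.2).1 = (j + 5/8) * r ∧
      (∀ t ∈ Icc ab.1 ab.2, (j + 3/8) * r ≤ (g t).1 ∧ (g t).1 ≤ (j + 5/8) * r) ∧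
      (∀ t, 0 ≤ t → t < ab.2 → (g t).1 < (j + 5/8) * r)) := by
    intro j
    by_cases hj : j < M
    · have hj' : (j : ℝ) + 1 ≤ 4 ^ n := by rw [← hMr]; exact_mod_cast hj
      have hj0 : (0:ℝ) ≤ j := Nat.cast_nonneg j
      obtain ⟨a, b, h⟩ := cross huc h0.le h1.ge (α := (j + 3/8) * r) (β := (j + 5/8) * r)
        (by positivity) (by nlinarith) (by nlinarith)
      exact ⟨(a, b), fun _ => h⟩
    · exact ⟨(0, 0), fun h => absurd h hj⟩
  choose P hP using hcr0
  choose P' hP' using hcr1
  have ho1 : ∀ j < M, (P j).2 ≤ (P' j).1 := by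
    intro j hj
    by_contra h
    push Not at h
    have a := (hP j hj).2.2.2.2.2.2 _ (hP' j hj).1 h
    have b := (hP' j hj).2.2.2.1
    linarith
  have ho2 : ∀ i j, i < j → j < M → (P' i).2 ≤ (P j).1 := by
    intro i j hij hj
    by_contra h
    push Not at h
    have a := (hP' i (hij.trans hj)).2.2.2.2.2.2 _ (hP j hj).1 h
    have b := (hP j hj).2.2.2.1
    have c : (i : ℝ) + 1 ≤ j := by exact_mod_cast hij
    nlinarith
  -- at each cell either the height oscillates or there is a jump
  have hcell : ∀ j < M, δ ≤ (P' j).2 - (P j).1 ∨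
      ∃ s t : ℝ, (P j).1 ≤ s ∧ s < t ∧ t ≤ (P' j).2 ∧ (∀ x ∈ Ioo s t, x ∉ T) ∧
        r / 8 ≤ dist (γ s) (γ t) := by
    intro j hj
    obtain ⟨b, hb⟩ := cell n j hj
    obtain ⟨p1, p2, p3, p4, p5, p6, p7⟩ := hP j hj
    obtain ⟨q1, q2, q3, q4, q5, q6, q7⟩ := hP' j hj
    have hpq := ho1 j hj
    by_cases hz0 : ∃ t ∈ Icc (P j).1 (P j).2, (g t).2.2 = 0
    · by_cases hz1 : ∃ t ∈ Icc (P' j).1 (P' j).2, (g t).2.2 = 1
      · left
        obtain ⟨t, ht, hzt⟩ := hz0
        obtain ⟨t', ht', hzt'⟩ := hz1
        by_contra hlt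
        push Not at hlt
        have hab : |t - t'| < δ := by
          rw [abs_sub_comm, abs_of_nonneg (by linarith [ht.2, ht'.1])]
          linarith [ht.1, ht'.2]
        have := hunif t ⟨by linarith [ht.1], by linarith [ht.2]⟩ t' ⟨by linarith [ht'.1], by linarith [ht'.2]⟩ hab
        rw [hzt, hzt'] at this
        norm_num at this
      · right
        push Not at hz1
        have hgc' : ContinuousOn g (Icc (P' j).1 (P' j).2) := hgc.mono (Icc_subset_Icc q1 q3)
        obtain ⟨s, t, h1, h2, h3, h4, h5⟩ := jump (g := g) q2 hgc' hTc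
          (PL := {x : R3 | x.1 ≤ (j + 1/2) * r ∧ b + r / 4 ≤ x.2.1})
          (PR := {x : R3 | (j + 1/2) * r ≤ x.1 ∧ x.2.1 ≤ b + r / 12})
          (cl1 _ _)
          (cl2 _ _)
          (d := r / 8) (by
            intro t ht ht1 ht2
            have hu := q6 t ⟨ht1, ht2⟩
            have hK1 : g t ∈ K := hK' _ ht.2
            have hx := hb (g t) hK1 (by rw [div_lt_iff₀ hM0]; nlinarith [hu.1]) (by rw [lt_div_iff₀ hM0]; nlinarith [hu.2])
            have e1 : (g t).1 = r * (4 ^ n * (g t).1) := by
              rw [← mul_assoc, hrM, one_mul]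
            have hu1 := mul_le_mul_of_nonneg_right hu.1 hM0.le
            have hu2 := mul_le_mul_of_nonneg_right hu.2 hM0.le
            rw [mul_assoc, hrM, mul_one] at hu1 hu2
            rcases near1 hx (by simp only; linarith) (by simp only; linarith) with h | h | h
            · left
              simp only at h
              constructor
              · show (g t).1 ≤ _
                rw [e1]; nlinarith [h.1]
              · show b + r / 4 ≤ (g t).2.1
                have : r * (1 / 4) ≤ r * (4 ^ n * ((g t).2.1 - b)) := mul_le_mul_of_nonneg_left h.2 hr0.le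
                rw [← mul_assoc, hrM, one_mul] at this
                linarith
            · right
              simp only at h
              constructor
              · show _ ≤ (g t).1
                rw [e1]; nlinarith [h.1]
              · show (g t).2.1 ≤ b + r / 12
                have : r * (4 ^ n * ((g t).2.1 - b)) ≤ r * (1 / 12) := mul_le_mul_of_nonneg_left h.2 hr0.le
                rw [← mul_assoc, hrM, one_mul] at this
                linarith
            · exact absurd h (hz1 t ⟨ht1, ht2⟩)) (by positivity)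
          (by
            intro x hx y hy
            have : dist x.2.1 y.2.1 ≤ dist x y := (le_max_left _ _).trans (le_max_right _ _)
            refine le_trans ?_ this
            rw [Real.dist_eq]
            refine le_trans ?_ (le_abs_self _)
            linarith [hx.2, hy.2])
          (by
            intro y hy
            have : dist (g (P' j).1).1 y.1 ≤ dist (g (P' j).1) y := le_max_left _ _
            refine le_trans ?_ this
            rw [Real.dist_eq, abs_sub_comm]
            refine le_trans ?_ (le_abs_self _)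
            rw [q4]
            linarith [hy.1])
          (by
            intro y hy
            have : dist y.1 (g (P' j).2).1 ≤ dist y (g (P' j).2) := le_max_left _ _
            refine le_trans ?_ this
            rw [Real.dist_eq, abs_sub_comm]
            refine le_trans ?_ (le_abs_self _)
            rw [q5]
            linarith [hy.1])
          (by
            have : dist (g (P' j).1).1 (g (P' j).2).1 ≤ dist (g (P' j).1) (g (P' j).2) := le_max_left _ _
            refine le_trans ?_ this
            rw [Real.dist_eq, abs_sub_comm]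
            refine le_trans ?_ (le_abs_self _)
            rw [q4, q5]
            linarith)
        exact ⟨s, t, by linarith, h2, h3, h4, h5.trans (hΦ _ _)⟩
    · right
      push Not at hz0
      have hgc' : ContinuousOn g (Icc (P j).1 (P j).2) := hgc.mono (Icc_subset_Icc p1 p3)
      obtain ⟨s, t, h1, h2, h3, h4, h5⟩ := jump (g := g) p2 hgc' hTc
        (PL := {x : R3 | x.1 ≤ (j + 1/4) * r ∧ x.2.1 ≤ b + r / 12})
        (PR := {x : R3 | (j + 1/4) * r ≤ x.1 ∧ b + r / 4 ≤ x.2.1})
        (cl3 _ _)
        (cl4 _ _)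
        (d := r / 8) (by
          intro t ht ht1 ht2
          have hu := p6 t ⟨ht1, ht2⟩
          have hK1 : g t ∈ K := hK' _ ht.2
          have hx := hb (g t) hK1 (by rw [div_lt_iff₀ hM0]; nlinarith [hu.1]) (by rw [lt_div_iff₀ hM0]; nlinarith [hu.2])
          have e1 : (g t).1 = r * (4 ^ n * (g t).1) := by
            rw [← mul_assoc, hrM, one_mul]
          have hu1 := mul_le_mul_of_nonneg_right hu.1 hM0.le
          have hu2 := mul_le_mul_of_nonneg_right hu.2 hM0.le
          rw [mul_assoc, hrM, mul_one] at hu1 hu2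
          rcases near0 hx (by simp only; linarith) (by simp only; linarith) with h | h | h
          · left
            simp only at h
            constructor
            · show (g t).1 ≤ _
              rw [e1]; nlinarith [h.1]
            · show (g t).2.1 ≤ b + r / 12
              have : r * (4 ^ n * ((g t).2.1 - b)) ≤ r * (1 / 12) := mul_le_mul_of_nonneg_left h.2 hr0.le
              rw [← mul_assoc, hrM, one_mul] at this
              linarith
          · right
            simp only at h
            constructor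
            · show _ ≤ (g t).1
              rw [e1]; nlinarith [h.1]
            · show b + r / 4 ≤ (g t).2.1
              have : r * (1 / 4) ≤ r * (4 ^ n * ((g t).2.1 - b)) := mul_le_mul_of_nonneg_left h.2 hr0.le
              rw [← mul_assoc, hrM, one_mul] at this
              linarith
          · exact absurd h (hz0 t ⟨ht1, ht2⟩)) (by positivity)
        (by
          intro x hx y hy
          have : dist x.2.1 y.2.1 ≤ dist x y := (le_max_left _ _).trans (le_max_right _ _)
          refine le_trans ?_ this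
          rw [Real.dist_eq, abs_sub_comm]
          refine le_trans ?_ (le_abs_self _)
          linarith [hx.2, hy.2])
        (by
          intro y hy
          have : dist (g (P j).1).1 y.1 ≤ dist (g (P j).1) y := le_max_left _ _
          refine le_trans ?_ this
          rw [Real.dist_eq, abs_sub_comm]
          refine le_trans ?_ (le_abs_self _)
          rw [p4]
          linarith [hy.1])
        (by
          intro y hy
          have : dist y.1 (g (P j).2).1 ≤ dist y (g (P j).2) := le_max_left _ _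
          refine le_trans ?_ this
          rw [Real.dist_eq, abs_sub_comm]
          refine le_trans ?_ (le_abs_self _)
          rw [p5]
          linarith [hy.1])
        (by
          have : dist (g (P j).1).1 (g (P j).2).1 ≤ dist (g (P j).1) (g (P j).2) := le_max_left _ _
          refine le_trans ?_ this
          rw [Real.dist_eq, abs_sub_comm]
          refine le_trans ?_ (le_abs_self _)
          rw [p4, p5]
          linarith)
      exact ⟨s, t, h1, h2, by linarith, h4, h5.trans (hΦ _ _)⟩
  -- the cells without a jump are few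
  set A : Finset ℕ := (Finset.range M).filter (fun j => δ ≤ (P' j).2 - (P j).1) with hA
  have hsum : ∀ m ≤ M, ∀ x : ℝ, 0 ≤ x → (∀ j < m, (P' j).2 ≤ x) →
      ∑ j ∈ Finset.range m, ((P' j).2 - (P j).1) ≤ x := by
    intro m
    induction m with
    | zero => intro _ x hx _; simpa using hx
    | succ m ih =>
      intro hm x hx h
      rw [Finset.sum_range_succ]
      have := ih (by omega) (P m).1 (hP m (by omega)).1 (fun j hj => ho2 j m hj (by omega))
      have := h m (by omega)
      linarith
  have hAcard : (A.card : ℝ) * δ ≤ 1 := by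
    have e1 : (A.card : ℝ) * δ = ∑ j ∈ A, δ := by rw [Finset.sum_const, nsmul_eq_mul]
    rw [e1]
    calc ∑ j ∈ A, δ ≤ ∑ j ∈ A, ((P' j).2 - (P j).1) :=
          Finset.sum_le_sum fun j hj => (Finset.mem_filter.1 hj).2
      _ ≤ ∑ j ∈ Finset.range M, ((P' j).2 - (P j).1) := by
          apply Finset.sum_le_sum_of_subset_of_nonneg (Finset.filter_subset _ _)
          intro j hj _
          have hj' := Finset.mem_range.1 hj
          have a := (hP j hj').2.1
          have b := ho1 j hj'
          have c := (hP' j hj').2.1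
          linarith
      _ ≤ 1 := hsum M le_rfl 1 zero_le_one (fun j hj => (hP' j hj).2.2.1)
  set I : Finset ℕ := (Finset.range M).filter (fun j => ¬ δ ≤ (P' j).2 - (P j).1) with hI
  have hIcard : (4:ℝ) ^ n / 2 ≤ I.card := by
    have e1 : A.card + I.card = M := by
      rw [hA, hI, Finset.card_filter_add_card_filter_not, Finset.card_range]
    have e2 : (A.card : ℝ) + I.card = 4 ^ n := by rw [← hMr]; exact_mod_cast e1
    have e3 : (A.card : ℝ) ≤ 4 ^ n / 2 := by
      have : (A.card : ℝ) ≤ 1 / δ := by rw [le_div_iff₀ hδ]; exact hAcard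
      have h2 : 2 / δ = 2 * (1 / δ) := by ring
      rw [h2] at hn
      linarith
    linarith
  -- shrunk excursions
  have hex : ∀ j : ℕ, ∃ st : ℝ × ℝ, j ∈ I → ((P j).1 ≤ st.1 ∧ st.1 ≤ st.2 ∧ st.2 ≤ (P' j).2 ∧
      Icc st.1 st.2 ⊆ outTimes γ K' ∧ r / 16 ≤ dist (γ st.1) (γ st.2)) := by
    intro j
    by_cases hj : j ∈ I
    · have hj1 := Finset.mem_range.1 (Finset.mem_filter.1 hj).1
      have hj2 := (Finset.mem_filter.1 hj).2
      rcases hcell j hj1 with h | ⟨s, t, g1, g2, g3, g4, g5⟩
      · exact absurd h hj2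
      · have hs0 : 0 ≤ s := (hP j hj1).1.trans g1
        have ht1 : t ≤ 1 := g3.trans (hP' j hj1).2.2.1
        obtain ⟨s', t', k1, k2, k3, k4⟩ := shrink g2 (hγ.mono (Icc_subset_Icc hs0 ht1))
          (by positivity : 0 < r / 8) g5
        refine ⟨(s', t'), fun _ => ⟨by simp only; linarith, k2, by simp only; linarith, ?_, ?_⟩⟩
        · intro x hx
          have hx1 : x ∈ Icc (0:ℝ) 1 := ⟨by linarith [hx.1], by linarith [hx.2]⟩
          refine ⟨hx1, fun hxK => g4 x ⟨by linarith [hx.1], by linarith [hx.2]⟩ ⟨hx1, hxK⟩⟩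
        · simp only; linarith
    · exact ⟨(0, 0), fun h => absurd h hj⟩
  choose S hS using hex
  have hfin := outLength_ge γ K' (fun j => (S j).1) (fun j => (S j).2) I
    (fun j hj => (hS j hj).2.1) (fun j hj => (hS j hj).2.2.2.1)
    (by
      intro i j hij hi hj
      have hj1 := Finset.mem_range.1 (Finset.mem_filter.1 hj).1
      exact ((hS i hi).2.2.1.trans (ho2 i j hij hj1)).trans (hS j hj).1)
  refine le_trans ?_ hfin
  calc ENNReal.ofReal (1 / 32) ≤ ENNReal.ofReal (∑ j ∈ I, (r / 16)) := by
        apply ENNReal.ofReal_le_ofReal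
        rw [Finset.sum_const, nsmul_eq_mul]
        have : (4:ℝ) ^ n / 2 * (r / 16) ≤ I.card * (r / 16) :=
          mul_le_mul_of_nonneg_right hIcard (by positivity)
        have e : (4:ℝ) ^ n / 2 * (r / 16) = (r * 4 ^ n) / 32 := by ring
        rw [e, hrM] at this
        exact this
    _ = ∑ j ∈ I, ENNReal.ofReal (r / 16) := by
        rw [ENNReal.ofReal_sum_of_nonneg]
        intro j _; positivity
    _ ≤ ∑ j ∈ I, edist (γ (S j).1) (γ (S j).2) := by
        apply Finset.sum_le_sum
        intro j hj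
        rw [edist_dist]
        exact ENNReal.ofReal_le_ofReal (hS j hj).2.2.2.2

end Pool.Agent.V11214.Organ
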