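import Pool.Agent.V11214.Remet

set_option autoImplicit false

namespace Pool.Agent.V11214.Semi

open Set Metric Real

/-- the circle -/
abbrev T : Type := ↥(sphere (0:ℂ) 1)

/-- the covering map -/
noncomputable def e (s : ℝ) : T :=
  ⟨Complex.exp ((2 * π * s : ℝ) * Complex.I), by
    rw [mem_sphere_zero_iff_norm, Complex.norm_exp_ofReal_mul_I]⟩

lemma continuous_e : Continuous e := by
  unfold e
  fun_prop

lemma e_eq_iff (s t : ℝ) : e s = e t ↔ ∃ n : ℤ, s = t + n := by
  unfold e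
  rw [Subtype.mk.injEq, Complex.exp_eq_exp_iff_exists_int]
  constructor
  · rintro ⟨n, hn⟩
    refine ⟨n, ?_⟩
    have h1 : ((2 * π * s : ℝ) : ℂ) * Complex.I = ((2 * π * t + n * (2 * π) : ℝ) : ℂ) * Complex.I := by
      rw [hn]; push_cast; ring
    have h2 := mul_right_cancel₀ Complex.I_ne_zero h1
    have h3 : 2 * π * s = 2 * π * t + n * (2 * π) := by exact_mod_cast h2
    have hpi := pi_pos
    have h4 : 2 * π * (s - (t + n)) = 0 := by linarith
    rcases mul_eq_zero.1 h4 with h5 | h5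
    · exfalso; linarith
    · linarith
  · rintro ⟨n, rfl⟩
    refine ⟨n, ?_⟩
    push_cast; ring

/-- the dodging point -/
noncomputable def dodge (s : ℝ) : ℝ := max 0 (s - 7/8)

lemma continuous_dodge : Continuous dodge := by unfold dodge; fun_prop

noncomputable def N : Set (T × T) := (fun s : ℝ => (e s, e (dodge s))) '' Icc (1/4) (5/4)

lemma compact_N : IsCompact N :=
  isCompact_Icc.image (continuous_e.prodMk (continuous_e.comp continuous_dodge))

lemma connected_N : IsConnected N :=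
  (isConnected_Icc (by norm_num)).image _
    (continuous_e.prodMk (continuous_e.comp continuous_dodge)).continuousOn

lemma dodge_bounds {s : ℝ} (h1 : 1/4 ≤ s) (h2 : s ≤ 5/4) : 0 ≤ dodge s ∧ dodge s ≤ 3/8 ∧
    1/4 ≤ s - dodge s ∧ s - dodge s ≤ 7/8 := by
  unfold dodge
  rcases le_total 0 (s - 7/8) with h | h
  · rw [max_eq_right h]; refine ⟨?_, ?_, ?_, ?_⟩ <;> linarith
  · rw [max_eq_left h]; refine ⟨?_, ?_, ?_, ?_⟩ <;> linarith

lemma diag_N (x : T) : (x, x) ∉ N := by
  rintro ⟨s, ⟨h1, h2⟩, h3⟩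
  have hx := congrArg Prod.fst h3
  have hy := congrArg Prod.snd h3
  simp only at hx hy
  have : e s = e (dodge s) := hx.trans hy.symm
  obtain ⟨n, hn⟩ := (e_eq_iff _ _).1 this
  obtain ⟨_, _, h4, h5⟩ := dodge_bounds h1 h2
  have h6 : (0:ℝ) < n := by linarith
  have h7 : (n:ℝ) < 1 := by linarith
  have h8 : (0:ℤ) < n := by exact_mod_cast h6
  have h9 : n < 1 := by exact_mod_cast h7
  omega

lemma disjoint_N : Disjoint N (Prod.swap '' N) := by
  rw [Set.disjoint_left]
  rintro _ ⟨s, ⟨h1, h2⟩, rfl⟩ ⟨_, ⟨t, ⟨h3, h4⟩, rfl⟩, h5⟩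
  have ha := congrArg Prod.fst h5
  have hb := congrArg Prod.snd h5
  simp only [Prod.fst_swap, Prod.snd_swap] at ha hb
  -- e (dodge t) = e s, e t = e (dodge s)
  obtain ⟨n, hn⟩ := (e_eq_iff _ _).1 ha
  obtain ⟨k, hk⟩ := (e_eq_iff _ _).1 hb
  obtain ⟨a1, a2, a3, a4⟩ := dodge_bounds h1 h2
  obtain ⟨b1, b2, b3, b4⟩ := dodge_bounds h3 h4
  have hn1 : (n:ℝ) < 1 := by linarith
  have hn2 : (-2:ℝ) < n := by linarith
  have hk1 : (k:ℝ) < 2 := by linarith
  have hk2 : (-1:ℝ) < k := by linarith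
  have hn1' : n < 1 := by exact_mod_cast hn1
  have hn2' : -2 < n := by exact_mod_cast hn2
  have hk1' : k < 2 := by exact_mod_cast hk1
  have hk2' : -1 < k := by exact_mod_cast hk2
  have hn3 : n = 0 ∨ n = -1 := by omega
  have hk3 : k = 0 ∨ k = 1 := by omega
  unfold dodge at *
  rcases le_total 0 (s - 7/8) with hs | hs <;> rcases le_total 0 (t - 7/8) with ht | ht
  all_goals
    first
      | rw [max_eq_right hs] at *
      | rw [max_eq_left hs] at *
  all_goals
    first
      | rw [max_eq_right ht] at *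
      | rw [max_eq_left ht] at *
  all_goals
    rcases hn3 with rfl | rfl <;> rcases hk3 with rfl | rfl <;> push_cast at * <;> linarith

end Pool.Agent.V11214.Semi
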