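import Pool.Agent.V11214.SepBaire

set_option autoImplicit false

namespace Pool.Agent.V11214.Sep

open Set Topology Filter

/-! ### a tree of functions representing an iterated limit -/

/-- every function of class `m` comes from a tree -/
lemma exists_tree {Z : Type*} [TopologicalSpace Z] (m : ℕ) {φ : Z → ℝ} (h : BC m φ) :
    ∃ ψ : List ℕ → Z → ℝ, ψ [] = φ ∧
      (∀ l : List ℕ, l.length < m → ∀ z, Tendsto (fun k => ψ (l ++ [k]) z) atTop (𝓝 (ψ l z))) ∧
      (∀ l : List ℕ, l.length = m → Continuous (ψ l)) := by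
  induction m generalizing φ with
  | zero =>
    refine ⟨fun _ => φ, rfl, fun l hl => absurd hl (by omega), fun l _ => h⟩
  | succ m ih =>
    obtain ⟨g, hg, hlim⟩ := h
    choose ψ h1 h2 h3 using fun j => ih (hg j)
    refine ⟨fun l => match l with
      | [] => φ
      | k :: l => ψ k l, rfl, ?_, ?_⟩
    · rintro (_ | ⟨k, l⟩) hl z
      · simp only [List.nil_append]
        have : (fun k => ψ k [] z) = fun k => g k z := by ext k; rw [h1]
        rw [this]; exact hlim z
      · simp only [List.cons_append]
        exact h2 k l (by simpa using hl) z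
    · rintro (_ | ⟨k, l⟩) hl
      · simp at hl
      · exact h3 k l (by simpa using hl)

/-! ### sorting the finite entries -/

/-- the multiset of the finite entries -/
def ms {m : ℕ} (k : Fin m → Option ℕ) : Multiset ℕ := (Finset.univ : Finset (Fin m)).val.filterMap k

/-- the finite entries except the one at `l` -/
def ms' {m : ℕ} (k : Fin m → Option ℕ) (l : Fin m) : Multiset ℕ :=
  ((Finset.univ : Finset (Fin m)).erase l).val.filterMap k

lemma filterMap_congr' {α β : Type*} (s : Multiset α) {f g : α → Option β} (h : ∀ a ∈ s, f a = g a) :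
    s.filterMap f = s.filterMap g := by
  induction s using Multiset.induction_on with
  | empty => rfl
  | cons a s ih =>
    have ih' := ih fun b hb => h b (Multiset.mem_cons_of_mem hb)
    have ha := h a (Multiset.mem_cons_self a s)
    cases hf : f a with
    | none =>
      rw [Multiset.filterMap_cons_none _ _ hf, Multiset.filterMap_cons_none _ _ (ha ▸ hf), ih']
    | some b =>
      rw [Multiset.filterMap_cons_some _ _ _ hf, Multiset.filterMap_cons_some _ _ _ (ha ▸ hf), ih']

lemma ms_update_some {m : ℕ} (k : Fin m → Option ℕ) (l : Fin m) (j : ℕ) :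
    ms (Function.update k l (some j)) = j ::ₘ ms' k l := by
  unfold ms ms'
  conv_lhs => rw [← Finset.insert_erase (Finset.mem_univ l)]
  rw [Finset.insert_val_of_notMem (by simp), Multiset.filterMap_cons_some _ _ _ (b := j) (by simp)]
  congr 1
  apply filterMap_congr'
  intro a ha
  have : a ≠ l := by
    rintro rfl
    rw [Finset.mem_val] at ha
    exact Finset.notMem_erase _ _ ha
  rw [Function.update_of_ne this]

lemma ms_update_none {m : ℕ} (k : Fin m → Option ℕ) (l : Fin m) :
    ms (Function.update k l none) = ms' k l := by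
  unfold ms ms'
  conv_lhs => rw [← Finset.insert_erase (Finset.mem_univ l)]
  rw [Finset.insert_val_of_notMem (by simp), Multiset.filterMap_cons_none _ _ (by simp)]
  apply filterMap_congr'
  intro a ha
  have : a ≠ l := by
    rintro rfl
    rw [Finset.mem_val] at ha
    exact Finset.notMem_erase _ _ ha
  rw [Function.update_of_ne this]

lemma card_filterMap_le {α β : Type*} (s : Multiset α) (f : α → Option β) :
    Multiset.card (s.filterMap f) ≤ Multiset.card s := by
  induction s using Multiset.induction_on with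
  | empty => simp
  | cons a s ih =>
    cases hf : f a with
    | none => rw [Multiset.filterMap_cons_none _ _ hf]; simp; omega
    | some b => rw [Multiset.filterMap_cons_some _ _ _ hf]; simp; omega

lemma card_ms' {m : ℕ} (k : Fin m → Option ℕ) (l : Fin m) : Multiset.card (ms' k l) < m := by
  unfold ms'
  refine lt_of_le_of_lt (card_filterMap_le _ _) ?_
  have : Multiset.card ((Finset.univ : Finset (Fin m)).erase l).val =
      ((Finset.univ : Finset (Fin m)).erase l).card := rfl
  rw [this, Finset.card_erase_of_mem (Finset.mem_univ _), Finset.card_univ, Fintype.card_fin]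
  have := l.2
  omega

lemma card_ms {m : ℕ} (k : Fin m → Option ℕ) (h : ∀ i, k i ≠ none) : Multiset.card (ms k) = m := by
  have key : ∀ s : Multiset (Fin m), Multiset.card (s.filterMap k) = Multiset.card s := by
    intro s
    induction s using Multiset.induction_on with
    | empty => simp
    | cons a s ih =>
      cases hf : k a with
      | none => exact absurd hf (h a)
      | some b => rw [Multiset.filterMap_cons_some _ _ _ hf]; simp [ih]
  unfold ms
  rw [key]
  simp

lemma sort_cons_max {s : Multiset ℕ} {j : ℕ} (h : ∀ x ∈ s, x ≤ j) :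
    Multiset.sort (j ::ₘ s) = Multiset.sort s ++ [j] := by
  refine List.Perm.eq_of_pairwise (le := (· ≤ ·)) ?_ ?_ ?_ ?_
  · intro a b _ _ h1 h2; exact le_antisymm h1 h2
  · exact Multiset.pairwise_sort _ _
  · rw [List.pairwise_append]
    refine ⟨Multiset.pairwise_sort _ _, List.pairwise_singleton _ _, ?_⟩
    intro a ha b hb
    rw [List.mem_singleton] at hb
    subst hb
    exact h a (by simpa using ha)
  · rw [← Multiset.coe_eq_coe, Multiset.sort_eq]
    have : ((Multiset.sort s ++ [j] : List ℕ) : Multiset ℕ) = ↑(Multiset.sort s) + {j} := rfl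
    rw [this, Multiset.sort_eq, add_comm]
    rfl

/-- an array `a` on `(ℕ ∪ {∞})^m` is separately continuous -/
def SepA {m : ℕ} (a : (Fin m → Option ℕ) → ℝ) : Prop :=
  ∀ (l : Fin m) (k : Fin m → Option ℕ),
    Tendsto (fun j : ℕ => a (Function.update k l (some j))) atTop (𝓝 (a (Function.update k l none)))

lemma sepA_tree {Z : Type*} {m : ℕ} {ψ : List ℕ → Z → ℝ}
    (h : ∀ l : List ℕ, l.length < m → ∀ z, Tendsto (fun k => ψ (l ++ [k]) z) atTop (𝓝 (ψ l z)))
    (z : Z) : SepA (fun k : Fin m → Option ℕ => ψ (Multiset.sort (ms k)) z) := by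
  intro l k
  beta_reduce
  rw [ms_update_none]
  have h1 := h (Multiset.sort (ms' k l)) (by rw [Multiset.length_sort]; exact card_ms' k l) z
  refine h1.congr' ?_
  obtain ⟨N, hN⟩ : ∃ N : ℕ, ∀ x ∈ ms' k l, x ≤ N := by
    induction (ms' k l) using Multiset.induction_on with
    | empty => exact ⟨0, by simp⟩
    | cons a s ih =>
      obtain ⟨N, hN⟩ := ih
      refine ⟨max a N, fun x hx => ?_⟩
      rcases Multiset.mem_cons.1 hx with rfl | hx
      · exact le_max_left _ _
      · exact (hN x hx).trans (le_max_right _ _)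
  filter_upwards [eventually_ge_atTop N] with j hj
  rw [ms_update_some, sort_cons_max fun x hx => (hN x hx).trans hj]

/-! ### interpolation in one variable -/

/-- the clamp function -/
noncomputable def cl (u : ℝ) : ℝ := min 1 (max 0 u)

lemma cl_cont : Continuous cl := by unfold cl; fun_prop

lemma cl_zero {u : ℝ} (h : u ≤ 0) : cl u = 0 := by
  unfold cl; rw [max_eq_left h]; exact min_eq_right zero_le_one

lemma cl_one {u : ℝ} (h : 1 ≤ u) : cl u = 1 := by
  unfold cl; rw [max_eq_right (by linarith)]; exact min_eq_left h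

lemma cl_mid {u : ℝ} (h : 0 ≤ u) (h1 : u ≤ 1) : cl u = u := by
  unfold cl; rw [max_eq_right h]; exact min_eq_right h1

/-- interpolation of a sequence `b` at `t ≠ x`, with the value `b ∞` at `x` -/
noncomputable def EI (x : ℝ) (b : Option ℕ → ℝ) (t : ℝ) : ℝ :=
  if t = x then b none else
    b (some 0) + ∑ k ∈ Finset.range (⌊-Real.log |t - x|⌋₊ + 1),
      cl (-Real.log |t - x| - k) * (b (some (k + 1)) - b (some k))

lemma EI_eq {x : ℝ} (b : Option ℕ → ℝ) {t : ℝ} (ht : t ≠ x) {M : ℕ}
    (hM : ⌊-Real.log |t - x|⌋₊ + 1 ≤ M) :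
    EI x b t = b (some 0) + ∑ k ∈ Finset.range M,
      cl (-Real.log |t - x| - k) * (b (some (k + 1)) - b (some k)) := by
  unfold EI
  rw [if_neg ht]
  congr 1
  apply Finset.sum_subset (Finset.range_mono hM)
  intro k _ hk
  rw [Finset.mem_range, not_lt] at hk
  have h1 : -Real.log |t - x| < (⌊-Real.log |t - x|⌋₊ : ℝ) + 1 := Nat.lt_floor_add_one _
  have h2 : ((⌊-Real.log |t - x|⌋₊ : ℝ) + 1) ≤ k := by exact_mod_cast hk
  rw [cl_zero (by linarith), zero_mul]

lemma EI_self (x : ℝ) (b : Option ℕ → ℝ) : EI x b x = b none := by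
  unfold EI; rw [if_pos rfl]

/-- the value is a convex combination of two consecutive terms -/
lemma EI_near {x : ℝ} (b : Option ℕ → ℝ) {t : ℝ} (ht : t ≠ x) (h0 : 0 ≤ -Real.log |t - x|) {c ε : ℝ}
    (h1 : |b (some ⌊-Real.log |t - x|⌋₊) - c| ≤ ε)
    (h2 : |b (some (⌊-Real.log |t - x|⌋₊ + 1)) - c| ≤ ε) : |EI x b t - c| ≤ ε := by
  unfold EI
  rw [if_neg ht]
  set r := -Real.log |t - x| with hr
  set N := ⌊r⌋₊ with hN
  rw [Finset.sum_range_succ]
  have hNr : (N : ℝ) ≤ r := Nat.floor_le h0
  have hNr' : r < N + 1 := Nat.lt_floor_add_one _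
  have e1 : ∑ k ∈ Finset.range N, cl (r - k) * (b (some (k + 1)) - b (some k)) =
      b (some N) - b (some 0) := by
    rw [← Finset.sum_range_sub (fun k => b (some k))]
    apply Finset.sum_congr rfl
    intro k hk
    have : (k : ℝ) + 1 ≤ N := by exact_mod_cast Finset.mem_range.1 hk
    rw [cl_one (by linarith), one_mul]
  rw [e1, cl_mid (by linarith) (by linarith)]
  rw [abs_le] at h1 h2 ⊢
  constructor <;> nlinarith

lemma EI_cont (x : ℝ) {b : Option ℕ → ℝ} (hb : Tendsto (fun j : ℕ => b (some j)) atTop (𝓝 (b none))) :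
    Continuous (EI x b) := by
  rw [continuous_iff_continuousAt]
  intro t
  by_cases ht : t = x
  · subst ht
    rw [Metric.continuousAt_iff]
    intro ε hε
    rw [EI_self]
    have h1 : ∀ᶠ j : ℕ in atTop, |b (some j) - b none| < ε / 2 := by
      have := hb.eventually (Metric.ball_mem_nhds _ (by linarith : 0 < ε / 2))
      simpa [Real.dist_eq] using this
    obtain ⟨N, hN⟩ := eventually_atTop.1 h1
    refine ⟨Real.exp (-(N : ℝ)), Real.exp_pos _, fun s hs => ?_⟩
    by_cases hst : s = t
    · subst hst; rw [EI_self, dist_self]; exact hε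
    · rw [Real.dist_eq] at hs ⊢
      have hpos : 0 < |s - t| := abs_pos.2 (sub_ne_zero.2 hst)
      have hlog : (N : ℝ) < -Real.log |s - t| := by
        have := Real.log_lt_log hpos hs
        rw [Real.log_exp] at this
        linarith
      have hfl : N ≤ ⌊-Real.log |s - t|⌋₊ := Nat.le_floor hlog.le
      have := EI_near b hst ((Nat.cast_nonneg N).trans hlog.le) (hN _ hfl).le (hN _ (hfl.trans (Nat.le_succ _))).le
      linarith
  · have hx : t - x ≠ 0 := sub_ne_zero.2 ht
    have hrc : ContinuousAt (fun s : ℝ => -Real.log |s - x|) t := by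
      refine ContinuousAt.neg (ContinuousAt.log (by fun_prop) ?_)
      exact (abs_pos.2 hx).ne'
    set M : ℕ := ⌊-Real.log |t - x|⌋₊ + 2 with hM
    have h1 : ∀ᶠ s in 𝓝 t, -Real.log |s - x| < -Real.log |t - x| + 1 :=
      hrc.eventually (gt_mem_nhds (by linarith))
    have h2 : ∀ᶠ s in 𝓝 t, s ≠ x := isOpen_ne.mem_nhds ht
    have h3 : ContinuousAt (fun s : ℝ => b (some 0) + ∑ k ∈ Finset.range M,
        cl (-Real.log |s - x| - k) * (b (some (k + 1)) - b (some k))) t := by
      refine ContinuousAt.add continuousAt_const ?_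
      refine tendsto_finsetSum _ fun k _ => ?_
      refine Tendsto.mul ?_ tendsto_const_nhds
      have h4 : ContinuousAt (fun s : ℝ => -Real.log |s - x| - (k : ℝ)) t := hrc.sub continuousAt_const
      exact (cl_cont.tendsto _).comp h4
    refine h3.congr ?_
    filter_upwards [h1, h2] with s hs1 hs2
    symm
    apply EI_eq b hs2
    have h4 : -Real.log |t - x| < (⌊-Real.log |t - x|⌋₊ : ℝ) + 1 := Nat.lt_floor_add_one _
    have h5 : ⌊-Real.log |s - x|⌋₊ < M := by
      rw [hM]
      rcases le_or_gt 0 (-Real.log |s - x|) with h | h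
      · rw [Nat.floor_lt h]; push_cast; linarith
      · rw [Nat.floor_of_nonpos h.le]; omega
    omega

/-- dependence on the array: any kind of convergence of the entries passes to the value -/
lemma EI_tendsto {ι : Type*} {F : Filter ι} (x t : ℝ) {b : ι → Option ℕ → ℝ} {b0 : Option ℕ → ℝ}
    (h : ∀ κ, Tendsto (fun i => b i κ) F (𝓝 (b0 κ))) :
    Tendsto (fun i => EI x (b i) t) F (𝓝 (EI x b0 t)) := by
  unfold EI
  by_cases ht : t = x
  · simp only [if_pos ht]; exact h none
  · simp only [if_neg ht]
    refine Tendsto.add (h _) (tendsto_finsetSum _ fun k _ => ?_)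
    exact tendsto_const_nhds.mul ((h _).sub (h _))

lemma EI_tendsto' {ι : Type*} {F : Filter ι} {x t : ℝ} (ht : t ≠ x) {b : ι → Option ℕ → ℝ}
    {b0 : Option ℕ → ℝ}
    (h : ∀ κ : ℕ, Tendsto (fun i => b i (some κ)) F (𝓝 (b0 (some κ)))) :
    Tendsto (fun i => EI x (b i) t) F (𝓝 (EI x b0 t)) := by
  unfold EI
  simp only [if_neg ht]
  refine Tendsto.add (h _) (tendsto_finsetSum _ fun k _ => ?_)
  exact tendsto_const_nhds.mul ((h _).sub (h _))

/-! ### interpolation in several variables -/

/-- iterated interpolation -/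
noncomputable def EM (x : ℝ) : (m : ℕ) → ((Fin m → Option ℕ) → ℝ) → (Fin m → ℝ) → ℝ
  | 0, a, _ => a (fun _ => none)
  | m + 1, a, y => EI x (fun κ => EM x m (fun k => a (Fin.cons κ k)) (Fin.tail y)) (y 0)

lemma EM_tendsto {ι : Type*} {F : Filter ι} (x : ℝ) (m : ℕ) (y : Fin m → ℝ)
    {a : ι → (Fin m → Option ℕ) → ℝ} {a0 : (Fin m → Option ℕ) → ℝ}
    (h : ∀ k, Tendsto (fun i => a i k) F (𝓝 (a0 k))) :
    Tendsto (fun i => EM x m (a i) y) F (𝓝 (EM x m a0 y)) := by
  induction m with
  | zero => exact h _
  | succ m ih =>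
    exact EI_tendsto x (y 0) fun κ => ih (Fin.tail y) fun k => h _

lemma EM_tendsto' {ι : Type*} {F : Filter ι} (x : ℝ) (m : ℕ) (y : Fin m → ℝ) (hy : ∀ i, y i ≠ x)
    {a : ι → (Fin m → Option ℕ) → ℝ} {a0 : (Fin m → Option ℕ) → ℝ}
    (h : ∀ k, (∀ i, k i ≠ none) → Tendsto (fun i => a i k) F (𝓝 (a0 k))) :
    Tendsto (fun i => EM x m (a i) y) F (𝓝 (EM x m a0 y)) := by
  induction m with
  | zero => exact h _ (fun i => i.elim0)
  | succ m ih =>
    refine EI_tendsto' (hy 0) fun κ => ih (Fin.tail y) (fun i => hy i.succ) fun k hk => h _ ?_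
    intro i
    refine Fin.cases ?_ ?_ i
    · simp
    · intro j; simpa using hk j

lemma EM_diag (x : ℝ) (m : ℕ) (a : (Fin m → Option ℕ) → ℝ) :
    EM x m a (fun _ => x) = a (fun _ => none) := by
  induction m with
  | zero => rfl
  | succ m ih =>
    show EI x (fun κ => EM x m (fun k => a (Fin.cons κ k)) (Fin.tail fun _ => x)) x = _
    rw [EI_self]
    have : (Fin.tail fun _ : Fin (m + 1) => x) = fun _ => x := rfl
    rw [this, ih]
    congr 1
    ext i
    refine Fin.cases ?_ ?_ i
    · simp
    · intro j; simp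

lemma SepA_cons {m : ℕ} {a : (Fin (m + 1) → Option ℕ) → ℝ} (h : SepA a) (κ : Option ℕ) :
    SepA (fun k => a (Fin.cons κ k)) := by
  intro l k
  have := h l.succ (Fin.cons κ k)
  simpa only [Fin.cons_update] using this

lemma EM_sep (x : ℝ) (m : ℕ) {a : (Fin m → Option ℕ) → ℝ} (h : SepA a) (i : Fin m) (y : Fin m → ℝ) :
    Continuous (fun t => EM x m a (Function.update y i t)) := by
  induction m with
  | zero => exact i.elim0
  | succ m ih =>
    refine Fin.cases ?_ ?_ i
    · have e : (fun t => EM x (m + 1) a (Function.update y 0 t)) =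
          EI x (fun κ => EM x m (fun k => a (Fin.cons κ k)) (Fin.tail y)) := by
        ext t
        show EI x (fun κ => EM x m (fun k => a (Fin.cons κ k)) (Fin.tail (Function.update y 0 t)))
          ((Function.update y 0 t) 0) = _
        rw [Fin.tail_update_zero, Function.update_self]
      rw [e]
      apply EI_cont
      apply EM_tendsto
      intro k
      have := h 0 (Fin.cons none k)
      simpa only [Fin.update_cons_zero] using this
    · intro j
      have e : (fun t => EM x (m + 1) a (Function.update y j.succ t)) = fun t =>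
          EI x (fun κ => EM x m (fun k => a (Fin.cons κ k)) (Function.update (Fin.tail y) j t)) (y 0) := by
        ext t
        show EI x (fun κ => EM x m (fun k => a (Fin.cons κ k)) (Fin.tail (Function.update y j.succ t)))
          ((Function.update y j.succ t) 0) = _
        rw [Fin.tail_update_succ, Function.update_of_ne (Fin.succ_ne_zero j).symm]
      rw [e, continuous_iff_continuousAt]
      intro t
      exact EI_tendsto x (y 0) fun κ => (ih (SepA_cons h κ) j (Fin.tail y)).tendsto t

end Pool.Agent.V11214.Sep
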