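import Mathlib

set_option autoImplicit false

namespace Pool.Agent.V11214.Sep

open Set Topology Filter

/-- Baire class `k` functions: `k`-fold iterated pointwise limits of continuous functions -/
def BC {Z : Type*} [TopologicalSpace Z] : ℕ → (Z → ℝ) → Prop
  | 0, f => Continuous f
  | k + 1, f => ∃ g : ℕ → Z → ℝ, (∀ j, BC k (g j)) ∧ ∀ z, Tendsto (fun j => g j z) atTop (𝓝 (f z))

/-- the additive Borel classes: `Sg k` is the class `Σ^0_{k+1}` -/
def Sg {Z : Type*} [TopologicalSpace Z] : ℕ → Set Z → Prop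
  | 0, S => IsOpen S
  | k + 1, S => ∃ C : ℕ → Set Z, (∀ i, Sg k (C i)) ∧ S = ⋃ i, (C i)ᶜ

section basic

variable {Z : Type*} [TopologicalSpace Z]

lemma Sg_triv (k : ℕ) : Sg k (∅ : Set Z) ∧ Sg k (univ : Set Z) := by
  induction k with
  | zero => exact ⟨isOpen_empty, isOpen_univ⟩
  | succ k ih =>
    refine ⟨⟨fun _ => univ, fun _ => ih.2, by simp⟩, ⟨fun _ => ∅, fun _ => ih.1, by simp only [compl_empty, iUnion_const]⟩⟩

lemma Sg_iUnion (k : ℕ) {S : ℕ → Set Z} (h : ∀ i, Sg k (S i)) : Sg k (⋃ i, S i) := by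
  cases k with
  | zero => exact isOpen_iUnion h
  | succ k =>
    choose C hC hS using h
    refine ⟨fun n => C n.unpair.1 n.unpair.2, fun n => hC _ _, ?_⟩
    ext z
    simp only [mem_iUnion]
    constructor
    · rintro ⟨i, hi⟩
      rw [hS i, mem_iUnion] at hi
      obtain ⟨j, hj⟩ := hi
      exact ⟨Nat.pair i j, by simpa using hj⟩
    · rintro ⟨n, hn⟩
      refine ⟨n.unpair.1, ?_⟩
      rw [hS, mem_iUnion]
      exact ⟨_, hn⟩

lemma Sg_union (k : ℕ) {S S' : Set Z} (h : Sg k S) (h' : Sg k S') : Sg k (S ∪ S') := by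
  have : S ∪ S' = ⋃ i : ℕ, (if i = 0 then S else S') := by
    ext z
    simp only [mem_union, mem_iUnion]
    constructor
    · rintro (h | h)
      · exact ⟨0, by simpa using h⟩
      · exact ⟨1, by simpa using h⟩
    · rintro ⟨i, hi⟩
      by_cases h0 : i = 0
      · rw [if_pos h0] at hi; exact Or.inl hi
      · rw [if_neg h0] at hi; exact Or.inr hi
  rw [this]
  apply Sg_iUnion
  intro i
  split_ifs <;> assumption

lemma Sg_inter (k : ℕ) {S S' : Set Z} (h : Sg k S) (h' : Sg k S') : Sg k (S ∩ S') := by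
  cases k with
  | zero => exact h.inter h'
  | succ k =>
    obtain ⟨C, hC, rfl⟩ := h
    obtain ⟨D, hD, rfl⟩ := h'
    refine ⟨fun n => C n.unpair.1 ∪ D n.unpair.2, fun n => Sg_union k (hC _) (hD _), ?_⟩
    ext z
    simp only [mem_inter_iff, mem_iUnion, mem_compl_iff, mem_union, not_or]
    constructor
    · rintro ⟨⟨i, hi⟩, ⟨j, hj⟩⟩
      exact ⟨Nat.pair i j, by simpa using ⟨hi, hj⟩⟩
    · rintro ⟨n, h1, h2⟩
      exact ⟨⟨_, h1⟩, ⟨_, h2⟩⟩

lemma Sg_biInter (k : ℕ) {ι : Type*} (K : Finset ι) {S : ι → Set Z} (h : ∀ i ∈ K, Sg k (S i)) :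
    Sg k {z | ∀ i ∈ K, z ∈ S i} := by
  classical
  induction K using Finset.induction_on with
  | empty =>
    have : {z : Z | ∀ i ∈ (∅ : Finset ι), z ∈ S i} = univ := by ext z; simp
    rw [this]; exact (Sg_triv k).2
  | insert i K hi ih =>
    have : {z : Z | ∀ j ∈ insert i K, z ∈ S j} = S i ∩ {z | ∀ j ∈ K, z ∈ S j} := by
      ext z; simp
    rw [this]
    exact Sg_inter k (h i (Finset.mem_insert_self _ _))
      (ih fun j hj => h j (Finset.mem_insert_of_mem hj))

lemma BC_level (k : ℕ) {f : Z → ℝ} (hf : BC k f) (c : ℝ) :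
    Sg k {z | c < f z} ∧ Sg k {z | f z < c} := by
  induction k generalizing f c with
  | zero => exact ⟨isOpen_lt continuous_const hf, isOpen_lt hf continuous_const⟩
  | succ k ih =>
    obtain ⟨g, hg, hlim⟩ := hf
    constructor
    · refine ⟨fun n => ⋃ j : ℕ, {z | n.unpair.2 ≤ j ∧ g j z < c + 1 / ((n.unpair.1 : ℝ) + 1)}, ?_, ?_⟩
      · intro n
        apply Sg_iUnion
        intro j
        by_cases h : n.unpair.2 ≤ j
        · have : {z : Z | n.unpair.2 ≤ j ∧ g j z < c + 1 / ((n.unpair.1 : ℝ) + 1)} =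
              {z | g j z < c + 1 / ((n.unpair.1 : ℝ) + 1)} := by ext z; simp [h]
          rw [this]; exact (ih (hg j) _).2
        · have : {z : Z | n.unpair.2 ≤ j ∧ g j z < c + 1 / ((n.unpair.1 : ℝ) + 1)} = ∅ := by
            ext z; simp [h]
          rw [this]; exact (Sg_triv k).1
      · ext z
        simp only [mem_ofPred_eq, mem_iUnion, mem_compl_iff, not_exists, not_and, not_lt]
        constructor
        · intro hz
          obtain ⟨i, hi⟩ := exists_nat_one_div_lt (sub_pos.2 hz)
          have h1 : ∀ᶠ j in atTop, c + 1 / ((i : ℝ) + 1) < g j z :=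
            (hlim z).eventually (lt_mem_nhds (by linarith))
          obtain ⟨N, hN⟩ := eventually_atTop.1 h1
          refine ⟨Nat.pair i N, fun j hj => ?_⟩
          simp only [Nat.unpair_pair] at hj ⊢
          exact (hN j hj).le
        · rintro ⟨n, hn⟩
          have h1 : c + 1 / ((n.unpair.1 : ℝ) + 1) ≤ f z :=
            ge_of_tendsto (hlim z) (eventually_atTop.2 ⟨n.unpair.2, hn⟩)
          have h2 : (0 : ℝ) < 1 / ((n.unpair.1 : ℝ) + 1) := by positivity
          linarith
    · refine ⟨fun n => ⋃ j : ℕ, {z | n.unpair.2 ≤ j ∧ c - 1 / ((n.unpair.1 : ℝ) + 1) < g j z}, ?_, ?_⟩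
      · intro n
        apply Sg_iUnion
        intro j
        by_cases h : n.unpair.2 ≤ j
        · have : {z : Z | n.unpair.2 ≤ j ∧ c - 1 / ((n.unpair.1 : ℝ) + 1) < g j z} =
              {z | c - 1 / ((n.unpair.1 : ℝ) + 1) < g j z} := by ext z; simp [h]
          rw [this]; exact (ih (hg j) _).1
        · have : {z : Z | n.unpair.2 ≤ j ∧ c - 1 / ((n.unpair.1 : ℝ) + 1) < g j z} = ∅ := by
            ext z; simp [h]
          rw [this]; exact (Sg_triv k).1
      · ext z
        simp only [mem_ofPred_eq, mem_iUnion, mem_compl_iff, not_exists, not_and, not_lt]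
        constructor
        · intro hz
          obtain ⟨i, hi⟩ := exists_nat_one_div_lt (sub_pos.2 hz)
          have h1 : ∀ᶠ j in atTop, g j z < c - 1 / ((i : ℝ) + 1) :=
            (hlim z).eventually (gt_mem_nhds (by linarith))
          obtain ⟨N, hN⟩ := eventually_atTop.1 h1
          refine ⟨Nat.pair i N, fun j hj => ?_⟩
          simp only [Nat.unpair_pair] at hj ⊢
          exact (hN j hj).le
        · rintro ⟨n, hn⟩
          have h1 : f z ≤ c - 1 / ((n.unpair.1 : ℝ) + 1) :=
            le_of_tendsto (hlim z) (eventually_atTop.2 ⟨n.unpair.2, hn⟩)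
          have h2 : (0 : ℝ) < 1 / ((n.unpair.1 : ℝ) + 1) := by positivity
          linarith

lemma BC_comp2 (k : ℕ) {f f' : Z → ℝ} (hf : BC k f) (hf' : BC k f') {g : ℝ × ℝ → ℝ}
    (hg : Continuous g) : BC k (fun z => g (f z, f' z)) := by
  induction k generalizing f f' with
  | zero => exact hg.comp (hf.prodMk hf')
  | succ k ih =>
    obtain ⟨u, hu, hul⟩ := hf
    obtain ⟨v, hv, hvl⟩ := hf'
    exact ⟨fun j z => g (u j z, v j z), fun j => ih (hu j) (hv j),
      fun z => (hg.tendsto _).comp ((hul z).prodMk_nhds (hvl z))⟩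

lemma BC_succ (k : ℕ) {f : Z → ℝ} (hf : BC k f) : BC (k + 1) f :=
  ⟨fun _ => f, fun _ => hf, fun _ => tendsto_const_nhds⟩

lemma BC_const (k : ℕ) (c : ℝ) : BC k (fun _ : Z => c) := by
  induction k with
  | zero => exact continuous_const
  | succ k ih => exact BC_succ k ih

end basic

section metr

variable {Z : Type*} [TopologicalSpace Z] [TopologicalSpace.MetrizableSpace Z]

lemma Sg_mono (k : ℕ) {S : Set Z} (h : Sg k S) : Sg (k + 1) S := by
  induction k generalizing S with
  | zero =>
    let _ := TopologicalSpace.metrizableSpaceMetric Z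
    obtain ⟨F, hF, -, hU, -⟩ := IsOpen.exists_iUnion_isClosed (show IsOpen S from h)
    refine ⟨fun n => (F n)ᶜ, fun n => (hF n).isOpen_compl, ?_⟩
    simp only [compl_compl]
    exact hU.symm
  | succ k ih =>
    obtain ⟨C, hC, rfl⟩ := h
    exact ⟨C, fun i => ih (hC i), rfl⟩

lemma Sg_le {k l : ℕ} (hkl : k ≤ l) {S : Set Z} (h : Sg k S) : Sg l S := by
  induction l, hkl using Nat.le_induction with
  | base => exact h
  | succ l _ ih => exact Sg_mono l ih

open Classical in
lemma BC_ind (k : ℕ) {S : Set Z} (h : Sg k S) : BC (k + 1) (fun z => if z ∈ S then (1 : ℝ) else 0) := by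
  induction k generalizing S with
  | zero =>
    let _ := TopologicalSpace.metrizableSpaceMetric Z
    by_cases hS : (Sᶜ).Nonempty
    · refine ⟨fun j z => min 1 ((j : ℝ) * Metric.infDist z Sᶜ), fun j => ?_, fun z => ?_⟩
      · show Continuous _
        exact continuous_const.min (continuous_const.mul (Metric.continuous_infDist_pt _))
      · beta_reduce
        by_cases hz : z ∈ S
        · rw [if_pos hz]
          have hpos : 0 < Metric.infDist z Sᶜ := by
            have := ((show IsOpen S from h).isClosed_compl.notMem_iff_infDist_pos hS).1 (by simpa using hz)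
            exact this
          apply tendsto_const_nhds.congr'
          obtain ⟨N, hN⟩ := exists_nat_gt (1 / Metric.infDist z Sᶜ)
          filter_upwards [eventually_ge_atTop N] with j hj
          symm
          apply min_eq_left
          rw [div_lt_iff₀ hpos] at hN
          have : (N : ℝ) ≤ j := by exact_mod_cast hj
          nlinarith
        · rw [if_neg hz]
          apply tendsto_const_nhds.congr
          intro j
          rw [Metric.infDist_zero_of_mem (show z ∈ Sᶜ from hz)]
          simp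
    · rw [Set.not_nonempty_iff_eq_empty, compl_empty_iff] at hS
      subst hS
      simp only [mem_univ, if_true]
      exact BC_const 1 1
  | succ k ih =>
    obtain ⟨C, hC, rfl⟩ := h
    let G : ℕ → Z → ℝ := fun N z => Nat.rec 0 (fun i r => max r (1 - (if z ∈ C i then (1 : ℝ) else 0))) N
    have hGs : ∀ N z, G (N + 1) z = max (G N z) (1 - (if z ∈ C N then (1 : ℝ) else 0)) := fun N z => rfl
    have hG0 : ∀ z, G 0 z = 0 := fun z => rfl
    refine ⟨G, ?_, ?_⟩
    · intro N
      induction N with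
      | zero => exact BC_const (k + 1) 0
      | succ N ihN =>
        have := BC_comp2 (k + 1) ihN (ih (hC N)) (g := fun p : ℝ × ℝ => max p.1 (1 - p.2)) (by fun_prop)
        exact this
    · intro z
      have hle : ∀ N, G N z ≤ 1 ∧ 0 ≤ G N z := by
        intro N
        induction N with
        | zero => rw [hG0]; exact ⟨zero_le_one, le_rfl⟩
        | succ N ihN =>
          rw [hGs]
          refine ⟨max_le ihN.1 ?_, ihN.2.trans (le_max_left _ _)⟩
          split_ifs <;> norm_num
      beta_reduce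
      by_cases hz : z ∈ ⋃ i, (C i)ᶜ
      · rw [if_pos hz]
        obtain ⟨i, hi⟩ := mem_iUnion.1 hz
        apply tendsto_const_nhds.congr'
        filter_upwards [eventually_ge_atTop (i + 1)] with N hN
        symm
        apply le_antisymm (hle N).1
        induction N, hN using Nat.le_induction with
        | base =>
          rw [hGs, if_neg hi]
          simp
        | succ N _ ihN => rw [hGs]; exact ihN.trans (le_max_left _ _)
      · rw [if_neg hz]
        apply tendsto_const_nhds.congr
        intro N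
        symm
        induction N with
        | zero => rfl
        | succ N ihN =>
          rw [hGs, ihN]
          have : z ∈ C N := by
            by_contra h
            exact hz (mem_iUnion.2 ⟨N, h⟩)
          rw [if_pos this]; simp

end metr

/-! ### a set of each class which is not of the dual class -/

/-- the Baire space -/
abbrev BS : Type := ℕ → ℕ

/-- the sections of a code -/
def sec (a : BS) (i : ℕ) : BS := fun j => a (Nat.pair i j)

lemma sec_cont (i : ℕ) : Continuous (fun a : BS => sec a i) := by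
  unfold sec; fun_prop

lemma exists_sec (f : ℕ → BS) : ∃ a : BS, ∀ i, sec a i = f i :=
  ⟨fun n => f n.unpair.1 n.unpair.2, fun i => by ext j; simp [sec]⟩

/-- universal sets -/
def UU (O : ℕ → Set BS) : ℕ → BS → BS → Prop
  | 0, a, z => ∃ i, z ∈ O (a i)
  | k + 1, a, z => ∃ i, ¬ UU O k (sec a i) z

lemma UU_sg {O : ℕ → Set BS} (hO : ∀ i, IsOpen (O i)) (k : ℕ) {α β : BS → BS}
    (hα : Continuous α) (hβ : Continuous β) : Sg k {w | UU O k (α w) (β w)} := by
  induction k generalizing α β with
  | zero =>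
    have : {w | UU O 0 (α w) (β w)} = ⋃ i : ℕ, ⋃ c : ℕ, ((fun w => α w i) ⁻¹' {c} ∩ β ⁻¹' (O c)) := by
      ext w
      simp only [UU, mem_ofPred_eq, mem_iUnion, mem_inter_iff, mem_preimage, mem_singleton_iff]
      constructor
      · rintro ⟨i, hi⟩; exact ⟨i, _, rfl, hi⟩
      · rintro ⟨i, c, h1, h2⟩; exact ⟨i, by rw [h1]; exact h2⟩
    rw [this]
    refine isOpen_iUnion fun i => isOpen_iUnion fun c => ?_
    exact ((isOpen_discrete {c}).preimage ((continuous_apply i).comp hα)).inter ((hO c).preimage hβ)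
  | succ k ih =>
    refine ⟨fun i => {w | UU O k (sec (α w) i) (β w)}, fun i => ih ((sec_cont i).comp hα) hβ, ?_⟩
    ext w
    simp only [UU, mem_ofPred_eq, mem_iUnion, mem_compl_iff]

lemma UU_univ {O : ℕ → Set BS} (hO : ∀ S : Set BS, IsOpen S → ∃ a : BS, S = ⋃ i, O (a i)) (k : ℕ)
    {S : Set BS} (hS : Sg k S) : ∃ a : BS, S = {z | UU O k a z} := by
  induction k generalizing S with
  | zero =>
    obtain ⟨a, ha⟩ := hO S hS
    refine ⟨a, ?_⟩
    rw [ha]; ext z; simp only [UU, mem_iUnion, mem_ofPred_eq]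
  | succ k ih =>
    obtain ⟨C, hC, rfl⟩ := hS
    choose c hc using fun i => ih (hC i)
    obtain ⟨a, ha⟩ := exists_sec c
    refine ⟨a, ?_⟩
    ext z
    simp only [mem_iUnion, mem_compl_iff, UU, mem_ofPred_eq]
    constructor
    · rintro ⟨i, hi⟩; refine ⟨i, ?_⟩; rw [ha]; intro h; apply hi; rw [hc i]; exact h
    · rintro ⟨i, hi⟩; refine ⟨i, ?_⟩; intro h; apply hi; rw [ha]; rw [hc i] at h; exact h

lemma exists_enum : ∃ O : ℕ → Set BS, (∀ i, IsOpen (O i)) ∧
    ∀ S : Set BS, IsOpen S → ∃ a : BS, S = ⋃ i, O (a i) := by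
  let b := TopologicalSpace.countableBasis BS
  have hb : (insert ∅ b : Set (Set BS)).Countable :=
    (TopologicalSpace.countable_countableBasis BS).insert ∅
  obtain ⟨O, hO⟩ := hb.exists_eq_range ⟨∅, mem_insert _ _⟩
  have hopen : ∀ i, IsOpen (O i) := by
    intro i
    have : O i ∈ insert ∅ b := by rw [hO]; exact ⟨i, rfl⟩
    rcases this with h | h
    · rw [h]; exact isOpen_empty
    · exact TopologicalSpace.isOpen_of_mem_countableBasis h
  refine ⟨O, hopen, fun S hS => ?_⟩
  have hne : {i | O i ⊆ S}.Nonempty := by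
    have : (∅ : Set BS) ∈ range O := by rw [← hO]; exact mem_insert _ _
    obtain ⟨i, hi⟩ := this
    exact ⟨i, by show O i ⊆ S; rw [hi]; exact empty_subset _⟩
  obtain ⟨a, ha⟩ := (to_countable {i | O i ⊆ S}).exists_eq_range hne
  refine ⟨a, subset_antisymm ?_ ?_⟩
  · intro z hz
    obtain ⟨B, hB, hzB, hBS⟩ := (TopologicalSpace.isBasis_countableBasis BS).exists_subset_of_mem_open hz hS
    have : B ∈ range O := by rw [← hO]; exact mem_insert_of_mem _ hB
    obtain ⟨i, rfl⟩ := this
    have hi : i ∈ {i | O i ⊆ S} := hBS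
    rw [ha] at hi
    obtain ⟨j, rfl⟩ := hi
    exact mem_iUnion.2 ⟨j, hzB⟩
  · refine iUnion_subset fun i => ?_
    have : a i ∈ {i | O i ⊆ S} := by rw [ha]; exact ⟨i, rfl⟩
    exact this

/-- the Borel hierarchy does not collapse -/
theorem exists_proper (k : ℕ) : ∃ B : Set BS, Sg k B ∧ ¬ Sg k Bᶜ := by
  obtain ⟨O, hO, hOu⟩ := exists_enum
  refine ⟨{z | UU O k z z}, UU_sg hO k continuous_id continuous_id, fun h => ?_⟩
  obtain ⟨a, ha⟩ := UU_univ hOu k h
  have h1 : a ∈ ({z | UU O k z z} : Set BS)ᶜ ↔ a ∈ {z | UU O k a z} := by rw [ha]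
  simp only [mem_compl_iff, mem_ofPred_eq] at h1
  tauto

end Pool.Agent.V11214.Sep
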