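import Pool.Agent.V11214.SepArray

set_option autoImplicit false

namespace Pool.Agent.V11214.Sep

open Set Topology Filter

lemma exists_pos_le {T : Type*} (I : Finset T) {δ : T → ℝ} (h : ∀ t ∈ I, 0 < δ t) :
    ∃ δ0 > 0, ∀ t ∈ I, δ0 ≤ δ t := by
  classical
  induction I using Finset.induction_on with
  | empty => exact ⟨1, one_pos, by simp⟩
  | insert a I _ ih =>
    obtain ⟨d, hd, h'⟩ := ih fun t ht => h t (Finset.mem_insert_of_mem ht)
    refine ⟨min (δ a) d, lt_min (h a (Finset.mem_insert_self _ _)) hd, fun t ht => ?_⟩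
    rcases Finset.mem_insert.1 ht with rfl | ht
    · exact min_le_left _ _
    · exact (min_le_right _ _).trans (h' t ht)

/-- basic neighbourhoods -/
lemma box_of_nhds {T X : Type*} [TopologicalSpace X] {ι : X → (T → ℝ)} (hι : IsInducing ι) {x : X}
    {U : Set X} (hU : U ∈ 𝓝 x) :
    ∃ F : Finset T, ∃ δ > 0, ∀ x', (∀ t ∈ F, |ι x' t - ι x t| < δ) → x' ∈ U := by
  rw [hι.nhds_eq_comap, mem_comap] at hU
  obtain ⟨W, hW, hWU⟩ := hU
  obtain ⟨W', hW', hWo, hxW⟩ := mem_nhds_iff.1 hW
  obtain ⟨I, u, hu, hIu⟩ := isOpen_pi_iff.1 hWo (ι x) hxW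
  have h1 : ∀ t : T, ∃ δ : ℝ, t ∈ I → 0 < δ ∧ ∀ s, |s - ι x t| < δ → s ∈ u t := by
    intro t
    by_cases ht : t ∈ I
    · obtain ⟨δ, hδ, h⟩ := Metric.isOpen_iff.1 (hu t ht).1 _ (hu t ht).2
      exact ⟨δ, fun _ => ⟨hδ, fun s hs => h (by rwa [Metric.mem_ball, Real.dist_eq])⟩⟩
    · exact ⟨0, fun h => absurd h ht⟩
  choose δ hδ using h1
  obtain ⟨d, hd, hdδ⟩ := exists_pos_le I fun t ht => (hδ t ht).1
  refine ⟨I, d, hd, fun x' hx' => hWU (hW' (hIu ?_))⟩
  intro t ht
  exact (hδ t ht).2 _ ((hx' t ht).trans_le (hdδ t ht))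

/-- closures of open sets of a separable power of the line depend on countably many coordinates -/
lemma closure_dep {T : Type*} [TopologicalSpace.SeparableSpace (T → ℝ)] {V : Set (T → ℝ)}
    (hV : IsOpen V) :
    ∃ A : Set T, A.Countable ∧
      ∀ f f' : T → ℝ, (∀ t ∈ A, f t = f' t) → f ∈ closure V → f' ∈ closure V := by
  classical
  obtain ⟨S, hS, hSd⟩ := TopologicalSpace.exists_countable_dense (T → ℝ)
  have hbox : ∀ s : T → ℝ, ∃ F : Finset T, ∃ δ : ℝ, s ∈ V →
      0 < δ ∧ ∀ g : T → ℝ, (∀ t ∈ F, |g t - s t| < δ) → g ∈ V := by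
    intro s
    by_cases hs : s ∈ V
    · obtain ⟨F, δ, hδ, h⟩ := box_of_nhds (ι := (id : (T → ℝ) → (T → ℝ))) IsInducing.id
        (hV.mem_nhds hs)
      exact ⟨F, δ, fun _ => ⟨hδ, h⟩⟩
    · exact ⟨∅, 0, fun h => absurd h hs⟩
  choose F δ hFδ using hbox
  refine ⟨⋃ s ∈ S, (F s : Set T), hS.biUnion fun s _ => (F s).countable_toSet, ?_⟩
  intro f f' hff hf
  rw [mem_closure_iff_nhds]
  intro U hU
  obtain ⟨G, η, hη, hG⟩ := box_of_nhds (ι := (id : (T → ℝ) → (T → ℝ))) IsInducing.id hU
  set A : Set T := ⋃ s ∈ S, (F s : Set T) with hA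
  -- a neighbourhood of f using only the coordinates in A
  let N : Set (T → ℝ) := {g | ∀ t ∈ G.filter (fun t => t ∈ A), |g t - f t| < η}
  have hN : IsOpen N := by
    have : N = ⋂ t ∈ G.filter (fun t => t ∈ A), {g : T → ℝ | |g t - f t| < η} := by
      ext g; simp only [N, mem_ofPred_eq, mem_iInter]
    rw [this]
    apply isOpen_biInter_finset
    intro t _
    exact isOpen_lt (by fun_prop) continuous_const
  have hfN : f ∈ N := by intro t _; simpa using hη
  obtain ⟨v, hvN, hvV⟩ := mem_closure_iff.1 hf N hN hfN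
  obtain ⟨s, hs, hsS⟩ := hSd.inter_open_nonempty _ (hN.inter hV) ⟨v, hvN, hvV⟩
  -- replace the coordinates outside A by those of f'
  let g : T → ℝ := fun t => if t ∈ A then s t else f' t
  refine ⟨g, hG g ?_, ?_⟩
  · intro t ht
    by_cases htA : t ∈ A
    · have h1 := hs.1 t (Finset.mem_filter.2 ⟨ht, htA⟩)
      simp only [g, if_pos htA, id]
      rw [← hff t htA]; exact h1
    · simp only [g, if_neg htA, id, sub_self, abs_zero]; exact hη
  · apply (hFδ s hs.2).2
    intro t ht
    have htA : t ∈ A := mem_biUnion hsS ht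
    simp only [g, if_pos htA, sub_self, abs_zero]
    exact (hFδ s hs.2).1

/-- a continuous function on a dense subspace of a separable power of the line is continuous for the
topology of a countable set of coordinates -/
lemma factor {T X : Type*} [TopologicalSpace.SeparableSpace (T → ℝ)] [TopologicalSpace X]
    {ι : X → (T → ℝ)} (hι : IsInducing ι) (hd : DenseRange ι) {g : X → ℝ} (hg : Continuous g) :
    ∃ A : Set T, A.Countable ∧ ∀ f : X, ∀ ε > 0, ∃ F : Finset T, (∀ t ∈ F, t ∈ A) ∧ ∃ δ > 0,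
      ∀ f' : X, (∀ t ∈ F, |ι f' t - ι f t| < δ) → |g f' - g f| < ε := by
  classical
  -- open sets of the power
  have hU : ∀ c : ℝ, ∃ V : Set (T → ℝ), IsOpen V ∧ ι ⁻¹' V = {f | c < g f} := fun c => by
    obtain ⟨V, hV, h⟩ := hι.isOpen_iff.1 (isOpen_lt (continuous_const (y := c)) hg)
    exact ⟨V, hV, h⟩
  have hL : ∀ c : ℝ, ∃ V : Set (T → ℝ), IsOpen V ∧ ι ⁻¹' V = {f | g f < c} := fun c => by
    obtain ⟨V, hV, h⟩ := hι.isOpen_iff.1 (isOpen_lt hg (continuous_const (y := c)))
    exact ⟨V, hV, h⟩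
  choose U hUo hU using hU
  choose L hLo hL using hL
  choose AU hAUc hAU using fun c => closure_dep (hUo c)
  choose AL hALc hAL using fun c => closure_dep (hLo c)
  -- disjointness
  have hdis : ∀ c, Disjoint (U c) (L c) := by
    intro c
    rw [Set.disjoint_iff_inter_eq_empty, Set.eq_empty_iff_forall_notMem]
    intro v hv
    obtain ⟨f, hf⟩ := hd.exists_mem_open ((hUo c).inter (hLo c)) ⟨v, hv⟩
    have h1 : f ∈ ι ⁻¹' U c := hf.1
    have h2 : f ∈ ι ⁻¹' L c := hf.2
    rw [hU] at h1
    rw [hL] at h2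
    exact lt_asymm (show c < g f from h1) (show g f < c from h2)
  set A : Set T := ⋃ c : ℚ, (AU c ∪ AL c) with hA
  have hAc : A.Countable := countable_iUnion fun c => (hAUc c).union (hALc c)
  -- separation from a closure using only coordinates in A
  have sep : ∀ (B : Set T) (C : Set (T → ℝ)), B ⊆ A → IsClosed C →
      (∀ f f' : T → ℝ, (∀ t ∈ B, f t = f' t) → f ∈ C → f' ∈ C) → ∀ f : X, ι f ∉ C →
      ∃ F : Finset T, (∀ t ∈ F, t ∈ A) ∧ ∃ δ > 0, ∀ f' : X, (∀ t ∈ F, |ι f' t - ι f t| < δ) →
        ι f' ∉ C := by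
    intro B C hBA hC hdep f hf
    obtain ⟨F, δ, hδ, hF⟩ := box_of_nhds (ι := (id : (T → ℝ) → (T → ℝ))) IsInducing.id
      (hC.isOpen_compl.mem_nhds hf)
    refine ⟨F.filter (fun t => t ∈ A), fun t ht => (Finset.mem_filter.1 ht).2, δ, hδ, ?_⟩
    intro f' hf' hC'
    let g' : T → ℝ := fun t => if t ∈ A then ι f' t else ι f t
    have h1 : g' ∈ C := hdep (ι f') g' (fun t ht => by simp only [g', if_pos (hBA ht)]) hC'
    refine hF g' ?_ h1
    intro t ht
    by_cases htA : t ∈ A
    · simp only [g', if_pos htA, id]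
      exact hf' t (Finset.mem_filter.2 ⟨ht, htA⟩)
    · simp only [g', if_neg htA, id, sub_self, abs_zero]; exact hδ
  refine ⟨A, hAc, fun f ε hε => ?_⟩
  obtain ⟨c1, hc1, hc1'⟩ := exists_rat_btwn (show g f - ε < g f by linarith)
  obtain ⟨c2, hc2, hc2'⟩ := exists_rat_btwn (show g f < g f + ε by linarith)
  -- upper bound
  have hf2 : ι f ∉ closure (U c2) := by
    intro h
    have h1 : f ∈ ι ⁻¹' L c2 := by rw [hL]; exact hc2
    obtain ⟨v, hv1, hv2⟩ := mem_closure_iff.1 h (L c2) (hLo c2) h1
    exact Set.disjoint_left.1 (hdis c2) hv2 hv1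
  have hf1 : ι f ∉ closure (L c1) := by
    intro h
    have h1 : f ∈ ι ⁻¹' U c1 := by rw [hU]; exact hc1'
    obtain ⟨v, hv1, hv2⟩ := mem_closure_iff.1 h (U c1) (hUo c1) h1
    exact Set.disjoint_left.1 (hdis c1) hv1 hv2
  obtain ⟨F2, hF2, δ2, hδ2, h2⟩ := sep (AU c2) _ (fun t ht => mem_iUnion.2 ⟨c2, Or.inl ht⟩)
    isClosed_closure (hAU c2) f hf2
  obtain ⟨F1, hF1, δ1, hδ1, h1⟩ := sep (AL c1) _ (fun t ht => mem_iUnion.2 ⟨c1, Or.inr ht⟩)
    isClosed_closure (hAL c1) f hf1
  refine ⟨F1 ∪ F2, ?_, min δ1 δ2, lt_min hδ1 hδ2, ?_⟩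
  · intro t ht
    rcases Finset.mem_union.1 ht with h | h
    · exact hF1 t h
    · exact hF2 t h
  · intro f' hf'
    have a1 := h1 f' fun t ht => (hf' t (Finset.mem_union_left _ ht)).trans_le (min_le_left _ _)
    have a2 := h2 f' fun t ht => (hf' t (Finset.mem_union_right _ ht)).trans_le (min_le_right _ _)
    have b2 : g f' ≤ c2 := by
      by_contra h
      push Not at h
      have : f' ∈ ι ⁻¹' U c2 := by rw [hU]; exact h
      exact a2 (subset_closure this)
    have b1 : (c1 : ℝ) ≤ g f' := by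
      by_contra h
      push Not at h
      have : f' ∈ ι ⁻¹' L c1 := by rw [hL]; exact h
      exact a1 (subset_closure this)
    rw [abs_lt]
    constructor <;> linarith

/-- separately continuous functions on the cube -/
def SepCont {k : ℕ} (f : (Fin k → unitInterval) → ℝ) : Prop :=
  ∀ (i : Fin k) (x : Fin k → unitInterval), Continuous (fun t : unitInterval => f (Function.update x i t))

/-- the space of separately continuous functions with the topology of pointwise convergence -/
abbrev SCp (k : ℕ) : Type := {f : (Fin k → unitInterval) → ℝ // SepCont f}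

lemma sepCont_of_cont {k : ℕ} (f : C((Fin k → unitInterval), ℝ)) : SepCont (f : (Fin k → unitInterval) → ℝ) :=
  fun i _ => f.continuous.comp (continuous_const.update i continuous_id)

lemma interp {T : Type*} [TopologicalSpace T] [NormalSpace T] [T1Space T] (F : Finset T) (g : T → ℝ) :
    ∃ f : C(T, ℝ), ∀ t ∈ F, f t = g t := by
  classical
  induction F using Finset.induction_on with
  | empty => exact ⟨0, by simp⟩
  | insert a F ha ih =>
    obtain ⟨f, hf⟩ := ih
    obtain ⟨β, h0, h1, -⟩ := exists_continuous_zero_one_of_isClosed (F.finite_toSet.isClosed)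
      (isClosed_singleton (x := a)) (by
        rw [Set.disjoint_singleton_right]; exact_mod_cast ha)
    refine ⟨f + (g a - f a) • β, fun t ht => ?_⟩
    rcases Finset.mem_insert.1 ht with rfl | ht
    · have : β t = 1 := h1 (mem_singleton t)
      simp [this]
    · have : β t = 0 := h0 ht
      simp [this, hf t ht]

lemma dense_cont {T : Type*} [TopologicalSpace T] [NormalSpace T] [T1Space T] :
    DenseRange (fun f : C(T, ℝ) => (f : T → ℝ)) := by
  intro g
  rw [mem_closure_iff_nhds]
  intro U hU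
  obtain ⟨F, δ, hδ, hF⟩ := box_of_nhds (ι := (id : (T → ℝ) → (T → ℝ))) IsInducing.id hU
  obtain ⟨f, hf⟩ := interp F g
  refine ⟨f, hF f fun t ht => ?_, ⟨f, rfl⟩⟩
  simp only [id, hf t ht, sub_self, abs_zero]; exact hδ

instance sepInst (k : ℕ) : TopologicalSpace.SeparableSpace ((Fin k → unitInterval) → ℝ) :=
  (dense_cont (T := Fin k → unitInterval)).separableSpace
    (continuous_pi fun t => ContinuousEvalConst.continuous_eval_const t)

lemma dense_sc (k : ℕ) : DenseRange (Subtype.val : SCp k → ((Fin k → unitInterval) → ℝ)) := by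
  refine (dense_cont (T := Fin k → unitInterval)).mono ?_
  rintro _ ⟨f, rfl⟩
  exact ⟨⟨f, sepCont_of_cont f⟩, rfl⟩

/-- if the values at the points with coordinates in a dense set are continuous functions of a
parameter, then all the values are functions of Baire class `n` of the parameter -/
lemma BC_of_sep {Z : Type*} [TopologicalSpace Z] {n : ℕ} {D : Set unitInterval} (hD : Dense D)
    {H : Z → (Fin n → unitInterval) → ℝ} (hH : ∀ z, SepCont (H z))
    (hq : ∀ q : Fin n → unitInterval, (∀ i, q i ∈ D) → Continuous fun z => H z q)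
    (y : Fin n → unitInterval) : BC n (fun z => H z y) := by
  classical
  have key : ∀ s : Finset (Fin n), ∀ y : Fin n → unitInterval, (∀ i, i ∉ s → y i ∈ D) →
      BC s.card (fun z => H z y) := by
    intro s
    induction s using Finset.induction_on with
    | empty =>
      intro y hy
      exact hq y fun i => hy i (Finset.notMem_empty i)
    | insert i s hi ih =>
      intro y hy
      rw [Finset.card_insert_of_notMem hi]
      obtain ⟨d, hdD, hd⟩ := mem_closure_iff_seq_limit.1 (hD (y i))
      refine ⟨fun j z => H z (Function.update y i (d j)), fun j => ih _ ?_, fun z => ?_⟩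
      · intro l hl
        by_cases hli : l = i
        · subst hli; rw [Function.update_self]; exact hdD j
        · rw [Function.update_of_ne hli]
          exact hy l (by rw [Finset.mem_insert]; tauto)
      · have := ((hH z i y).tendsto (y i)).comp hd
        simpa [Function.comp_def] using this
  have := key Finset.univ y (fun i hi => absurd (Finset.mem_univ i) hi)
  simpa using this

/-- **Main theorem** -/
theorem no_embedding {m n : ℕ} (hnm : n < m) (Φ : SCp m → SCp n) : ¬ IsEmbedding Φ := by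
  classical
  intro hΦ
  obtain ⟨D, hDc, hDd⟩ := TopologicalSpace.exists_countable_dense unitInterval
  -- the countable set of coordinates
  have hfac : ∀ q : Fin n → unitInterval, ∃ A : Set (Fin m → unitInterval), A.Countable ∧
      ∀ f : SCp m, ∀ ε > 0, ∃ F : Finset (Fin m → unitInterval), (∀ t ∈ F, t ∈ A) ∧ ∃ δ > 0,
        ∀ f' : SCp m, (∀ t ∈ F, |f'.1 t - f.1 t| < δ) → |(Φ f').1 q - (Φ f).1 q| < ε := fun q =>
    factor (ι := (Subtype.val : SCp m → ((Fin m → unitInterval) → ℝ))) IsInducing.subtypeVal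
      (dense_sc m) (g := fun f => (Φ f).1 q)
      ((continuous_apply q).comp (continuous_subtype_val.comp hΦ.continuous))
  choose AA hAAc hAA using hfac
  have hQ : (univ.pi fun _ : Fin n => D).Countable := countable_univ_pi fun _ => hDc
  set A : Set (Fin m → unitInterval) := ⋃ q ∈ (univ.pi fun _ : Fin n => D), AA q with hA
  have hAc : A.Countable := hQ.biUnion fun q _ => hAAc q
  -- a generic point
  obtain ⟨t0, ht0⟩ : ∃ t0 : unitInterval, ∀ α ∈ A, ∀ i, α i ≠ t0 := by
    have hc : (⋃ i : Fin m, (fun α : Fin m → unitInterval => ((α i : unitInterval) : ℝ)) '' A).Countable :=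
      countable_iUnion fun i => hAc.image _
    obtain ⟨s, hs, hs'⟩ := (hc.dense_compl ℝ).inter_open_nonempty (Ioo 0 1) isOpen_Ioo ⟨1/2, by norm_num, by norm_num⟩
    refine ⟨⟨s, hs.1.le, hs.2.le⟩, fun α hα i h => hs' ?_⟩
    refine mem_iUnion.2 ⟨i, α, hα, ?_⟩
    simp only [h]
  set x : Fin m → unitInterval := fun _ => t0 with hx
  let zero : SCp m := ⟨fun _ => 0, fun _ _ => continuous_const⟩
  -- local information at 0
  have hU : {f : SCp m | |f.1 x| < 1} ∈ 𝓝 zero := by
    apply IsOpen.mem_nhds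
    · exact isOpen_lt ((continuous_apply x).comp continuous_subtype_val).abs continuous_const
    · show |(0 : ℝ)| < 1
      simp
  rw [hΦ.isInducing.nhds_eq_comap, mem_comap] at hU
  obtain ⟨V, hV, hVU⟩ := hU
  obtain ⟨K, ε, hε, hK⟩ := box_of_nhds (ι := (Subtype.val : SCp n → ((Fin n → unitInterval) → ℝ)))
    IsInducing.subtypeVal hV
  have hW : {f : SCp m | ∀ y ∈ K, |(Φ f).1 y - (Φ zero).1 y| < ε} ∈ 𝓝 zero := by
    have : ∀ᶠ f in 𝓝 zero, ∀ y ∈ K, |(Φ f).1 y - (Φ zero).1 y| < ε := by
      rw [Finset.eventually_all]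
      intro y _
      have hc : Continuous fun f : SCp m => |(Φ f).1 y - (Φ zero).1 y| :=
        (((continuous_apply y).comp (continuous_subtype_val.comp hΦ.continuous)).sub continuous_const).abs
      have := hc.tendsto zero
      simp only [sub_self, abs_zero] at this
      exact this.eventually (gt_mem_nhds hε)
    exact this
  obtain ⟨L, δ, hδ, hL⟩ := box_of_nhds (ι := (Subtype.val : SCp m → ((Fin m → unitInterval) → ℝ)))
    IsInducing.subtypeVal hW
  -- the Borel set and its tree
  obtain ⟨m', rfl⟩ : ∃ m', m = m' + 1 := ⟨m - 1, by omega⟩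
  obtain ⟨B, hB, hB'⟩ := exists_proper m'
  obtain ⟨ψ, hψ0, hψ1, hψ2⟩ := exists_tree (m' + 1) (BC_ind m' hB)
  -- the bump
  obtain ⟨β, hβ0, hβ1, -⟩ := exists_continuous_zero_one_of_isClosed
    ((L.erase x).finite_toSet.isClosed) (isClosed_singleton (x := x))
    (by rw [Set.disjoint_singleton_right]; simp)
  have hβx : β x = 1 := hβ1 (mem_singleton x)
  let a : BS → (Fin (m' + 1) → Option ℕ) → ℝ := fun z k => ψ (Multiset.sort (ms k)) z
  let G : BS → (Fin (m' + 1) → unitInterval) → ℝ := fun z y =>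
    EM (t0 : ℝ) (m' + 1) (a z) (fun i => (y i : ℝ))
  have hG : ∀ z, SepCont (fun y => β y * G z y) := by
    intro z i y
    refine (β.continuous.comp (continuous_const.update i continuous_id)).mul ?_
    have e : (fun t : unitInterval => G z (Function.update y i t)) = fun t : unitInterval =>
        EM (t0 : ℝ) (m' + 1) (a z) (Function.update (fun i => (y i : ℝ)) i (t : ℝ)) := by
      ext t
      show EM (t0 : ℝ) (m' + 1) (a z) (fun j => ((Function.update y i t) j : ℝ)) = _
      congr 1
      ext j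
      by_cases hj : j = i
      · subst hj; simp
      · rw [Function.update_of_ne hj, Function.update_of_ne hj]
    rw [e]
    exact (EM_sep (t0 : ℝ) (m' + 1) (sepA_tree hψ1 z) i _).comp continuous_subtype_val
  let θ : BS → SCp (m' + 1) := fun z => ⟨fun y => β y * G z y, hG z⟩
  have hθx : ∀ z, (θ z).1 x = if z ∈ B then 1 else 0 := by
    intro z
    show β x * EM (t0 : ℝ) (m' + 1) (a z) (fun i => (t0 : ℝ)) = _
    rw [hβx, one_mul, EM_diag]
    show ψ (Multiset.sort (ms fun _ : Fin (m' + 1) => (none : Option ℕ))) z = _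
    have : ms (fun _ : Fin (m' + 1) => (none : Option ℕ)) = 0 := by
      unfold ms
      induction (Finset.univ : Finset (Fin (m' + 1))).val using Multiset.induction_on with
      | empty => rfl
      | cons a s ih => rw [Multiset.filterMap_cons_none _ _ rfl, ih]
    rw [this, Multiset.sort_zero, hψ0]
  have hθL : ∀ z, ∀ t ∈ L, t ≠ x → (θ z).1 t = 0 := by
    intro z t ht htx
    show β t * G z t = 0
    have : β t = 0 := hβ0 (Finset.mem_coe.2 (Finset.mem_erase.2 ⟨htx, ht⟩))
    rw [this, zero_mul]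
  have hθA : ∀ α ∈ A, Continuous fun z => (θ z).1 α := by
    intro α hα
    show Continuous fun z => β α * G z α
    refine continuous_const.mul ?_
    rw [continuous_iff_continuousAt]
    intro z
    refine EM_tendsto' (t0 : ℝ) (m' + 1) _ (fun i h => ht0 α hα i (Subtype.ext h)) fun k hk => ?_
    exact (hψ2 _ (by rw [Multiset.length_sort]; exact card_ms k hk)).tendsto z
  -- the transported functions
  have hH : ∀ y, BC n (fun z => (Φ (θ z)).1 y) := by
    refine BC_of_sep hDd (fun z => (Φ (θ z)).2) ?_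
    intro q hqD
    rw [Metric.continuous_iff']
    intro z ε' hε'
    obtain ⟨F, hFA, δ', hδ', hF⟩ := hAA q (θ z) ε' hε'
    have : ∀ᶠ z' in 𝓝 z, ∀ t ∈ F, |(θ z').1 t - (θ z).1 t| < δ' := by
      rw [Finset.eventually_all]
      intro t ht
      have htA : t ∈ A := mem_biUnion (fun i _ => hqD i) (hFA t ht)
      have hc : Continuous fun z' => |(θ z').1 t - (θ z).1 t| := ((hθA t htA).sub continuous_const).abs
      have := hc.tendsto z
      simp only [sub_self, abs_zero] at this
      exact this.eventually (gt_mem_nhds hδ')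
    filter_upwards [this] with z' hz'
    rw [Real.dist_eq]
    exact hF _ hz'
  -- the contradiction
  apply hB'
  have e : Bᶜ = {z | ∀ y ∈ K, z ∈ {z | (Φ zero).1 y - ε < (Φ (θ z)).1 y} ∩
      {z | (Φ (θ z)).1 y < (Φ zero).1 y + ε}} := by
    ext z
    simp only [mem_compl_iff, mem_inter_iff, mem_ofPred_eq]
    constructor
    · intro hz y hy
      have h1 : θ z ∈ {f : SCp (m' + 1) | ∀ y ∈ K, |(Φ f).1 y - (Φ zero).1 y| < ε} := by
        apply hL
        intro t ht
        show |(θ z).1 t - 0| < δ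
        rw [sub_zero]
        by_cases htx : t = x
        · rw [htx, hθx, if_neg hz, abs_zero]; exact hδ
        · rw [hθL z t ht htx, abs_zero]; exact hδ
      have h2 := abs_lt.1 (h1 y hy)
      constructor <;> linarith [h2.1, h2.2]
    · intro h hz
      have h1 : Φ (θ z) ∈ V := by
        apply hK
        intro y hy
        have := h y hy
        rw [abs_lt]
        constructor <;> linarith [this.1, this.2]
      have h2 : |(θ z).1 x| < 1 := hVU h1
      rw [hθx, if_pos hz, abs_one] at h2
      exact lt_irrefl _ h2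
  rw [e]
  apply Sg_le (show n ≤ m' by omega)
  apply Sg_biInter
  intro y _
  exact Sg_inter n (BC_level n (hH y) _).1 (BC_level n (hH y) _).2

end Pool.Agent.V11214.Sep
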